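import Mathlib
import Pool.Agent.H5.Euler

/-!
Zero density for the quadratic twists `E_d : y² = x³ - d² x` (MP_553913_nt): definitions.
`c n` = coefficients of `y² = x³ - x`, `bd D n = jacobiSym D n * c n`.
-/

set_option autoImplicit false

open Complex Finset

namespace Pool.Agent.ZD

open Pool.Agent.H5 (c bd Lser)

/-- theta series of the quadratic twist by `D` at the complex point `z` -/
noncomputable def S (D : ℤ) (z : ℂ) : ℂ := ∑' n : ℕ, (bd D n : ℂ) * exp (-(2 * Real.pi * n * z))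

/-- theta series with the weight `n ^ (u - 1/2)` -/
noncomputable def T (D : ℤ) (u z : ℂ) : ℂ :=
  ∑' n : ℕ, (bd D n : ℂ) * (n : ℂ) ^ (u - 1 / 2) * exp (-(2 * Real.pi * n * z))

/-- the point `r e^{i(π/2 - a)}` -/
noncomputable def ray (a r : ℝ) : ℂ := r * exp (((Real.pi / 2 - a : ℝ) : ℂ) * I)

/-- `L` is the entire L-function of `y² = x³ - d² x` -/
def IsL (d : ℕ) (L : ℂ → ℂ) : Prop :=
  Differentiable ℂ L ∧ ∀ s : ℂ, 3 / 2 < s.re → L s = Lser d s

open Classical in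
/-- the entire L-function of `y² = x³ - d² x` (for squarefree `d`) -/
noncomputable def Lf (d : ℕ) : ℂ → ℂ := if h : ∃ L, IsL d L then h.choose else 0

/-- weighted sup norm of `L(1 + η + it, E_d)` -/
noncomputable def MM (a η : ℝ) (d : ℕ) : ℝ :=
  ⨆ t : ℝ, ‖Lf d (1 + η + t * I)‖ * Real.exp (-(a * |t|))

/-- quadratic Gauss sum `∑_{x mod m} (x/m) e(kx/m)` -/
noncomputable def tau (k : ℤ) (m : ℕ) : ℂ :=
  ∑ x ∈ range m, (jacobiSym x m : ℂ) * exp (2 * Real.pi * I * (k * x / m))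

/-- local values of the Dirichlet inverse of `c` -/
noncomputable def nuF (p e : ℕ) : ℤ :=
  if e = 0 then 1 else if e = 1 then -c p else if e = 2 then (if p = 2 then 0 else (p : ℤ)) else 0

/-- Dirichlet inverse of `c` -/
noncomputable def nu (n : ℕ) : ℤ := n.factorization.prod nuF

/-- `g_k(x,y) = c(x) c(y) τ_k(xy) / √(xy)` -/
noncomputable def gk (k : ℤ) (x y : ℕ) : ℂ :=
  ((c x * c y : ℤ) : ℂ) * (tau k (x * y) / (Real.sqrt (x * y : ℕ) : ℂ))

/-- the convolution kernel: `g_k = eps_k * (bd q ⊗ bd q)`, `q` = squarefree part of `|k|` -/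
noncomputable def eps (k : ℤ) (q : ℕ) (b₁ b₂ : ℕ) : ℂ :=
  ∑ x ∈ b₁.divisors, ∑ y ∈ b₂.divisors,
    ((jacobiSym q (b₁ / x) * nu (b₁ / x) : ℤ) : ℂ) * ((jacobiSym q (b₂ / y) * nu (b₂ / y) : ℤ) : ℂ) *
      gk k x y

end Pool.Agent.ZD
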