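import Mathlib
import Pool.Agent.ZD.Defs
import Pool.Agent.H6.MeanSqC
import Pool.Agent.H6.Transfer

/-!
Module F, part 1: the L-function, lower bounds of the Gamma function, basic ray estimates.
-/

set_option autoImplicit false

open Complex MeasureTheory Set Filter Topology

namespace Pool.Agent.ZD

open Pool.Agent.H5 (c bd Lser)
open Pool.Agent.H6

/-! ### The Gamma function -/

lemma norm_Gamma_one_ge (t : ℝ) : Real.exp (-(Real.pi / 2 * |t|)) ≤ ‖Complex.Gamma (1 + t * I)‖ := by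
  wlog ht : 0 < t generalizing t
  · rcases eq_or_ne t 0 with rfl | h0
    · simp
    · have h1 := this (-t) (by
        have : t < 0 := lt_of_le_of_ne (not_lt.mp ht) h0
        linarith)
      rw [abs_neg] at h1
      refine h1.trans (le_of_eq ?_)
      have e : (1 : ℂ) + ((-t : ℝ) : ℂ) * I = (starRingEnd ℂ) (1 + t * I) := by
        simp
      rw [e, Complex.Gamma_conj, Complex.norm_conj]
  rw [abs_of_pos ht]
  have hpi := Real.pi_pos
  have e1 : (1 : ℂ) + t * I = t * I + 1 := by ring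
  have hxI : (t : ℂ) * I ≠ 0 := by
    apply mul_ne_zero _ Complex.I_ne_zero
    exact_mod_cast ht.ne'
  have h1 : Complex.Gamma (t * I + 1) = (t * I) * Complex.Gamma (t * I) :=
    Complex.Gamma_add_one _ hxI
  have h2 := Complex.Gamma_mul_Gamma_one_sub ((t : ℂ) * I)
  have h3 : (1 : ℂ) - t * I = (starRingEnd ℂ) (t * I + 1) := by
    simp; ring
  rw [h3, Complex.Gamma_conj] at h2
  have h4 : ((‖Complex.Gamma (1 + t * I)‖ ^ 2 : ℝ) : ℂ) =
      (t * I) * (Real.pi / Complex.sin (Real.pi * (t * I))) := by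
    rw [← h2, ← mul_assoc, ← h1, e1, Complex.mul_conj, Complex.normSq_eq_norm_sq]
  have h5 : Complex.sin (Real.pi * (t * I)) = Complex.sinh (Real.pi * t) * I := by
    rw [← mul_assoc, Complex.sin_mul_I]
  have hs : 0 < Real.sinh (Real.pi * t) := Real.sinh_pos_iff.mpr (by positivity)
  have h6 : ‖Complex.Gamma (1 + t * I)‖ ^ 2 = Real.pi * t / Real.sinh (Real.pi * t) := by
    have h7 : ((‖Complex.Gamma (1 + t * I)‖ ^ 2 : ℝ) : ℂ) =
        ((Real.pi * t / Real.sinh (Real.pi * t) : ℝ) : ℂ) := by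
      rw [h4, h5]
      push_cast
      have hs' : Complex.sinh (Real.pi * t) ≠ 0 := by
        have : Complex.sinh (Real.pi * t) = ((Real.sinh (Real.pi * t) : ℝ) : ℂ) := by
          push_cast; rfl
        rw [this]
        exact_mod_cast hs.ne'
      field_simp
    exact_mod_cast h7
  apply le_of_sq_le_sq _ (norm_nonneg _)
  rw [h6, le_div_iff₀ hs, ← Real.exp_nat_mul]
  set y := Real.pi * t with hy
  have hy0 : 0 < y := by positivity
  have e2 : ((2:ℕ) : ℝ) * -(Real.pi / 2 * t) = -y := by rw [hy]; push_cast; ring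
  rw [e2, Real.sinh_eq]
  have h7 : Real.exp (-y) * ((Real.exp y - Real.exp (-y)) / 2) = (1 - Real.exp (-(2 * y))) / 2 := by
    have e3 : Real.exp (-y) * Real.exp y = 1 := by rw [← Real.exp_add]; simp
    have e4 : Real.exp (-y) * Real.exp (-y) = Real.exp (-(2 * y)) := by
      rw [← Real.exp_add]; congr 1; ring
    linear_combination e3 / 2 - e4 / 2
  rw [h7]
  have h8 := Real.add_one_le_exp (-(2 * y))
  linarith

lemma norm_Gamma_ge {η : ℝ} (hη : 0 < η) (t : ℝ) :
    Real.Gamma (1 + η) * Real.exp (-(Real.pi / 2 * |t|)) ≤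
      ‖Complex.Gamma (1 + η + t * I)‖ := by
  have h1 := Complex.Gamma_mul_Gamma_eq_betaIntegral (s := 1 + t * I) (t := (η : ℂ))
    (by simp) (by simpa using hη)
  have h2 : ‖Complex.betaIntegral (1 + t * I) (η : ℂ)‖ ≤ 1 / η := by
    unfold Complex.betaIntegral
    have h3 : ∫ x in (0:ℝ)..1, (1 - x) ^ (η - 1) = 1 / η := by
      rw [intervalIntegral.integral_comp_sub_left (fun x => x ^ (η - 1)) 1, sub_self, sub_zero,
        integral_rpow (Or.inl (by linarith)), sub_add_cancel, Real.one_rpow,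
        Real.zero_rpow hη.ne']
      ring
    rw [← h3]
    refine (intervalIntegral.norm_integral_le_integral_norm zero_le_one).trans (le_of_eq ?_)
    apply intervalIntegral.integral_congr_ae
    have hne : ∀ᵐ x : ℝ, x ≠ 1 := by
      simp [ae_iff, measure_singleton]
    filter_upwards [hne] with x hx1 hx
    rw [uIoc_of_le zero_le_one] at hx
    have hx0 : 0 < x := hx.1
    have hx2 : 0 < 1 - x := by
      have := lt_of_le_of_ne hx.2 hx1
      linarith
    rw [norm_mul, Complex.norm_cpow_eq_rpow_re_of_pos hx0]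
    have e1 : (1 - (x : ℂ)) = ((1 - x : ℝ) : ℂ) := by push_cast; ring
    rw [e1, Complex.norm_cpow_eq_rpow_re_of_pos hx2]
    simp
  have h4 : ‖Complex.Gamma (1 + t * I)‖ * ‖Complex.Gamma (η : ℂ)‖ ≤
      ‖Complex.Gamma (1 + η + t * I)‖ * (1 / η) := by
    rw [← norm_mul, h1, norm_mul]
    have e : (1 : ℂ) + t * I + η = 1 + η + t * I := by ring
    rw [e]
    gcongr
  have h5 : ‖Complex.Gamma (η : ℂ)‖ = Real.Gamma η := by
    rw [Complex.Gamma_ofReal, Complex.norm_real, Real.norm_of_nonneg (Real.Gamma_pos_of_pos hη).le]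
  have h6 : Real.Gamma (1 + η) = η * Real.Gamma η := by
    rw [add_comm, Real.Gamma_add_one hη.ne']
  rw [h5, mul_one_div, le_div_iff₀ hη] at h4
  have h7 := norm_Gamma_one_ge t
  have h8 := Real.Gamma_pos_of_pos hη
  rw [h6]
  calc η * Real.Gamma η * Real.exp (-(Real.pi / 2 * |t|))
      ≤ η * Real.Gamma η * ‖Complex.Gamma (1 + t * I)‖ := by gcongr
    _ = ‖Complex.Gamma (1 + t * I)‖ * Real.Gamma η * η := by ring
    _ ≤ _ := h4

/-- the numerical constant `40` -/
lemma gamma_const {η : ℝ} (hη : 0 < η) (hη1 : η ≤ 1 / 2) :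
    2 * (2 * Real.pi) ^ (1 + η) ≤ 40 * Real.Gamma (1 + η) := by
  -- log-convexity at 4, 5, 5 + η
  have h1 : Real.Gamma 5 ^ (1 + η) ≤ Real.Gamma 4 ^ η * Real.Gamma (5 + η) := by
    have h2 := Real.Gamma_mul_add_mul_le_rpow_Gamma_mul_rpow_Gamma (s := 4) (t := 5 + η)
      (a := η / (1 + η)) (b := 1 / (1 + η)) (by norm_num) (by linarith) (by positivity)
      (by positivity) (by field_simp; ring)
    have e1 : η / (1 + η) * 4 + 1 / (1 + η) * (5 + η) = 5 := by field_simp; ring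
    rw [e1] at h2
    have g5 : 0 < Real.Gamma (5 + η) := Real.Gamma_pos_of_pos (by linarith)
    have g4 : 0 < Real.Gamma 4 := Real.Gamma_pos_of_pos (by norm_num)
    have g55 : 0 < Real.Gamma 5 := Real.Gamma_pos_of_pos (by norm_num)
    have h3 := Real.rpow_le_rpow g55.le h2 (by linarith : 0 ≤ 1 + η)
    refine h3.trans (le_of_eq ?_)
    rw [Real.mul_rpow (by positivity) (by positivity), ← Real.rpow_mul g4.le,
      ← Real.rpow_mul g5.le]
    have e2 : η / (1 + η) * (1 + η) = η := by field_simp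
    have e3 : 1 / (1 + η) * (1 + η) = 1 := by field_simp
    rw [e2, e3, Real.rpow_one]
  have hG4 : Real.Gamma 4 = 6 := by
    have e : (4:ℝ) = ((3:ℕ) : ℝ) + 1 := by norm_num
    rw [e, Real.Gamma_nat_eq_factorial]
    norm_num [Nat.factorial]
  have hG5 : Real.Gamma 5 = 24 := by
    have e : (5:ℝ) = ((4:ℕ) : ℝ) + 1 := by norm_num
    rw [e, Real.Gamma_nat_eq_factorial]
    norm_num [Nat.factorial]
  rw [hG4, hG5] at h1
  have h2 : (24:ℝ) ^ (1 + η) = 24 * (4 ^ η * 6 ^ η) := by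
    rw [← Real.mul_rpow (by norm_num) (by norm_num), Real.rpow_add (by norm_num), Real.rpow_one]
    norm_num
  rw [h2] at h1
  have h6 : (0:ℝ) < 6 ^ η := by positivity
  have h3 : 24 * 4 ^ η ≤ Real.Gamma (5 + η) := by
    have : 6 ^ η * (24 * 4 ^ η) ≤ 6 ^ η * Real.Gamma (5 + η) := by
      calc (6:ℝ) ^ η * (24 * 4 ^ η) = 24 * (4 ^ η * 6 ^ η) := by ring
        _ ≤ _ := h1
    exact le_of_mul_le_mul_left this h6
  have h4 : Real.Gamma (5 + η) = (4 + η) * ((3 + η) * ((2 + η) * ((1 + η) * Real.Gamma (1 + η)))) := by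
    have e1 : Real.Gamma (5 + η) = (4 + η) * Real.Gamma (4 + η) := by
      rw [← Real.Gamma_add_one (by linarith)]; congr 1; ring
    have e2 : Real.Gamma (4 + η) = (3 + η) * Real.Gamma (3 + η) := by
      rw [← Real.Gamma_add_one (by linarith)]; congr 1; ring
    have e3 : Real.Gamma (3 + η) = (2 + η) * Real.Gamma (2 + η) := by
      rw [← Real.Gamma_add_one (by linarith)]; congr 1; ring
    have e4 : Real.Gamma (2 + η) = (1 + η) * Real.Gamma (1 + η) := by
      rw [← Real.Gamma_add_one (by linarith)]; congr 1; ring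
    rw [e1, e2, e3, e4]
  set G := Real.Gamma (1 + η) with hG
  have hG0 : 0 < G := Real.Gamma_pos_of_pos (by linarith)
  have h5 : (4 + η) * ((3 + η) * ((2 + η) * ((1 + η) * G))) ≤ (59.1:ℝ) * G := by
    have : (4 + η) * (3 + η) * ((2 + η) * (1 + η)) ≤ 59.1 := by
      have a1 : (4 + η) * (3 + η) ≤ 15.75 := by nlinarith
      have a2 : (2 + η) * (1 + η) ≤ 3.75 := by nlinarith
      have a3 : 0 ≤ (2 + η) * (1 + η) := by positivity
      calc (4 + η) * (3 + η) * ((2 + η) * (1 + η)) ≤ 15.75 * 3.75 := by gcongr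
        _ ≤ _ := by norm_num
    calc (4 + η) * ((3 + η) * ((2 + η) * ((1 + η) * G))) =
        ((4 + η) * (3 + η) * ((2 + η) * (1 + η))) * G := by ring
      _ ≤ _ := by gcongr
  have h7 : 24 * 4 ^ η ≤ 59.1 * G := by rw [h4] at h3; linarith
  -- (2π)^η ≤ 4^η (π/2)^{1/2}
  have hpi := Real.pi_gt_d2
  have hpi2 := Real.pi_lt_d2
  have h8 : (2 * Real.pi) ^ η ≤ 4 ^ η * 1.26 := by
    have e1 : (2 * Real.pi) ^ η = 4 ^ η * (Real.pi / 2) ^ η := by
      rw [← Real.mul_rpow (by norm_num) (by positivity)]; congr 1; ring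
    rw [e1]
    gcongr
    calc (Real.pi / 2) ^ η ≤ (Real.pi / 2) ^ (1 / 2 : ℝ) :=
          Real.rpow_le_rpow_of_exponent_le (by linarith) hη1
      _ = √(Real.pi / 2) := (Real.sqrt_eq_rpow _).symm
      _ ≤ 1.26 := by
          apply Real.sqrt_le_iff.mpr
          constructor
          · norm_num
          · nlinarith
  have e9 : (2 * Real.pi) ^ (1 + η) = 2 * Real.pi * (2 * Real.pi) ^ η := by
    rw [Real.rpow_add (by positivity), Real.rpow_one]
  rw [e9]
  have h10 : (0:ℝ) < 4 ^ η := by positivity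
  calc 2 * (2 * Real.pi * (2 * Real.pi) ^ η) ≤ 2 * (2 * 3.15 * (4 ^ η * 1.26)) := by gcongr
    _ = (15.876:ℝ) * 4 ^ η := by ring
    _ ≤ 16.24 * 4 ^ η := by gcongr; norm_num
    _ ≤ 40 * G := by linarith

/-! ### The L-function -/

lemma exists_EdData {d : ℕ} (hd : Squarefree d) : ∃ (Λ : ℂ → ℂ),
    EdData d (√(H5.Q d) / Real.pi) Λ := by
  have hd0 : 0 < d := Nat.pos_of_ne_zero hd.ne_zero
  obtain ⟨w, hw, hfe⟩ := H5.Th_fe d hd
  have hQ0 : (0:ℝ) < ((H5.Q d : ℕ) : ℝ) := by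
    have : 0 < H5.Q d := by
      unfold H5.Q
      split_ifs <;> positivity
    exact_mod_cast this
  obtain ⟨Λ, D, hΛ⟩ := H6.exists_FEData (d : ℤ) hQ0 hw hfe
  exact ⟨Λ, ⟨H6.exists_ThData hd, D.diff, hΛ⟩⟩

lemma isL_divGamma {d : ℕ} {M : ℝ} {Λ : ℂ → ℂ} (E : EdData d M Λ) : IsL d (divGamma M Λ) :=
  ⟨differentiable_divGamma E.Mpos E.diff, fun s hs =>
    divGamma_eq E.Mpos (by linarith) (E.eqL s hs)⟩

theorem exists_L {d : ℕ} (hd : Squarefree d) : ∃ L, IsL d L := by
  obtain ⟨Λ, E⟩ := exists_EdData hd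
  exact ⟨_, isL_divGamma E⟩

theorem Lf_spec {d : ℕ} (hd : Squarefree d) : IsL d (Lf d) := by
  unfold Lf
  rw [dif_pos (exists_L hd)]
  exact (exists_L hd).choose_spec

lemma isL_unique {d : ℕ} {L₁ L₂ : ℂ → ℂ} (h1 : IsL d L₁) (h2 : IsL d L₂) : L₁ = L₂ := by
  apply eq_of_eq_halfplane h1.1 h2.1 (a := 3 / 2)
  intro s hs
  rw [h1.2 s hs, h2.2 s hs]

lemma Lf_eq {d : ℕ} (hd : Squarefree d) {M : ℝ} {Λ : ℂ → ℂ} (E : EdData d M Λ) {s : ℂ}
    (hs : 0 < s.re) : (M : ℂ) ^ s * Complex.Gamma s * Lf d s = Λ s := by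
  rw [isL_unique (Lf_spec hd) (isL_divGamma E)]
  exact mul_divGamma E.Mpos Λ (Complex.Gamma_ne_zero_of_re_pos hs)

/-! ### The theta series -/

lemma S_eq_Fs (D : ℤ) (z : ℂ) : S D z = Fs (bR D) (2 * Real.pi * z) := by
  unfold S Fs bR
  congr 1
  funext n
  push_cast
  congr 2
  ring

theorem norm_S_le : ∃ C : ℝ, ∀ (D : ℤ) (z : ℂ), 0 < z.re →
    ‖S D z‖ ≤ C * (1 / z.re ^ 2) * Real.exp (-z.re) := by
  obtain ⟨C, hC, h⟩ := coef_bound (ε := 1 / 2) (by norm_num)
  refine ⟨16 * C, ?_⟩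
  intro D z hz
  set x := z.re with hx
  have hpi := Real.pi_gt_three
  set y : ℝ := 2 * Real.pi * x with hy
  have hy0 : 0 < y := by positivity
  set r : ℝ := Real.exp (-y) with hr
  have hr0 : 0 < r := Real.exp_pos _
  have hr1 : r < 1 := by rw [hr, Real.exp_lt_one_iff]; linarith
  have hbd : ∀ n : ℕ, |(bd D n : ℝ)| ≤ C * n := by
    intro n
    rcases Nat.eq_zero_or_pos n with rfl | hn
    · simp [H5.bd_zero]
    · have := (h D n hn.ne').1
      norm_num at this
      exact this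
  have hnorm : ∀ n : ℕ, ‖(bd D n : ℂ) * exp (-(2 * Real.pi * n * z))‖ ≤ C * ((n : ℝ) * r ^ n) := by
    intro n
    rw [norm_mul, Complex.norm_exp]
    have e1 : (-(2 * Real.pi * n * z)).re = n * -y := by
      have : (2 * (Real.pi : ℂ) * n * z) = ((2 * Real.pi * n : ℝ) : ℂ) * z := by push_cast; ring
      rw [Complex.neg_re, this, Complex.re_ofReal_mul, hy, hx]
      ring
    rw [e1, Real.exp_nat_mul, ← hr]
    have e2 : ‖(bd D n : ℂ)‖ = |(bd D n : ℝ)| := by
      rw [Complex.norm_intCast]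
    rw [e2]
    calc |(bd D n : ℝ)| * r ^ n ≤ (C * n) * r ^ n := by
          gcongr
          exact hbd n
      _ = _ := by ring
  have hgeo := hasSum_coe_mul_geometric_of_norm_lt_one (𝕜 := ℝ) (r := r)
    (by rw [Real.norm_of_nonneg hr0.le]; exact hr1)
  have hsum : Summable (fun n : ℕ => C * ((n : ℝ) * r ^ n)) := hgeo.summable.mul_left C
  have hs1 : Summable (fun n : ℕ => ‖(bd D n : ℂ) * exp (-(2 * Real.pi * n * z))‖) :=
    Summable.of_nonneg_of_le (fun n => norm_nonneg _) hnorm hsum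
  have h1 : ‖S D z‖ ≤ C * (r / (1 - r) ^ 2) := by
    unfold S
    refine (norm_tsum_le_tsum_norm hs1).trans ?_
    refine (hs1.tsum_le_tsum hnorm hsum).trans (le_of_eq ?_)
    rw [tsum_mul_left, hgeo.tsum_eq]
  refine h1.trans ?_
  have h2 : y / (1 + y) ≤ 1 - r := by
    have h3 : r ≤ 1 / (1 + y) := by
      rw [hr, Real.exp_neg, ← one_div]
      apply one_div_le_one_div_of_le (by linarith)
      have := Real.add_one_le_exp y
      linarith
    have e : y / (1 + y) = 1 - 1 / (1 + y) := by field_simp; ring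
    rw [e]; linarith
  have h3 : r / (1 - r) ^ 2 ≤ r * (1 + y) ^ 2 / y ^ 2 := by
    have h4 : 0 < y / (1 + y) := by positivity
    calc r / (1 - r) ^ 2 ≤ r / (y / (1 + y)) ^ 2 := by gcongr
      _ = _ := by field_simp
  have h4 : r * (1 + y) ^ 2 ≤ 16 * Real.exp (-x) := by
    have h5 : 1 + y ≤ 4 * Real.exp (y / 4) := by
      have := Real.add_one_le_exp (y / 4)
      linarith
    calc r * (1 + y) ^ 2 ≤ r * (4 * Real.exp (y / 4)) ^ 2 := by gcongr
      _ = 16 * (Real.exp (-y) * Real.exp (y / 2)) := by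
          rw [mul_pow, ← Real.exp_nat_mul]
          have : ((2:ℕ):ℝ) * (y / 4) = y / 2 := by push_cast; ring
          rw [this]; ring
      _ = 16 * Real.exp (-y / 2) := by rw [← Real.exp_add]; congr 2; ring
      _ ≤ 16 * Real.exp (-x) := by
          gcongr
          rw [hy]; nlinarith
  have h5 : 1 / y ^ 2 ≤ 1 / x ^ 2 := by
    apply one_div_le_one_div_of_le (by positivity)
    have : x ≤ y := by rw [hy]; nlinarith
    gcongr
  calc C * (r / (1 - r) ^ 2) ≤ C * (r * (1 + y) ^ 2 / y ^ 2) := by gcongr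
    _ = C * (r * (1 + y) ^ 2 * (1 / y ^ 2)) := by ring
    _ ≤ C * (16 * Real.exp (-x) * (1 / x ^ 2)) := by gcongr
    _ = _ := by ring

end Pool.Agent.ZD
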