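import Mathlib
import Pool.Agent.ZD.F1

/-!
Module F: rotated theta integrals.
-/

set_option autoImplicit false

open Complex MeasureTheory Set Filter Topology

namespace Pool.Agent.ZD

open Pool.Agent.H5 (c bd Lser)
open Pool.Agent.H6

/-! ### The bound by the ray integral -/

section rays

variable {d : ℕ} {M : ℝ} {Λ : ℂ → ℂ}

lemma ray_int (E : EdData d M Λ) {z : ℂ} (hz : 0 < z.re) (hn : ‖z‖ * M = 1) (κ : ℝ) :
    IntegrableOn (fun r : ℝ => ‖Fs (bR (d : ℤ)) (z * r)‖ * r ^ κ) (Ioi 0) := by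
  obtain ⟨w, D⟩ := E.th
  have h1 := Integrable.norm (D.mellinConv hz hn ((κ + 1 : ℝ) : ℂ))
  refine h1.congr ?_
  filter_upwards [ae_restrict_mem measurableSet_Ioi] with r hr
  have hr0 : (0:ℝ) < r := hr
  rw [norm_smul, Complex.norm_cpow_eq_rpow_re_of_pos hr0, mul_comm]
  congr 2
  simp

lemma phase_conj {T : ℝ} (hM : 0 < M) (hT : 1 ≤ T) (s : ℂ) :
    ‖((M : ℂ) * (starRingEnd ℂ) (zT M T)) ^ (-s)‖ = Real.exp (-((Real.pi / 2 - 1 / T) * s.im)) := by
  have hz := zT_re_pos hM hT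
  have e1 : (M : ℂ) * (starRingEnd ℂ) (zT M T) = (starRingEnd ℂ) ((M : ℂ) * zT M T) := by
    rw [map_mul, Complex.conj_ofReal]
  have harg : ((M : ℂ) * zT M T).arg ≠ Real.pi := by
    intro h
    have := (Complex.arg_eq_pi_iff.mp h).1
    rw [Complex.re_ofReal_mul] at this
    have : 0 < M * (zT M T).re := by positivity
    linarith
  rw [e1, Complex.conj_cpow _ _ harg, Complex.norm_conj, map_neg, phase_norm hM hT]
  congr 1
  rw [Complex.conj_im]
  ring

/-- both rays -/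
lemma two_rays (E : EdData d M Λ) {T : ℝ} (hT : 1 ≤ T) (s : ℂ) :
    ‖Λ s‖ * Real.exp ((Real.pi / 2 - 1 / T) * |s.im|) ≤
      ∫ r in Ioi (0:ℝ), ‖Fs (bR (d : ℤ)) (zT M T * r)‖ * r ^ (s.re - 1) := by
  have hM := E.Mpos
  have hz := zT_re_pos hM hT
  have hn := zT_norm (M := M) (T := T) hM
  have hs : s = ((s.re : ℝ) : ℂ) + (s.im : ℂ) * I := (Complex.re_add_im s).symm
  rcases le_total 0 s.im with h | h
  · rw [abs_of_nonneg h]
    have h1 := E.mellin_eq hz hn s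
    have h2 := norm_mellin_le (h := fun r : ℝ => Fs (bR (d : ℤ)) (zT M T * r)) (σ := s.re) s.im
    rw [← hs, h1, norm_mul, phase_norm hM hT, mul_comm] at h2
    exact h2
  · rw [abs_of_nonpos h]
    set z' := (starRingEnd ℂ) (zT M T) with hz'
    have hz'r : 0 < z'.re := by rw [hz', Complex.conj_re]; exact hz
    have hn' : ‖z'‖ * M = 1 := by rw [hz', Complex.norm_conj]; exact hn
    have h1 := E.mellin_eq hz'r hn' s
    have h2 := norm_mellin_le (h := fun r : ℝ => Fs (bR (d : ℤ)) (z' * r)) (σ := s.re) s.im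
    rw [← hs, h1, norm_mul, hz', phase_conj hM hT, mul_comm] at h2
    have e : Real.exp (-((Real.pi / 2 - 1 / T) * s.im)) =
        Real.exp ((Real.pi / 2 - 1 / T) * -s.im) := by congr 1; ring
    rw [e] at h2
    refine h2.trans (le_of_eq ?_)
    apply setIntegral_congr_fun measurableSet_Ioi
    intro r _
    simp only
    have e2 : (starRingEnd ℂ) (zT M T) * (r : ℂ) = (starRingEnd ℂ) (zT M T * r) := by
      rw [map_mul, Complex.conj_ofReal]
    rw [e2, Fs_conj, Complex.norm_conj]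

/-- folding with the functional equation -/
lemma fold_ray (E : EdData d M Λ) {z : ℂ} (hz : 0 < z.re) (hn : ‖z‖ * M = 1) {κ : ℝ}
    (hκ : 0 ≤ κ) : ∫ r in Ioi (0:ℝ), ‖Fs (bR (d : ℤ)) (z * r)‖ * r ^ κ ≤
      2 * ∫ r in Ioi (1:ℝ), ‖Fs (bR (d : ℤ)) (z * r)‖ * r ^ κ := by
  obtain ⟨w, D⟩ := E.th
  set f : ℝ → ℂ := fun r => Fs (bR (d : ℤ)) (z * r) with hf
  have hint := ray_int E hz hn κ
  have hint' := ray_int E hz hn (-κ)
  set g : ℝ → ℝ := (Ioi (1:ℝ)).indicator (fun r : ℝ => ‖f r‖ * r ^ (-κ)) with hgdef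
  have h2 := integral_comp_rpow_Ioi g (p := -1) (by norm_num)
  have hpt : ∀ r ∈ Ioi (0:ℝ), (|(-1:ℝ)| * r ^ ((-1:ℝ) - 1)) • g (r ^ (-1:ℝ)) =
      (Iio (1:ℝ)).indicator (fun r => ‖f r‖ * r ^ κ) r := by
    intro r hr
    have hr0 : (0:ℝ) < r := hr
    have e1 : r ^ (-1:ℝ) = r⁻¹ := Real.rpow_neg_one r
    rw [e1, hgdef]
    by_cases h : r < 1
    · have hinv : 1 < r⁻¹ := (one_lt_inv₀ hr0).mpr h
      rw [indicator_of_mem (show r⁻¹ ∈ Ioi (1:ℝ) from hinv),
        indicator_of_mem (show r ∈ Iio (1:ℝ) from h)]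
      have e2 := D.norm_ray_inv hz hn hr0
      simp only [hf]
      rw [e2]
      simp only [abs_neg, abs_one, one_mul, smul_eq_mul]
      rw [Real.inv_rpow hr0.le, ← Real.rpow_neg hr0.le, neg_neg]
      have e3 : (r ^ 2)⁻¹ = r ^ ((-1:ℝ) - 1) := by
        have : ((-1:ℝ) - 1) = -(2:ℝ) := by norm_num
        rw [this, Real.rpow_neg hr0.le]
        congr 1
        exact (Real.rpow_natCast r 2).symm
      rw [e3]
      ring
    · have hinv : ¬ 1 < r⁻¹ := by
        rw [one_lt_inv₀ hr0]; exact h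
      rw [indicator_of_notMem (show r⁻¹ ∉ Ioi (1:ℝ) from hinv),
        indicator_of_notMem (show r ∉ Iio (1:ℝ) from h), smul_zero]
  have h4 : ∫ r in Ioi (0:ℝ), (Iio (1:ℝ)).indicator (fun r => ‖f r‖ * r ^ κ) r =
      ∫ r in Ioi (1:ℝ), ‖f r‖ * r ^ (-κ) := by
    rw [← setIntegral_congr_fun measurableSet_Ioi hpt, h2, hgdef,
      setIntegral_indicator measurableSet_Ioi]
    congr 2
    rw [Ioi_inter_Ioi]; simp
  have h6 : ∫ r in Ioo (0:ℝ) 1, ‖f r‖ * r ^ κ = ∫ r in Ioi (1:ℝ), ‖f r‖ * r ^ (-κ) := by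
    rw [← h4, setIntegral_indicator measurableSet_Iio]
    congr 2
  have hunion : Ioi (0:ℝ) = Ioc 0 1 ∪ Ioi 1 := (Ioc_union_Ioi_eq_Ioi zero_le_one).symm
  have hdisj : Disjoint (Ioc (0:ℝ) 1) (Ioi 1) := by
    rw [Set.disjoint_left]
    intro x hx hx'
    exact absurd hx.2 (not_le.mpr hx')
  rw [hunion, setIntegral_union hdisj measurableSet_Ioi (hint.mono_set Ioc_subset_Ioi_self)
    (hint.mono_set (Ioi_subset_Ioi zero_le_one)), integral_Ioc_eq_integral_Ioo, h6]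
  have h8 : ∫ r in Ioi (1:ℝ), ‖f r‖ * r ^ (-κ) ≤ ∫ r in Ioi (1:ℝ), ‖f r‖ * r ^ κ := by
    apply setIntegral_mono_on (hint'.mono_set (Ioi_subset_Ioi zero_le_one))
      (hint.mono_set (Ioi_subset_Ioi zero_le_one)) measurableSet_Ioi
    intro r hr
    have hr1 : (1:ℝ) ≤ r := le_of_lt hr
    have : r ^ (-κ) ≤ r ^ κ := Real.rpow_le_rpow_of_exponent_le hr1 (by linarith)
    gcongr
  linarith

end rays

lemma rpow_le_add {x a b c : ℝ} (hx : 0 < x) (hab : a ≤ b) (hbc : b ≤ c) :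
    x ^ b ≤ x ^ a + x ^ c := by
  have ha : 0 < x ^ a := Real.rpow_pos_of_pos hx _
  have hc : 0 < x ^ c := Real.rpow_pos_of_pos hx _
  rcases le_total 1 x with h | h
  · have := Real.rpow_le_rpow_of_exponent_le h hbc
    linarith
  · have := Real.rpow_le_rpow_of_exponent_ge hx h hab
    linarith

theorem growth {d : ℕ} (hd : Squarefree d) {a : ℝ} (ha : 0 < a) {σ₁ : ℝ} (h1 : 0 < σ₁) (σ₂ : ℝ) :
    ∃ K, ∀ s : ℂ, σ₁ ≤ s.re → s.re ≤ σ₂ → ‖Lf d s‖ ≤ K * Real.exp (a * |s.im|) := by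
  obtain ⟨Λ, E⟩ := exists_EdData hd
  set M : ℝ := √(H5.Q d) / Real.pi with hMdef
  have hM := E.Mpos
  rcases lt_or_ge σ₂ σ₁ with h12 | h12
  · exact ⟨0, fun s hs1 hs2 => absurd (hs1.trans hs2) (not_le.mpr h12)⟩
  set a' : ℝ := min (a / 2) 1 with ha'
  have ha'0 : 0 < a' := lt_min (by positivity) one_pos
  have ha'1 : a' ≤ 1 := min_le_right _ _
  have ha'2 : a' ≤ a / 2 := min_le_left _ _
  set T : ℝ := 1 / a' with hT
  have hT1 : 1 ≤ T := by rw [hT, le_div_iff₀ ha'0]; linarith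
  have hTa : 1 / T = a' := by rw [hT, one_div_one_div]
  have hz := zT_re_pos hM hT1
  have hn := zT_norm (M := M) (T := T) hM
  -- a lower bound for Gamma
  obtain ⟨x0, hx0, hmin⟩ := (isCompact_Icc (a := 1 + σ₁) (b := 1 + σ₂)).exists_isMinOn
    ⟨1 + σ₁, le_refl _, by linarith⟩ (f := Real.Gamma) (by
      intro x hx
      apply ContinuousAt.continuousWithinAt
      apply (Real.differentiableAt_Gamma _).continuousAt
      intro m hm
      have := hx.1
      have h2 : (0:ℝ) ≤ m := Nat.cast_nonneg m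
      linarith)
  have hg0 : 0 < Real.Gamma x0 := Real.Gamma_pos_of_pos (by linarith [hx0.1])
  set g0 := Real.Gamma x0 with hg0def
  set I1 : ℝ := ∫ r in Ioi (0:ℝ), (‖Fs (bR (d : ℤ)) (zT M T * r)‖ * r ^ (σ₁ - 1) +
    ‖Fs (bR (d : ℤ)) (zT M T * r)‖ * r ^ (σ₂ - 1)) with hI1
  have hI10 : 0 ≤ I1 := by
    apply setIntegral_nonneg measurableSet_Ioi
    intro r hr
    have : (0:ℝ) < r := hr
    positivity
  set P : ℝ := (1 / M) ^ σ₁ + (1 / M) ^ σ₂ with hP
  have hP0 : 0 < P := by positivity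
  refine ⟨I1 * P * (|σ₂| + 2 / a) / g0, ?_⟩
  intro s hs1 hs2
  set σ := s.re with hσ
  set t := s.im with ht
  have hσ0 : 0 < σ := by linarith
  have h3 := two_rays E hT1 s
  rw [hTa, ← ht, ← hσ] at h3
  have h4 : ∫ r in Ioi (0:ℝ), ‖Fs (bR (d : ℤ)) (zT M T * r)‖ * r ^ (σ - 1) ≤ I1 := by
    apply setIntegral_mono_on (ray_int E hz hn _)
      ((ray_int E hz hn _).add (ray_int E hz hn _)) measurableSet_Ioi
    intro r hr
    have hr0 : (0:ℝ) < r := hr
    have := rpow_le_add (x := r) (a := σ₁ - 1) (b := σ - 1) (c := σ₂ - 1) hr0 (by linarith)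
      (by linarith)
    calc ‖Fs (bR (d : ℤ)) (zT M T * r)‖ * r ^ (σ - 1) ≤
        ‖Fs (bR (d : ℤ)) (zT M T * r)‖ * (r ^ (σ₁ - 1) + r ^ (σ₂ - 1)) := by gcongr
      _ = _ := by simp only [Pi.add_apply]; ring
  have hΛ : ‖Λ s‖ ≤ I1 * Real.exp (-((Real.pi / 2 - a') * |t|)) := by
    have h5 := h3.trans h4
    rw [Real.exp_neg, ← div_eq_mul_inv, le_div_iff₀ (Real.exp_pos _)]
    exact h5
  have hGam : g0 * Real.exp (-(Real.pi / 2 * |t|)) ≤ ‖s‖ * ‖Complex.Gamma s‖ := by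
    have hs0 : s ≠ 0 := by
      intro h; rw [h] at hσ; simp at hσ; linarith
    rw [← norm_mul, ← Complex.Gamma_add_one s hs0]
    have h5 := norm_Gamma_ge hσ0 t
    have e : (1 : ℂ) + (σ : ℂ) + t * I = s + 1 := by
      conv_rhs => rw [← Complex.re_add_im s]
      rw [← hσ, ← ht]; ring
    rw [e] at h5
    refine le_trans ?_ h5
    gcongr
    exact hmin ⟨by linarith, by linarith⟩
  have hnorm : ‖s‖ ≤ |σ₂| + |t| := by
    refine (Complex.norm_le_abs_re_add_abs_im s).trans ?_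
    rw [← hσ, ← ht, abs_of_pos hσ0]
    have := le_abs_self σ₂
    linarith
  have hL := Lf_eq hd E (s := s) hσ0
  have hL2 : M ^ σ * ‖Complex.Gamma s‖ * ‖Lf d s‖ = ‖Λ s‖ := by
    rw [← hL, norm_mul, norm_mul, Complex.norm_cpow_eq_rpow_re_of_pos hM]
  have hMσ : 1 ≤ P * M ^ σ := by
    have h5 := rpow_le_add (x := 1 / M) (a := σ₁) (b := σ) (c := σ₂) (by positivity) hs1 hs2
    have h6 : (1 / M) ^ σ * M ^ σ = 1 := by
      rw [← Real.mul_rpow (by positivity) hM.le]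
      have : 1 / M * M = 1 := by field_simp
      rw [this, Real.one_rpow]
    have h7 : 0 < M ^ σ := Real.rpow_pos_of_pos hM _
    calc (1:ℝ) = (1 / M) ^ σ * M ^ σ := h6.symm
      _ ≤ P * M ^ σ := by gcongr
  have hexp : (|σ₂| + |t|) * Real.exp (a' * |t|) ≤ (|σ₂| + 2 / a) * Real.exp (a * |t|) := by
    have h5 : |t| ≤ 2 / a * Real.exp (a / 2 * |t|) := by
      have h6 := Real.add_one_le_exp (a / 2 * |t|)
      have h7 : |t| = 2 / a * (a / 2 * |t|) := by field_simp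
      rw [h7]
      nth_rewrite 2 [← h7]
      gcongr
      linarith
    have h6 : Real.exp (a' * |t|) ≤ Real.exp (a / 2 * |t|) := by
      apply Real.exp_le_exp.mpr
      gcongr
    have h7 : 1 ≤ Real.exp (a / 2 * |t|) := Real.one_le_exp (by positivity)
    have e : Real.exp (a * |t|) = Real.exp (a / 2 * |t|) * Real.exp (a / 2 * |t|) := by
      rw [← Real.exp_add]; congr 1; ring
    rw [e]
    set X := Real.exp (a / 2 * |t|) with hX
    have hσ2 : 0 ≤ |σ₂| := abs_nonneg _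
    have ht0 : 0 ≤ |t| := abs_nonneg _
    calc (|σ₂| + |t|) * Real.exp (a' * |t|) ≤ (|σ₂| * X + 2 / a * X) * X := by
          gcongr
          nlinarith
      _ = _ := by ring
  -- combine
  have hkey : g0 * ‖Lf d s‖ ≤ I1 * P * (|σ₂| + 2 / a) * Real.exp (a * |t|) := by
    have e1 : Real.exp (Real.pi / 2 * |t|) * Real.exp (-(Real.pi / 2 * |t|)) = 1 := by
      rw [← Real.exp_add]; simp
    have e2 : Real.exp (Real.pi / 2 * |t|) * Real.exp (-((Real.pi / 2 - a') * |t|)) =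
        Real.exp (a' * |t|) := by
      rw [← Real.exp_add]; congr 1; ring
    have hLn := norm_nonneg (Lf d s)
    calc g0 * ‖Lf d s‖ = (g0 * Real.exp (-(Real.pi / 2 * |t|))) * 1 *
          (‖Lf d s‖ * Real.exp (Real.pi / 2 * |t|)) := by
          linear_combination (-(g0 * ‖Lf d s‖)) * e1
      _ ≤ (‖s‖ * ‖Complex.Gamma s‖) * (P * M ^ σ) *
          (‖Lf d s‖ * Real.exp (Real.pi / 2 * |t|)) := by gcongr
      _ = ‖s‖ * P * (M ^ σ * ‖Complex.Gamma s‖ * ‖Lf d s‖) * Real.exp (Real.pi / 2 * |t|) := by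
          ring
      _ = ‖s‖ * P * ‖Λ s‖ * Real.exp (Real.pi / 2 * |t|) := by rw [hL2]
      _ ≤ (|σ₂| + |t|) * P * (I1 * Real.exp (-((Real.pi / 2 - a') * |t|))) *
          Real.exp (Real.pi / 2 * |t|) := by gcongr
      _ = I1 * P * ((|σ₂| + |t|) * (Real.exp (Real.pi / 2 * |t|) *
          Real.exp (-((Real.pi / 2 - a') * |t|)))) := by ring
      _ = I1 * P * ((|σ₂| + |t|) * Real.exp (a' * |t|)) := by rw [e2]
      _ ≤ I1 * P * ((|σ₂| + 2 / a) * Real.exp (a * |t|)) := by gcongr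
      _ = _ := by ring
  rw [div_mul_eq_mul_div, le_div_iff₀ hg0, mul_comm]
  exact hkey

theorem MM_bdd {d : ℕ} (hd : Squarefree d) {a η : ℝ} (ha : 0 < a) (hη : 0 < η) :
    BddAbove (Set.range fun t : ℝ => ‖Lf d (1 + η + t * I)‖ * Real.exp (-(a * |t|))) := by
  obtain ⟨K, hK⟩ := growth hd ha (σ₁ := 1) one_pos (1 + η)
  refine ⟨K, ?_⟩
  rintro _ ⟨t, rfl⟩
  simp only
  have h := hK (1 + η + t * I) (by simp; linarith) (by simp)
  have e : (1 + (η : ℂ) + t * I).im = t := by simp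
  rw [e] at h
  rw [Real.exp_neg, ← div_eq_mul_inv, div_le_iff₀ (Real.exp_pos _)]
  exact h

lemma ray_eq_zT {M a : ℝ} (hM : 0 < M) (r : ℝ) :
    2 * Real.pi * ray a r = zT M (1 / a) * ((2 * Real.pi * M * r : ℝ) : ℂ) := by
  have h := M_mul_zT (M := M) (T := 1 / a) hM
  rw [one_div_one_div] at h
  unfold ray
  rw [← h]
  push_cast
  ring

theorem MM_le_integral {d : ℕ} (hd : Squarefree d) {a η : ℝ} (ha : 0 < a) (ha1 : a ≤ 1 / 8)
    (hη : 0 < η) (hη1 : η ≤ 1 / 2) :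
    IntegrableOn (fun r : ℝ => ‖S d (ray a r)‖ * r ^ η) (Set.Ioi (1 / (6 * (d : ℝ)))) ∧
    MM a η d ≤ 40 * ∫ r in Set.Ioi (1 / (6 * (d : ℝ))), ‖S d (ray a r)‖ * r ^ η := by
  obtain ⟨Λ, E⟩ := exists_EdData hd
  set M : ℝ := √(H5.Q d) / Real.pi with hMdef
  have hM := E.Mpos
  have hpi := Real.pi_pos
  have hd0 : 0 < d := Nat.pos_of_ne_zero hd.ne_zero
  have hdR : (0:ℝ) < d := by exact_mod_cast hd0
  set T : ℝ := 1 / a with hT
  have hT1 : 1 ≤ T := by rw [hT, le_div_iff₀ ha]; linarith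
  have hTa : 1 / T = a := by rw [hT, one_div_one_div]
  have hz := zT_re_pos hM hT1
  have hn := zT_norm (M := M) (T := T) hM
  set b : ℝ := 2 * Real.pi * M with hb
  have hb0 : 0 < b := by positivity
  have hb6 : b ≤ 6 * d := by
    have e1 : b = 2 * √(H5.Q d) := by rw [hb, hMdef]; field_simp
    rw [e1]
    have h2 : √((H5.Q d : ℕ) : ℝ) ≤ 3 * d := by
      apply Real.sqrt_le_iff.mpr
      refine ⟨by positivity, ?_⟩
      have h3 : H5.Q d ≤ 8 * d ^ 2 := by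
        unfold H5.Q
        split_ifs
        · nlinarith [sq_nonneg d]
        · exact le_refl _
      have h4 : ((H5.Q d : ℕ) : ℝ) ≤ 8 * (d : ℝ) ^ 2 := by exact_mod_cast h3
      nlinarith
    linarith
  have hlow : 1 / (6 * (d : ℝ)) ≤ 1 / b := one_div_le_one_div_of_le hb0 hb6
  have hlow0 : 0 < 1 / (6 * (d : ℝ)) := by positivity
  -- scaling
  set G : ℝ → ℝ := fun r => ‖Fs (bR (d : ℤ)) (zT M T * r)‖ * r ^ η with hG
  have hGint : IntegrableOn G (Ioi 0) := ray_int E hz hn η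
  have hscale : ∀ r : ℝ, 0 < r → ‖S d (ray a r)‖ * r ^ η = b ^ (-η) * G (b * r) := by
    intro r hr
    simp only [hG]
    rw [S_eq_Fs, ray_eq_zT hM, ← hb, Real.mul_rpow hb0.le hr.le]
    have : b ^ (-η) * b ^ η = 1 := by
      rw [← Real.rpow_add hb0]; simp
    linear_combination (-(‖Fs (bR (d : ℤ)) (zT M (1 / a) * ((b * r : ℝ) : ℂ))‖ * r ^ η)) * this
  have hint0 : IntegrableOn (fun r : ℝ => ‖S d (ray a r)‖ * r ^ η) (Ioi 0) := by
    have h1 : IntegrableOn (fun r : ℝ => b ^ (-η) * G (b * r)) (Ioi 0) := by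
      apply Integrable.const_mul
      have := (integrableOn_Ioi_comp_mul_left_iff G 0 hb0).mpr (by rw [mul_zero]; exact hGint)
      exact this
    refine h1.congr_fun ?_ measurableSet_Ioi
    intro r hr
    exact (hscale r hr).symm
  have hint := hint0.mono_set (Ioi_subset_Ioi hlow0.le)
  refine ⟨hint, ?_⟩
  set J : ℝ := ∫ r in Set.Ioi (1 / (6 * (d : ℝ))), ‖S d (ray a r)‖ * r ^ η with hJ
  have hJ1 : ∫ r in Ioi (1:ℝ), G r ≤ b ^ (1 + η) * J := by
    have h1 := integral_comp_mul_left_Ioi G (1 / b) hb0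
    have e1 : b * (1 / b) = 1 := by field_simp
    rw [e1, smul_eq_mul] at h1
    have h2 : ∫ r in Ioi (1:ℝ), G r = b * ∫ x in Ioi (1 / b), G (b * x) := by
      rw [h1]; field_simp
    have h3 : ∫ x in Ioi (1 / b), G (b * x) = b ^ η * ∫ x in Ioi (1 / b),
        ‖S d (ray a x)‖ * x ^ η := by
      rw [← integral_const_mul]
      apply setIntegral_congr_fun measurableSet_Ioi
      intro r hr
      have hr0 : 0 < r := lt_trans (by positivity) hr
      simp only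
      rw [hscale r hr0]
      have : b ^ η * b ^ (-η) = 1 := by
        rw [← Real.rpow_add hb0]; simp
      linear_combination (-G (b * r)) * this
    rw [h2, h3, ← mul_assoc]
    have e2 : b * b ^ η = b ^ (1 + η) := by rw [Real.rpow_add hb0, Real.rpow_one]
    rw [e2]
    apply mul_le_mul_of_nonneg_left _ (by positivity)
    apply setIntegral_mono_set hint
    · filter_upwards [ae_restrict_mem measurableSet_Ioi] with r hr
      have hr0 : 0 < r := lt_trans hlow0 hr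
      simp only [Pi.zero_apply]
      positivity
    · exact (Ioi_subset_Ioi hlow).eventuallyLE
  have hJ0 : 0 ≤ J := by
    apply setIntegral_nonneg measurableSet_Ioi
    intro r hr
    have hr0 : 0 < r := lt_trans hlow0 hr
    positivity
  unfold MM
  apply ciSup_le
  intro t
  set s : ℂ := 1 + η + t * I with hs
  have hsre : s.re = 1 + η := by rw [hs]; simp
  have hsim : s.im = t := by rw [hs]; simp
  have h3 := two_rays E hT1 s
  rw [hTa, hsre, hsim, add_sub_cancel_left] at h3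
  have h4 := fold_ray E hz hn hη.le
  have h5 : ‖Λ s‖ * Real.exp ((Real.pi / 2 - a) * |t|) ≤ 2 * (b ^ (1 + η) * J) := by
    refine h3.trans (h4.trans ?_)
    linarith
  have hL2 : M ^ (1 + η) * ‖Complex.Gamma s‖ * ‖Lf d s‖ = ‖Λ s‖ := by
    rw [← Lf_eq hd E (s := s) (by rw [hsre]; linarith), norm_mul, norm_mul,
      Complex.norm_cpow_eq_rpow_re_of_pos hM, hsre]
  have hGam := norm_Gamma_ge hη t
  rw [← hs] at hGam
  have hc := gamma_const hη hη1
  have hG1 : 0 < Real.Gamma (1 + η) := Real.Gamma_pos_of_pos (by linarith)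
  have hMη : 0 < M ^ (1 + η) := Real.rpow_pos_of_pos hM _
  have e1 : b ^ (1 + η) = (2 * Real.pi) ^ (1 + η) * M ^ (1 + η) := by
    rw [hb, Real.mul_rpow (by positivity) hM.le]
  have hkey : (M ^ (1 + η) * Real.Gamma (1 + η)) * (‖Lf d s‖ * Real.exp (-(a * |t|))) ≤
      (M ^ (1 + η) * Real.Gamma (1 + η)) * (40 * J) := by
    have e2 : Real.exp (-(a * |t|)) = Real.exp (-(Real.pi / 2 * |t|)) *
        Real.exp ((Real.pi / 2 - a) * |t|) := by
      rw [← Real.exp_add]; congr 1; ring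
    calc (M ^ (1 + η) * Real.Gamma (1 + η)) * (‖Lf d s‖ * Real.exp (-(a * |t|)))
        = M ^ (1 + η) * (Real.Gamma (1 + η) * Real.exp (-(Real.pi / 2 * |t|))) * ‖Lf d s‖ *
          Real.exp ((Real.pi / 2 - a) * |t|) := by rw [e2]; ring
      _ ≤ M ^ (1 + η) * ‖Complex.Gamma s‖ * ‖Lf d s‖ * Real.exp ((Real.pi / 2 - a) * |t|) := by
          gcongr
      _ = ‖Λ s‖ * Real.exp ((Real.pi / 2 - a) * |t|) := by rw [hL2]
      _ ≤ 2 * (b ^ (1 + η) * J) := h5
      _ = M ^ (1 + η) * J * (2 * (2 * Real.pi) ^ (1 + η)) := by rw [e1]; ring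
      _ ≤ M ^ (1 + η) * J * (40 * Real.Gamma (1 + η)) := by gcongr
      _ = _ := by ring
  exact le_of_mul_le_mul_left hkey (by positivity)

lemma ray_re_eq (a r : ℝ) : (ray a r).re = r * Real.sin a := by
  unfold ray
  rw [Complex.re_ofReal_mul, Complex.exp_ofReal_mul_I_re, Real.cos_pi_div_two_sub]

theorem MM_trivial : ∃ C : ℝ, ∀ (d : ℕ) (a η : ℝ), Squarefree d → 0 < a → a ≤ 1 / 8 →
    0 < η → η ≤ 1 / 2 → MM a η d ≤ C * d / a ^ 2 := by
  obtain ⟨C, hC⟩ := norm_S_le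
  have hC0 : 0 ≤ C := by
    have h1 := hC 1 1 (by simp)
    have h2 := (norm_nonneg _).trans h1
    simp only [Complex.one_re, one_pow, div_one, mul_one] at h2
    by_contra h
    push Not at h
    have h3 := Real.exp_pos (-1)
    nlinarith
  refine ⟨40 * (4 * C) * 18, ?_⟩
  intro d a η hd ha ha1 hη hη1
  obtain ⟨hint, hM⟩ := MM_le_integral hd ha ha1 hη hη1
  refine hM.trans ?_
  have hd0 : 0 < d := Nat.pos_of_ne_zero hd.ne_zero
  have hdR : (1:ℝ) ≤ d := by exact_mod_cast hd0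
  have hsin : a / 2 ≤ Real.sin a := by
    have hpi := Real.pi_le_four
    have hpi3 := Real.pi_gt_three
    have h5 := Real.mul_le_sin ha.le (by linarith)
    have h6 : 1 / 2 ≤ 2 / Real.pi := by
      rw [div_le_div_iff₀ (by norm_num) Real.pi_pos]; linarith
    calc a / 2 = 1 / 2 * a := by ring
      _ ≤ 2 / Real.pi * a := by gcongr
      _ ≤ _ := h5
  have hs0 : 0 < Real.sin a := by linarith
  set ρ0 : ℝ := 1 / (6 * (d : ℝ)) with hρ0
  have hρ00 : 0 < ρ0 := by positivity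
  have hρ01 : ρ0 ≤ 1 := by
    rw [hρ0, div_le_one (by positivity)]; linarith
  have hpt : ∀ r ∈ Ioi ρ0, ‖S d (ray a r)‖ * r ^ η ≤ 4 * C / a ^ 2 * (r ^ (-2:ℝ) + r ^ (-(3 / 2):ℝ)) := by
    intro r hr
    have hr0 : 0 < r := lt_trans hρ00 hr
    have hre : 0 < (ray a r).re := by rw [ray_re_eq]; positivity
    have h1 := hC d (ray a r) hre
    rw [ray_re_eq] at h1
    have h2 : ‖S d (ray a r)‖ ≤ 4 * C / a ^ 2 * r ^ (-2:ℝ) := by
      refine h1.trans ?_
      have h3 : Real.exp (-(r * Real.sin a)) ≤ 1 := by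
        rw [Real.exp_le_one_iff]
        have : 0 < r * Real.sin a := by positivity
        linarith
      have h4 : 1 / (r * Real.sin a) ^ 2 ≤ 1 / (r * (a / 2)) ^ 2 := by
        apply one_div_le_one_div_of_le (by positivity)
        gcongr
      calc C * (1 / (r * Real.sin a) ^ 2) * Real.exp (-(r * Real.sin a))
          ≤ C * (1 / (r * (a / 2)) ^ 2) * 1 := by gcongr
        _ = 4 * C / a ^ 2 * (r ^ 2)⁻¹ := by field_simp; ring
        _ = _ := by
            congr 1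
            rw [Real.rpow_neg hr0.le]
            congr 1
            exact (Real.rpow_natCast r 2).symm
    have h3 : r ^ (-2:ℝ) * r ^ η ≤ r ^ (-2:ℝ) + r ^ (-(3 / 2):ℝ) := by
      rw [← Real.rpow_add hr0]
      exact rpow_le_add hr0 (by linarith) (by linarith)
    calc ‖S d (ray a r)‖ * r ^ η ≤ (4 * C / a ^ 2 * r ^ (-2:ℝ)) * r ^ η := by gcongr
      _ = 4 * C / a ^ 2 * (r ^ (-2:ℝ) * r ^ η) := by ring
      _ ≤ _ := by gcongr
  have i1 : IntegrableOn (fun r : ℝ => r ^ (-2:ℝ)) (Ioi ρ0) :=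
    integrableOn_Ioi_rpow_of_lt (by norm_num) hρ00
  have i2 : IntegrableOn (fun r : ℝ => r ^ (-(3 / 2):ℝ)) (Ioi ρ0) :=
    integrableOn_Ioi_rpow_of_lt (by norm_num) hρ00
  have h5 : ∫ r in Ioi ρ0, ‖S d (ray a r)‖ * r ^ η ≤
      4 * C / a ^ 2 * (∫ r in Ioi ρ0, (r ^ (-2:ℝ) + r ^ (-(3 / 2):ℝ))) := by
    rw [← integral_const_mul]
    exact setIntegral_mono_on hint ((i1.add i2).const_mul _) measurableSet_Ioi hpt
  have h6 : ∫ r in Ioi ρ0, (r ^ (-2:ℝ) + r ^ (-(3 / 2):ℝ)) ≤ 18 * d := by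
    rw [integral_add i1 i2, integral_Ioi_rpow_of_lt (by norm_num) hρ00,
      integral_Ioi_rpow_of_lt (by norm_num) hρ00]
    have e1 : -ρ0 ^ ((-2:ℝ) + 1) / ((-2:ℝ) + 1) = 6 * d := by
      have : ((-2:ℝ) + 1) = -1 := by norm_num
      rw [this, Real.rpow_neg_one, hρ0]
      field_simp
    have e2 : -ρ0 ^ (-(3 / 2 : ℝ) + 1) / (-(3 / 2 : ℝ) + 1) = 2 * ρ0 ^ (-(1 / 2) : ℝ) := by
      have : (-(3 / 2 : ℝ) + 1) = -(1 / 2) := by norm_num
      rw [this]; ring
    have h7 : ρ0 ^ (-(1 / 2) : ℝ) ≤ ρ0 ^ (-1 : ℝ) :=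
      Real.rpow_le_rpow_of_exponent_ge hρ00 hρ01 (by norm_num)
    have e3 : ρ0 ^ (-1 : ℝ) = 6 * d := by
      rw [Real.rpow_neg_one, hρ0]; field_simp
    rw [e1, e2]
    linarith
  calc 40 * ∫ r in Ioi ρ0, ‖S d (ray a r)‖ * r ^ η
      ≤ 40 * (4 * C / a ^ 2 * (18 * d)) := by
        gcongr
        exact h5.trans (by gcongr)
    _ = _ := by ring

end Pool.Agent.ZD
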