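import Mathlib
import Pool.Agent.ZD.Defs
import Pool.Agent.H6.DCoef

/-!
Module E1: Dirichlet inverse, coefficient bounds, convolution identities (MP_553913_nt).
-/

set_option autoImplicit false

open Complex Finset MeasureTheory

namespace Pool.Agent.ZD

open Pool.Agent.H5 (c bd Lser)

namespace E1

theorem nuF_eq {p : ℕ} (hp : p.Prime) (e : ℕ) : nuF p e = Pool.Agent.H6.mloc 1 p e := by
  unfold nuF Pool.Agent.H6.mloc Pool.Agent.H6.Good
  have hbd : bd 1 p = c p := by simp [bd]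
  have hnd : ¬ ((p : ℤ) ∣ 1) := by
    intro h
    have := Int.natAbs_dvd_natAbs.2 h
    simp at this
    exact hp.one_lt.ne' this
  rw [hbd]
  by_cases h2 : p = 2 <;> simp [h2, hnd]

theorem nu_eq {n : ℕ} (hn : 0 < n) : nu n = Pool.Agent.H6.mb 1 n := by
  unfold nu Pool.Agent.H6.mb
  rw [if_neg hn.ne']
  apply Finsupp.prod_congr
  intro p hp
  exact nuF_eq (Nat.prime_of_mem_primeFactors hp) _

theorem bd_one_left (n : ℕ) : bd 1 n = c n := by simp [bd]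

end E1

open E1

theorem abs_c_le' (n : ℕ) : |(c n : ℝ)| ≤ n.divisors.card * Real.sqrt n := by
  rcases Nat.eq_zero_or_pos n with rfl | hn
  · simp [Pool.Agent.H5.c_zero]
  · have := Pool.Agent.H6.bd_tau 1 hn.ne'
    rwa [bd_one_left] at this

theorem abs_nu_le {n : ℕ} (hn : 0 < n) : |(nu n : ℝ)| ≤ n.divisors.card * Real.sqrt n := by
  have := Pool.Agent.H6.mb_tau 1 hn.ne'
  rwa [← nu_eq hn] at this

theorem nu_mul {m n : ℕ} (h : m.Coprime n) (hm : 0 < m) (hn : 0 < n) :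
    nu (m * n) = nu m * nu n := by
  rw [nu_eq hm, nu_eq hn, nu_eq (Nat.mul_pos hm hn), Pool.Agent.H6.mb_mul 1 h]

theorem nu_conv {n : ℕ} (hn : 0 < n) :
    ∑ x ∈ n.divisors, nu x * c (n / x) = if n = 1 then 1 else 0 := by
  have h := congrArg (fun f => f n) (Pool.Agent.H6.mA_mul_bA 1)
  simp only [ArithmeticFunction.mul_apply] at h
  rw [Nat.sum_divisorsAntidiagonal
    (fun a b => Pool.Agent.H6.mA 1 a * Pool.Agent.H6.bA 1 b)] at h
  rw [ArithmeticFunction.one_apply] at h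
  rw [← h]
  apply Finset.sum_congr rfl
  intro x hx
  have hx0 : 0 < x := Nat.pos_of_mem_divisors hx
  rw [nu_eq hx0]
  change _ = Pool.Agent.H6.mb 1 x * bd 1 (n / x)
  rw [bd_one_left]

namespace E1

/-- the twisted inverse -/
noncomputable def Aq (q : ℕ) (n : ℕ) : ℂ := ((jacobiSym q n * nu n : ℤ) : ℂ)

theorem Aq_conv (q : ℕ) {n : ℕ} (hn : 0 < n) :
    ∑ x ∈ n.divisors, Aq q x * (bd q (n / x) : ℂ) = if n = 1 then 1 else 0 := by
  have h1 : ∀ x ∈ n.divisors, Aq q x * (bd q (n / x) : ℂ) =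
      ((jacobiSym q n * (nu x * c (n / x)) : ℤ) : ℂ) := by
    intro x hx
    have hx0 : 0 < x := Nat.pos_of_mem_divisors hx
    have hxn := Nat.dvd_of_mem_divisors hx
    have hdx : 0 < n / x := Nat.div_pos (Nat.le_of_dvd hn hxn) hx0
    have : NeZero x := ⟨hx0.ne'⟩
    have : NeZero (n / x) := ⟨hdx.ne'⟩
    have h2 : jacobiSym q n = jacobiSym q x * jacobiSym q (n / x) := by
      rw [← jacobiSym.mul_right, Nat.mul_div_cancel' hxn]
    unfold Aq bd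
    rw [h2]
    push_cast
    ring
  rw [Finset.sum_congr rfl h1, ← Int.cast_sum, ← Finset.mul_sum, nu_conv hn]
  split_ifs with h
  · subst h; simp
  · simp

/-- arithmetic function from a function -/
noncomputable def af (f : ℕ → ℂ) : ArithmeticFunction ℂ := ⟨fun n => if n = 0 then 0 else f n, by simp⟩

theorem af_apply (f : ℕ → ℂ) {n : ℕ} (hn : n ≠ 0) : af f n = f n := by
  change (if n = 0 then 0 else f n) = f n
  rw [if_neg hn]

theorem af_mul_apply (f g : ℕ → ℂ) {n : ℕ} (hn : 0 < n) :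
    (af f * af g) n = ∑ x ∈ n.divisors, f x * g (n / x) := by
  rw [ArithmeticFunction.mul_apply, Nat.sum_divisorsAntidiagonal (fun a b => af f a * af g b)]
  apply Finset.sum_congr rfl
  intro x hx
  have hx0 : 0 < x := Nat.pos_of_mem_divisors hx
  have hxn := Nat.dvd_of_mem_divisors hx
  have hdx : 0 < n / x := Nat.div_pos (Nat.le_of_dvd hn hxn) hx0
  rw [af_apply f hx0.ne', af_apply g hdx.ne']

theorem one_dim (q : ℕ) (f : ℕ → ℂ) {m : ℕ} (hm : 0 < m) :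
    ∑ b ∈ m.divisors, (∑ x ∈ b.divisors, Aq q (b / x) * f x) * (bd q (m / b) : ℂ) = f m := by
  have h1 : af (Aq q) * af (fun n => (bd q n : ℂ)) = 1 := by
    ext n
    rcases Nat.eq_zero_or_pos n with rfl | hn
    · simp
    · rw [af_mul_apply _ _ hn, Aq_conv q hn, ArithmeticFunction.one_apply]
  have h2 : (af f * af (Aq q)) * af (fun n => (bd q n : ℂ)) = af f := by
    rw [mul_assoc, h1, mul_one]
  have h3 : (af f * af (Aq q) * af (fun n => (bd q n : ℂ))) m = af f m := by rw [h2]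
  rw [af_apply f hm.ne'] at h3
  rw [← h3]
  have h4 : af f * af (Aq q) = af (fun b => ∑ x ∈ b.divisors, Aq q (b / x) * f x) := by
    ext n
    rcases Nat.eq_zero_or_pos n with rfl | hn
    · simp
    · rw [af_mul_apply _ _ hn, af_apply _ hn.ne']
      exact Finset.sum_congr rfl fun x _ => mul_comm _ _
  rw [h4, af_mul_apply _ _ hm]

end E1

theorem gk_eq (k : ℤ) (q : ℕ) {m n : ℕ} (hm : 0 < m) (hn : 0 < n) :
    gk k m n = ∑ x ∈ m.divisors, ∑ y ∈ n.divisors,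
      eps k q x y * ((bd q (m / x) : ℂ) * (bd q (n / y) : ℂ)) := by
  have h1 : ∀ x ∈ m.divisors, ∑ y ∈ n.divisors,
      eps k q x y * ((bd q (m / x) : ℂ) * (bd q (n / y) : ℂ)) =
      (∑ x' ∈ x.divisors, Aq q (x / x') * gk k x' n) * (bd q (m / x) : ℂ) := by
    intro x _
    have h2 : ∀ x' : ℕ, gk k x' n = ∑ y ∈ n.divisors,
        (∑ y' ∈ y.divisors, Aq q (y / y') * gk k x' y') * (bd q (n / y) : ℂ) :=
      fun x' => (one_dim q (gk k x') hn).symm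
    simp only [h2]
    simp only [eps, Aq, Finset.sum_mul, Finset.mul_sum]
    rw [Finset.sum_comm]
    apply Finset.sum_congr rfl
    intro x' _
    apply Finset.sum_congr rfl
    intro y _
    apply Finset.sum_congr rfl
    intro y' _
    ring
  rw [Finset.sum_congr rfl h1]
  exact (one_dim q (fun x => gk k x n) hm).symm

namespace E1

theorem norm_jac (a : ℤ) (n : ℕ) : ‖((jacobiSym a n : ℤ) : ℂ)‖ ≤ 1 := by
  rcases jacobiSym.trichotomy a n with h | h | h <;> rw [h] <;> simp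

theorem card_div_le {n : ℕ} : n.divisors.card ≤ n := Nat.card_divisors_le_self n

theorem bound_sq {n : ℕ} (x : ℝ) (h : x ≤ n.divisors.card * Real.sqrt n) : x ≤ (n : ℝ) ^ 2 := by
  rcases Nat.eq_zero_or_pos n with rfl | hn
  · simpa using h
  · have h1 : (1 : ℝ) ≤ n := by exact_mod_cast hn
    have h2 : (n.divisors.card : ℝ) ≤ n := by exact_mod_cast card_div_le
    have h3 : Real.sqrt n ≤ n := by
      rw [Real.sqrt_le_left (by positivity)]
      nlinarith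
    calc x ≤ n.divisors.card * Real.sqrt n := h
      _ ≤ n * n := by gcongr
      _ = _ := by ring

theorem norm_Aq_le (q : ℕ) {n : ℕ} (hn : 0 < n) : ‖Aq q n‖ ≤ (n : ℝ) ^ 2 := by
  unfold Aq
  push_cast
  rw [norm_mul]
  have h1 := norm_jac q n
  have h2 : ‖((nu n : ℤ) : ℂ)‖ ≤ (n : ℝ) ^ 2 := by
    rw [Complex.norm_intCast]
    exact bound_sq _ (abs_nu_le hn)
  calc _ ≤ 1 * (n : ℝ) ^ 2 := by gcongr
    _ = _ := one_mul _

theorem norm_c_le (n : ℕ) : ‖((c n : ℤ) : ℂ)‖ ≤ (n : ℝ) ^ 2 := by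
  rw [Complex.norm_intCast]
  exact bound_sq _ (abs_c_le' n)

theorem norm_bd_le (q n : ℕ) : ‖((bd q n : ℤ) : ℂ)‖ ≤ (n : ℝ) ^ 2 := by
  unfold bd
  push_cast
  rw [norm_mul]
  calc _ ≤ 1 * (n : ℝ) ^ 2 := mul_le_mul (norm_jac q n) (norm_c_le n) (norm_nonneg _) (by norm_num)
    _ = _ := one_mul _

theorem norm_tau_le_aux (k : ℤ) (m : ℕ) : ‖tau k m‖ ≤ m := by
  unfold tau
  refine (norm_sum_le _ _).trans ?_
  have : ∀ x ∈ range m, ‖(jacobiSym x m : ℂ) * exp (2 * Real.pi * I * (k * x / m))‖ ≤ 1 := by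
    intro x _
    rw [norm_mul]
    have h1 : ‖exp (2 * Real.pi * I * (k * x / m))‖ = 1 := by
      have e : (2 * Real.pi * I * (k * x / m) : ℂ) = ((2 * Real.pi * (k * x / m) : ℝ) : ℂ) * I := by
        push_cast; ring
      rw [e, Complex.norm_exp_ofReal_mul_I]
    rw [h1, mul_one]
    exact norm_jac x m
  refine (Finset.sum_le_sum this).trans ?_
  simp

theorem norm_gk_le (k : ℤ) {x y : ℕ} (hx : 0 < x) (hy : 0 < y) :
    ‖gk k x y‖ ≤ ((x : ℝ) * y) ^ 3 := by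
  unfold gk
  rw [norm_mul, norm_div]
  have h1 : ‖((c x * c y : ℤ) : ℂ)‖ ≤ (x : ℝ) ^ 2 * (y : ℝ) ^ 2 := by
    push_cast
    rw [norm_mul]
    exact mul_le_mul (norm_c_le x) (norm_c_le y) (norm_nonneg _) (by positivity)
  have hxy : (1 : ℝ) ≤ ((x * y : ℕ) : ℝ) := by exact_mod_cast Nat.mul_pos hx hy
  have h2 : 1 ≤ ‖((Real.sqrt (x * y : ℕ) : ℝ) : ℂ)‖ := by
    rw [Complex.norm_real, Real.norm_of_nonneg (Real.sqrt_nonneg _)]
    rw [Real.one_le_sqrt]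
    exact hxy
  have h3 : ‖tau k (x * y)‖ / ‖((Real.sqrt (x * y : ℕ) : ℝ) : ℂ)‖ ≤ (x : ℝ) * y := by
    rw [div_le_iff₀ (by linarith)]
    have := norm_tau_le_aux k (x * y)
    push_cast at this
    have h5 : (0 : ℝ) ≤ (x : ℝ) * y := by positivity
    nlinarith
  calc _ ≤ ((x : ℝ) ^ 2 * (y : ℝ) ^ 2) * ((x : ℝ) * y) :=
        mul_le_mul h1 h3 (by positivity) (by positivity)
    _ = _ := by ring

theorem norm_eps_le (k : ℤ) (q b₁ b₂ : ℕ) : ‖eps k q b₁ b₂‖ ≤ ((b₁ : ℝ) * b₂) ^ 6 := by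
  rcases Nat.eq_zero_or_pos b₁ with rfl | hb1
  · simp [eps]
  rcases Nat.eq_zero_or_pos b₂ with rfl | hb2
  · simp [eps]
  unfold eps
  have key : ∀ x ∈ b₁.divisors, ∀ y ∈ b₂.divisors,
      ‖((jacobiSym q (b₁ / x) * nu (b₁ / x) : ℤ) : ℂ) * ((jacobiSym q (b₂ / y) * nu (b₂ / y) : ℤ) : ℂ) *
      gk k x y‖ ≤ ((b₁ : ℝ) * b₂) ^ 5 := by
    intro x hx y hy
    have hx0 : 0 < x := Nat.pos_of_mem_divisors hx
    have hxn := Nat.le_of_dvd hb1 (Nat.dvd_of_mem_divisors hx)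
    have hdx : 0 < b₁ / x := Nat.div_pos hxn hx0
    have hy0 : 0 < y := Nat.pos_of_mem_divisors hy
    have hyn := Nat.le_of_dvd hb2 (Nat.dvd_of_mem_divisors hy)
    have hdy : 0 < b₂ / y := Nat.div_pos hyn hy0
    have h1 := norm_Aq_le q hdx
    have h2 := norm_Aq_le q hdy
    have h3 := norm_gk_le k hx0 hy0
    have h4 : ((b₁ / x : ℕ) : ℝ) ≤ b₁ := by exact_mod_cast Nat.div_le_self _ _
    have h5 : ((b₂ / y : ℕ) : ℝ) ≤ b₂ := by exact_mod_cast Nat.div_le_self _ _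
    have h6 : (x : ℝ) ≤ b₁ := by exact_mod_cast hxn
    have h7 : (y : ℝ) ≤ b₂ := by exact_mod_cast hyn
    rw [norm_mul, norm_mul]
    unfold Aq at h1 h2
    calc _ ≤ (((b₁ / x : ℕ) : ℝ) ^ 2 * ((b₂ / y : ℕ) : ℝ) ^ 2) * ((x : ℝ) * y) ^ 3 := by gcongr
      _ ≤ ((b₁ : ℝ) ^ 2 * (b₂ : ℝ) ^ 2) * ((b₁ : ℝ) * b₂) ^ 3 := by gcongr
      _ = _ := by ring
  calc _ ≤ ∑ x ∈ b₁.divisors, ∑ y ∈ b₂.divisors, ((b₁ : ℝ) * b₂) ^ 5 := by
        refine (norm_sum_le _ _).trans (Finset.sum_le_sum fun x hx => ?_)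
        exact (norm_sum_le _ _).trans (Finset.sum_le_sum fun y hy => key x hx y hy)
    _ = (b₁.divisors.card : ℝ) * ((b₂.divisors.card : ℝ) * ((b₁ : ℝ) * b₂) ^ 5) := by
        rw [Finset.sum_const, Finset.sum_const, nsmul_eq_mul, nsmul_eq_mul]
    _ ≤ (b₁ : ℝ) * ((b₂ : ℝ) * ((b₁ : ℝ) * b₂) ^ 5) := by
        have h8 : (b₁.divisors.card : ℝ) ≤ b₁ := by exact_mod_cast card_div_le
        have h9 : (b₂.divisors.card : ℝ) ≤ b₂ := by exact_mod_cast card_div_le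
        gcongr
    _ = _ := by ring

/-- the quadruple summand -/
noncomputable def Q (k : ℤ) (q : ℕ) (u z w : ℂ) (p : (ℕ × ℕ) × (ℕ × ℕ)) : ℂ :=
  eps k q p.1.1 p.1.2 * ((bd q p.2.1 : ℂ) * (bd q p.2.2 : ℂ)) *
    (((p.1.1 * p.2.1) * (p.1.2 * p.2.2) : ℕ) : ℂ) ^ (u - 1 / 2) *
    (exp (-(2 * Real.pi * (p.1.1 * p.2.1 : ℕ) * z)) * exp (-(2 * Real.pi * (p.1.2 * p.2.2 : ℕ) * w)))

/-- majorant -/
noncomputable def maj (K : ℕ) (r : ℝ) (n : ℕ) : ℝ := (n : ℝ) ^ K * Real.exp (-n * r)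

theorem maj_nonneg (K : ℕ) (r : ℝ) (n : ℕ) : 0 ≤ maj K r n := by unfold maj; positivity

theorem maj_summable (K : ℕ) {r : ℝ} (hr : 0 < r) : Summable (maj K r) := by
  have h := Real.summable_pow_mul_exp_neg_nat_mul K hr
  refine h.congr fun n => ?_
  unfold maj
  congr 2
  ring

theorem norm_exp_le {b m : ℕ} (hb : 0 < b) (hm : 0 < m) {z : ℂ} (hz : 0 < z.re) :
    ‖exp (-(2 * Real.pi * (b * m : ℕ) * z))‖ ≤
      Real.exp (-b * (Real.pi * z.re)) * Real.exp (-m * (Real.pi * z.re)) := by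
  rw [Complex.norm_exp, ← Real.exp_add]
  apply Real.exp_le_exp.2
  have e : (-(2 * (Real.pi : ℂ) * (b * m : ℕ) * z)).re = -(2 * Real.pi * (b * m) * z.re) := by
    have : (-(2 * (Real.pi : ℂ) * (b * m : ℕ) * z)) = ((-(2 * Real.pi * (b * m)) : ℝ) : ℂ) * z := by
      push_cast; ring
    rw [this, Complex.re_ofReal_mul]; ring
  rw [e]
  have h1 : (1 : ℝ) ≤ b := by exact_mod_cast hb
  have h2 : (1 : ℝ) ≤ m := by exact_mod_cast hm
  have h3 : (b : ℝ) + m ≤ 2 * (b * m) := by nlinarith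
  have h4 : 0 < Real.pi * z.re := by positivity
  nlinarith [mul_le_mul_of_nonneg_right h3 h4.le]

theorem norm_cpow_le (u : ℂ) {N M : ℕ} (hN : 0 < N) (hM : |(u - 1 / 2).re| ≤ M) :
    ‖(N : ℂ) ^ (u - 1 / 2)‖ ≤ (N : ℝ) ^ M := by
  rw [Complex.norm_natCast_cpow_of_pos hN, ← Real.rpow_natCast]
  apply Real.rpow_le_rpow_of_exponent_le (by exact_mod_cast hN)
  exact (le_abs_self _).trans hM

theorem norm_Q_le (k : ℤ) (q : ℕ) (u : ℂ) {z w : ℂ} (hz : 0 < z.re) (hw : 0 < w.re) {M : ℕ}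
    (hM : |(u - 1 / 2).re| ≤ M) (p : (ℕ × ℕ) × (ℕ × ℕ)) :
    ‖Q k q u z w p‖ ≤ (maj (M + 6) (Real.pi * z.re) p.1.1 * maj (M + 6) (Real.pi * w.re) p.1.2) *
      (maj (M + 6) (Real.pi * z.re) p.2.1 * maj (M + 6) (Real.pi * w.re) p.2.2) := by
  obtain ⟨⟨b₁, b₂⟩, m₁, m₂⟩ := p
  simp only [Q]
  have hnn : 0 ≤ (maj (M + 6) (Real.pi * z.re) b₁ * maj (M + 6) (Real.pi * w.re) b₂) *
      (maj (M + 6) (Real.pi * z.re) m₁ * maj (M + 6) (Real.pi * w.re) m₂) := by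
    have := maj_nonneg (M + 6) (Real.pi * z.re)
    have := maj_nonneg (M + 6) (Real.pi * w.re)
    unfold maj; positivity
  rcases Nat.eq_zero_or_pos b₁ with rfl | hb1
  · simpa [eps] using hnn
  rcases Nat.eq_zero_or_pos b₂ with rfl | hb2
  · simpa [eps] using hnn
  rcases Nat.eq_zero_or_pos m₁ with rfl | hm1
  · simpa [Pool.Agent.H5.bd_zero] using hnn
  rcases Nat.eq_zero_or_pos m₂ with rfl | hm2
  · simpa [Pool.Agent.H5.bd_zero] using hnn
  have hN : 0 < (b₁ * m₁) * (b₂ * m₂) := by positivity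
  have h1 := norm_eps_le k q b₁ b₂
  have h2 : ‖((bd q m₁ : ℤ) : ℂ)‖ ≤ (m₁ : ℝ) ^ 6 := by
    refine (norm_bd_le q m₁).trans ?_
    exact pow_le_pow_right₀ (by exact_mod_cast hm1) (by norm_num)
  have h3 : ‖((bd q m₂ : ℤ) : ℂ)‖ ≤ (m₂ : ℝ) ^ 6 := by
    refine (norm_bd_le q m₂).trans ?_
    exact pow_le_pow_right₀ (by exact_mod_cast hm2) (by norm_num)
  have h4 := norm_cpow_le u hN hM
  have h5 := norm_exp_le hb1 hm1 hz
  have h6 := norm_exp_le hb2 hm2 hw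
  rw [norm_mul, norm_mul, norm_mul, norm_mul, norm_mul]
  calc _ ≤ (((b₁ : ℝ) * b₂) ^ 6 * ((m₁ : ℝ) ^ 6 * (m₂ : ℝ) ^ 6) *
        (((b₁ * m₁) * (b₂ * m₂) : ℕ) : ℝ) ^ M) *
        ((Real.exp (-b₁ * (Real.pi * z.re)) * Real.exp (-m₁ * (Real.pi * z.re))) *
        (Real.exp (-b₂ * (Real.pi * w.re)) * Real.exp (-m₂ * (Real.pi * w.re)))) := by gcongr
    _ = _ := by
        unfold maj
        push_cast
        ring

theorem Q_summable (k : ℤ) (q : ℕ) (u : ℂ) {z w : ℂ} (hz : 0 < z.re) (hw : 0 < w.re) :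
    Summable (Q k q u z w) := by
  obtain ⟨M, hM⟩ := exists_nat_ge |(u - 1 / 2).re|
  have hz' : 0 < Real.pi * z.re := by positivity
  have hw' : 0 < Real.pi * w.re := by positivity
  have s1 := maj_summable (M + 6) hz'
  have s2 := maj_summable (M + 6) hw'
  have s3 := s1.mul_of_nonneg s2 (maj_nonneg _ _) (maj_nonneg _ _)
  have s4 := s3.mul_of_nonneg s3 (fun p => mul_nonneg (maj_nonneg _ _ _) (maj_nonneg _ _ _))
    (fun p => mul_nonneg (maj_nonneg _ _ _) (maj_nonneg _ _ _))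
  exact Summable.of_norm_bounded s4 (fun p => norm_Q_le k q u hz hw hM p)

theorem T_summable (q : ℕ) (u : ℂ) {z : ℂ} (hz : 0 < z.re) {b : ℕ} (hb : 0 < b) :
    Summable (fun n : ℕ => ‖(bd q n : ℂ) * (n : ℂ) ^ (u - 1 / 2) *
      exp (-(2 * Real.pi * n * (b * z)))‖) := by
  obtain ⟨M, hM⟩ := exists_nat_ge |(u - 1 / 2).re|
  have hz' : 0 < Real.pi * z.re := by positivity
  refine Summable.of_nonneg_of_le (fun n => norm_nonneg _) (fun n => ?_)
    (maj_summable (M + 6) hz')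
  rcases Nat.eq_zero_or_pos n with rfl | hn
  · simp [Pool.Agent.H5.bd_zero, maj]
  rw [norm_mul, norm_mul]
  have h2 : ‖((bd q n : ℤ) : ℂ)‖ ≤ (n : ℝ) ^ 6 := by
    refine (norm_bd_le q n).trans ?_
    exact pow_le_pow_right₀ (by exact_mod_cast hn) (by norm_num)
  have h4 := norm_cpow_le u hn hM
  have h5 := norm_exp_le hb hn hz
  have e : (-(2 * (Real.pi : ℂ) * n * (b * z))) = (-(2 * (Real.pi : ℂ) * (b * n : ℕ) * z)) := by
    push_cast; ring
  rw [e]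
  have h6 : Real.exp (-b * (Real.pi * z.re)) ≤ 1 := by
    rw [Real.exp_le_one_iff]
    have : (0 : ℝ) ≤ b := by positivity
    nlinarith
  calc _ ≤ ((n : ℝ) ^ 6 * (n : ℝ) ^ M) * (1 * Real.exp (-n * (Real.pi * z.re))) := by
        refine mul_le_mul (by gcongr) (h5.trans ?_) (norm_nonneg _) (by positivity)
        gcongr
    _ = _ := by unfold maj; ring

end E1

theorem double_sum (k : ℤ) (q : ℕ) (u z w : ℂ) (hz : 0 < z.re) (hw : 0 < w.re) :
    Summable (fun n : ℕ × ℕ => gk k n.1 n.2 * ((n.1 * n.2 : ℕ) : ℂ) ^ (u - 1 / 2) *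
      (exp (-(2 * Real.pi * n.1 * z)) * exp (-(2 * Real.pi * n.2 * w)))) ∧
    Summable (fun b : ℕ × ℕ => eps k q b.1 b.2 * ((b.1 * b.2 : ℕ) : ℂ) ^ (u - 1 / 2) *
      (T q u (b.1 * z) * T q u (b.2 * w))) ∧
    ∑' n : ℕ × ℕ, gk k n.1 n.2 * ((n.1 * n.2 : ℕ) : ℂ) ^ (u - 1 / 2) *
      (exp (-(2 * Real.pi * n.1 * z)) * exp (-(2 * Real.pi * n.2 * w))) =
    ∑' b : ℕ × ℕ, eps k q b.1 b.2 * ((b.1 * b.2 : ℕ) : ℂ) ^ (u - 1 / 2) *
      (T q u (b.1 * z) * T q u (b.2 * w)) := by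
  classical
  have hQ := Q_summable k q u hz hw
  -- right hand side
  have hR : ∀ b : ℕ × ℕ, ∑' m : ℕ × ℕ, Q k q u z w (b, m) =
      eps k q b.1 b.2 * ((b.1 * b.2 : ℕ) : ℂ) ^ (u - 1 / 2) *
      (T q u (b.1 * z) * T q u (b.2 * w)) := by
    rintro ⟨b₁, b₂⟩
    rcases Nat.eq_zero_or_pos b₁ with rfl | hb1
    · simp [Q, eps]
    rcases Nat.eq_zero_or_pos b₂ with rfl | hb2
    · simp [Q, eps]
    unfold T
    rw [tsum_mul_tsum_of_summable_norm (T_summable q u hz hb1) (T_summable q u hw hb2),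
      ← tsum_mul_left]
    apply tsum_congr
    rintro ⟨m₁, m₂⟩
    simp only [Q]
    have e1 : (((b₁ * m₁) * (b₂ * m₂) : ℕ) : ℂ) ^ (u - 1 / 2) =
        ((b₁ * b₂ : ℕ) : ℂ) ^ (u - 1 / 2) * ((m₁ : ℂ) ^ (u - 1 / 2) * (m₂ : ℂ) ^ (u - 1 / 2)) := by
      rw [← Complex.natCast_mul_natCast_cpow, ← Nat.cast_mul, ← Complex.natCast_mul_natCast_cpow,
        ← Nat.cast_mul]
      congr 2
      ring
    have e2 : (-(2 * (Real.pi : ℂ) * (b₁ * m₁ : ℕ) * z)) = (-(2 * (Real.pi : ℂ) * m₁ * (b₁ * z))) := by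
      push_cast; ring
    have e3 : (-(2 * (Real.pi : ℂ) * (b₂ * m₂ : ℕ) * w)) = (-(2 * (Real.pi : ℂ) * m₂ * (b₂ * w))) := by
      push_cast; ring
    rw [e1, e2, e3]
    push_cast
    ring
  -- left hand side
  have hL : ∀ n : ℕ × ℕ, ∑' p : (fun p : (ℕ × ℕ) × (ℕ × ℕ) => (p.1.1 * p.2.1, p.1.2 * p.2.2)) ⁻¹' {n},
      Q k q u z w p = gk k n.1 n.2 * ((n.1 * n.2 : ℕ) : ℂ) ^ (u - 1 / 2) *
      (exp (-(2 * Real.pi * n.1 * z)) * exp (-(2 * Real.pi * n.2 * w))) := by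
    rintro ⟨n₁, n₂⟩
    by_cases hn : n₁ = 0 ∨ n₂ = 0
    · have hg : gk k n₁ n₂ = 0 := by
        unfold gk
        rcases hn with h | h <;> subst h <;> simp [Pool.Agent.H5.c_zero]
      simp only [hg, zero_mul]
      convert tsum_zero with p
      obtain ⟨⟨⟨b₁, b₂⟩, m₁, m₂⟩, hp⟩ := p
      simp only [Set.mem_preimage, Set.mem_singleton_iff, Prod.mk.injEq] at hp
      simp only [Q]
      obtain ⟨hp1, hp2⟩ := hp
      rcases hn with h | h
      · rw [h] at hp1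
        rcases Nat.mul_eq_zero.1 hp1 with h' | h' <;> subst h'
        · simp [eps]
        · simp [Pool.Agent.H5.bd_zero]
      · rw [h] at hp2
        rcases Nat.mul_eq_zero.1 hp2 with h' | h' <;> subst h'
        · simp [eps]
        · simp [Pool.Agent.H5.bd_zero]
    · push Not at hn
      have hn1 : 0 < n₁ := Nat.pos_of_ne_zero hn.1
      have hn2 : 0 < n₂ := Nat.pos_of_ne_zero hn.2
      have hset : (fun p : (ℕ × ℕ) × (ℕ × ℕ) => (p.1.1 * p.2.1, p.1.2 * p.2.2)) ⁻¹' {(n₁, n₂)} =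
          (((n₁.divisors ×ˢ n₂.divisors).image
            (fun b : ℕ × ℕ => (b, (n₁ / b.1, n₂ / b.2))) : Finset ((ℕ × ℕ) × (ℕ × ℕ))) :
            Set ((ℕ × ℕ) × (ℕ × ℕ))) := by
        ext ⟨⟨b₁, b₂⟩, m₁, m₂⟩
        simp only [Set.mem_preimage, Set.mem_singleton_iff, Prod.mk.injEq, Finset.coe_image,
          Set.mem_image, Finset.mem_coe, Finset.mem_product, Nat.mem_divisors, Prod.exists]
        constructor
        · rintro ⟨h1, h2⟩
          refine ⟨b₁, b₂, ⟨⟨⟨m₁, h1.symm⟩, hn1.ne'⟩, ⟨m₂, h2.symm⟩, hn2.ne'⟩, ⟨rfl, rfl⟩, ?_, ?_⟩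
          · rw [← h1]
            apply Nat.mul_div_cancel_left
            rcases Nat.eq_zero_or_pos b₁ with h | h
            · subst h; simp at h1; omega
            · exact h
          · rw [← h2]
            apply Nat.mul_div_cancel_left
            rcases Nat.eq_zero_or_pos b₂ with h | h
            · subst h; simp at h2; omega
            · exact h
        · rintro ⟨a, b, ⟨⟨h1, _⟩, h2, _⟩, ⟨rfl, rfl⟩, rfl, rfl⟩
          exact ⟨Nat.mul_div_cancel' h1, Nat.mul_div_cancel' h2⟩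
      rw [hset, Finset.tsum_subtype', Finset.sum_image (by
        intro a _ b _ hab
        exact (Prod.mk.inj hab).1), Finset.sum_product]
      simp only
      rw [gk_eq k q hn1 hn2, Finset.sum_mul, Finset.sum_mul]
      apply Finset.sum_congr rfl
      intro x hx
      rw [Finset.sum_mul, Finset.sum_mul]
      apply Finset.sum_congr rfl
      intro y hy
      simp only [Q]
      rw [Nat.mul_div_cancel' (Nat.dvd_of_mem_divisors hx),
        Nat.mul_div_cancel' (Nat.dvd_of_mem_divisors hy)]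
  have hF := hQ.hasSum.tsum_fiberwise (fun p : (ℕ × ℕ) × (ℕ × ℕ) => (p.1.1 * p.2.1, p.1.2 * p.2.2))
  simp only [hL] at hF
  have hP := hQ.prod
  simp only [hR] at hP
  refine ⟨hF.summable, hP, ?_⟩
  rw [hF.tsum_eq, hQ.tsum_prod]
  simp only [hR]

end Pool.Agent.ZD
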