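import Mathlib
import Pool.Agent.ZD.Defs

/-!
Module G1 of the zero density project: Poisson summation in `D`, multiplicativity and trivial
bounds of the quadratic Gauss sums `tau k m`.
-/

set_option autoImplicit false

open Complex Finset MeasureTheory

namespace Pool.Agent.ZD

open Pool.Agent.H5 (c bd Lser)

namespace G1

lemma norm_exp_twopi (x : ℝ) : ‖exp (2 * Real.pi * I * (x : ℂ))‖ = 1 := by
  have : (2 * Real.pi * I * (x : ℂ) : ℂ) = ((2 * Real.pi * x : ℝ) : ℂ) * I := by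
    push_cast; ring
  rw [this, norm_exp_ofReal_mul_I]

lemma norm_jacobi_le (a : ℤ) (m : ℕ) : ‖(jacobiSym a m : ℂ)‖ ≤ 1 := by
  rcases jacobiSym.trichotomy a m with h | h | h <;> simp [h]

/-- the additive character `e(k x / m)` only depends on `x mod m` -/
lemma exp_congr (k : ℤ) {m : ℕ} (hm : m ≠ 0) {x y : ℤ} (h : x % m = y % m) :
    exp (2 * Real.pi * I * (k * x / m)) = exp (2 * Real.pi * I * (k * y / m)) := by
  have hd : (m : ℤ) ∣ x - y := Int.ModEq.dvd (show y % m = x % m from h.symm)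
  obtain ⟨t, ht⟩ := hd
  have hx : x = y + m * t := by linarith
  subst hx
  have hm' : (m : ℂ) ≠ 0 := by exact_mod_cast hm
  have : (2 * Real.pi * I * (k * ((y + m * t : ℤ) : ℂ) / m) : ℂ) =
      2 * Real.pi * I * (k * y / m) + ((k * t : ℤ) : ℂ) * (2 * Real.pi * I) := by
    push_cast
    field_simp
  rw [this, Complex.exp_add, Complex.exp_int_mul_two_pi_mul_I, mul_one]

/-- a residue class with symbol `-1` -/
lemma exists_jacobi_neg_one {m : ℕ} (hm : Odd m) (h : ¬ IsSquare m) :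
    ∃ y : ℕ, jacobiSym y m = -1 := by
  have hm0 : m ≠ 0 := by rintro rfl; simp at h
  -- a prime with odd exponent
  obtain ⟨p, hp, hodd⟩ : ∃ p, p.Prime ∧ Odd (m.factorization p) := by
    by_contra hcon
    push Not at hcon
    apply h
    refine ⟨∏ p ∈ m.primeFactors, p ^ (m.factorization p / 2), ?_⟩
    rw [← Finset.prod_mul_distrib]
    conv_lhs => rw [← Nat.prod_factorization_pow_eq_self hm0]
    rw [Finsupp.prod, Nat.support_factorization]
    refine Finset.prod_congr rfl fun p hp => ?_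
    have h2 := hcon p (Nat.prime_of_mem_primeFactors hp)
    rw [Nat.not_odd_iff_even] at h2
    obtain ⟨r, hr⟩ := h2
    rw [hr, ← pow_add]
    congr 1
    omega
  have hp2 : p ≠ 2 := by
    rintro rfl
    have : 0 < m.factorization 2 := hodd.pos
    have h2 : 2 ∣ m := Nat.dvd_of_factorization_pos this.ne'
    have := Nat.odd_iff.1 hm
    omega
  have := Fact.mk hp
  set e := m.factorization p with he
  set n := m / p ^ e with hn
  have hmn : p ^ e * n = m := Nat.ordProj_mul_ordCompl_eq_self m p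
  have hcop : p.Coprime n := Nat.coprime_ordCompl hp hm0
  have hn0 : n ≠ 0 := by rintro h0; rw [h0] at hmn; simp at hmn; exact hm0 hmn.symm
  obtain ⟨a, ha⟩ := FiniteField.exists_nonsquare (F := ZMod p) (by
    rw [ZMod.ringChar_zmod_n]; exact hp2)
  obtain ⟨y, hy1, hy2⟩ := Nat.chineseRemainder hcop a.val 1
  refine ⟨y, ?_⟩
  have hJp : jacobiSym y p = -1 := by
    rw [ZMod.nonsquare_iff_jacobiSym_eq_neg_one]
    have : ((y : ℤ) : ZMod p) = a := by
      have h1 : ((y : ℕ) : ZMod p) = (a.val : ℕ) := (ZMod.natCast_eq_natCast_iff _ _ _).2 hy1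
      rw [ZMod.natCast_zmod_val] at h1
      exact_mod_cast h1
    rw [this]; exact ha
  have hJn : jacobiSym y n = 1 := by
    have : (y : ℤ) % n = (1 : ℤ) % n := by exact_mod_cast hy2
    rw [jacobiSym.mod_left' this, jacobiSym.one_left]
  rw [← hmn, jacobiSym.mul_right' _ (pow_ne_zero _ hp.ne_zero) hn0, jacobiSym.pow_right, hJp, hJn,
    hodd.neg_one_pow, mul_one]

end G1

open G1

theorem sum_range_jacobi {m : ℕ} (hm : Odd m) (h : ¬ IsSquare m) :
    ∑ x ∈ range m, jacobiSym x m = 0 := by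
  obtain ⟨y, hy⟩ := exists_jacobi_neg_one hm h
  have hm0 : 0 < m := hm.pos
  have : NeZero m := ⟨hm0.ne'⟩
  have hcop : Nat.Coprime y m := by
    by_contra hc
    have : jacobiSym y m = 0 := by
      rw [jacobiSym.eq_zero_iff_not_coprime]
      exact_mod_cast hc
    rw [this] at hy
    norm_num at hy
  have key : ∑ x ∈ range m, jacobiSym x m = ∑ x ∈ range m, jacobiSym ((y * x % m : ℕ) : ℤ) m := by
    symm
    refine Finset.sum_bij (fun x _ => y * x % m) (fun x hx => by
      simp [Nat.mod_lt _ hm0]) ?_ ?_ ?_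
    · intro x1 h1 x2 h2 h12
      have h3 : x1 ≡ x2 [MOD m] := Nat.ModEq.cancel_left_of_coprime hcop.symm h12
      rw [Finset.mem_range] at h1 h2
      exact Nat.ModEq.eq_of_lt_of_lt h3 h1 h2
    · intro b hb
      have hinj : Set.InjOn (fun x => y * x % m) (range m : Set ℕ) := by
        intro x1 h1 x2 h2 h12
        have h3 : x1 ≡ x2 [MOD m] := Nat.ModEq.cancel_left_of_coprime hcop.symm h12
        rw [Finset.mem_coe, Finset.mem_range] at h1 h2
        exact Nat.ModEq.eq_of_lt_of_lt h3 h1 h2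
      have := Finset.surj_on_of_inj_on_of_card_le (s := range m) (t := range m)
        (fun x _ => y * x % m) (fun x hx => by simp [Nat.mod_lt _ hm0])
        (fun x1 x2 h1 h2 h12 => hinj (by simpa using h1) (by simpa using h2) h12) le_rfl b hb
      obtain ⟨a, ha, hab⟩ := this
      exact ⟨a, ha, hab.symm⟩
    · intro x hx; rfl
  have key2 : ∑ x ∈ range m, jacobiSym ((y * x % m : ℕ) : ℤ) m =
      -∑ x ∈ range m, jacobiSym x m := by
    rw [← Finset.sum_neg_distrib]
    refine Finset.sum_congr rfl fun x _ => ?_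
    have : ((y * x % m : ℕ) : ℤ) % m = ((y : ℤ) * x) % m := by
      push_cast; rw [Int.emod_emod_of_dvd _ (dvd_refl _)]
    rw [jacobiSym.mod_left' this, jacobiSym.mul_left, hy]
    ring
  linarith

theorem tau_one (k : ℤ) : tau k 1 = 1 := by
  simp [tau]

theorem norm_tau_le (k : ℤ) (m : ℕ) : ‖tau k m‖ ≤ m := by
  unfold tau
  refine (norm_sum_le _ _).trans ?_
  have : ∀ x ∈ range m, ‖(jacobiSym x m : ℂ) * exp (2 * Real.pi * I * (k * x / m))‖ ≤ 1 := by
    intro x _
    rw [norm_mul]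
    have h2 : ‖exp (2 * Real.pi * I * (k * x / m))‖ = 1 := by
      have := norm_exp_twopi (k * x / m)
      push_cast at this
      exact this
    rw [h2, mul_one]
    exact norm_jacobi_le _ _
  refine (Finset.sum_le_sum this).trans ?_
  simp

theorem tau_zero_not_square {m : ℕ} (hm : Odd m) (h : ¬ IsSquare m) : tau 0 m = 0 := by
  have h1 := sum_range_jacobi hm h
  unfold tau
  have : ∀ x ∈ range m, (jacobiSym x m : ℂ) * exp (2 * Real.pi * I * ((0 : ℤ) * x / m)) =
      ((jacobiSym x m : ℤ) : ℂ) := by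
    intro x _; simp
  rw [Finset.sum_congr rfl this, ← Int.cast_sum, h1, Int.cast_zero]

theorem tau_mul (k : ℤ) {m n : ℕ} (hm : Odd m) (hn : Odd n) (hmn : m.Coprime n) (h4 : m % 4 = 1) :
    tau k (m * n) = tau k m * tau k n := by
  have hm0 : 0 < m := hm.pos
  have hn0 : 0 < n := hn.pos
  have : NeZero m := ⟨hm0.ne'⟩
  have : NeZero n := ⟨hn0.ne'⟩
  have hmn0 : 0 < m * n := Nat.mul_pos hm0 hn0
  unfold tau
  rw [Finset.sum_mul_sum, ← Finset.sum_product']
  symm
  have hinj : ∀ a ∈ range m ×ˢ range n, ∀ b ∈ range m ×ˢ range n,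
      (n * a.1 + m * a.2) % (m * n) = (n * b.1 + m * b.2) % (m * n) → a = b := by
    rintro ⟨a1, a2⟩ ha ⟨b1, b2⟩ hb hab
    simp only [Finset.mem_product, Finset.mem_range] at ha hb
    have h0 : (n * a1 + m * a2) ≡ (n * b1 + m * b2) [MOD m * n] := hab
    have h1 : n * a1 ≡ n * b1 [MOD m] := by
      have := (Nat.ModEq.of_mul_right n h0)
      have e1 : n * a1 + m * a2 ≡ n * a1 [MOD m] := by
        simp [Nat.ModEq]
      have e2 : n * b1 + m * b2 ≡ n * b1 [MOD m] := by
        simp [Nat.ModEq]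
      exact e1.symm.trans (this.trans e2)
    have h2 : m * a2 ≡ m * b2 [MOD n] := by
      have := (Nat.ModEq.of_mul_left m h0)
      have e1 : n * a1 + m * a2 ≡ m * a2 [MOD n] := by
        simp [Nat.ModEq]
      have e2 : n * b1 + m * b2 ≡ m * b2 [MOD n] := by
        simp [Nat.ModEq]
      exact e1.symm.trans (this.trans e2)
    have h3 : a1 ≡ b1 [MOD m] := Nat.ModEq.cancel_left_of_coprime hmn h1
    have h4 : a2 ≡ b2 [MOD n] := Nat.ModEq.cancel_left_of_coprime hmn.symm h2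
    ext
    · exact Nat.ModEq.eq_of_lt_of_lt h3 ha.1 hb.1
    · exact Nat.ModEq.eq_of_lt_of_lt h4 ha.2 hb.2
  refine Finset.sum_bij (fun a _ => (n * a.1 + m * a.2) % (m * n)) (fun x hx => by
      simp [Nat.mod_lt _ hmn0]) (fun a ha b hb hab => hinj a ha b hb hab) ?_ ?_
  · intro b hb
    obtain ⟨a, ha, hab⟩ := Finset.surj_on_of_inj_on_of_card_le (s := range m ×ˢ range n)
      (t := range (m * n)) (fun a _ => (n * a.1 + m * a.2) % (m * n))
      (fun x hx => by simp [Nat.mod_lt _ hmn0])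
      (fun x1 x2 h1 h2 h12 => hinj x1 h1 x2 h2 h12) (by simp) b hb
    exact ⟨a, ha, hab.symm⟩
  · rintro ⟨x1, x2⟩ hx
    simp only
    set x := (n * x1 + m * x2) % (m * n) with hxdef
    have hmod : ((x : ℕ) : ℤ) % ((m * n : ℕ) : ℤ) = ((n * x1 + m * x2 : ℤ)) % ((m * n : ℕ) : ℤ) := by
      rw [hxdef]; push_cast; rw [Int.emod_emod_of_dvd _ (dvd_refl _)]
    have hJ : jacobiSym x (m * n) = jacobiSym x1 m * jacobiSym x2 n := by
      rw [jacobiSym.mod_left' hmod, jacobiSym.mul_right]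
      have e1 : (n * x1 + m * x2 : ℤ) % m = ((n : ℤ) * x1) % m := by
        simp [Int.add_mul_emod_self_left]
      have e2 : (n * x1 + m * x2 : ℤ) % n = ((m : ℤ) * x2) % n := by
        rw [add_comm]
        simp [Int.add_mul_emod_self_left]
      rw [jacobiSym.mod_left' e1, jacobiSym.mod_left' e2, jacobiSym.mul_left, jacobiSym.mul_left]
      have hrec : jacobiSym (n : ℤ) m = jacobiSym (m : ℤ) n :=
        (jacobiSym.quadratic_reciprocity_one_mod_four h4 hn).symm
      have hsq : jacobiSym (m : ℤ) n * jacobiSym (m : ℤ) n = 1 := by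
        have := jacobiSym.sq_one (a := (m : ℤ)) (b := n) (by
          exact_mod_cast hmn)
        rw [sq] at this; exact this
      rw [hrec]
      linear_combination (jacobiSym x1 m * jacobiSym x2 n) * hsq
    have hE : exp (2 * Real.pi * I * (k * (x : ℕ) / ((m * n : ℕ) : ℂ))) =
        exp (2 * Real.pi * I * (k * (x1 : ℕ) / m)) * exp (2 * Real.pi * I * (k * (x2 : ℕ) / n)) := by
      have h1 := exp_congr k hmn0.ne' hmod
      have h2 : ((x : ℤ) : ℂ) = ((x : ℕ) : ℂ) := by push_cast; rfl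
      rw [h2] at h1
      rw [h1, ← Complex.exp_add]
      congr 1
      have hm' : (m : ℂ) ≠ 0 := by exact_mod_cast hm0.ne'
      have hn' : (n : ℂ) ≠ 0 := by exact_mod_cast hn0.ne'
      push_cast
      field_simp
    rw [hJ, hE]
    push_cast
    ring

/-! ### Poisson summation -/

namespace G1

/-- Poisson summation on a residue class -/
lemma hasSum_class {m : ℕ} (hm : 0 < m) (x : ℤ) {Z : ℝ} (hZ : 0 < Z) :
    ∃ A : ℂ, HasSum (fun j : ℤ => exp (-(Real.pi * ((j * m + x : ℤ) : ℂ) ^ 2 / Z ^ 2))) A ∧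
      HasSum (fun k : ℤ => ((Z / m : ℝ) : ℂ) *
        (exp (2 * Real.pi * I * (k * x / m)) * exp (-(Real.pi * k ^ 2 * Z ^ 2 / m ^ 2)))) A := by
  have hm' : (m : ℝ) ≠ 0 := by exact_mod_cast hm.ne'
  have hmc : (m : ℂ) ≠ 0 := by exact_mod_cast hm.ne'
  have hZc : (Z : ℂ) ≠ 0 := by exact_mod_cast hZ.ne'
  set τ : ℂ := ((Z ^ 2 / m ^ 2 : ℝ) : ℂ) * I with hτ
  set z : ℂ := (x : ℂ) / m with hz
  have hτim : 0 < τ.im := by
    rw [hτ]; simp only [mul_im, ofReal_re, I_im, mul_one, ofReal_im, I_re, mul_zero, add_zero]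
    positivity
  have hτ' : 0 < (-1 / τ).im := by
    have : (-1 / τ) = ((m ^ 2 / Z ^ 2 : ℝ) : ℂ) * I := by
      rw [hτ]; push_cast; field_simp; rw [I_sq]
    rw [this]; simp only [mul_im, ofReal_re, I_im, mul_one, ofReal_im, I_re, mul_zero, add_zero]
    positivity
  have h1 := hasSum_jacobiTheta₂_term z hτim
  have h2 := hasSum_jacobiTheta₂_term (z / τ) hτ'
  have hfe := jacobiTheta₂_functional_equation z τ
  have hsqrt : (-I * τ) ^ (1 / 2 : ℂ) = ((Z / m : ℝ) : ℂ) := by
    have e1 : -I * τ = ((Z ^ 2 / m ^ 2 : ℝ) : ℂ) := by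
      rw [hτ]; ring_nf; rw [I_sq]; ring
    rw [e1, show (1 / 2 : ℂ) = ((1 / 2 : ℝ) : ℂ) by push_cast; ring, ← Complex.ofReal_cpow (by positivity)]
    congr 1
    rw [← Real.sqrt_eq_rpow, show (Z ^ 2 / (m : ℝ) ^ 2) = (Z / m) ^ 2 by ring,
      Real.sqrt_sq (by positivity)]
  refine ⟨((Z / m : ℝ) : ℂ) * jacobiTheta₂ z τ, ?_, ?_⟩
  · rw [hfe, hsqrt]
    have h3 := (h2.mul_left (cexp (-Real.pi * I * z ^ 2 / τ)))
    rw [← (Equiv.neg ℤ).hasSum_iff] at h3
    have hZm : ((Z / m : ℝ) : ℂ) ≠ 0 := by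
      have : (Z / m : ℝ) ≠ 0 := by positivity
      exact_mod_cast this
    have hval : ((Z / m : ℝ) : ℂ) * (1 / ((Z / m : ℝ) : ℂ) * cexp (-Real.pi * I * z ^ 2 / τ) *
        jacobiTheta₂ (z / τ) (-1 / τ)) =
        cexp (-Real.pi * I * z ^ 2 / τ) * jacobiTheta₂ (z / τ) (-1 / τ) := by
      field_simp
    rw [hval]
    refine h3.congr_fun fun j => ?_
    simp only [Function.comp_apply, Equiv.neg_apply, jacobiTheta₂_term]
    rw [← Complex.exp_add]
    congr 1
    rw [hτ, hz]
    push_cast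
    field_simp
    ring
  · refine (h1.mul_left _).congr_fun fun k => ?_
    simp only [jacobiTheta₂_term]
    rw [← Complex.exp_add]
    congr 2
    rw [hτ, hz]
    push_cast
    field_simp
    ring_nf
    simp only [I_sq]
    ring

end G1

theorem poisson {m : ℕ} (hm : Odd m) {Z : ℝ} (hZ : 0 < Z) :
    Summable (fun D : ℤ => (jacobiSym D m : ℂ) * exp (-(Real.pi * D ^ 2 / Z ^ 2))) ∧
    HasSum (fun k : ℤ => ((Z / m : ℝ) : ℂ) * (tau k m * exp (-(Real.pi * k ^ 2 * Z ^ 2 / m ^ 2))))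
      (∑' D : ℤ, (jacobiSym D m : ℂ) * exp (-(Real.pi * D ^ 2 / Z ^ 2))) := by
  have hm0 : 0 < m := hm.pos
  have : NeZero m := ⟨hm0.ne'⟩
  have hsum0 : Summable (fun D : ℤ => exp (-(Real.pi * (D : ℂ) ^ 2 / Z ^ 2))) := by
    obtain ⟨A, hA, -⟩ := hasSum_class (m := 1) one_pos 0 hZ
    refine hA.summable.congr fun j => ?_
    simp
  have hsum : Summable (fun D : ℤ => (jacobiSym D m : ℂ) * exp (-(Real.pi * D ^ 2 / Z ^ 2))) := by
    refine Summable.of_norm_bounded hsum0.norm fun D => ?_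
    rw [norm_mul]
    exact mul_le_of_le_one_left (norm_nonneg _) (norm_jacobi_le _ _)
  refine ⟨hsum, ?_⟩
  choose A hA1 hA2 using fun x : Fin m => hasSum_class hm0 (x : ℤ) hZ
  have hJ : ∀ (j : ℤ) (x : Fin m), jacobiSym (j * m + x) m = jacobiSym (x : ℕ) m := by
    intro j x
    apply jacobiSym.mod_left'
    simp
  -- the sum over `D`
  have hD : ∑' D : ℤ, (jacobiSym D m : ℂ) * exp (-(Real.pi * D ^ 2 / Z ^ 2)) =
      ∑ x : Fin m, (jacobiSym (x : ℕ) m : ℂ) * A x := by
    set e : Fin m × ℤ ≃ ℤ := (Equiv.prodComm _ _).trans (Int.divModEquiv m).symm with he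
    have h1 : Summable (fun p : Fin m × ℤ => (jacobiSym (e p) m : ℂ) *
        exp (-(Real.pi * (e p : ℂ) ^ 2 / Z ^ 2))) := (e.summable_iff).2 hsum
    have h2 := h1.hasSum.prod_fiberwise (g := fun x : Fin m => (jacobiSym (x : ℕ) m : ℂ) * A x)
      (fun x => by
        refine ((hA1 x).mul_left (jacobiSym (x : ℕ) m : ℂ)).congr_fun fun j => ?_
        have hej : e (x, j) = j * m + x := by
          simp [he, Int.divModEquiv]
        rw [hej, hJ])
    have h3 := h2.unique (hasSum_fintype _)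
    rw [← h3]
    exact (e.tsum_eq (fun D : ℤ => (jacobiSym D m : ℂ) * exp (-(Real.pi * (D : ℂ) ^ 2 / Z ^ 2)))).symm
  rw [hD]
  have h4 := hasSum_sum (s := (univ : Finset (Fin m))) (fun x _ =>
    (hA2 x).mul_left (jacobiSym (x : ℕ) m : ℂ))
  refine h4.congr_fun fun k => ?_
  unfold tau
  rw [Finset.sum_range, Finset.sum_mul, Finset.mul_sum]
  refine Finset.sum_congr rfl fun x _ => ?_
  push_cast
  ring

end Pool.Agent.ZD
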