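import Mathlib

set_option autoImplicit false

open Finset

namespace Pool.Agent.ZD

namespace E2

/-! ### generic Euler product bound -/

lemma euler_bound {G : ℕ → ℝ} (h0 : ∀ n, 0 ≤ G n) (h00 : G 0 = 0) (h1 : G 1 = 1)
    (hmul : ∀ m n, m.Coprime n → G (m * n) = G m * G n)
    (hs : ∀ p, p.Prime → Summable (fun e => G (p ^ e))) {B : ℝ} (N₀ : ℕ)
    (hB : ∀ N, N₀ ≤ N → ∏ p ∈ (range N).filter Nat.Prime, ∑' e, G (p ^ e) ≤ B) (u : Finset ℕ) :
    ∑ n ∈ u, G n ≤ B := by
  classical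
  obtain ⟨N, hN0, hN⟩ : ∃ N, N₀ ≤ N ∧ ∀ n ∈ u, n < N :=
    ⟨N₀ + (u.sup id + 1), by omega, fun n hn => by
      have := Finset.le_sup (f := id) hn
      simp only [id] at this
      omega⟩
  have h := EulerProduct.summable_and_hasSum_factoredNumbers_prod_filter_prime_tsum (f := G) h1
    (fun {m n} h => hmul m n h)
    (fun {p} hp => by simpa [abs_of_nonneg (h0 _)] using hs p hp) (range N)
  have h4 : ∑ n ∈ u, G n = ∑ n ∈ u.filter (fun n => n ≠ 0), G n := by
    rw [Finset.sum_filter]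
    apply Finset.sum_congr rfl
    intro n _
    by_cases hn : n = 0
    · simp [hn, h00]
    · simp [hn]
  have h5 : ∀ n ∈ u.filter (fun n => n ≠ 0), n ∈ Nat.factoredNumbers (range N) := by
    intro n hn
    rw [Finset.mem_filter] at hn
    rw [Nat.mem_factoredNumbers]
    refine ⟨hn.2, fun p hp => ?_⟩
    rw [Finset.mem_range]
    have h6 := Nat.le_of_mem_primeFactorsList hp
    exact lt_of_le_of_lt h6 (hN n hn.1)
  rw [h4, ← Finset.sum_subtype_of_mem (p := fun n => n ∈ Nat.factoredNumbers (range N)) G h5]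
  have h7 := h.2
  have h8 : ∑ x ∈ (u.filter (fun n => n ≠ 0)).subtype
      (fun n => n ∈ Nat.factoredNumbers (range N)), G x ≤
      ∑' m : Nat.factoredNumbers (range N), G m :=
    h7.summable.sum_le_tsum _ (fun _ _ => h0 _)
  rw [h7.tsum_eq] at h8
  exact h8.trans (hB N hN0)

lemma double_bound {F : ℕ → ℕ → ℝ} (h0 : ∀ a b, 0 ≤ F a b) (hz1 : ∀ b, F 0 b = 0)
    (hz2 : ∀ a, F a 0 = 0) {B : ℝ}
    (hB : ∀ u : Finset ℕ, ∑ n ∈ u, ∑ x ∈ n.divisorsAntidiagonal, F x.1 x.2 ≤ B) :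
    Summable (fun b : ℕ × ℕ => F b.1 b.2) ∧ ∑' b : ℕ × ℕ, F b.1 b.2 ≤ B := by
  classical
  have key : ∀ u : Finset (ℕ × ℕ), ∑ b ∈ u, F b.1 b.2 ≤ B := by
    intro u
    refine le_trans ?_ (hB (u.image (fun b => b.1 * b.2)))
    rw [← Finset.sum_fiberwise_of_maps_to (s := u) (t := u.image (fun b => b.1 * b.2))
      (g := fun b => b.1 * b.2) (fun b hb => Finset.mem_image_of_mem _ hb)]
    refine Finset.sum_le_sum (fun n _ => ?_)
    by_cases hn : n = 0
    · have : ∑ b ∈ u.filter (fun b => b.1 * b.2 = n), F b.1 b.2 = 0 := by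
        apply Finset.sum_eq_zero
        intro b hb
        rw [Finset.mem_filter, hn, mul_eq_zero] at hb
        rcases hb.2 with h | h
        · rw [h, hz1]
        · rw [h, hz2]
      rw [this]
      exact Finset.sum_nonneg (fun _ _ => h0 _ _)
    · apply Finset.sum_le_sum_of_subset_of_nonneg
      · intro b hb
        rw [Finset.mem_filter] at hb
        rw [Nat.mem_divisorsAntidiagonal]
        exact ⟨hb.2, hn⟩
      · intro _ _ _; exact h0 _ _
  have hs : Summable (fun b : ℕ × ℕ => F b.1 b.2) :=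
    summable_of_sum_le (fun b => h0 _ _) key
  exact ⟨hs, hs.tsum_le_of_sum_le key⟩

lemma sum_divisors_coprime {M : Type*} [AddCommMonoid M] {m n : ℕ} (h : m.Coprime n) (f : ℕ → M) :
    ∑ x ∈ (m * n).divisors, f x = ∑ x ∈ m.divisors, ∑ y ∈ n.divisors, f (x * y) := by
  classical
  have h1 : (m * n).divisors = (m.divisors ×ˢ n.divisors).image (fun p : ℕ × ℕ => p.1 * p.2) := by
    rw [Nat.divisors_mul]; rfl
  rw [h1, Finset.sum_image (fun x hx y hy hxy => h.mul_injOn_divisors hx hy hxy),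
    Finset.sum_product]

lemma sum_dA_coprime {m n : ℕ} (h : m.Coprime n) (f : ℕ → ℕ → ℝ) :
    ∑ x ∈ (m * n).divisorsAntidiagonal, f x.1 x.2 =
      ∑ x ∈ m.divisorsAntidiagonal, ∑ y ∈ n.divisorsAntidiagonal, f (x.1 * y.1) (x.2 * y.2) := by
  rw [Nat.sum_divisorsAntidiagonal (f := f), sum_divisors_coprime h,
    Nat.sum_divisorsAntidiagonal (f := fun a b => ∑ y ∈ n.divisorsAntidiagonal, f (a * y.1) (b * y.2))]
  refine Finset.sum_congr rfl (fun x hx => ?_)
  rw [Nat.sum_divisorsAntidiagonal (f := fun a b => f (x * a) (m / x * b))]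
  refine Finset.sum_congr rfl (fun y hy => ?_)
  rw [Nat.mul_div_mul_comm (Nat.dvd_of_mem_divisors hx) (Nat.dvd_of_mem_divisors hy)]

/-! ### the zeta sum -/

lemma zeta_sum_le {η : ℝ} (h0 : 0 < η) (h1 : η ≤ 1) (N : ℕ) :
    ∑ n ∈ range (N + 1), ((n + 1 : ℕ) : ℝ) ^ (-(1 + η)) ≤ 1 + 1 / η - ((N + 1 : ℕ) : ℝ) ^ (-η) / η := by
  induction N with
  | zero => simp
  | succ N ih =>
    rw [Finset.sum_range_succ]
    set M : ℝ := ((N + 1 + 1 : ℕ) : ℝ) with hM
    have hM2 : 2 ≤ M := by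
      rw [hM]; push_cast
      have : (0:ℝ) ≤ N := by positivity
      linarith
    have hM0 : 0 < M := by linarith
    have hN : ((N + 1 : ℕ) : ℝ) = M * (1 + -(1 / M)) := by
      rw [hM]; push_cast
      field_simp
      ring
    rw [hN] at ih
    have h2 : (1 + -(1 / M)) ^ η ≤ 1 + η * (-(1 / M)) :=
      rpow_one_add_le_one_add_mul_self (by
        have : 1 / M ≤ 1 := by rw [div_le_one hM0]; linarith
        linarith) h0.le h1
    have hinv : 1 / M ≤ 1 / 2 := by
      apply one_div_le_one_div_of_le <;> linarith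
    have hinv0 : 0 < 1 / M := by positivity
    have h3 : 0 < 1 + -(1 / M) := by linarith
    have h4 : 0 < (1 + -(1 / M)) ^ η := Real.rpow_pos_of_pos h3 _
    have h5 : 1 + η / M ≤ (1 + -(1 / M)) ^ (-η) := by
      rw [Real.rpow_neg h3.le]
      have h6 : 0 < 1 - η / M := by
        have : η / M ≤ 1 / 2 := by
          rw [div_le_div_iff₀ hM0 (by norm_num)]
          nlinarith
        linarith
      have h7 : (1 + -(1 / M)) ^ η ≤ 1 - η / M := by
        calc _ ≤ _ := h2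
          _ = _ := by ring
      have h8 : (1 - η / M)⁻¹ ≤ ((1 + -(1 / M)) ^ η)⁻¹ := inv_anti₀ h4 h7
      refine le_trans ?_ h8
      rw [← one_div, le_div_iff₀ h6]
      nlinarith [sq_nonneg (η / M)]
    rw [Real.mul_rpow hM0.le h3.le] at ih
    have h9 : 0 < M ^ (-η) := Real.rpow_pos_of_pos hM0 _
    have h10 : M ^ (-(1 + η)) = M ^ (-η) / M := by
      rw [show -(1 + η) = -η - 1 by ring, Real.rpow_sub_one hM0.ne']
    rw [h10]
    have h11 : M ^ (-η) * (1 + η / M) / η ≤ M ^ (-η) * (1 + -(1 / M)) ^ (-η) / η := by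
      apply div_le_div_of_nonneg_right _ h0.le
      exact mul_le_mul_of_nonneg_left h5 h9.le
    have h12 : M ^ (-η) * (1 + η / M) / η = M ^ (-η) / η + M ^ (-η) / M := by
      field_simp
    rw [h12] at h11
    linarith

lemma zeta_le {η : ℝ} (h0 : 0 < η) (h1 : η ≤ 1) :
    Summable (fun n : ℕ => (n : ℝ) ^ (-(1 + η))) ∧ ∑' n : ℕ, (n : ℝ) ^ (-(1 + η)) ≤ 1 + 1 / η := by
  have hs : Summable (fun n : ℕ => (n : ℝ) ^ (-(1 + η))) :=
    Real.summable_nat_rpow.2 (by linarith)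
  refine ⟨hs, ?_⟩
  rw [hs.tsum_eq_zero_add]
  have hz : ((0 : ℕ) : ℝ) ^ (-(1 + η)) = 0 := by
    rw [Nat.cast_zero, Real.zero_rpow (by linarith)]
  rw [hz, zero_add]
  have hs2 : Summable (fun n : ℕ => ((n + 1 : ℕ) : ℝ) ^ (-(1 + η))) :=
    (summable_nat_add_iff 1).2 hs
  refine Real.tsum_le_of_sum_range_le (fun n => by positivity) (fun n => ?_)
  rcases n with _ | N
  · simp; positivity
  · have h2 := zeta_sum_le h0 h1 N
    have h3 : (0:ℝ) ≤ ((N + 1 : ℕ) : ℝ) ^ (-η) / η := by positivity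
    linarith

/-- `∏_{p<N} (1 + p^{-1-η}) ≤ 1 + 1/η` -/
lemma prod_prime_le {η : ℝ} (h0 : 0 < η) (h1 : η ≤ 1) (N : ℕ) :
    ∏ p ∈ (range N).filter Nat.Prime, (1 + (p : ℝ) ^ (-(1 + η))) ≤ 1 + 1 / η := by
  obtain ⟨hs, hle⟩ := zeta_le h0 h1
  set f : ℕ → ℝ := fun n => (n : ℝ) ^ (-(1 + η)) with hf
  have hf1 : f 1 = 1 := by simp [hf]
  have hfm : ∀ {m n : ℕ}, m.Coprime n → f (m * n) = f m * f n := by
    intro m n _
    simp only [hf, Nat.cast_mul]
    exact Real.mul_rpow (by positivity) (by positivity)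
  have hf0 : ∀ n, 0 ≤ f n := fun n => by simp only [hf]; positivity
  have hsn : Summable (fun n => ‖f n‖) := by
    simpa [abs_of_nonneg (hf0 _)] using hs
  have h2 := EulerProduct.prod_filter_prime_tsum_eq_tsum_factoredNumbers hf1 hfm hsn (range N)
  have h3 : ∑' m : Nat.factoredNumbers (range N), f m ≤ ∑' m, f m :=
    Summable.tsum_subtype_le f (Nat.factoredNumbers (range N)) hf0 hs
  refine le_trans ?_ (h2.le.trans (h3.trans hle))
  apply Finset.prod_le_prod
  · intro p _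
    have := hf0 p
    simp only [hf] at this
    linarith
  · intro p hp
    rw [Finset.mem_filter] at hp
    have hsp : Summable (fun n : ℕ => f (p ^ n)) :=
      hs.comp_injective (Nat.pow_right_injective hp.2.one_lt)
    have h4 := hsp.sum_le_tsum (range 2) (fun _ _ => hf0 _)
    simpa [Finset.sum_range_succ, hf1, hf] using h4

lemma prod_val_le {v : ℕ} (hv : v ≠ 0) {N : ℕ} (hN : v + 1 ≤ N) (K : ℕ) :
    ∏ p ∈ (range N).filter Nat.Prime, ((v.factorization p + 1 : ℕ) : ℝ) ^ K =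
      (v.divisors.card : ℝ) ^ K := by
  rw [Finset.prod_pow, Nat.card_divisors hv, Nat.cast_prod]
  congr 1
  symm
  apply Finset.prod_subset
  · intro p hp
    rw [Finset.mem_filter, Finset.mem_range]
    have hp' := Nat.prime_of_mem_primeFactors hp
    exact ⟨lt_of_le_of_lt (Nat.le_of_mem_primeFactors hp) (by omega), hp'⟩
  · intro p _ hp
    have : v.factorization p = 0 := by
      rwa [← Finsupp.notMem_support_iff, Nat.support_factorization]
    rw [this]; simp

end E2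

end Pool.Agent.ZD
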