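import Mathlib

/-!
Zero density (MP_553913_nt), module G2, part a: the sign of the quadratic Gauss sum,
`∑_{x mod p} e(x²/p) = √p` for `p ≡ 1 mod 4`, through the theta series.
-/

set_option autoImplicit false

open Complex Finset Filter Topology

namespace Pool.Agent.ZD.Sign

lemma summable_real : Summable fun n : ℤ => Real.exp (-Real.pi * (n : ℝ) ^ 2) := by
  have h := ((summable_jacobiTheta₂_term_iff 0 I).mpr (by simp)).norm
  refine h.congr fun n => ?_
  rw [jacobiTheta₂_term, Complex.norm_exp]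
  congr 1
  have : (2 * Real.pi * I * n * 0 + Real.pi * I * (n : ℂ) ^ 2 * I : ℂ) =
      ((-Real.pi * (n : ℝ) ^ 2 : ℝ) : ℂ) := by
    push_cast
    linear_combination (Real.pi * (n : ℂ) ^ 2) * Complex.I_sq
  rw [this, Complex.ofReal_re]

noncomputable def C0 : ℝ := ∑' n : ℤ, Real.exp (-Real.pi * (n : ℝ) ^ 2)

/-- the theta series `∑ exp(-π c n² + 2π i n φ)` is close to `1` when `Re c` is large -/
lemma norm_theta_sub_one {c : ℂ} (hc : 1 ≤ c.re) (φ : ℝ) :
    ‖(∑' n : ℤ, exp (-Real.pi * c * n ^ 2 + 2 * Real.pi * I * n * φ)) - 1‖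
      ≤ Real.exp (-Real.pi * (c.re - 1)) * C0 := by
  have hn : ∀ n : ℤ, ‖exp (-Real.pi * c * n ^ 2 + 2 * Real.pi * I * n * φ)‖
      = Real.exp (-Real.pi * c.re * (n : ℝ) ^ 2) := by
    intro n
    rw [Complex.norm_exp]
    congr 1
    have h1 : (2 * Real.pi * I * n * φ : ℂ) = ((2 * Real.pi * n * φ : ℝ) : ℂ) * I := by
      push_cast; ring
    have h2 : (-Real.pi * c * n ^ 2 : ℂ) = ((-Real.pi * (n : ℝ) ^ 2 : ℝ) : ℂ) * c := by
      push_cast; ring
    rw [h1, h2, Complex.add_re, Complex.re_ofReal_mul, Complex.re_ofReal_mul, Complex.I_re]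
    ring
  have hle : ∀ n : ℤ, n ≠ 0 → Real.exp (-Real.pi * c.re * (n : ℝ) ^ 2) ≤
      Real.exp (-Real.pi * (c.re - 1)) * Real.exp (-Real.pi * (n : ℝ) ^ 2) := by
    intro n hn0
    rw [← Real.exp_add]
    apply Real.exp_le_exp.mpr
    have h1 : (1 : ℝ) ≤ (n : ℝ) ^ 2 := by
      have : (1 : ℤ) ≤ n ^ 2 := by
        have := sq_nonneg n
        have h2 : n ^ 2 ≠ 0 := pow_ne_zero 2 hn0
        omega
      exact_mod_cast this
    have h2 := Real.pi_pos
    nlinarith [mul_nonneg h2.le (mul_nonneg (sub_nonneg.mpr hc) (sub_nonneg.mpr h1))]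
  have hs : Summable fun n : ℤ => exp (-Real.pi * c * n ^ 2 + 2 * Real.pi * I * n * φ) := by
    rw [← summable_norm_iff]
    refine Summable.of_nonneg_of_le (fun n => norm_nonneg _) (fun n => ?_) summable_real
    rw [hn n]
    apply Real.exp_le_exp.mpr
    have h2 := Real.pi_pos
    nlinarith [mul_nonneg h2.le (mul_nonneg (sub_nonneg.mpr hc) (sq_nonneg (n : ℝ)))]
  have h1 : (∑' n : ℤ, exp (-Real.pi * c * n ^ 2 + 2 * Real.pi * I * n * φ)) - 1 =
      ∑' n : ℤ, (exp (-Real.pi * c * n ^ 2 + 2 * Real.pi * I * n * φ) - if n = 0 then 1 else 0) := by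
    rw [Summable.tsum_sub hs]
    · rw [tsum_ite_eq]
    · exact (hasSum_ite_eq (0 : ℤ) (1 : ℂ)).summable
  rw [h1]
  refine tsum_of_norm_bounded (summable_real.hasSum.mul_left _) fun n => ?_
  by_cases h0 : n = 0
  · subst h0
    simp [Real.exp_nonneg]
  · rw [if_neg h0, sub_zero, hn]
    exact hle n h0

/-- Poisson summation for one progression -/
lemma progression {δ : ℂ} (hδ : 0 < δ.re) {m : ℝ} (hm : 0 < m) (r : ℝ) :
    ∑' n : ℤ, exp (-Real.pi * δ * (m * n + r) ^ 2) =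
      1 / (δ * m ^ 2) ^ (1 / 2 : ℂ) *
        ∑' n : ℤ, exp (-Real.pi * (1 / (δ * m ^ 2)) * n ^ 2 + 2 * Real.pi * I * n * (r / m : ℝ)) := by
  have hδ0 : δ ≠ 0 := by rintro rfl; simp at hδ
  have hm0 : (m : ℂ) ≠ 0 := by exact_mod_cast hm.ne'
  have ha : 0 < (δ * m ^ 2).re := by
    rw [← Complex.ofReal_pow, mul_comm, Complex.re_ofReal_mul]
    positivity
  have h := Complex.tsum_exp_neg_quadratic ha (-δ * m * r)
  have h1 : ∀ n : ℤ, exp (-Real.pi * δ * (m * n + r) ^ 2) =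
      exp (-Real.pi * δ * r ^ 2) *
        exp (-Real.pi * (δ * m ^ 2) * n ^ 2 + 2 * Real.pi * (-δ * m * r) * n) := by
    intro n
    rw [← Complex.exp_add]
    congr 1
    ring
  have h2 : ∀ n : ℤ, exp (-Real.pi * (1 / (δ * m ^ 2)) * n ^ 2 + 2 * Real.pi * I * n * (r / m : ℝ))
      = exp (-Real.pi * δ * r ^ 2) *
        exp (-Real.pi / (δ * m ^ 2) * (n + I * (-δ * m * r)) ^ 2) := by
    intro n
    rw [← Complex.exp_add]
    congr 1
    push_cast
    field_simp
    linear_combination (δ ^ 2 * m ^ 2 * r ^ 2) * Complex.I_sq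
  rw [tsum_congr h1, tsum_mul_left, h, tsum_congr h2, tsum_mul_left]
  ring

/-- splitting of a theta series with periodic coefficients into progressions -/
lemma periodic_sum {m : ℕ} (hm : 0 < m) {f : ℤ → ℂ} (hf : ∀ k n : ℤ, f (k * m + n) = f n) {B : ℝ}
    (hB : ∀ n, ‖f n‖ ≤ B) {δ : ℂ} (hδ : 0 < δ.re) :
    ∑' n : ℤ, f n * exp (-Real.pi * δ * n ^ 2) =
      ∑ x ∈ range m, f x * ∑' k : ℤ, exp (-Real.pi * δ * ((m : ℝ) * k + (x : ℝ)) ^ 2) := by
  have : NeZero m := ⟨hm.ne'⟩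
  have hs0 : Summable fun n : ℤ => exp (-Real.pi * δ * n ^ 2) := by
    have h := (summable_jacobiTheta₂_term_iff 0 (I * δ)).mpr (by simpa using hδ)
    refine h.congr fun n => ?_
    rw [jacobiTheta₂_term]
    congr 1
    linear_combination (Real.pi * (n : ℂ) ^ 2 * δ) * Complex.I_sq
  have hs : Summable fun n : ℤ => f n * exp (-Real.pi * δ * n ^ 2) := by
    refine Summable.of_norm_bounded (hs0.norm.mul_left B) fun n => ?_
    rw [norm_mul]
    exact mul_le_mul_of_nonneg_right (hB n) (norm_nonneg _)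
  set F : ℤ → ℂ := fun n => f n * exp (-Real.pi * δ * n ^ 2) with hF
  let e : Fin m × ℤ ≃ ℤ := (Equiv.prodComm _ _).trans (Int.divModEquiv m).symm
  have h1 : ∑' n : ℤ, F n = ∑' q : Fin m × ℤ, F (e q) := (e.tsum_eq F).symm
  have h2 : Summable fun q : Fin m × ℤ => F (e q) := (e.summable_iff (f := F)).mpr hs
  rw [h1, h2.tsum_prod, tsum_fintype, Finset.sum_range]
  refine Finset.sum_congr rfl fun x _ => ?_
  rw [← tsum_mul_left]
  refine tsum_congr fun k => ?_
  have h3 : e (x, k) = k * m + (x : ℕ) := by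
    simp [e]
  rw [h3, hF]
  simp only []
  rw [hf]
  congr 2
  push_cast
  ring

lemma tendsto_periodic {α : Type*} {l : Filter α} {δ : α → ℂ} (h1 : ∀ᶠ t in l, 0 < (δ t).re)
    (h2 : Tendsto (fun t => (1 / δ t).re) l atTop) {m : ℕ} (hm : 0 < m) {f : ℤ → ℂ}
    (hf : ∀ k n : ℤ, f (k * m + n) = f n) {B : ℝ} (hB : ∀ n, ‖f n‖ ≤ B) :
    Tendsto (fun t => (δ t * m ^ 2) ^ (1 / 2 : ℂ) * ∑' n : ℤ, f n * exp (-Real.pi * δ t * n ^ 2)) l
      (𝓝 (∑ x ∈ range m, f x)) := by
  have hm' : (0 : ℝ) < m := by exact_mod_cast hm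
  have hc : Tendsto (fun t => (1 / (δ t * m ^ 2)).re) l atTop := by
    have h3 : ∀ t, (1 / (δ t * m ^ 2)).re = (1 / (m : ℝ) ^ 2) * (1 / δ t).re := by
      intro t
      rw [← Complex.re_ofReal_mul]
      congr 1
      push_cast
      rw [one_div_mul_one_div, mul_comm]
    simp_rw [h3]
    exact h2.const_mul_atTop (by positivity)
  have hlim : Tendsto (fun t => (∑ x ∈ range m, ‖f x‖) *
      (Real.exp (-Real.pi * ((1 / (δ t * m ^ 2)).re - 1)) * C0)) l (𝓝 0) := by
    have h4 : Tendsto (fun t => -Real.pi * ((1 / (δ t * m ^ 2)).re - 1)) l atBot := by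
      apply Tendsto.const_mul_atTop_of_neg (by linarith [Real.pi_pos])
      exact tendsto_atTop_add_const_right l (-1) hc
    have h5 := (Real.tendsto_exp_atBot.comp h4)
    have h6 := (h5.mul_const C0).const_mul (∑ x ∈ range m, ‖f x‖)
    simpa using h6
  rw [tendsto_iff_norm_sub_tendsto_zero]
  refine squeeze_zero' (Eventually.of_forall fun t => norm_nonneg _) ?_ hlim
  filter_upwards [h1, hc.eventually_ge_atTop 1] with t ht1 ht2
  rw [periodic_sum hm hf hB ht1, mul_sum, ← sum_sub_distrib, sum_mul]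
  refine (norm_sum_le _ _).trans (sum_le_sum fun x _ => ?_)
  have hne : δ t * m ^ 2 ≠ 0 := by
    apply mul_ne_zero
    · intro h0
      rw [h0] at ht1
      simp at ht1
    · exact pow_ne_zero 2 (by exact_mod_cast hm.ne')
  have hne2 : (δ t * m ^ 2) ^ (1 / 2 : ℂ) ≠ 0 := by
    rw [Complex.cpow_def_of_ne_zero hne]
    exact Complex.exp_ne_zero _
  have h7 := progression ht1 hm' (x : ℝ)
  have h8 : (δ t * (m : ℂ) ^ 2) ^ (1 / 2 : ℂ) *
        (f x * ∑' k : ℤ, exp (-Real.pi * δ t * ((m : ℝ) * k + (x : ℝ)) ^ 2)) - f x =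
      f x * ((∑' n : ℤ, exp (-Real.pi * (1 / (δ t * m ^ 2)) * n ^ 2 +
        2 * Real.pi * I * n * ((x : ℝ) / m : ℝ))) - 1) := by
    rw [h7]
    simp only [Complex.ofReal_natCast]
    field_simp
  rw [h8, norm_mul]
  exact mul_le_mul_of_nonneg_left (norm_theta_sub_one ht2 _) (norm_nonneg _)

lemma real_mul_cpow {r : ℝ} (hr : 0 < r) {w : ℂ} (hw : w ≠ 0) :
    ((r : ℂ) * w) ^ (1 / 2 : ℂ) = (r : ℂ) ^ (1 / 2 : ℂ) * w ^ (1 / 2 : ℂ) := by
  have hr0 : (r : ℂ) ≠ 0 := by exact_mod_cast hr.ne'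
  rw [Complex.cpow_def_of_ne_zero (mul_ne_zero hr0 hw), Complex.cpow_def_of_ne_zero hr0,
    Complex.cpow_def_of_ne_zero hw, Complex.log_ofReal_mul hr hw, ← Complex.exp_add,
    Complex.ofReal_log hr.le]
  congr 1
  ring

lemma exp_int_mul {z : ℂ} {n : ℤ} {w : ℂ} (h : z = 2 * Real.pi * I * n + w) : exp z = exp w := by
  rw [h, Complex.exp_add]
  have : (2 * Real.pi * I * n : ℂ) = n * (2 * Real.pi * I) := by ring
  rw [this, Complex.exp_int_mul_two_pi_mul_I, one_mul]

theorem sum_exp_sq {p : ℕ} (h4 : p % 4 = 1) :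
    ∑ x ∈ range p, exp (2 * Real.pi * I * ((x : ℤ) : ℂ) ^ 2 / p) = (Real.sqrt p : ℂ) := by
  have hp : 0 < p := by omega
  have hpR : (0 : ℝ) < p := by exact_mod_cast hp
  have hpC : (p : ℂ) ≠ 0 := by exact_mod_cast hp.ne'
  set l : Filter ℝ := 𝓝[>] (0 : ℝ) with hl
  have hpos : ∀ᶠ t in l, 0 < t := self_mem_nhdsWithin
  have ht0 : Tendsto (fun t : ℝ => t) l (𝓝 0) := tendsto_id.mono_left nhdsWithin_le_nhds
  -- first limit
  let f1 : ℤ → ℂ := fun n => exp (2 * Real.pi * I * (n : ℂ) ^ 2 / p)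
  have hf1 : ∀ k n : ℤ, f1 (k * p + n) = f1 n := by
    intro k n
    apply exp_int_mul (n := k ^ 2 * p + 2 * k * n)
    push_cast
    field_simp
    ring
  have hB1 : ∀ n, ‖f1 n‖ ≤ 1 := by
    intro n
    have : (2 * Real.pi * I * (n : ℂ) ^ 2 / p) = ((2 * Real.pi * (n : ℝ) ^ 2 / p : ℝ) : ℂ) * I := by
      push_cast; ring
    simp only [f1]
    rw [this, Complex.norm_exp_ofReal_mul_I]
  have hinv : Tendsto (fun t : ℝ => t⁻¹) l atTop := tendsto_inv_nhdsGT_zero
  have L1 := tendsto_periodic (l := l) (δ := fun t : ℝ => (t : ℂ)) (by simpa using hpos)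
    (by
      refine hinv.congr fun t => ?_
      rw [one_div, ← Complex.ofReal_inv, Complex.ofReal_re]) hp hf1 hB1
  -- second limit
  let f2 : ℤ → ℂ := fun n => exp (-Real.pi * I * p * (n : ℂ) ^ 2 / 2)
  have hf2 : ∀ k n : ℤ, f2 (k * (2 : ℕ) + n) = f2 n := by
    intro k n
    apply exp_int_mul (n := -(p * (k ^ 2 + k * n)))
    push_cast
    ring
  have hB2 : ∀ n, ‖f2 n‖ ≤ 1 := by
    intro n
    have : (-Real.pi * I * p * (n : ℂ) ^ 2 / 2) = ((-Real.pi * p * (n : ℝ) ^ 2 / 2 : ℝ) : ℂ) * I := by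
      push_cast; ring
    simp only [f2]
    rw [this, Complex.norm_exp_ofReal_mul_I]
  let w : ℝ → ℂ := fun t => 1 / (1 + I * p * t / 2)
  let δ2 : ℝ → ℂ := fun t => ((t * p ^ 2 / 4 : ℝ) : ℂ) * w t
  have hinvδ : ∀ t : ℝ, 0 < t → 1 / δ2 t = ((4 / p ^ 2 * t⁻¹ : ℝ) : ℂ) + ((2 / p : ℝ) : ℂ) * I := by
    intro t ht
    have htC : (t : ℂ) ≠ 0 := by exact_mod_cast ht.ne'
    simp only [δ2, w]
    push_cast
    rw [← one_div_mul_one_div, one_div_one_div]
    field_simp
    ring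
  have hre : ∀ t : ℝ, 0 < t → (1 / δ2 t).re = 4 / p ^ 2 * t⁻¹ := by
    intro t ht
    rw [hinvδ t ht, Complex.add_re, Complex.ofReal_re, Complex.re_ofReal_mul, Complex.I_re]
    ring
  have hδ2 : ∀ t : ℝ, 0 < t → 0 < (δ2 t).re := by
    intro t ht
    have h1 : 0 < (1 / δ2 t).re := by
      rw [hre t ht]; positivity
    have h2 : δ2 t = (1 / δ2 t)⁻¹ := by simp
    rw [h2, Complex.inv_re]
    apply div_pos h1
    rw [Complex.normSq_pos]
    intro h0
    rw [h0] at h1
    simp at h1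
  have L2 := tendsto_periodic (l := l) (δ := δ2) (hpos.mono hδ2)
    (by
      refine Tendsto.congr' ?_ (hinv.const_mul_atTop (show (0 : ℝ) < 4 / p ^ 2 by positivity))
      filter_upwards [hpos] with t ht
      rw [hre t ht]) (m := 2) (by norm_num) hf2 hB2
  -- the sum on the right
  have hS2 : ∑ x ∈ range 2, f2 ((x : ℕ) : ℤ) = 1 - I := by
    rw [Finset.sum_range_succ, Finset.sum_range_one]
    have h0 : f2 ((0 : ℕ) : ℤ) = 1 := by simp [f2]
    have h1 : f2 ((1 : ℕ) : ℤ) = -I := by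
      obtain ⟨q, hq⟩ : ∃ q : ℕ, p = 4 * q + 1 := ⟨p / 4, by omega⟩
      have : f2 ((1 : ℕ) : ℤ) = exp (-Real.pi / 2 * I) := by
        apply exp_int_mul (n := -(q : ℤ))
        rw [hq]
        push_cast
        ring
      rw [this]
      have h3 : (-Real.pi / 2 * I : ℂ) = ((-(Real.pi / 2) : ℝ) : ℂ) * I := by push_cast; ring
      rw [h3, Complex.exp_mul_I, ← Complex.ofReal_cos, ← Complex.ofReal_sin, Real.cos_neg,
        Real.sin_neg, Real.cos_pi_div_two, Real.sin_pi_div_two]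
      push_cast
      ring
    rw [h0, h1]
    ring
  rw [hS2] at L2
  -- the transformation formula
  let a : ℝ → ℂ := fun t => t - 2 * I / p
  have key : ∀ t : ℝ, 0 < t → ∑' n : ℤ, f1 n * exp (-Real.pi * t * n ^ 2) =
      1 / (a t) ^ (1 / 2 : ℂ) * ∑' n : ℤ, f2 n * exp (-Real.pi * δ2 t * n ^ 2) := by
    intro t ht
    have ha : 0 < (a t).re := by
      have : a t = ((t : ℝ) : ℂ) - ((2 / p : ℝ) : ℂ) * I := by
        simp only [a]; push_cast; ring
      rw [this]
      simpa using ht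
    have ha0 : a t ≠ 0 := by
      intro h0; rw [h0] at ha; simp at ha
    have h1 := Complex.tsum_exp_neg_mul_int_sq ha
    have htC : (t : ℂ) ≠ 0 := by exact_mod_cast ht.ne'
    have h2 : 1 / a t = p * I / 2 + δ2 t := by
      have hw0 : (1 + I * p * t / 2 : ℂ) ≠ 0 := by
        intro h0
        have := hδ2 t ht
        simp only [δ2, w] at this
        rw [h0] at this
        simp at this
      have h5 : (a t) * (I * p / 2) = 1 + I * p * t / 2 := by
        simp only [a]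
        field_simp
        linear_combination (-2 : ℂ) * Complex.I_sq
      have h6 : δ2 t = (t * p ^ 2 / 4) / (1 + I * p * t / 2) := by
        simp only [δ2, w]
        push_cast
        ring
      have h7 : (t * p ^ 2 / 4 : ℂ) = I * p / 2 - I * p / 2 * (a t * (I * p / 2)) := by
        rw [h5]
        linear_combination (t * p ^ 2 / 4 : ℂ) * Complex.I_sq
      rw [h6, h7, ← h5]
      have h8 : (I * p / 2 : ℂ) ≠ 0 := by
        simp [hp.ne']
      have h9 : (p * I / 2 : ℂ) = I * p / 2 := by ring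
      rw [h9]
      generalize (I * p / 2 : ℂ) = c at h8 ⊢
      field_simp
      ring
    have h3 : ∀ n : ℤ, f1 n * exp (-Real.pi * t * n ^ 2) = exp (-Real.pi * a t * n ^ 2) := by
      intro n
      simp only [f1, a]
      rw [← Complex.exp_add]
      congr 1
      field_simp
      ring
    have h4' : ∀ n : ℤ, f2 n * exp (-Real.pi * δ2 t * n ^ 2) = exp (-Real.pi / a t * n ^ 2) := by
      intro n
      simp only [f2]
      rw [← Complex.exp_add]
      congr 1
      have : (-Real.pi / a t : ℂ) = -Real.pi * (p * I / 2 + δ2 t) := by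
        rw [← h2]; ring
      rw [this]
      ring
    rw [tsum_congr h3, tsum_congr h4', h1]
  -- the limits of the weights
  have hw : Tendsto (fun t => (w t) ^ (1 / 2 : ℂ)) l (𝓝 1) := by
    have h1 : Tendsto w l (𝓝 1) := by
      have h2 : Tendsto (fun t : ℝ => (1 + I * p * (t : ℂ) / 2 : ℂ)) l (𝓝 (1 + I * p * ((0 : ℝ) : ℂ) / 2)) := by
        apply Tendsto.const_add
        apply Tendsto.div_const
        apply Tendsto.const_mul
        exact (Complex.continuous_ofReal.tendsto 0).comp ht0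
      have h3 := h2.inv₀ (by simp)
      simp only [Complex.ofReal_zero, mul_zero, zero_div, add_zero, inv_one] at h3
      refine h3.congr fun t => ?_
      simp [w]
    have h4 : Tendsto (fun t => (w t) ^ (1 / 2 : ℂ)) l (𝓝 ((1 : ℂ) ^ (1 / 2 : ℂ))) :=
      h1.cpow tendsto_const_nhds (by simp)
    simpa using h4
  have ha : Tendsto (fun t => (a t) ^ (1 / 2 : ℂ)) l (𝓝 ((1 - I) / Real.sqrt p)) := by
    have h1 : Tendsto a l (𝓝 (((0 : ℝ) : ℂ) - 2 * I / p)) := by
      apply Tendsto.sub_const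
      exact (Complex.continuous_ofReal.tendsto 0).comp ht0
    have h4 : Tendsto (fun t => (a t) ^ (1 / 2 : ℂ)) l
        (𝓝 ((((0 : ℝ) : ℂ) - 2 * I / p) ^ (1 / 2 : ℂ))) := by
      apply h1.cpow tendsto_const_nhds
      right
      have : (((0 : ℝ) : ℂ) - 2 * I / p) = ((-(2 / p) : ℝ) : ℂ) * I := by push_cast; ring
      rw [this]
      simp [hp.ne']
    have h5 : (((0 : ℝ) : ℂ) - 2 * I / p) = ((1 - I) / Real.sqrt p) ^ 2 := by
      rw [div_pow]
      have h6 : ((Real.sqrt p : ℝ) : ℂ) ^ 2 = p := by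
        rw [← Complex.ofReal_pow, Real.sq_sqrt hpR.le]
        simp
      rw [h6]
      push_cast
      field_simp
      linear_combination (-1 : ℂ) * Complex.I_sq
    have h7 : 0 < ((1 - I) / (Real.sqrt p : ℂ)).re := by
      rw [Complex.div_ofReal_re]
      simp [hp]
    rw [h5] at h4
    have h8 := Complex.sq_cpow_two_inv h7
    rw [one_div] at h4
    rw [h8] at h4
    simpa only [one_div] using h4
  -- conclusion
  have hfin : Tendsto (fun t : ℝ => ((δ2 t) * (2 : ℕ) ^ 2) ^ (1 / 2 : ℂ) *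
      ∑' n : ℤ, f2 n * exp (-Real.pi * δ2 t * n ^ 2)) l
      (𝓝 ((∑ x ∈ range p, f1 x) * (1 * ((1 - I) / Real.sqrt p)))) := by
    refine Tendsto.congr' ?_ (L1.mul (hw.mul ha))
    filter_upwards [hpos] with t ht
    have hw0 : w t ≠ 0 := by
      intro h0
      have := hδ2 t ht
      simp only [δ2] at this
      rw [h0] at this
      simp at this
    have ha' : (a t) ^ (1 / 2 : ℂ) ≠ 0 := by
      have : a t ≠ 0 := by
        have ha : 0 < (a t).re := by
          have : a t = ((t : ℝ) : ℂ) - ((2 / p : ℝ) : ℂ) * I := by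
            simp only [a]; push_cast; ring
          rw [this]
          simpa using ht
        intro h0; rw [h0] at ha; simp at ha
      rw [Complex.cpow_def_of_ne_zero this]
      exact Complex.exp_ne_zero _
    have h1 : (δ2 t) * (2 : ℕ) ^ 2 = ((t * p ^ 2 : ℝ) : ℂ) * w t := by
      simp only [δ2]
      push_cast
      ring
    rw [h1, real_mul_cpow (by positivity) hw0, key t ht]
    push_cast
    field_simp
  have huniq := tendsto_nhds_unique hfin L2
  have hI : (1 - I : ℂ) ≠ 0 := by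
    intro h0
    have := congrArg Complex.re h0
    simp at this
  have hsq : (Real.sqrt p : ℂ) ≠ 0 := by
    exact_mod_cast (Real.sqrt_pos.mpr hpR).ne'
  have h9 : (∑ x ∈ range p, f1 x) * (1 - I) = (Real.sqrt p : ℂ) * (1 - I) := by
    have h10 : (∑ x ∈ range p, f1 x) * (1 - I) =
        (Real.sqrt p : ℂ) * ((∑ x ∈ range p, f1 x) * (1 * ((1 - I) / Real.sqrt p))) := by
      field_simp
    rw [h10, huniq]
  exact mul_right_cancel₀ hI h9

end Pool.Agent.ZD.Sign
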