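import Pool.Agent.ZD.Defs
import Pool.Agent.ZD.G2a

/-!
Zero density (MP_553913_nt), module G2: quadratic Gauss sums for prime powers.
-/

set_option autoImplicit false

open Complex Finset

namespace Pool.Agent.ZD

lemma sum_range_zmod {m : ℕ} [NeZero m] (g : ZMod m → ℂ) :
    ∑ x ∈ range m, g (x : ZMod m) = ∑ x : ZMod m, g x := by
  refine Finset.sum_nbij' (fun x => ((x : ℕ) : ZMod m)) ZMod.val ?_ ?_ ?_ ?_ ?_
  · intro x _; exact Finset.mem_univ _
  · intro x _; exact Finset.mem_range.mpr (ZMod.val_lt x)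
  · intro x hx; exact ZMod.val_cast_of_lt (Finset.mem_range.mp hx)
  · intro x _; exact ZMod.natCast_zmod_val x
  · intro x _; rfl

lemma jacobi_eq_quadraticChar {p : ℕ} [Fact p.Prime] (a : ℤ) :
    jacobiSym a p = quadraticChar (ZMod p) (a : ZMod p) := by
  rw [← jacobiSym.legendreSym.to_jacobiSym]
  rfl

/-- the quadratic character as a complex function -/
lemma tau_eq_zmod (k : ℤ) {p : ℕ} [Fact p.Prime] :
    tau k p = ∑ x : ZMod p, ((quadraticChar (ZMod p) x : ℤ) : ℂ) * ZMod.stdAddChar ((k : ZMod p) * x) := by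
  rw [tau, ← sum_range_zmod]
  refine Finset.sum_congr rfl fun x _ => ?_
  have h1 : ((k : ZMod p) * ((x : ℕ) : ZMod p)) = ((k * x : ℤ) : ZMod p) := by push_cast; rfl
  rw [h1, ZMod.stdAddChar_coe, jacobi_eq_quadraticChar]
  congr 2
  · push_cast; rfl
  · push_cast; ring

lemma ringChar_ne_two {p : ℕ} [Fact p.Prime] (h2 : p ≠ 2) : ringChar (ZMod p) ≠ 2 := by
  rw [ZMod.ringChar_zmod_n]; exact h2

theorem tau_prime_dvd {k : ℤ} {p : ℕ} (hp : p.Prime) (h2 : p ≠ 2) (hk : (p : ℤ) ∣ k) :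
    tau k p = 0 := by
  have := Fact.mk hp
  have hk0 : (k : ZMod p) = 0 := (ZMod.intCast_zmod_eq_zero_iff_dvd k p).mpr hk
  rw [tau_eq_zmod, hk0]
  simp only [zero_mul, AddChar.map_zero_eq_one, mul_one]
  have := quadraticChar_sum_zero (ringChar_ne_two h2)
  exact_mod_cast this

lemma tau_shift (k : ℤ) {p : ℕ} [Fact p.Prime] (hk : ¬ (p : ℤ) ∣ k) :
    tau k p = (jacobiSym k p : ℂ) * tau 1 p := by
  have hk0 : (k : ZMod p) ≠ 0 := fun h => hk ((ZMod.intCast_zmod_eq_zero_iff_dvd k p).mp h)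
  rw [tau_eq_zmod, tau_eq_zmod, jacobi_eq_quadraticChar, Finset.mul_sum]
  refine Fintype.sum_bijective (fun x => (k : ZMod p) * x) (mulLeft_bijective₀ _ hk0) _ _ fun x => ?_
  rw [map_mul (quadraticChar (ZMod p))]
  have h3 : ((quadraticChar (ZMod p) (k : ZMod p) : ℤ) : ℂ) *
      ((quadraticChar (ZMod p) (k : ZMod p) : ℤ) : ℂ) = 1 := by
    have := quadraticChar_sq_one hk0
    rw [sq] at this
    exact_mod_cast this
  push_cast
  rw [one_mul]
  linear_combination (-((quadraticChar (ZMod p) x : ℤ) : ℂ) *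
    ZMod.stdAddChar ((k : ZMod p) * x)) * h3

lemma tau_one_prime {p : ℕ} [Fact p.Prime] (h4 : p % 4 = 1) : tau 1 p = (Real.sqrt p : ℂ) := by
  classical
  have h2 : p ≠ 2 := by rintro rfl; omega
  rw [← Sign.sum_exp_sq h4, tau_eq_zmod]
  have h1 : ∀ x ∈ range p, exp (2 * Real.pi * I * ((x : ℤ) : ℂ) ^ 2 / p) =
      ZMod.stdAddChar (((x : ℕ) : ZMod p) ^ 2) := by
    intro x _
    have h1 : (((x : ℕ) : ZMod p) ^ 2) = (((x : ℤ) ^ 2 : ℤ) : ZMod p) := by push_cast; rfl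
    rw [h1, ZMod.stdAddChar_coe]
    congr 1
    push_cast
    ring
  rw [Finset.sum_congr rfl h1, sum_range_zmod (fun x => ZMod.stdAddChar (x ^ 2))]
  have h3 : ∑ x : ZMod p, (ZMod.stdAddChar (x ^ 2) : ℂ) =
      ∑ y : ZMod p, ((quadraticChar (ZMod p) y + 1 : ℤ) : ℂ) * ZMod.stdAddChar y := by
    rw [← Finset.sum_fiberwise (s := Finset.univ) (g := fun x : ZMod p => x ^ 2)
      (f := fun x => (ZMod.stdAddChar (x ^ 2) : ℂ))]
    refine Finset.sum_congr rfl fun y _ => ?_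
    rw [← quadraticChar_card_sqrts (ringChar_ne_two h2) y]
    have h5 : ∀ x ∈ Finset.univ.filter (fun x : ZMod p => x ^ 2 = y),
        (ZMod.stdAddChar (x ^ 2) : ℂ) = ZMod.stdAddChar y := by
      intro x hx
      rw [(Finset.mem_filter.mp hx).2]
    rw [Finset.sum_congr rfl h5, Finset.sum_const, nsmul_eq_mul]
    congr 2
    congr 1
    ext x
    simp
  rw [h3]
  have h6 : ∑ y : ZMod p, (ZMod.stdAddChar y : ℂ) = 0 := by
    apply AddChar.sum_eq_zero_of_ne_one
    intro h0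
    have h7 := ZMod.isPrimitive_stdAddChar p (a := 1) one_ne_zero
    apply h7
    rw [AddChar.mulShift_one]
    exact h0
  have h8 : ∀ y : ZMod p, ((quadraticChar (ZMod p) y + 1 : ℤ) : ℂ) * ZMod.stdAddChar y =
      ((quadraticChar (ZMod p) y : ℤ) : ℂ) * ZMod.stdAddChar y + ZMod.stdAddChar y := by
    intro y; push_cast; ring
  rw [Finset.sum_congr rfl fun y _ => h8 y, Finset.sum_add_distrib, h6, add_zero]
  simp

theorem tau_prime (k : ℤ) {p : ℕ} (hp : p.Prime) (h4 : p % 4 = 1) :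
    tau k p = (jacobiSym k p : ℂ) * (Real.sqrt p : ℂ) := by
  have := Fact.mk hp
  have h2 : p ≠ 2 := by rintro rfl; omega
  by_cases hk : (p : ℤ) ∣ k
  · rw [tau_prime_dvd hp h2 hk, jacobi_eq_quadraticChar,
      (ZMod.intCast_zmod_eq_zero_iff_dvd k p).mpr hk]
    simp
  · rw [tau_shift k hk, tau_one_prime h4]

lemma sum_range_mul' (f : ℕ → ℂ) (p M : ℕ) :
    ∑ x ∈ range (p * M), f x = ∑ t ∈ range M, ∑ x ∈ range p, f (x + p * t) := by
  induction M with
  | zero => simp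
  | succ M ih =>
    rw [Finset.sum_range_succ, ← ih, mul_add, mul_one, Finset.sum_range_add]
    congr 1
    refine Finset.sum_congr rfl fun x _ => ?_
    rw [add_comm]

lemma sum_exp_range (k : ℤ) {M : ℕ} (hM : 0 < M) :
    ∑ t ∈ range M, exp (2 * Real.pi * I * (k * t / M)) = if (M : ℤ) ∣ k then (M : ℂ) else 0 := by
  classical
  have : NeZero M := ⟨hM.ne'⟩
  have h1 : ∀ t ∈ range M, exp (2 * Real.pi * I * (k * t / M)) =
      ZMod.stdAddChar (((t : ℕ) : ZMod M) * (k : ZMod M)) := by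
    intro t _
    have h2 : (((t : ℕ) : ZMod M) * (k : ZMod M)) = ((t * k : ℤ) : ZMod M) := by push_cast; rfl
    rw [h2, ZMod.stdAddChar_coe]
    congr 1
    push_cast
    ring
  rw [Finset.sum_congr rfl h1, sum_range_zmod (fun t => ZMod.stdAddChar (t * (k : ZMod M))),
    AddChar.sum_mulShift _ (ZMod.isPrimitive_stdAddChar M)]
  simp only [ZMod.intCast_zmod_eq_zero_iff_dvd, ZMod.card]
  split_ifs <;> simp

lemma tau_pow_eq (k : ℤ) {p e : ℕ} (hp : p.Prime) :
    tau k (p ^ (e + 1)) = (∑ x ∈ range p, (jacobiSym x (p ^ (e + 1)) : ℂ) *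
      exp (2 * Real.pi * I * (k * x / (p ^ (e + 1) : ℕ)))) *
        if ((p ^ e : ℕ) : ℤ) ∣ k then ((p ^ e : ℕ) : ℂ) else 0 := by
  have hpC : (p : ℂ) ≠ 0 := by exact_mod_cast hp.ne_zero
  rw [← sum_exp_range k (pow_pos hp.pos e), Finset.mul_sum]
  have h1 : tau k (p ^ (e + 1)) = ∑ x ∈ range (p * p ^ e), (jacobiSym x (p ^ (e + 1)) : ℂ) *
      exp (2 * Real.pi * I * (k * x / (p ^ (e + 1) : ℕ))) := by
    rw [tau]
    congr 1
    congr 1
    ring
  rw [h1, sum_range_mul']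
  refine Finset.sum_congr rfl fun t _ => ?_
  rw [Finset.sum_mul]
  refine Finset.sum_congr rfl fun x _ => ?_
  have h2 : jacobiSym ((x + p * t : ℕ) : ℤ) (p ^ (e + 1)) = jacobiSym (x : ℤ) (p ^ (e + 1)) := by
    rw [jacobiSym.pow_right, jacobiSym.pow_right]
    congr 1
    apply jacobiSym.mod_left'
    push_cast
    rw [Int.add_mul_emod_self_left]
  have h3 : exp (2 * Real.pi * I * (k * ((x + p * t : ℕ) : ℂ) / (p ^ (e + 1) : ℕ))) =
      exp (2 * Real.pi * I * (k * x / (p ^ (e + 1) : ℕ))) *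
        exp (2 * Real.pi * I * (k * t / (p ^ e : ℕ))) := by
    rw [← Complex.exp_add]
    congr 1
    push_cast
    field_simp
    ring
  rw [h2, h3]
  ring

theorem tau_prime_pow_eq_zero {k : ℤ} {p e : ℕ} (hp : p.Prime) (h2 : p ≠ 2) (he : 2 ≤ e)
    (hk : ¬ (p : ℤ) ^ (e - 1) ∣ k) : tau k (p ^ e) = 0 := by
  obtain ⟨e, rfl⟩ : ∃ f, e = f + 1 := ⟨e - 1, by omega⟩
  rw [tau_pow_eq k hp, if_neg, mul_zero]
  simpa using hk

theorem norm_tau_prime_sq_le {k : ℤ} {p : ℕ} (hp : p.Prime) (h2 : p ≠ 2)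
    (hk : ¬ (p : ℤ) ^ 2 ∣ k) : ‖tau k (p ^ 2)‖ ≤ p := by
  have := Fact.mk hp
  by_cases hk1 : (p : ℤ) ∣ k
  · obtain ⟨j, rfl⟩ := hk1
    have hj : ¬ (p : ℤ) ∣ j := fun h => hk (by rw [sq]; exact mul_dvd_mul_left _ h)
    have hpC : (p : ℂ) ≠ 0 := by exact_mod_cast hp.ne_zero
    have h := tau_pow_eq (p * j) (e := 1) hp
    rw [pow_one, if_pos (Dvd.intro _ rfl)] at h
    rw [h]
    have h3 : ∑ x ∈ range p, (jacobiSym x (p ^ (1 + 1)) : ℂ) *
      exp (2 * Real.pi * I * ((p * j : ℤ) * x / (p ^ (1 + 1) : ℕ))) = -1 := by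
      have h4 : ∀ x ∈ range p, (jacobiSym x (p ^ (1 + 1)) : ℂ) *
          exp (2 * Real.pi * I * ((p * j : ℤ) * x / (p ^ (1 + 1) : ℕ))) =
          exp (2 * Real.pi * I * (j * x / p)) - if x = 0 then 1 else 0 := by
        intro x hx
        have h5 : exp (2 * Real.pi * I * ((p * j : ℤ) * x / (p ^ (1 + 1) : ℕ))) =
            exp (2 * Real.pi * I * (j * x / p)) := by
          congr 1
          push_cast
          field_simp
        rw [h5]
        by_cases hx0 : x = 0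
        · subst hx0
          rw [if_pos rfl, jacobiSym.pow_right, jacobi_eq_quadraticChar]
          simp
        · rw [if_neg hx0, jacobiSym.pow_right, jacobi_eq_quadraticChar]
          have h6 : ((x : ℤ) : ZMod p) ≠ 0 := by
            rw [Int.cast_natCast, Ne, ZMod.natCast_eq_zero_iff]
            intro h7
            exact hx0 (Nat.eq_zero_of_dvd_of_lt h7 (Finset.mem_range.mp hx))
          rw [show 1 + 1 = 2 from rfl, quadraticChar_sq_one h6]
          simp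
      rw [Finset.sum_congr rfl h4, Finset.sum_sub_distrib, sum_exp_range j hp.pos, if_neg hj,
        Finset.sum_ite_eq', if_pos (Finset.mem_range.mpr hp.pos)]
      ring
    rw [h3]
    simp
  · rw [tau_prime_pow_eq_zero hp h2 le_rfl (by simpa using hk1)]
    simp

end Pool.Agent.ZD
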