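import Mathlib
import Pool.Agent.ZD.Defs
import Pool.Agent.ZD.G1
import Pool.Agent.ZD.G2
import Pool.Agent.ZD.E1
import Pool.Agent.ZD.E2A
import Pool.Agent.H6.DCoef
import Pool.Agent.H5.ThetaFE

set_option autoImplicit false

open Complex Finset

namespace Pool.Agent.ZD

open Pool.Agent.H5 (c bd Lser)

namespace E2

/-! ### multiplicativity -/

lemma gk_mul (k : ℤ) {x₁ y₁ x₂ y₂ : ℕ} (h : (x₁ * y₁).Coprime (x₂ * y₂))
    (h1 : x₁ * y₁ ≠ 0) :
    gk k (x₁ * x₂) (y₁ * y₂) = gk k x₁ y₁ * gk k x₂ y₂ := by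
  have hx : x₁.Coprime x₂ := Nat.Coprime.coprime_dvd_left (Dvd.intro _ rfl)
    (Nat.Coprime.coprime_dvd_right (Dvd.intro _ rfl) h)
  have hy : y₁.Coprime y₂ := Nat.Coprime.coprime_dvd_left (Dvd.intro_left _ rfl)
    (Nat.Coprime.coprime_dvd_right (Dvd.intro_left _ rfl) h)
  have hx1 : x₁ ≠ 0 := left_ne_zero_of_mul h1
  have hy1 : y₁ ≠ 0 := right_ne_zero_of_mul h1
  unfold gk
  rw [H5.c_mul hx hx1, H5.c_mul hy hy1]
  by_cases hc1 : c x₁ * c y₁ = 0
  · have : c x₁ * c x₂ * (c y₁ * c y₂) = 0 := by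
      calc _ = (c x₁ * c y₁) * (c x₂ * c y₂) := by ring
        _ = 0 := by rw [hc1, zero_mul]
    rw [this, hc1]; simp
  by_cases hc2 : c x₂ * c y₂ = 0
  · have : c x₁ * c x₂ * (c y₁ * c y₂) = 0 := by
      calc _ = (c x₁ * c y₁) * (c x₂ * c y₂) := by ring
        _ = 0 := by rw [hc2, mul_zero]
    rw [this, hc2]; simp
  have m4 : ∀ {x y : ℕ}, c x * c y ≠ 0 → (x * y) % 4 = 1 := by
    intro x y hxy
    have hx4 : x % 4 = 1 := by
      by_contra hne
      exact hxy (by rw [H5.c_eq_zero_of hne, zero_mul])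
    have hy4 : y % 4 = 1 := by
      by_contra hne
      exact hxy (by rw [H5.c_eq_zero_of hne, mul_zero])
    rw [Nat.mul_mod, hx4, hy4]
  have h41 := m4 hc1
  have h42 := m4 hc2
  have ho1 : Odd (x₁ * y₁) := by rw [Nat.odd_iff]; omega
  have ho2 : Odd (x₂ * y₂) := by rw [Nat.odd_iff]; omega
  have hre : x₁ * x₂ * (y₁ * y₂) = (x₁ * y₁) * (x₂ * y₂) := by ring
  rw [hre, tau_mul k ho1 ho2 h h41, Nat.cast_mul (x₁ * y₁) (x₂ * y₂),
    Real.sqrt_mul (by positivity)]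
  push_cast
  rw [mul_div_mul_comm]
  ring

lemma eps_mul (k : ℤ) (q : ℕ) {b₁ b₂ c₁ c₂ : ℕ} (h : (b₁ * b₂).Coprime (c₁ * c₂))
    (h1 : b₁ * b₂ ≠ 0) :
    eps k q (b₁ * c₁) (b₂ * c₂) = eps k q b₁ b₂ * eps k q c₁ c₂ := by
  have hx : b₁.Coprime c₁ := Nat.Coprime.coprime_dvd_left (Dvd.intro _ rfl)
    (Nat.Coprime.coprime_dvd_right (Dvd.intro _ rfl) h)
  have hy : b₂.Coprime c₂ := Nat.Coprime.coprime_dvd_left (Dvd.intro_left _ rfl)
    (Nat.Coprime.coprime_dvd_right (Dvd.intro_left _ rfl) h)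
  unfold eps
  rw [sum_divisors_coprime hx]
  have step : ∀ x₁ ∈ b₁.divisors, ∀ x₂ ∈ c₁.divisors,
      ∑ y ∈ (b₂ * c₂).divisors,
        ((jacobiSym q (b₁ * c₁ / (x₁ * x₂)) * nu (b₁ * c₁ / (x₁ * x₂)) : ℤ) : ℂ) *
          ((jacobiSym q (b₂ * c₂ / y) * nu (b₂ * c₂ / y) : ℤ) : ℂ) * gk k (x₁ * x₂) y =
      ∑ y₁ ∈ b₂.divisors, ∑ y₂ ∈ c₂.divisors,
        (((jacobiSym q (b₁ / x₁) * nu (b₁ / x₁) : ℤ) : ℂ) *
          ((jacobiSym q (b₂ / y₁) * nu (b₂ / y₁) : ℤ) : ℂ) * gk k x₁ y₁) *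
        (((jacobiSym q (c₁ / x₂) * nu (c₁ / x₂) : ℤ) : ℂ) *
          ((jacobiSym q (c₂ / y₂) * nu (c₂ / y₂) : ℤ) : ℂ) * gk k x₂ y₂) := by
    intro x₁ hx₁ x₂ hx₂
    rw [sum_divisors_coprime hy]
    refine Finset.sum_congr rfl (fun y₁ hy₁ => Finset.sum_congr rfl (fun y₂ hy₂ => ?_))
    rw [Nat.mem_divisors] at hx₁ hx₂ hy₁ hy₂
    rw [Nat.mul_div_mul_comm hx₁.1 hx₂.1, Nat.mul_div_mul_comm hy₁.1 hy₂.1]
    have p1 : 0 < b₁ / x₁ := Nat.div_pos (Nat.le_of_dvd (Nat.pos_of_ne_zero hx₁.2) hx₁.1)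
      (Nat.pos_of_dvd_of_pos hx₁.1 (Nat.pos_of_ne_zero hx₁.2))
    have p2 : 0 < c₁ / x₂ := Nat.div_pos (Nat.le_of_dvd (Nat.pos_of_ne_zero hx₂.2) hx₂.1)
      (Nat.pos_of_dvd_of_pos hx₂.1 (Nat.pos_of_ne_zero hx₂.2))
    have p3 : 0 < b₂ / y₁ := Nat.div_pos (Nat.le_of_dvd (Nat.pos_of_ne_zero hy₁.2) hy₁.1)
      (Nat.pos_of_dvd_of_pos hy₁.1 (Nat.pos_of_ne_zero hy₁.2))
    have p4 : 0 < c₂ / y₂ := Nat.div_pos (Nat.le_of_dvd (Nat.pos_of_ne_zero hy₂.2) hy₂.1)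
      (Nat.pos_of_dvd_of_pos hy₂.1 (Nat.pos_of_ne_zero hy₂.2))
    have c1 : (b₁ / x₁).Coprime (c₁ / x₂) :=
      Nat.Coprime.coprime_dvd_left (Nat.div_dvd_of_dvd hx₁.1)
        (Nat.Coprime.coprime_dvd_right (Nat.div_dvd_of_dvd hx₂.1) hx)
    have c2 : (b₂ / y₁).Coprime (c₂ / y₂) :=
      Nat.Coprime.coprime_dvd_left (Nat.div_dvd_of_dvd hy₁.1)
        (Nat.Coprime.coprime_dvd_right (Nat.div_dvd_of_dvd hy₂.1) hy)
    have c3 : (x₁ * y₁).Coprime (x₂ * y₂) :=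
      Nat.Coprime.coprime_dvd_left (mul_dvd_mul hx₁.1 hy₁.1)
        (Nat.Coprime.coprime_dvd_right (mul_dvd_mul hx₂.1 hy₂.1) h)
    have n1 : x₁ * y₁ ≠ 0 := ne_zero_of_dvd_ne_zero h1 (mul_dvd_mul hx₁.1 hy₁.1)
    rw [gk_mul k c3 n1, nu_mul c1 p1 p2, nu_mul c2 p3 p4,
      jacobiSym.mul_right' _ p1.ne' p2.ne', jacobiSym.mul_right' _ p3.ne' p4.ne']
    push_cast
    ring
  rw [Finset.sum_congr rfl (fun x₁ hx₁ => Finset.sum_congr rfl (fun x₂ hx₂ => step x₁ hx₁ x₂ hx₂))]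
  rw [Finset.sum_mul_sum]
  refine Finset.sum_congr rfl (fun x₁ _ => Finset.sum_congr rfl (fun x₂ _ => ?_))
  rw [Finset.sum_mul_sum]

/-! ### local bounds -/

lemma nu_prime_pow {p : ℕ} (hp : p.Prime) (e : ℕ) : nu (p ^ e) = nuF p e := by
  unfold nu
  rw [hp.factorization_pow, Finsupp.prod_single_index]
  simp [nuF]

lemma sqrt_pow' {x : ℝ} (hx : 0 ≤ x) (i : ℕ) : Real.sqrt (x ^ i) = Real.sqrt x ^ i := by
  rw [Real.sqrt_eq_iff_mul_self_eq (by positivity) (by positivity), ← mul_pow,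
    Real.mul_self_sqrt hx]

lemma c_pp_le {p : ℕ} (hp : p.Prime) (i : ℕ) :
    |(c (p ^ i) : ℝ)| ≤ (i + 1) * Real.sqrt p ^ i := by
  have h := H6.bd_tau 1 (n := p ^ i) (pow_ne_zero _ hp.ne_zero)
  have h1 : bd 1 (p ^ i) = c (p ^ i) := by simp [bd]
  rw [h1] at h
  have h2 : (H6.tau (p ^ i) : ℝ) = i + 1 := by
    unfold H6.tau
    rw [Nat.divisors_prime_pow hp, Finset.card_map, Finset.card_range]; push_cast; ring
  rw [h2, Nat.cast_pow, sqrt_pow' (by positivity)] at h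
  exact h

/-- the Dirichlet inverse of `bd q` at prime powers -/
noncomputable def nq (q m : ℕ) : ℤ := jacobiSym q m * nu m

lemma abs_jacobi_le (a : ℤ) (n : ℕ) : |(jacobiSym a n : ℝ)| ≤ 1 := by
  rcases jacobiSym.trichotomy a n with h | h | h <;> rw [h] <;> norm_num

lemma nq_le (q : ℕ) {p : ℕ} (hp : p.Prime) (e : ℕ) :
    |(nq q (p ^ e) : ℝ)| ≤ 2 * Real.sqrt p ^ e := by
  unfold nq
  push_cast
  rw [abs_mul]
  have h1 := abs_jacobi_le q (p ^ e)
  have h2 : |(nu (p ^ e) : ℝ)| ≤ 2 * Real.sqrt p ^ e := by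
    rw [nu_prime_pow hp]
    have hs : 0 ≤ Real.sqrt p := Real.sqrt_nonneg _
    have hsq : Real.sqrt p ^ 2 = p := Real.sq_sqrt (by positivity)
    unfold nuF
    rcases e with _ | _ | _ | e
    · simp
    · have := c_pp_le hp 1
      simp only [zero_add, one_ne_zero, if_false, if_true]
      push_cast
      rw [abs_neg]
      simp only [pow_one] at this
      calc _ ≤ _ := this
        _ = _ := by push_cast; ring
    · have : (0:ℝ) ≤ p := by positivity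
      rw [show (0 + 1 + 1 : ℕ) = 2 from rfl, hsq, if_neg (by norm_num), if_neg (by norm_num),
        if_pos rfl]
      split_ifs with h
      · simp
      · push_cast
        rw [abs_of_nonneg (by positivity)]
        linarith
    · rw [if_neg (by omega), if_neg (by omega), if_neg (by omega)]
      simp only [Int.cast_zero, abs_zero]
      positivity
  calc _ ≤ 1 * (2 * Real.sqrt p ^ e) := mul_le_mul h1 h2 (abs_nonneg _) (by norm_num)
    _ = _ := one_mul _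

lemma nq_zero (q : ℕ) {p : ℕ} (hp : p.Prime) {e : ℕ} (he : 3 ≤ e) : nq q (p ^ e) = 0 := by
  unfold nq
  rw [nu_prime_pow hp]
  unfold nuF
  rw [if_neg (by omega), if_neg (by omega), if_neg (by omega), mul_zero]

lemma gk_pp_le (k : ℤ) {p : ℕ} (hp : p.Prime) (i j : ℕ) :
    ‖gk k (p ^ i) (p ^ j)‖ ≤ (i + 1) * (j + 1) * ‖tau k (p ^ (i + j))‖ := by
  unfold gk
  have hs : 0 < Real.sqrt p := Real.sqrt_pos.2 (by exact_mod_cast hp.pos)
  rw [← pow_add, norm_mul, norm_div, Nat.cast_pow, sqrt_pow' (by positivity)]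
  have h1 : ‖((c (p ^ i) * c (p ^ j) : ℤ) : ℂ)‖ = |(c (p ^ i) : ℝ)| * |(c (p ^ j) : ℝ)| := by
    rw [Complex.norm_intCast]; push_cast; rw [abs_mul]
  have h2 : ‖((Real.sqrt (p : ℝ) ^ (i + j) : ℝ) : ℂ)‖ = Real.sqrt p ^ (i + j) := by
    rw [Complex.norm_real, Real.norm_of_nonneg (by positivity)]
  rw [h1, h2, ← mul_div_assoc, div_le_iff₀ (by positivity)]
  have h3 := c_pp_le hp i
  have h4 := c_pp_le hp j
  calc _ ≤ ((i + 1) * Real.sqrt p ^ i) * ((j + 1) * Real.sqrt p ^ j) * ‖tau k (p ^ (i + j))‖ := by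
        gcongr
    _ = _ := by rw [pow_add]; ring

lemma gk_pp_zero {k : ℤ} {p : ℕ} (hp : p.Prime) (h2 : p ≠ 2) {i j m : ℕ}
    (hm : ¬ (p : ℤ) ^ (m + 1) ∣ k) (h : m + 2 ≤ i + j) : gk k (p ^ i) (p ^ j) = 0 := by
  have h3 := gk_pp_le k hp i j
  rw [tau_prime_pow_eq_zero hp h2 (by omega)
    (fun hd => hm (dvd_trans (pow_dvd_pow _ (by omega)) hd)), norm_zero, mul_zero] at h3
  exact norm_le_zero_iff.1 h3

lemma eps_pp (k : ℤ) (q : ℕ) {p : ℕ} (hp : p.Prime) (a b : ℕ) :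
    eps k q (p ^ a) (p ^ b) = ∑ i ∈ range (a + 1), ∑ j ∈ range (b + 1),
      (nq q (p ^ (a - i)) : ℂ) * (nq q (p ^ (b - j)) : ℂ) * gk k (p ^ i) (p ^ j) := by
  unfold eps
  rw [Nat.sum_divisors_prime_pow hp]
  refine Finset.sum_congr rfl (fun i hi => ?_)
  rw [Nat.sum_divisors_prime_pow hp]
  refine Finset.sum_congr rfl (fun j hj => ?_)
  rw [Finset.mem_range] at hi hj
  rw [Nat.pow_div (by omega) hp.pos, Nat.pow_div (by omega) hp.pos]
  rfl

lemma eps_pp_zero {k : ℤ} (q : ℕ) {p : ℕ} (hp : p.Prime) (h2 : p ≠ 2) {a b m : ℕ}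
    (hm : ¬ (p : ℤ) ^ (m + 1) ∣ k) (h : m + 6 ≤ a + b) : eps k q (p ^ a) (p ^ b) = 0 := by
  rw [eps_pp k q hp]
  refine Finset.sum_eq_zero (fun i hi => Finset.sum_eq_zero (fun j hj => ?_))
  rw [Finset.mem_range] at hi hj
  by_cases h3 : 3 ≤ a - i
  · rw [nq_zero q hp h3]; simp
  by_cases h4 : 3 ≤ b - j
  · rw [nq_zero q hp h4]; simp
  rw [gk_pp_zero hp h2 hm (by omega), mul_zero]

lemma eps_pp_le {k : ℤ} (q : ℕ) {p : ℕ} (hp : p.Prime) {a b : ℕ} {K t : ℝ}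
    (ht : Real.sqrt p ≤ t)
    (hg : ∀ i j, i ≤ a → j ≤ b → ‖gk k (p ^ i) (p ^ j)‖ ≤ K * t ^ (i + j)) :
    ‖eps k q (p ^ a) (p ^ b)‖ ≤ (a + 1) * (b + 1) * (4 * K * t ^ (a + b)) := by
  rw [eps_pp k q hp]
  have hs0 : 0 ≤ Real.sqrt p := Real.sqrt_nonneg _
  have ht0 : 0 ≤ t := hs0.trans ht
  have h1 : ∀ i ∈ range (a + 1), ∀ j ∈ range (b + 1),
      ‖(nq q (p ^ (a - i)) : ℂ) * (nq q (p ^ (b - j)) : ℂ) * gk k (p ^ i) (p ^ j)‖ ≤
        4 * K * t ^ (a + b) := by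
    intro i hi j hj
    rw [Finset.mem_range] at hi hj
    rw [norm_mul, norm_mul, Complex.norm_intCast, Complex.norm_intCast]
    have h2 := nq_le q hp (a - i)
    have h3 := nq_le q hp (b - j)
    have h4 := hg i j (by omega) (by omega)
    have h5 : Real.sqrt p ^ (a - i) ≤ t ^ (a - i) := pow_le_pow_left₀ hs0 ht _
    have h6 : Real.sqrt p ^ (b - j) ≤ t ^ (b - j) := pow_le_pow_left₀ hs0 ht _
    calc _ ≤ (2 * t ^ (a - i)) * (2 * t ^ (b - j)) * (K * t ^ (i + j)) := by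
          apply mul_le_mul (mul_le_mul (by linarith) (by linarith) (abs_nonneg _) (by positivity)) h4
            (norm_nonneg _) (by positivity)
      _ = 4 * K * (t ^ (a - i) * t ^ (b - j) * t ^ (i + j)) := by ring
      _ = 4 * K * t ^ (a + b) := by
          rw [← pow_add, ← pow_add]
          congr 2
          omega
  refine (norm_sum_le _ _).trans ?_
  calc _ ≤ ∑ i ∈ range (a + 1), ∑ j ∈ range (b + 1), 4 * K * t ^ (a + b) := by
        refine Finset.sum_le_sum (fun i hi => (norm_sum_le _ _).trans ?_)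
        exact Finset.sum_le_sum (fun j hj => h1 i hi j hj)
    _ = _ := by
        rw [Finset.sum_const, Finset.sum_const, Finset.card_range, Finset.card_range]
        simp only [nsmul_eq_mul]
        push_cast
        ring

/-- local sums -/
noncomputable def EE (k : ℤ) (q p e : ℕ) : ℝ :=
  ∑ a ∈ range (e + 1), ‖eps k q (p ^ a) (p ^ (e - a))‖

lemma EE_nonneg (k : ℤ) (q p e : ℕ) : 0 ≤ EE k q p e := Finset.sum_nonneg (fun _ _ => norm_nonneg _)

lemma gk_one (k : ℤ) : gk k 1 1 = 1 := by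
  unfold gk
  rw [H5.c_one, mul_one, tau_one]; simp

lemma eps_one (k : ℤ) (q : ℕ) : eps k q 1 1 = 1 := by
  unfold eps
  have : nu 1 = 1 := by unfold nu; simp
  simp [gk_one, this]

lemma EE_zero (k : ℤ) (q p : ℕ) : EE k q p 0 = 1 := by
  unfold EE
  simp [eps_one]

lemma EE_big {k : ℤ} (q : ℕ) {p : ℕ} (hp : p.Prime) (h2 : p ≠ 2) {m e : ℕ}
    (hm : ¬ (p : ℤ) ^ (m + 1) ∣ k) (h : m + 6 ≤ e) : EE k q p e = 0 := by
  unfold EE
  refine Finset.sum_eq_zero (fun a ha => ?_)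
  rw [Finset.mem_range] at ha
  rw [eps_pp_zero q hp h2 hm (by omega), norm_zero]

lemma EE_le {k : ℤ} (q : ℕ) {p : ℕ} (hp : p.Prime) {e : ℕ} {K t : ℝ} (hK : 0 ≤ K)
    (ht : Real.sqrt p ≤ t)
    (hg : ∀ i j, i + j ≤ e → ‖gk k (p ^ i) (p ^ j)‖ ≤ K * t ^ (i + j)) :
    EE k q p e ≤ 4 * K * (e + 1) ^ 3 * t ^ e := by
  unfold EE
  have ht0 : 0 ≤ t := (Real.sqrt_nonneg _).trans ht
  have h1 : ∀ a ∈ range (e + 1), ‖eps k q (p ^ a) (p ^ (e - a))‖ ≤
      (e + 1) ^ 2 * (4 * K * t ^ e) := by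
    intro a ha
    rw [Finset.mem_range] at ha
    have h2 := eps_pp_le q hp (a := a) (b := e - a) ht (fun i j hi hj => hg i j (by omega))
    have h3 : a + (e - a) = e := by omega
    rw [h3] at h2
    refine h2.trans ?_
    have h4 : ((a : ℝ) + 1) ≤ e + 1 := by
      have : (a : ℝ) ≤ e := by exact_mod_cast (by omega : a ≤ e)
      linarith
    have h5 : (((e - a : ℕ) : ℝ) + 1) ≤ e + 1 := by
      have : ((e - a : ℕ) : ℝ) ≤ e := by exact_mod_cast (by omega : e - a ≤ e)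
      linarith
    rw [pow_two]
    gcongr
  refine (Finset.sum_le_sum h1).trans ?_
  rw [Finset.sum_const, Finset.card_range, nsmul_eq_mul]
  push_cast
  apply le_of_eq; ring

/-- trivial bound at an arbitrary prime -/
lemma EE_triv {k : ℤ} (q : ℕ) {p : ℕ} (hp : p.Prime) (e : ℕ) :
    EE k q p e ≤ 4 * (e + 1) ^ 5 * (p : ℝ) ^ e := by
  have hp1 : (1:ℝ) ≤ p := by exact_mod_cast hp.one_le
  have h := EE_le (k := k) q hp (e := e) (K := (e + 1) ^ 2) (t := p) (by positivity)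
    (by
      rw [Real.sqrt_le_left (by positivity)]
      nlinarith)
    (fun i j hij => by
      refine (gk_pp_le k hp i j).trans ?_
      have h1 := norm_tau_le k (p ^ (i + j))
      rw [Nat.cast_pow] at h1
      have h4 : ((i : ℝ) + 1) ≤ e + 1 := by
        have : (i : ℝ) ≤ e := by exact_mod_cast (by omega : i ≤ e)
        linarith
      have h5 : ((j : ℝ) + 1) ≤ e + 1 := by
        have : (j : ℝ) ≤ e := by exact_mod_cast (by omega : j ≤ e)
        linarith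
      rw [pow_two]
      gcongr)
  refine h.trans (le_of_eq ?_)
  ring

/-- `p = 2` -/
lemma EE_two (k : ℤ) (q : ℕ) {e : ℕ} (he : 1 ≤ e) : EE k q 2 e = 0 := by
  have hp := Nat.prime_two
  unfold EE
  refine Finset.sum_eq_zero (fun a ha => ?_)
  rw [Finset.mem_range] at ha
  rw [norm_eq_zero, eps_pp k q hp]
  refine Finset.sum_eq_zero (fun i hi => Finset.sum_eq_zero (fun j hj => ?_))
  rw [Finset.mem_range] at hi hj
  have hc : ∀ i, 1 ≤ i → c (2 ^ i) = 0 := by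
    intro i hi
    apply H5.c_eq_zero_of
    obtain ⟨i', rfl⟩ : ∃ i', i = i' + 1 := ⟨i - 1, by omega⟩
    rw [pow_succ]; omega
  have hn : ∀ i, 1 ≤ i → nq q (2 ^ i) = 0 := by
    intro i hi
    unfold nq
    rw [nu_prime_pow hp]
    unfold nuF
    rw [if_neg (by omega)]
    have h2 := hc 1 le_rfl
    rw [pow_one] at h2
    simp [h2]
  by_cases h1 : 1 ≤ a - i
  · rw [hn _ h1]; simp
  by_cases h2 : 1 ≤ e - a - j
  · rw [hn _ h2]; simp
  have h3 : gk k (2 ^ i) (2 ^ j) = 0 := by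
    unfold gk
    by_cases hi1 : 1 ≤ i
    · rw [hc i hi1]; simp
    · rw [hc j (by omega)]; simp
  rw [h3, mul_zero]

/-- a prime with `p ∥ k`, `p ∣ q` -/
lemma EE_mid {k : ℤ} {q : ℕ} {p : ℕ} (hp : p.Prime) (h2 : p ≠ 2) (hq : p ∣ q)
    (hk : (p : ℤ) ∣ k) (hk2 : ¬ (p : ℤ) ^ 2 ∣ k) {e : ℕ} :
    EE k q p e ≤ if e = 0 then 1 else if e = 2 then 27 * (p : ℝ) else 0 := by
  have hj : ∀ m, 1 ≤ m → nq q (p ^ m) = 0 := by
    intro m hm
    unfold nq
    have : jacobiSym q (p ^ m) = 0 := by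
      rw [jacobiSym.pow_right]
      have h0 : jacobiSym q p = 0 := by
        rw [jacobiSym.eq_zero_iff]
        refine ⟨hp.ne_zero, ?_⟩
        intro h1
        rw [Int.gcd_natCast_natCast] at h1
        have h3 : p ∣ Nat.gcd q p := Nat.dvd_gcd hq dvd_rfl
        rw [h1] at h3
        exact hp.one_lt.ne' (Nat.dvd_one.1 h3)
      rw [h0, zero_pow (by omega)]
    rw [this, zero_mul]
  have hj0 : nq q (p ^ 0) = 1 := by
    unfold nq nu; simp
  have heps : ∀ a b, eps k q (p ^ a) (p ^ b) = gk k (p ^ a) (p ^ b) := by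
    intro a b
    rw [eps_pp k q hp, Finset.sum_eq_single a, Finset.sum_eq_single b]
    · rw [Nat.sub_self, Nat.sub_self, hj0]; simp
    · intro j hj1 hj2
      rw [Finset.mem_range] at hj1
      rw [hj (b - j) (by omega)]; simp
    · intro h; exact absurd (Finset.mem_range.2 (Nat.lt_succ_self _)) h
    · intro i hi1 hi2
      rw [Finset.mem_range] at hi1
      refine Finset.sum_eq_zero (fun j _ => ?_)
      rw [hj (a - i) (by omega)]; simp
    · intro h; exact absurd (Finset.mem_range.2 (Nat.lt_succ_self _)) h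
  by_cases he0 : e = 0
  · rw [if_pos he0, he0, EE_zero k q p]
  rw [if_neg he0]
  unfold EE
  by_cases he2 : e = 2
  · rw [if_pos he2, he2]
    have h4 : ∀ a ∈ range (2 + 1), ‖eps k q (p ^ a) (p ^ (2 - a))‖ ≤ 9 * (p : ℝ) := by
      intro a ha
      rw [Finset.mem_range] at ha
      rw [heps]
      refine (gk_pp_le k hp _ _).trans ?_
      have h5 : a + (2 - a) = 2 := by omega
      rw [h5]
      have h6 := norm_tau_prime_sq_le hp h2 hk2
      have h7 : ((a : ℝ) + 1) ≤ 3 := by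
        have : (a : ℝ) ≤ 2 := by exact_mod_cast (by omega : a ≤ 2)
        linarith
      have h8 : (((2 - a : ℕ) : ℝ) + 1) ≤ 3 := by
        have : ((2 - a : ℕ) : ℝ) ≤ 2 := by exact_mod_cast (by omega : 2 - a ≤ 2)
        linarith
      calc _ ≤ 3 * 3 * (p : ℝ) := by gcongr
        _ = _ := by ring
    refine (Finset.sum_le_sum h4).trans ?_
    rw [Finset.sum_const, Finset.card_range, nsmul_eq_mul]
    push_cast
    apply le_of_eq; ring
  · rw [if_neg he2]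
    apply le_of_eq
    refine Finset.sum_eq_zero (fun a ha => ?_)
    rw [Finset.mem_range] at ha
    rw [heps, norm_eq_zero]
    by_cases he1 : e = 1
    · have h9 := gk_pp_le k hp a (e - a)
      have h10 : a + (e - a) = 1 := by omega
      rw [h10, pow_one, tau_prime_dvd hp h2 hk, norm_zero, mul_zero] at h9
      exact norm_le_zero_iff.1 h9
    · exact gk_pp_zero hp h2 (m := 1) (by simpa using hk2) (by omega)

/-- the values of `gk` at a prime not dividing `k` -/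
lemma gk_good {k : ℤ} {q v : ℕ} {p : ℕ} (hp : p.Prime) (hkq : k.natAbs = q * v ^ 2)
    (hpk : ¬ (p : ℤ) ∣ k) :
    gk k p 1 = ((c p * jacobiSym q p : ℤ) : ℂ) ∧ gk k 1 p = ((c p * jacobiSym q p : ℤ) : ℂ) := by
  have key : ((c p : ℤ) : ℂ) * (tau k p / (Real.sqrt p : ℂ)) = ((c p * jacobiSym q p : ℤ) : ℂ) := by
    by_cases h4 : p % 4 = 1
    · rw [tau_prime k hp h4]
      have hs : (Real.sqrt p : ℂ) ≠ 0 := by
        rw [Complex.ofReal_ne_zero]
        exact (Real.sqrt_pos.2 (by exact_mod_cast hp.pos)).ne'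
      rw [mul_div_assoc, div_self hs, mul_one]
      have hodd : Odd p := by rw [Nat.odd_iff]; omega
      have hpv : ¬ p ∣ v := by
        intro hd
        apply hpk
        rw [Int.natCast_dvd, hkq]
        exact Dvd.dvd.mul_left (dvd_pow hd (by norm_num)) q
      have hJ : jacobiSym k p = jacobiSym q p := by
        have hv : jacobiSym ((v : ℤ) ^ 2) p = 1 := by
          apply jacobiSym.sq_one'
          rw [Int.gcd_natCast_natCast]
          exact ((hp.coprime_iff_not_dvd.2 hpv).symm)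
        have hm1 : jacobiSym (-1) p = 1 := by
          rw [jacobiSym.at_neg_one hodd, ZMod.χ₄_nat_one_mod_four h4]
        rcases Int.natAbs_eq k with h | h
        · rw [h, hkq]; push_cast
          rw [jacobiSym.mul_left, hv, mul_one]
        · rw [h, hkq, neg_eq_neg_one_mul]; push_cast
          rw [jacobiSym.mul_left, jacobiSym.mul_left, hm1, hv, mul_one, one_mul]
      rw [hJ]; push_cast; ring
    · rw [H5.c_eq_zero_of h4]; simp
  unfold gk
  rw [mul_one, one_mul, H5.c_one, mul_one, one_mul]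
  exact ⟨key, key⟩

lemma gk_good_le {k : ℤ} {q v : ℕ} {p : ℕ} (hp : p.Prime) (h2 : p ≠ 2)
    (hkq : k.natAbs = q * v ^ 2) (hpk : ¬ (p : ℤ) ∣ k) (i j : ℕ) :
    ‖gk k (p ^ i) (p ^ j)‖ ≤ 2 * Real.sqrt p ^ (i + j) := by
  have hs0 : 0 ≤ Real.sqrt p := Real.sqrt_nonneg _
  have h1 : ‖((c p * jacobiSym q p : ℤ) : ℂ)‖ ≤ 2 * Real.sqrt p := by
    rw [Complex.norm_intCast]; push_cast; rw [abs_mul]
    have h3 := c_pp_le hp 1
    have h4 := abs_jacobi_le q p
    rw [pow_one, pow_one] at h3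
    push_cast at h3
    calc _ ≤ ((1 + 1) * Real.sqrt p) * 1 := mul_le_mul h3 h4 (abs_nonneg _) (by positivity)
      _ = _ := by ring
  obtain ⟨g1, g2⟩ := gk_good hp hkq hpk
  by_cases hij : 2 ≤ i + j
  · rw [gk_pp_zero hp h2 (m := 0) (by simpa using hpk) (by omega), norm_zero]
    positivity
  · have h5 : (i = 0 ∧ j = 0) ∨ (i = 1 ∧ j = 0) ∨ (i = 0 ∧ j = 1) := by omega
    rcases h5 with ⟨rfl, rfl⟩ | ⟨rfl, rfl⟩ | ⟨rfl, rfl⟩
    · simp [gk_one]
    · simpa [g1] using h1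
    · simpa [g2] using h1

lemma EE_one_good {k : ℤ} {q v : ℕ} {p : ℕ} (hp : p.Prime)
    (hkq : k.natAbs = q * v ^ 2) (hpk : ¬ (p : ℤ) ∣ k) : EE k q p 1 = 0 := by
  obtain ⟨g1, g2⟩ := gk_good hp hkq hpk
  have hn1 : nq q 1 = 1 := by unfold nq nu; simp
  have hnp : nq q p = - (c p * jacobiSym q p) := by
    have : nu p = - c p := by
      have := nu_prime_pow hp 1
      rw [pow_one] at this
      rw [this]; simp [nuF]
    unfold nq; rw [this]; ring
  have h0 : eps k q (p ^ 0) (p ^ 1) = 0 := by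
    rw [eps_pp k q hp]
    simp [Finset.sum_range_succ, gk_one, hn1, hnp, g2]
  have h1 : eps k q (p ^ 1) (p ^ 0) = 0 := by
    rw [eps_pp k q hp]
    simp [Finset.sum_range_succ, gk_one, hn1, hnp, g1]
  unfold EE
  rw [Finset.sum_range_succ, Finset.sum_range_one, h0]
  rw [show (1 - 1 : ℕ) = 0 from rfl, h1]; simp

/-! ### local Euler factors -/

lemma EE_tsum {k : ℤ} (q : ℕ) {p : ℕ} {M : ℕ} {x : ℝ}
    (hM : ∀ e, M ≤ e → EE k q p e = 0) :
    Summable (fun e => EE k q p e * x ^ e) ∧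
      ∑' e, EE k q p e * x ^ e = ∑ e ∈ range M, EE k q p e * x ^ e := by
  have h : ∀ e ∉ range M, EE k q p e * x ^ e = 0 := by
    intro e he
    rw [Finset.mem_range, not_lt] at he
    rw [hM e he, zero_mul]
  exact ⟨(hasSum_sum_of_ne_finset_zero h).summable, tsum_eq_sum h⟩

lemma local_two (k : ℤ) (q : ℕ) (x : ℝ) : Summable (fun e => EE k q 2 e * x ^ e) ∧
    ∑' e, EE k q 2 e * x ^ e ≤ 1 := by
  obtain ⟨h1, h2⟩ := EE_tsum (k := k) q (p := 2) (M := 1) (x := x) (fun e he => EE_two k q he)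
  refine ⟨h1, ?_⟩
  rw [h2, Finset.sum_range_one, EE_zero]; simp

lemma local_good {k : ℤ} {q v : ℕ} {p : ℕ} (hp : p.Prime) (h2 : p ≠ 2)
    (hkq : k.natAbs = q * v ^ 2) (hpk : ¬ (p : ℤ) ∣ k) {x : ℝ} (hx0 : 0 ≤ x)
    (hx : (p : ℝ) * x ≤ 1) :
    Summable (fun e => EE k q p e * x ^ e) ∧ ∑' e, EE k q p e * x ^ e ≤ 1 + 6912 * x := by
  obtain ⟨h1, h3⟩ := EE_tsum (k := k) q (p := p) (M := 6) (x := x)
    (fun e he => EE_big q hp h2 (m := 0) (by simpa using hpk) (by omega))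
  refine ⟨h1, ?_⟩
  rw [h3]
  set s := Real.sqrt p with hs
  have hs0 : 0 ≤ s := Real.sqrt_nonneg _
  have hss : s ^ 2 = p := Real.sq_sqrt (by positivity)
  have hp1 : (1:ℝ) ≤ p := by exact_mod_cast hp.one_le
  have hx1 : x ≤ 1 := by nlinarith
  have hsx0 : 0 ≤ s * x := by positivity
  have hsx2 : (s * x) ^ 2 ≤ x := by
    calc (s * x) ^ 2 = (s ^ 2 * x) * x := by ring
      _ = ((p : ℝ) * x) * x := by rw [hss]
      _ ≤ 1 * x := mul_le_mul_of_nonneg_right hx hx0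
      _ = x := one_mul x
  have hsx1 : s * x ≤ 1 := by
    have : (s * x) ^ 2 ≤ 1 := hsx2.trans hx1
    nlinarith
  have hb : ∀ e, 2 ≤ e → e ≤ 5 → EE k q p e * x ^ e ≤ 1728 * x := by
    intro e he1 he2
    have h4 := EE_le (k := k) q hp (e := e) (K := 2) (t := s) (by norm_num) le_rfl
      (fun i j _ => gk_good_le hp h2 hkq hpk i j)
    have h5 : ((e : ℝ) + 1) ≤ 6 := by
      have : (e : ℝ) ≤ 5 := by exact_mod_cast he2
      linarith
    have h6 : ((e : ℝ) + 1) ^ 3 ≤ 6 ^ 3 := pow_le_pow_left₀ (by positivity) h5 3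
    have h7 : (s * x) ^ e ≤ x := (pow_le_pow_of_le_one hsx0 hsx1 he1).trans hsx2
    calc EE k q p e * x ^ e ≤ (4 * 2 * ((e : ℝ) + 1) ^ 3 * s ^ e) * x ^ e := by gcongr
      _ = 8 * ((e : ℝ) + 1) ^ 3 * (s * x) ^ e := by rw [mul_pow]; ring
      _ ≤ 8 * 6 ^ 3 * x := by gcongr
      _ = 1728 * x := by norm_num
  have e0 := EE_zero k q p
  have e1 := EE_one_good hp hkq hpk
  have b2 := hb 2 (by norm_num) (by norm_num)
  have b3 := hb 3 (by norm_num) (by norm_num)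
  have b4 := hb 4 (by norm_num) (by norm_num)
  have b5 := hb 5 (by norm_num) (by norm_num)
  simp only [Finset.sum_range_succ, Finset.sum_range_zero, e0, e1]
  linarith

lemma local_mid {k : ℤ} {q : ℕ} {p : ℕ} (hp : p.Prime) (h2 : p ≠ 2) (hq : p ∣ q)
    (hk : (p : ℤ) ∣ k) (hk2 : ¬ (p : ℤ) ^ 2 ∣ k) {x : ℝ} (hx0 : 0 ≤ x)
    (hx : (p : ℝ) * x ≤ 1) :
    Summable (fun e => EE k q p e * x ^ e) ∧ ∑' e, EE k q p e * x ^ e ≤ 1 + 27 * x := by
  have hE := fun e => EE_mid hp h2 hq hk hk2 (e := e)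
  obtain ⟨h1, h3⟩ := EE_tsum (k := k) q (p := p) (M := 3) (x := x) (fun e he => by
    have := hE e
    rw [if_neg (by omega), if_neg (by omega)] at this
    exact le_antisymm this (EE_nonneg _ _ _ _))
  refine ⟨h1, ?_⟩
  rw [h3]
  have e0 := EE_zero k q p
  have e1 : EE k q p 1 = 0 := by
    have := hE 1
    rw [if_neg (by norm_num), if_neg (by norm_num)] at this
    exact le_antisymm this (EE_nonneg _ _ _ _)
  have e2 := hE 2
  rw [if_neg (by norm_num), if_pos rfl] at e2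
  have b2 : EE k q p 2 * x ^ 2 ≤ 27 * x := by
    calc _ ≤ 27 * (p : ℝ) * x ^ 2 := by gcongr
      _ = 27 * ((p : ℝ) * x) * x := by ring
      _ ≤ 27 * 1 * x := by gcongr
      _ = 27 * x := by ring
  simp only [Finset.sum_range_succ, Finset.sum_range_zero, e0, e1]
  linarith

lemma local_bad {k : ℤ} {q v : ℕ} {p : ℕ} (hp : p.Prime) (h2 : p ≠ 2) (hsq : Squarefree q)
    (hv : v ≠ 0) (hpv : p ∣ v) (hkq : k.natAbs = q * v ^ 2) {x : ℝ} (hx0 : 0 ≤ x)
    (hx : (p : ℝ) * x ≤ 1) :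
    Summable (fun e => EE k q p e * x ^ e) ∧
      ∑' e, EE k q p e * x ^ e ≤ ((v.factorization p + 1 : ℕ) : ℝ) ^ 22 := by
  set w := v.factorization p with hw
  have hw1 : 1 ≤ w := (hp.dvd_iff_one_le_factorization hv).1 hpv
  have hm : ¬ (p : ℤ) ^ ((3 * w) + 1) ∣ k := by
    intro h
    have h3 : p ^ (3 * w + 1) ∣ q * v ^ 2 := by
      rw [← hkq]
      have := Int.natAbs_dvd_natAbs.2 h
      simpa [Int.natAbs_pow] using this
    have hq0 : q ≠ 0 := hsq.ne_zero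
    have h4 := (hp.pow_dvd_iff_le_factorization (mul_ne_zero hq0 (pow_ne_zero 2 hv))).1 h3
    rw [Nat.factorization_mul hq0 (pow_ne_zero 2 hv), Nat.factorization_pow] at h4
    simp only [Finsupp.add_apply, Finsupp.smul_apply, smul_eq_mul] at h4
    have h5 := hsq.natFactorization_le_one p
    omega
  obtain ⟨h1, h3⟩ := EE_tsum (k := k) q (p := p) (M := 3 * w + 6) (x := x)
    (fun e he => EE_big q hp h2 hm he)
  refine ⟨h1, ?_⟩
  rw [h3]
  have h4 : ∀ e ∈ range (3 * w + 6), EE k q p e * x ^ e ≤ 4 * ((5 : ℝ) * (w + 1)) ^ 5 := by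
    intro e he
    rw [Finset.mem_range] at he
    have h5 := EE_triv (k := k) q hp e
    have h6 : ((p : ℝ) * x) ^ e ≤ 1 := pow_le_one₀ (by positivity) hx
    have h7 : ((e : ℝ) + 1) ≤ 5 * (w + 1) := by
      have : ((e + 1 : ℕ) : ℝ) ≤ ((5 * (w + 1) : ℕ) : ℝ) := by
        exact_mod_cast (by omega : e + 1 ≤ 5 * (w + 1))
      push_cast at this
      exact this
    calc _ ≤ (4 * ((e : ℝ) + 1) ^ 5 * (p : ℝ) ^ e) * x ^ e := by gcongr
      _ = 4 * ((e : ℝ) + 1) ^ 5 * ((p : ℝ) * x) ^ e := by rw [mul_pow]; ring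
      _ ≤ 4 * ((5 : ℝ) * (w + 1)) ^ 5 * 1 := by gcongr
      _ = _ := mul_one _
  refine (Finset.sum_le_sum h4).trans ?_
  rw [Finset.sum_const, Finset.card_range, nsmul_eq_mul]
  have h8 : ((3 * w + 6 : ℕ) : ℝ) ≤ 5 * (w + 1) := by
    have : ((3 * w + 6 : ℕ) : ℝ) ≤ ((5 * (w + 1) : ℕ) : ℝ) := by
      exact_mod_cast (by omega : 3 * w + 6 ≤ 5 * (w + 1))
    push_cast at this
    push_cast
    exact this
  have hw2 : (2 : ℝ) ≤ w + 1 := by
    have : (1 : ℝ) ≤ w := by exact_mod_cast hw1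
    linarith
  have h9 : (2 : ℝ) ^ 16 ≤ ((w : ℝ) + 1) ^ 16 := pow_le_pow_left₀ (by norm_num) hw2 16
  calc ((3 * w + 6 : ℕ) : ℝ) * (4 * ((5 : ℝ) * (w + 1)) ^ 5) ≤
        (5 * ((w : ℝ) + 1)) * (4 * ((5 : ℝ) * (w + 1)) ^ 5) := by gcongr
    _ = 62500 * ((w : ℝ) + 1) ^ 6 := by ring
    _ ≤ ((w : ℝ) + 1) ^ 16 * ((w : ℝ) + 1) ^ 6 := by
        apply mul_le_mul_of_nonneg_right _ (by positivity)
        refine le_trans (by norm_num) h9
    _ = ((w + 1 : ℕ) : ℝ) ^ 22 := by push_cast; ring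

/-- all primes -/
lemma local_all {k : ℤ} {q v : ℕ} {p : ℕ} (hp : p.Prime) (hsq : Squarefree q)
    (hv : v ≠ 0) (hkq : k.natAbs = q * v ^ 2) {x : ℝ} (hx0 : 0 ≤ x)
    (hx : (p : ℝ) * x ≤ 1) {K : ℕ} (hK : 6912 ≤ K) :
    Summable (fun e => EE k q p e * x ^ e) ∧
      ∑' e, EE k q p e * x ^ e ≤ (1 + x) ^ K * ((v.factorization p + 1 : ℕ) : ℝ) ^ 22 := by
  have hA : 1 ≤ (1 + x) ^ K := one_le_pow₀ (by linarith)
  have hB : (1 : ℝ) ≤ ((v.factorization p + 1 : ℕ) : ℝ) ^ 22 := by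
    apply one_le_pow₀
    push_cast
    have : (0:ℝ) ≤ (v.factorization p : ℝ) := by positivity
    linarith
  have hA1 : 1 + 6912 * x ≤ (1 + x) ^ K := by
    have h := one_add_mul_le_pow (show (-2 : ℝ) ≤ x by linarith) K
    have hK' : (6912 : ℝ) ≤ K := by exact_mod_cast hK
    refine le_trans ?_ h
    have := mul_le_mul_of_nonneg_right hK' hx0
    linarith
  by_cases h2 : p = 2
  · subst h2
    obtain ⟨h3, h4⟩ := local_two k q x
    exact ⟨h3, h4.trans (one_le_mul_of_one_le_of_one_le hA hB)⟩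
  by_cases hpv : p ∣ v
  · obtain ⟨h3, h4⟩ := local_bad hp h2 hsq hv hpv hkq hx0 hx
    exact ⟨h3, h4.trans (le_mul_of_one_le_left (by positivity) hA)⟩
  by_cases hpk : (p : ℤ) ∣ k
  · have hpk' : p ∣ q * v ^ 2 := by rw [← hkq]; exact Int.natCast_dvd.1 hpk
    have hpq : p ∣ q := by
      rcases (hp.dvd_mul).1 hpk' with h | h
      · exact h
      · exact absurd (hp.dvd_of_dvd_pow h) hpv
    have hk2 : ¬ (p : ℤ) ^ 2 ∣ k := by
      intro h
      have h3 : p ^ 2 ∣ q * v ^ 2 := by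
        rw [← hkq]
        have := Int.natAbs_dvd_natAbs.2 h
        simpa [Int.natAbs_pow] using this
      have hc : (p ^ 2).Coprime (v ^ 2) := Nat.Coprime.pow 2 2 ((hp.coprime_iff_not_dvd).2 hpv)
      have h4 : p ^ 2 ∣ q := hc.dvd_of_dvd_mul_right h3
      have h5 := (Nat.squarefree_iff_prime_squarefree.1 hsq) p hp
      rw [pow_two] at h4
      exact h5 h4
    obtain ⟨h3, h4⟩ := local_mid hp h2 hpq hpk hk2 hx0 hx
    refine ⟨h3, h4.trans (le_trans ?_ (le_mul_of_one_le_right (by positivity) hB))⟩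
    refine le_trans ?_ hA1
    nlinarith
  · obtain ⟨h3, h4⟩ := local_good hp h2 hkq hpk hx0 hx
    exact ⟨h3, h4.trans (hA1.trans (le_mul_of_one_le_right (by positivity) hB))⟩

/-! ### the global bound -/

lemma sum_dA_prime_pow {p : ℕ} (hp : p.Prime) (e : ℕ) (f : ℕ → ℕ → ℝ) :
    ∑ x ∈ (p ^ e).divisorsAntidiagonal, f x.1 x.2 = ∑ a ∈ range (e + 1), f (p ^ a) (p ^ (e - a)) := by
  rw [Nat.sum_divisorsAntidiagonal (f := f), Nat.sum_divisors_prime_pow hp]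
  refine Finset.sum_congr rfl (fun a ha => ?_)
  rw [Finset.mem_range] at ha
  rw [Nat.pow_div (by omega) hp.pos]

end E2

open E2 in
theorem eps_norm : ∃ C : ℕ, ∀ (η : ℝ) (k : ℤ) (q v : ℕ), 0 < η → η ≤ 1 / 2 → Squarefree q → 0 < v →
    k.natAbs = q * v ^ 2 →
    Summable (fun b : ℕ × ℕ => ‖eps k q b.1 b.2‖ * ((b.1 : ℝ) * b.2) ^ (-(1 + η))) ∧
    ∑' b : ℕ × ℕ, ‖eps k q b.1 b.2‖ * ((b.1 : ℝ) * b.2) ^ (-(1 + η)) ≤
      (C / η) ^ C * (1 + Real.log (q * v ^ 2)) ^ C * (v.divisors.card : ℝ) ^ C := by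
  obtain ⟨K, hK⟩ : ∃ K : ℕ, K = 6912 := ⟨_, rfl⟩
  refine ⟨K, fun η k q v hη hη2 hsq hv hkq => ?_⟩
  set F : ℕ → ℕ → ℝ := fun a b => ‖eps k q a b‖ * ((a : ℝ) * b) ^ (-(1 + η)) with hF
  set G : ℕ → ℝ := fun n => ∑ x ∈ n.divisorsAntidiagonal, F x.1 x.2 with hG
  have hF0 : ∀ a b, 0 ≤ F a b := fun a b => by simp only [hF]; positivity
  have hG0 : ∀ n, 0 ≤ G n := fun n => Finset.sum_nonneg (fun _ _ => hF0 _ _)
  have hG00 : G 0 = 0 := by simp [hG]
  have hG1 : G 1 = 1 := by simp [hG, hF, eps_one]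
  have hmul : ∀ m n, m.Coprime n → G (m * n) = G m * G n := by
    intro m n hmn
    by_cases hm : m = 0
    · rw [hm, zero_mul, hG00, zero_mul]
    by_cases hn : n = 0
    · rw [hn, mul_zero, hG00, mul_zero]
    simp only [hG]
    rw [sum_dA_coprime hmn, Finset.sum_mul_sum]
    refine Finset.sum_congr rfl (fun x hx => Finset.sum_congr rfl (fun y hy => ?_))
    rw [Nat.mem_divisorsAntidiagonal] at hx hy
    simp only [hF]
    rw [eps_mul k q (by rw [hx.1, hy.1]; exact hmn) (by rw [hx.1]; exact hm), norm_mul]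
    have : (((x.1 * y.1 : ℕ) : ℝ) * ((x.2 * y.2 : ℕ) : ℝ)) ^ (-(1 + η)) =
        ((x.1 : ℝ) * x.2) ^ (-(1 + η)) * ((y.1 : ℝ) * y.2) ^ (-(1 + η)) := by
      rw [← Real.mul_rpow (by positivity) (by positivity)]
      congr 1
      push_cast; ring
    rw [this]; ring
  have hGp : ∀ p : ℕ, p.Prime → ∀ e, G (p ^ e) = EE k q p e * ((p : ℝ) ^ (-(1 + η))) ^ e := by
    intro p hp e
    simp only [hG]
    rw [sum_dA_prime_pow hp]
    simp only [hF, EE]
    rw [Finset.sum_mul]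
    refine Finset.sum_congr rfl (fun a ha => ?_)
    rw [Finset.mem_range] at ha
    congr 1
    rw [← Nat.cast_mul, ← pow_add, show a + (e - a) = e by omega, Nat.cast_pow,
      ← Real.rpow_natCast, ← Real.rpow_natCast, ← Real.rpow_mul (by positivity),
      ← Real.rpow_mul (by positivity), mul_comm]
  have hloc : ∀ p : ℕ, p.Prime → Summable (fun e => G (p ^ e)) ∧
      ∑' e, G (p ^ e) ≤ (1 + (p : ℝ) ^ (-(1 + η))) ^ K *
        ((v.factorization p + 1 : ℕ) : ℝ) ^ 22 := by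
    intro p hp
    have hp1 : (1:ℝ) ≤ p := by exact_mod_cast hp.one_le
    have hx : (p : ℝ) * (p : ℝ) ^ (-(1 + η)) ≤ 1 := by
      rw [← Real.rpow_one_add' (by positivity) (by linarith)]
      apply Real.rpow_le_one_of_one_le_of_nonpos hp1
      linarith
    have h := local_all hp hsq hv.ne' hkq (x := (p : ℝ) ^ (-(1 + η))) (by positivity) hx (K := K) hK.ge
    simp only [hGp p hp]
    exact h
  have hB : ∀ N, v + 1 ≤ N → ∏ p ∈ (range N).filter Nat.Prime, ∑' e, G (p ^ e) ≤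
      (1 + 1 / η) ^ K * (v.divisors.card : ℝ) ^ 22 := by
    intro N hN
    calc ∏ p ∈ (range N).filter Nat.Prime, ∑' e, G (p ^ e) ≤
        ∏ p ∈ (range N).filter Nat.Prime, ((1 + (p : ℝ) ^ (-(1 + η))) ^ K *
          ((v.factorization p + 1 : ℕ) : ℝ) ^ 22) := by
          apply Finset.prod_le_prod
          · intro p _; exact tsum_nonneg (fun e => hG0 _)
          · intro p hp
            rw [Finset.mem_filter] at hp
            exact (hloc p hp.2).2
      _ = (∏ p ∈ (range N).filter Nat.Prime, (1 + (p : ℝ) ^ (-(1 + η)))) ^ K *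
          (v.divisors.card : ℝ) ^ 22 := by
          rw [Finset.prod_mul_distrib, Finset.prod_pow, prod_val_le hv.ne' hN]
      _ ≤ _ := by
          apply mul_le_mul_of_nonneg_right _ (by positivity)
          apply pow_le_pow_left₀
          · exact Finset.prod_nonneg (fun p _ => by positivity)
          · exact prod_prime_le hη (by linarith) N
  have hfin := euler_bound hG0 hG00 hG1 hmul (fun p hp => (hloc p hp).1) (v + 1) hB
  have heps0 : ∀ b, eps k q 0 b = 0 := by intro b; unfold eps; simp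
  have heps1 : ∀ b, eps k q b 0 = 0 := by intro b; unfold eps; simp
  obtain ⟨h1, h2⟩ := double_bound hF0 (fun b => by simp only [hF, heps0]; simp)
    (fun b => by simp only [hF, heps1]; simp) hfin
  refine ⟨h1, h2.trans ?_⟩
  have hd1 : (1:ℝ) ≤ (v.divisors.card : ℝ) := by
    exact_mod_cast Finset.card_pos.2 ⟨1, Nat.one_mem_divisors.2 hv.ne'⟩
  have hlog : (0:ℝ) ≤ Real.log (q * v ^ 2) := by
    apply Real.log_nonneg
    have hq1 : 1 ≤ q := Nat.pos_of_ne_zero hsq.ne_zero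
    have : 1 ≤ q * v ^ 2 := Nat.one_le_iff_ne_zero.2 (by positivity)
    exact_mod_cast this
  have hl1 : (1:ℝ) ≤ (1 + Real.log (q * v ^ 2)) ^ K := one_le_pow₀ (by linarith)
  have hη1 : 1 + 1 / η ≤ (K : ℝ) / η := by
    have h3 : 1 + 1 / η = (η + 1) / η := by field_simp
    rw [h3, div_le_div_iff_of_pos_right hη]
    have : (6912 : ℝ) ≤ K := by exact_mod_cast hK.ge
    linarith
  have hK22 : 22 ≤ K := by omega
  calc (1 + 1 / η) ^ K * (v.divisors.card : ℝ) ^ 22 ≤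
      ((K : ℝ) / η) ^ K * (v.divisors.card : ℝ) ^ K := by
        apply mul_le_mul
        · exact pow_le_pow_left₀ (by positivity) hη1 _
        · exact pow_le_pow_right₀ hd1 hK22
        · positivity
        · positivity
    _ = ((K : ℝ) / η) ^ K * 1 * (v.divisors.card : ℝ) ^ K := by ring
    _ ≤ _ := by
        apply mul_le_mul_of_nonneg_right _ (by positivity)
        apply mul_le_mul_of_nonneg_left hl1 (by positivity)

end Pool.Agent.ZD
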