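import Mathlib
import Pool.Agent.ZD.Defs
import Pool.Agent.H6.RayMellin

/-! Module K1: the contribution of one frequency. -/

set_option autoImplicit false

open Complex Finset MeasureTheory

namespace Pool.Agent.ZD

open Pool.Agent.H5 (c bd Lser)

/-- rotated Gamma integral: exponential decay of the Gamma function on vertical lines -/
lemma K1_norm_Gamma {σ : ℝ} (hσ : 0 < σ) {φ : ℝ} (hφ : |φ| < Real.pi / 2) (τ : ℝ) :
    ‖Complex.Gamma (σ + τ * I)‖ * Real.exp (φ * τ) ≤ Real.Gamma σ * (1 / Real.cos φ) ^ σ := by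
  have hcos : 0 < Real.cos φ := Real.cos_pos_of_mem_Ioo (by rwa [Set.mem_Ioo, ← abs_lt])
  set z : ℂ := exp ((φ : ℂ) * I) with hz
  have hzre : z.re = Real.cos φ := by rw [hz, Complex.exp_ofReal_mul_I_re]
  have hz0 : 0 < z.re := by rw [hzre]; exact hcos
  have hsre : ((σ : ℂ) + τ * I).re = σ := by simp
  have h := Pool.Agent.H6.gamma_integral_complex (z := z) (s := σ + τ * I) hz0 (by rw [hsre]; exact hσ)
  have hzz : ‖z ^ (-((σ : ℂ) + τ * I))‖ = Real.exp (φ * τ) := by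
    have hzne : z ≠ 0 := Complex.exp_ne_zero _
    have hlog : Complex.log z = φ * I := by
      rw [hz, Complex.log_exp]
      · have := (abs_lt.1 hφ).1
        simp
        linarith [Real.pi_pos]
      · have := (abs_lt.1 hφ).2
        simp
        linarith [Real.pi_pos]
    rw [Complex.cpow_def_of_ne_zero hzne, hlog, Complex.norm_exp]
    congr 1
    simp
  have h2 : ‖∫ r in Set.Ioi (0:ℝ), (r : ℂ) ^ (((σ : ℂ) + τ * I) - 1) * Complex.exp (-(z * r))‖ ≤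
      ∫ r in Set.Ioi (0:ℝ), r ^ (σ - 1) * Real.exp (-(Real.cos φ * r)) := by
    refine (norm_integral_le_integral_norm _).trans (le_of_eq ?_)
    refine setIntegral_congr_fun measurableSet_Ioi (fun r hr => ?_)
    have h3 := Pool.Agent.H6.norm_rpow_exp (z := z) (s := (σ : ℂ) + τ * I) hr
    rw [hsre, hzre, neg_mul] at h3
    exact h3
  rw [Real.integral_rpow_mul_exp_neg_mul_Ioi hσ hcos, h, norm_mul, hzz] at h2
  rw [mul_comm (‖_‖), mul_comm (Real.Gamma σ)]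
  exact h2

lemma K1_norm_Gamma' {σ : ℝ} (hσ : 0 < σ) (τ : ℝ) :
    ‖Complex.Gamma (σ + τ * I)‖ ≤ Real.Gamma σ * (1 / Real.cos 1) ^ σ * Real.exp (-|τ|) := by
  have h1 : |(1:ℝ)| < Real.pi / 2 := by
    rw [abs_one]; linarith [Real.pi_gt_three]
  have h2 : |(-1:ℝ)| < Real.pi / 2 := by
    rw [abs_neg]; exact h1
  rw [Real.exp_neg, ← div_eq_mul_inv, le_div_iff₀ (Real.exp_pos _)]
  rcases le_total 0 τ with h | h
  · have := K1_norm_Gamma hσ h1 τ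
    rw [abs_of_nonneg h]
    simpa using this
  · have := K1_norm_Gamma hσ h2 τ
    rw [abs_of_nonpos h]
    simpa using this

lemma K1_integrable_exp_abs {c : ℝ} (hc : 0 < c) : Integrable (fun τ : ℝ => Real.exp (-(c * |τ|))) := by
  rw [← integrableOn_univ, ← Set.Iic_union_Ioi (a := (0:ℝ)), integrableOn_union]
  constructor
  · refine (integrableOn_exp_mul_Iic hc 0).congr_fun (fun x hx => ?_) measurableSet_Iic
    simp only
    rw [abs_of_nonpos hx]; ring_nf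
  · refine (integrableOn_exp_mul_Ioi (neg_neg_of_pos hc) 0).congr_fun (fun x hx => ?_) measurableSet_Ioi
    simp only
    rw [abs_of_pos hx]; ring_nf

lemma K1_integral_exp_abs {c : ℝ} (hc : 0 < c) : ∫ τ : ℝ, Real.exp (-(c * |τ|)) = 2 / c := by
  rw [integral_comp_abs (f := fun x => Real.exp (-(c * x)))]
  have e2 : ∫ τ in Set.Ioi (0:ℝ), Real.exp (-(c * τ)) = ∫ τ in Set.Ioi (0:ℝ), Real.exp (-c * τ) := by
    simp only [neg_mul]
  rw [e2, integral_exp_mul_Ioi (neg_neg_of_pos hc)]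
  simp
  ring

/-- Mellin inversion for `exp (-y)` -/
lemma K1_exp_inv {σ y : ℝ} (hσ : 0 < σ) (hy : 0 < y) :
    ((Real.exp (-y) : ℝ) : ℂ) =
      (1 / (2 * Real.pi) : ℂ) * ∫ τ : ℝ, (y : ℂ) ^ (-((σ : ℂ) + τ * I)) * Complex.Gamma (σ + τ * I) := by
  have hG : ∀ s : ℂ, 0 < s.re → mellin (fun x : ℝ => ((Real.exp (-x) : ℝ) : ℂ)) s = Complex.Gamma s := by
    intro s hs
    rw [Complex.Gamma_eq_integral hs, Complex.GammaIntegral_eq_mellin]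
  have hf : MellinConvergent (fun x : ℝ => ((Real.exp (-x) : ℝ) : ℂ)) (σ : ℂ) := by
    have h := Complex.GammaIntegral_convergent (s := (σ : ℂ)) (by simpa using hσ)
    unfold MellinConvergent
    refine h.congr_fun (fun x _ => ?_) measurableSet_Ioi
    simp [smul_eq_mul]
    ring
  have hF : VerticalIntegrable (mellin (fun x : ℝ => ((Real.exp (-x) : ℝ) : ℂ))) σ := by
    unfold VerticalIntegrable
    have e : (fun y : ℝ => mellin (fun x : ℝ => ((Real.exp (-x) : ℝ) : ℂ)) (σ + y * I)) =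
        fun y : ℝ => Complex.Gamma (σ + y * I) := by
      funext y
      exact hG _ (by simpa using hσ)
    rw [e]
    refine ((K1_integrable_exp_abs (c := 1) one_pos).const_mul
      (Real.Gamma σ * (1 / Real.cos 1) ^ σ)).mono' ?_ ?_
    · apply Continuous.aestronglyMeasurable
      rw [continuous_iff_continuousAt]
      intro y
      have h1 : DifferentiableAt ℂ Complex.Gamma ((σ : ℂ) + y * I) := by
        refine Complex.differentiableAt_Gamma _ (fun m h => ?_)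
        have := congrArg Complex.re h
        simp at this
        have hm : (0:ℝ) ≤ m := m.cast_nonneg
        linarith
      exact ContinuousAt.comp (f := fun y : ℝ => (σ : ℂ) + y * I) h1.continuousAt (by fun_prop)
    · filter_upwards with y
      have := K1_norm_Gamma' hσ y
      rwa [one_mul]
  have h := mellinInv_mellin_eq σ (fun x : ℝ => ((Real.exp (-x) : ℝ) : ℂ)) hy hf hF
    (by fun_prop)
  rw [← h, mellinInv, Complex.real_smul]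
  congr 2
  · push_cast; rfl
  · funext t
    rw [hG _ (by simpa using hσ), smul_eq_mul]

lemma K1_gk_zero {k : ℤ} {x y : ℕ} (h : x * y = 0) : gk k x y = 0 := by
  unfold gk
  rcases Nat.mul_eq_zero.1 h with h | h <;> subst h <;> simp [Pool.Agent.H5.c_zero]

lemma K1_eps_zero {k : ℤ} {q x y : ℕ} (h : x * y = 0) : eps k q x y = 0 := by
  unfold eps
  rcases Nat.mul_eq_zero.1 h with h | h <;> subst h <;> simp

lemma K1_cpow_pos {x : ℝ} (hx : 0 < x) (s : ℂ) : (x : ℂ) ^ s = exp ((Real.log x : ℂ) * s) := by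
  rw [Complex.cpow_def_of_ne_zero (by exact_mod_cast hx.ne'), Complex.ofReal_log hx.le]

/-- the frequency integrand -/
noncomputable def K1G (P σ τ : ℝ) : ℂ := (P : ℂ) ^ (-((σ : ℂ) + τ * I)) * Complex.Gamma (σ + τ * I)

lemma K1G_norm_le {P σ : ℝ} (hP : 0 < P) (hσ : 0 < σ) (τ : ℝ) :
    ‖K1G P σ τ‖ ≤ P ^ (-σ) * (Real.Gamma σ * (1 / Real.cos 1) ^ σ) * Real.exp (-|τ|) := by
  unfold K1G
  rw [norm_mul, Complex.norm_cpow_eq_rpow_re_of_pos hP]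
  have e : (-((σ : ℂ) + τ * I)).re = -σ := by simp
  rw [e, mul_assoc]
  exact mul_le_mul_of_nonneg_left (K1_norm_Gamma' hσ τ) (Real.rpow_nonneg hP.le _)

lemma K1G_cont {P σ : ℝ} (hP : 0 < P) (hσ : 0 < σ) : Continuous (K1G P σ) := by
  unfold K1G
  apply Continuous.mul
  · have : (fun τ : ℝ => (P : ℂ) ^ (-((σ : ℂ) + τ * I))) =
        fun τ : ℝ => exp ((Real.log P : ℂ) * (-((σ : ℂ) + τ * I))) := by
      funext τ; exact K1_cpow_pos hP _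
    rw [this]
    fun_prop
  · rw [continuous_iff_continuousAt]
    intro y
    have h1 : DifferentiableAt ℂ Complex.Gamma ((σ : ℂ) + y * I) := by
      refine Complex.differentiableAt_Gamma _ (fun m h => ?_)
      have := congrArg Complex.re h
      simp at this
      have hm : (0:ℝ) ≤ m := m.cast_nonneg
      linarith
    exact ContinuousAt.comp (f := fun y : ℝ => (σ : ℂ) + y * I) h1.continuousAt (by fun_prop)

lemma K1G_int {P σ : ℝ} (hP : 0 < P) (hσ : 0 < σ) : Integrable (K1G P σ) := by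
  refine ((K1_integrable_exp_abs (c := 1) one_pos).const_mul
      (P ^ (-σ) * (Real.Gamma σ * (1 / Real.cos 1) ^ σ))).mono'
    (K1G_cont hP hσ).aestronglyMeasurable ?_
  filter_upwards with τ
  have := K1G_norm_le hP hσ τ
  rwa [one_mul]

/-- insertion of the Mellin integral in one term -/
lemma K1_term {P σ : ℝ} (hP : 0 < P) (hσ : 0 < σ) {m : ℕ} (hm : 0 < m) :
    ((Real.sqrt m : ℝ) : ℂ)⁻¹ * exp (-((P : ℂ) / (m : ℂ) ^ 2)) =
      (1 / (2 * Real.pi) : ℂ) * ∫ τ : ℝ, K1G P σ τ * (m : ℂ) ^ (((2 * σ : ℝ) : ℂ) + 2 * τ * I - 1 / 2) := by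
  have hmR : (0:ℝ) < m := by exact_mod_cast hm
  have hy : 0 < P / (m : ℝ) ^ 2 := by positivity
  have h := K1_exp_inv hσ hy
  have e1 : exp (-((P : ℂ) / (m : ℂ) ^ 2)) = ((Real.exp (-(P / (m : ℝ) ^ 2)) : ℝ) : ℂ) := by
    push_cast; rfl
  rw [e1, h, mul_left_comm, ← integral_const_mul]
  congr 2
  funext τ
  unfold K1G
  have e2 : ((P / (m : ℝ) ^ 2 : ℝ) : ℂ) ^ (-((σ : ℂ) + τ * I)) =
      exp ((Real.log (P / (m : ℝ) ^ 2) : ℂ) * (-((σ : ℂ) + τ * I))) := K1_cpow_pos hy _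
  have e3 : (m : ℂ) ^ (((2 * σ : ℝ) : ℂ) + 2 * τ * I - 1 / 2) =
      exp ((Real.log m : ℂ) * (((2 * σ : ℝ) : ℂ) + 2 * τ * I - 1 / 2)) := by
    have := K1_cpow_pos hmR (((2 * σ : ℝ) : ℂ) + 2 * τ * I - 1 / 2)
    simpa using this
  have e4 : ((Real.sqrt m : ℝ) : ℂ)⁻¹ = exp ((Real.log m : ℂ) * (-(1 / 2))) := by
    rw [Real.sqrt_eq_rpow, ← Complex.ofReal_inv, ← Real.rpow_neg hmR.le, Complex.ofReal_cpow hmR.le,
      K1_cpow_pos hmR]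
    push_cast
    ring_nf
  rw [e2, e3, e4, K1_cpow_pos hP, Real.log_div hP.ne' (by positivity), Real.log_pow]
  rw [mul_right_comm, ← mul_assoc, ← Complex.exp_add, ← Complex.exp_add]
  congr 2
  push_cast
  ring

lemma K1_ray_mul (a : ℝ) (b r : ℝ) : (b : ℂ) * ray a r = ray a (b * r) := by
  unfold ray; push_cast; ring

lemma K1_ray_re (a r : ℝ) : (ray a r).re = r * Real.sin a := by
  unfold ray
  rw [Complex.re_ofReal_mul, Complex.exp_ofReal_mul_I_re, Real.cos_pi_div_two_sub]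

/-- core estimate: one frequency, one line of integration -/
lemma K1_core {a δ η Z r σ Mx : ℝ} {k : ℤ} {q : ℕ} (hσ : 0 < σ) (ha0 : 0 < a) (ha : a ≤ 1 / 8)
    (hδ : 0 < δ) (hZ : 0 < Z) (hr : 0 < r) (hk : k ≠ 0) (_hMx : 0 ≤ Mx)
    (hT1 : ∀ τ r' : ℝ, 0 < r' → ‖T q (((2 * σ : ℝ) : ℂ) + τ * I) (ray a r')‖ ≤
      Mx * Real.exp ((a - δ) * |τ|) * r' ^ (-(2 * σ + 1 / 2 + η)))
    (hT2 : ∀ τ r' : ℝ, 0 < r' → ‖T q (((2 * σ : ℝ) : ℂ) + τ * I) ((starRingEnd ℂ) (ray a r'))‖ ≤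
      Mx * Real.exp ((a - δ) * |τ|) * r' ^ (-(2 * σ + 1 / 2 + η)))
    (hE : Summable (fun b : ℕ × ℕ => ‖eps k q b.1 b.2‖ * ((b.1 : ℝ) * b.2) ^ (-(1 + η))))
    (hds : ∀ (u z w : ℂ), 0 < z.re → 0 < w.re →
      Summable (fun n : ℕ × ℕ => gk k n.1 n.2 * ((n.1 * n.2 : ℕ) : ℂ) ^ (u - 1 / 2) *
        (exp (-(2 * Real.pi * n.1 * z)) * exp (-(2 * Real.pi * n.2 * w)))) ∧
      Summable (fun b : ℕ × ℕ => eps k q b.1 b.2 * ((b.1 * b.2 : ℕ) : ℂ) ^ (u - 1 / 2) *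
        (T q u (b.1 * z) * T q u (b.2 * w))) ∧
      ∑' n : ℕ × ℕ, gk k n.1 n.2 * ((n.1 * n.2 : ℕ) : ℂ) ^ (u - 1 / 2) *
        (exp (-(2 * Real.pi * n.1 * z)) * exp (-(2 * Real.pi * n.2 * w))) =
      ∑' b : ℕ × ℕ, eps k q b.1 b.2 * ((b.1 * b.2 : ℕ) : ℂ) ^ (u - 1 / 2) *
        (T q u (b.1 * z) * T q u (b.2 * w))) :
    ‖∑' n : ℕ × ℕ, gk k n.1 n.2 * ((Real.sqrt (n.1 * n.2 : ℕ) : ℝ) : ℂ)⁻¹ *
        exp (-(Real.pi * k ^ 2 * Z ^ 2 / ((n.1 * n.2 : ℕ) : ℂ) ^ 2)) *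
        (exp (-(2 * Real.pi * n.1 * ray a r)) *
          exp (-(2 * Real.pi * n.2 * (starRingEnd ℂ) (ray a r))))‖ ≤
      (Real.Gamma σ * (1 / Real.cos 1) ^ σ) * (|(k : ℝ)| * Z) ^ (-(2 * σ)) * Mx ^ 2 *
        r ^ (-(4 * σ + 1 + 2 * η)) *
        ∑' b : ℕ × ℕ, ‖eps k q b.1 b.2‖ * ((b.1 : ℝ) * b.2) ^ (-(1 + η)) := by
  have hkR : (k : ℝ) ≠ 0 := by exact_mod_cast hk
  set P : ℝ := Real.pi * (k : ℝ) ^ 2 * Z ^ 2 with hPdef
  have hP : 0 < P := by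
    have : 0 < (k : ℝ) ^ 2 := by positivity
    positivity
  set z : ℂ := ray a r with hz
  set w : ℂ := (starRingEnd ℂ) (ray a r) with hw
  have hsin : 0 < Real.sin a := Real.sin_pos_of_pos_of_lt_pi ha0 (by linarith [Real.pi_gt_three])
  have hzre : 0 < z.re := by rw [hz, K1_ray_re]; positivity
  have hwre : 0 < w.re := by rw [hw, Complex.conj_re, K1_ray_re]; positivity
  set En : ℕ × ℕ → ℂ := fun n => exp (-(2 * Real.pi * n.1 * z)) * exp (-(2 * Real.pi * n.2 * w)) with hEn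
  set F : ℕ × ℕ → ℝ → ℂ := fun n τ =>
    K1G P σ τ * (gk k n.1 n.2 * ((n.1 * n.2 : ℕ) : ℂ) ^ (((2 * σ : ℝ) : ℂ) + 2 * τ * I - 1 / 2) * En n)
    with hF
  -- termwise identity
  have hterm : ∀ n : ℕ × ℕ, gk k n.1 n.2 * ((Real.sqrt (n.1 * n.2 : ℕ) : ℝ) : ℂ)⁻¹ *
        exp (-(Real.pi * k ^ 2 * Z ^ 2 / ((n.1 * n.2 : ℕ) : ℂ) ^ 2)) * En n =
      (1 / (2 * Real.pi) : ℂ) * ∫ τ : ℝ, F n τ := by
    intro n
    rcases Nat.eq_zero_or_pos (n.1 * n.2) with h0 | hpos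
    · simp only [hF]
      rw [K1_gk_zero h0]
      simp
    · have h := K1_term hP hσ hpos
      have e : exp (-(Real.pi * k ^ 2 * Z ^ 2 / ((n.1 * n.2 : ℕ) : ℂ) ^ 2)) =
          exp (-((P : ℂ) / ((n.1 * n.2 : ℕ) : ℂ) ^ 2)) := by
        rw [hPdef]; push_cast; rfl
      rw [e]
      have e2 : gk k n.1 n.2 * ((Real.sqrt (n.1 * n.2 : ℕ) : ℝ) : ℂ)⁻¹ *
        exp (-((P : ℂ) / ((n.1 * n.2 : ℕ) : ℂ) ^ 2)) * En n = gk k n.1 n.2 * En n *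
          (((Real.sqrt (n.1 * n.2 : ℕ) : ℝ) : ℂ)⁻¹ *
            exp (-((P : ℂ) / ((n.1 * n.2 : ℕ) : ℂ) ^ 2))) := by ring
      rw [e2, h, mul_left_comm, ← integral_const_mul]
      congr 2
      funext τ
      simp only [hF]
      ring
  -- norms of the terms
  set W : ℕ × ℕ → ℂ := fun n => gk k n.1 n.2 * ((n.1 * n.2 : ℕ) : ℂ) ^ (((2 * σ : ℝ) : ℂ) - 1 / 2) * En n
    with hW
  have hWsum : Summable W := (hds ((2 * σ : ℝ) : ℂ) z w hzre hwre).1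
  have hFnorm : ∀ n τ, ‖F n τ‖ = ‖K1G P σ τ‖ * ‖W n‖ := by
    intro n τ
    simp only [hF, hW]
    rw [norm_mul, norm_mul, norm_mul, norm_mul, norm_mul]
    rcases Nat.eq_zero_or_pos (n.1 * n.2) with h0 | hpos
    · rw [K1_gk_zero h0]; simp
    · have hmR : (0:ℝ) < ((n.1 * n.2 : ℕ) : ℝ) := by exact_mod_cast hpos
      have e1 := Complex.norm_cpow_eq_rpow_re_of_pos hmR (((2 * σ : ℝ) : ℂ) + 2 * τ * I - 1 / 2)
      have e2 := Complex.norm_cpow_eq_rpow_re_of_pos hmR (((2 * σ : ℝ) : ℂ) - 1 / 2)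
      have e3 : (((2 * σ : ℝ) : ℂ) + 2 * τ * I - 1 / 2).re = (((2 * σ : ℝ) : ℂ) - 1 / 2).re := by
        simp
      rw [e3, ← e2] at e1
      rw [Complex.ofReal_natCast] at e1
      rw [e1]
      simp only [hEn, norm_mul]
  have hFint : ∀ n, Integrable (F n) := by
    intro n
    have hcont : Continuous (F n) := by
      simp only [hF]
      rcases Nat.eq_zero_or_pos (n.1 * n.2) with h0 | hpos
      · rw [K1_gk_zero h0]
        simp only [zero_mul, mul_zero]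
        exact continuous_const
      · refine (K1G_cont hP hσ).mul ?_
        refine Continuous.mul (Continuous.mul continuous_const ?_) continuous_const
        have hmR : (0:ℝ) < ((n.1 * n.2 : ℕ) : ℝ) := by exact_mod_cast hpos
        have : (fun τ : ℝ => ((n.1 * n.2 : ℕ) : ℂ) ^ (((2 * σ : ℝ) : ℂ) + 2 * τ * I - 1 / 2)) =
            fun τ : ℝ => exp ((Real.log ((n.1 * n.2 : ℕ) : ℝ) : ℂ) *
              (((2 * σ : ℝ) : ℂ) + 2 * τ * I - 1 / 2)) := by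
          funext τ
          have := K1_cpow_pos hmR (((2 * σ : ℝ) : ℂ) + 2 * τ * I - 1 / 2)
          rwa [Complex.ofReal_natCast] at this
        rw [this]
        fun_prop
    refine ((K1G_int hP hσ).norm.mul_const ‖W n‖).mono' hcont.aestronglyMeasurable ?_
    filter_upwards with τ
    rw [hFnorm]
  have hFsum : Summable (fun n => ∫ τ, ‖F n τ‖) := by
    have e : (fun n => ∫ τ, ‖F n τ‖) = fun n => (∫ τ, ‖K1G P σ τ‖) * ‖W n‖ := by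
      funext n
      simp_rw [hFnorm]
      rw [integral_mul_const]
    rw [e]
    exact hWsum.norm.mul_left _
  have hmain := hasSum_integral_of_summable_integral_norm hFint hFsum
  -- the sum over n at fixed τ
  have hτ : ∀ τ : ℝ, ‖∑' n, F n τ‖ ≤
      (P ^ (-σ) * (Real.Gamma σ * (1 / Real.cos 1) ^ σ) * Mx ^ 2 * r ^ (-(4 * σ + 1 + 2 * η)) *
        ∑' b : ℕ × ℕ, ‖eps k q b.1 b.2‖ * ((b.1 : ℝ) * b.2) ^ (-(1 + η))) *
        Real.exp (-(1 / 2 * |τ|)) := by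
    intro τ
    set u : ℂ := ((2 * σ : ℝ) : ℂ) + 2 * τ * I with hu
    obtain ⟨h1, h2, h3⟩ := hds u z w hzre hwre
    have e1 : ∑' n, F n τ = K1G P σ τ * ∑' b : ℕ × ℕ, eps k q b.1 b.2 * ((b.1 * b.2 : ℕ) : ℂ) ^ (u - 1 / 2) *
        (T q u (b.1 * z) * T q u (b.2 * w)) := by
      rw [← h3, ← tsum_mul_left]
    have hb : ∀ b : ℕ × ℕ, ‖eps k q b.1 b.2 * ((b.1 * b.2 : ℕ) : ℂ) ^ (u - 1 / 2) *
        (T q u (b.1 * z) * T q u (b.2 * w))‖ ≤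
        (Mx ^ 2 * Real.exp (1 / 2 * |τ|) * r ^ (-(4 * σ + 1 + 2 * η))) *
          (‖eps k q b.1 b.2‖ * ((b.1 : ℝ) * b.2) ^ (-(1 + η))) := by
      intro b
      rcases Nat.eq_zero_or_pos (b.1 * b.2) with h0 | hpos
      · rw [K1_eps_zero h0]; simp
      · have hb1 : 0 < b.1 := Nat.pos_of_ne_zero (fun h => by simp [h] at hpos)
        have hb2 : 0 < b.2 := Nat.pos_of_ne_zero (fun h => by simp [h] at hpos)
        have hb1R : (0:ℝ) < b.1 := by exact_mod_cast hb1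
        have hb2R : (0:ℝ) < b.2 := by exact_mod_cast hb2
        have hmR : (0:ℝ) < ((b.1 * b.2 : ℕ) : ℝ) := by exact_mod_cast hpos
        have g1 : (b.1 : ℂ) * z = ray a (b.1 * r) := by
          have := K1_ray_mul a (b.1 : ℝ) r
          rwa [Complex.ofReal_natCast] at this
        have g2 : (b.2 : ℂ) * w = (starRingEnd ℂ) (ray a (b.2 * r)) := by
          have := K1_ray_mul a (b.2 : ℝ) r
          rw [← this, map_mul, Complex.conj_ofReal, Complex.ofReal_natCast]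
        have gu : u = ((2 * σ : ℝ) : ℂ) + ((2 * τ : ℝ) : ℂ) * I := by
          rw [hu]; push_cast; ring
        have t1 := hT1 (2 * τ) (b.1 * r) (by positivity)
        have t2 := hT2 (2 * τ) (b.2 * r) (by positivity)
        rw [← gu, ← g1] at t1
        rw [← gu, ← g2] at t2
        have e2 := Complex.norm_cpow_eq_rpow_re_of_pos hmR (u - 1 / 2)
        have e3 : (u - 1 / 2).re = 2 * σ - 1 / 2 := by
          rw [hu]; simp
        rw [e3, Complex.ofReal_natCast] at e2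
        rw [norm_mul, norm_mul, norm_mul, e2]
        have hexp : Real.exp ((a - δ) * |2 * τ|) * Real.exp ((a - δ) * |2 * τ|) ≤
            Real.exp (1 / 2 * |τ|) := by
          rw [← Real.exp_add, abs_mul, abs_two]
          apply Real.exp_le_exp.2
          nlinarith [abs_nonneg τ]
        have hTT : ‖T q u (b.1 * z)‖ * ‖T q u (b.2 * w)‖ ≤
            Mx ^ 2 * Real.exp (1 / 2 * |τ|) * (((b.1 : ℝ) * r) ^ (-(2 * σ + 1 / 2 + η)) *
              ((b.2 : ℝ) * r) ^ (-(2 * σ + 1 / 2 + η))) := by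
          refine (mul_le_mul t1 t2 (norm_nonneg _) ((norm_nonneg _).trans t1)).trans ?_
          have : Mx * Real.exp ((a - δ) * |2 * τ|) * ((b.1 : ℝ) * r) ^ (-(2 * σ + 1 / 2 + η)) *
              (Mx * Real.exp ((a - δ) * |2 * τ|) * ((b.2 : ℝ) * r) ^ (-(2 * σ + 1 / 2 + η))) =
              Mx ^ 2 * (Real.exp ((a - δ) * |2 * τ|) * Real.exp ((a - δ) * |2 * τ|)) *
              (((b.1 : ℝ) * r) ^ (-(2 * σ + 1 / 2 + η)) *
              ((b.2 : ℝ) * r) ^ (-(2 * σ + 1 / 2 + η))) := by ring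
          rw [this]
          gcongr
        have hpow : ((b.1 * b.2 : ℕ) : ℝ) ^ (2 * σ - 1 / 2) *
            (((b.1 : ℝ) * r) ^ (-(2 * σ + 1 / 2 + η)) * ((b.2 : ℝ) * r) ^ (-(2 * σ + 1 / 2 + η))) =
            r ^ (-(4 * σ + 1 + 2 * η)) * ((b.1 : ℝ) * b.2) ^ (-(1 + η)) := by
          push_cast
          rw [Real.mul_rpow hb1R.le hr.le, Real.mul_rpow hb2R.le hr.le,
            Real.mul_rpow hb1R.le hb2R.le, Real.mul_rpow hb1R.le hb2R.le]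
          have f1 : (b.1 : ℝ) ^ (-(1 + η)) = (b.1 : ℝ) ^ (2 * σ - 1 / 2) *
              (b.1 : ℝ) ^ (-(2 * σ + 1 / 2 + η)) := by
            rw [← Real.rpow_add hb1R]; congr 1; ring
          have f2 : (b.2 : ℝ) ^ (-(1 + η)) = (b.2 : ℝ) ^ (2 * σ - 1 / 2) *
              (b.2 : ℝ) ^ (-(2 * σ + 1 / 2 + η)) := by
            rw [← Real.rpow_add hb2R]; congr 1; ring
          have f3 : r ^ (-(4 * σ + 1 + 2 * η)) = r ^ (-(2 * σ + 1 / 2 + η)) *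
              r ^ (-(2 * σ + 1 / 2 + η)) := by
            rw [← Real.rpow_add hr]; congr 1; ring
          rw [f1, f2, f3]
          ring
        calc ‖eps k q b.1 b.2‖ * ((b.1 * b.2 : ℕ) : ℝ) ^ (2 * σ - 1 / 2) *
            (‖T q u (b.1 * z)‖ * ‖T q u (b.2 * w)‖)
            ≤ ‖eps k q b.1 b.2‖ * ((b.1 * b.2 : ℕ) : ℝ) ^ (2 * σ - 1 / 2) *
            (Mx ^ 2 * Real.exp (1 / 2 * |τ|) * (((b.1 : ℝ) * r) ^ (-(2 * σ + 1 / 2 + η)) *
              ((b.2 : ℝ) * r) ^ (-(2 * σ + 1 / 2 + η)))) := by gcongr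
          _ = ‖eps k q b.1 b.2‖ * (Mx ^ 2 * Real.exp (1 / 2 * |τ|)) *
              (((b.1 * b.2 : ℕ) : ℝ) ^ (2 * σ - 1 / 2) *
              (((b.1 : ℝ) * r) ^ (-(2 * σ + 1 / 2 + η)) *
              ((b.2 : ℝ) * r) ^ (-(2 * σ + 1 / 2 + η)))) := by ring
          _ = _ := by rw [hpow]; ring
    rw [e1, norm_mul]
    have h4 : ‖∑' b : ℕ × ℕ, eps k q b.1 b.2 * ((b.1 * b.2 : ℕ) : ℂ) ^ (u - 1 / 2) *
        (T q u (b.1 * z) * T q u (b.2 * w))‖ ≤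
        (Mx ^ 2 * Real.exp (1 / 2 * |τ|) * r ^ (-(4 * σ + 1 + 2 * η))) *
          ∑' b : ℕ × ℕ, (‖eps k q b.1 b.2‖ * ((b.1 : ℝ) * b.2) ^ (-(1 + η))) := by
      rw [← tsum_mul_left]
      exact tsum_of_norm_bounded (hE.mul_left _).hasSum hb
    have h5 := K1G_norm_le hP hσ τ
    have h6 : Real.exp (-|τ|) * Real.exp (1 / 2 * |τ|) = Real.exp (-(1 / 2 * |τ|)) := by
      rw [← Real.exp_add]; congr 1; ring
    calc ‖K1G P σ τ‖ * ‖∑' b : ℕ × ℕ, eps k q b.1 b.2 * ((b.1 * b.2 : ℕ) : ℂ) ^ (u - 1 / 2) *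
        (T q u (b.1 * z) * T q u (b.2 * w))‖ ≤
        (P ^ (-σ) * (Real.Gamma σ * (1 / Real.cos 1) ^ σ) * Real.exp (-|τ|)) *
        ((Mx ^ 2 * Real.exp (1 / 2 * |τ|) * r ^ (-(4 * σ + 1 + 2 * η))) *
          ∑' b : ℕ × ℕ, (‖eps k q b.1 b.2‖ * ((b.1 : ℝ) * b.2) ^ (-(1 + η)))) := by
          refine mul_le_mul h5 h4 (norm_nonneg _) ((norm_nonneg _).trans h5)
      _ = (P ^ (-σ) * (Real.Gamma σ * (1 / Real.cos 1) ^ σ) * Mx ^ 2 * r ^ (-(4 * σ + 1 + 2 * η)) *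
        ∑' b : ℕ × ℕ, ‖eps k q b.1 b.2‖ * ((b.1 : ℝ) * b.2) ^ (-(1 + η))) *
        Real.exp (-(1 / 2 * |τ|)) := by rw [← h6]; ring
  have hsumeq : ∑' n : ℕ × ℕ, gk k n.1 n.2 * ((Real.sqrt (n.1 * n.2 : ℕ) : ℝ) : ℂ)⁻¹ *
        exp (-(Real.pi * k ^ 2 * Z ^ 2 / ((n.1 * n.2 : ℕ) : ℂ) ^ 2)) * En n =
      (1 / (2 * Real.pi) : ℂ) * ∫ τ : ℝ, ∑' n, F n τ := by
    rw [← hmain.tsum_eq, ← tsum_mul_left]
    exact tsum_congr hterm
  rw [hsumeq, norm_mul]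
  have hint : ‖∫ τ : ℝ, ∑' n, F n τ‖ ≤
      (P ^ (-σ) * (Real.Gamma σ * (1 / Real.cos 1) ^ σ) * Mx ^ 2 * r ^ (-(4 * σ + 1 + 2 * η)) *
        ∑' b : ℕ × ℕ, ‖eps k q b.1 b.2‖ * ((b.1 : ℝ) * b.2) ^ (-(1 + η))) * 4 := by
    have h7 := norm_integral_le_of_norm_le
      ((K1_integrable_exp_abs (c := 1 / 2) (by norm_num)).const_mul
      (P ^ (-σ) * (Real.Gamma σ * (1 / Real.cos 1) ^ σ) * Mx ^ 2 * r ^ (-(4 * σ + 1 + 2 * η)) *
        ∑' b : ℕ × ℕ, ‖eps k q b.1 b.2‖ * ((b.1 : ℝ) * b.2) ^ (-(1 + η))))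
      (Filter.Eventually.of_forall hτ)
    rw [integral_const_mul, K1_integral_exp_abs (by norm_num)] at h7
    norm_num at h7 ⊢
    exact h7
  have hSnn : 0 ≤ ∑' b : ℕ × ℕ, ‖eps k q b.1 b.2‖ * ((b.1 : ℝ) * b.2) ^ (-(1 + η)) :=
    tsum_nonneg (fun b => by positivity)
  have hcos1 : 0 < Real.cos 1 := Real.cos_one_pos
  have hG0 : 0 ≤ Real.Gamma σ * (1 / Real.cos 1) ^ σ :=
    mul_nonneg (Real.Gamma_pos_of_pos hσ).le (by positivity)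
  have hPle : P ^ (-σ) ≤ (|(k : ℝ)| * Z) ^ (-(2 * σ)) := by
    have hkZ : 0 < |(k : ℝ)| * Z := by positivity
    have e1 : (|(k : ℝ)| * Z) ^ (-(2 * σ)) = ((|(k : ℝ)| * Z) ^ 2) ^ (-σ) := by
      rw [← Real.rpow_natCast, ← Real.rpow_mul hkZ.le]; congr 1; push_cast; ring
    rw [e1]
    apply Real.rpow_le_rpow_of_nonpos (by positivity) _ (by linarith)
    rw [hPdef, mul_pow, sq_abs, mul_assoc]
    have : 0 ≤ (k : ℝ) ^ 2 * Z ^ 2 := by positivity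
    nlinarith [Real.pi_gt_three]
  have hpi : ‖(1 / (2 * Real.pi) : ℂ)‖ * 4 ≤ 1 := by
    have : (1 / (2 * Real.pi) : ℂ) = ((1 / (2 * Real.pi) : ℝ) : ℂ) := by push_cast; rfl
    rw [this, Complex.norm_real, Real.norm_of_nonneg (by positivity), div_mul_eq_mul_div,
      div_le_one (by positivity)]
    linarith [Real.pi_gt_three]
  calc ‖(1 / (2 * Real.pi) : ℂ)‖ * ‖∫ τ : ℝ, ∑' n, F n τ‖
      ≤ ‖(1 / (2 * Real.pi) : ℂ)‖ * ((P ^ (-σ) * (Real.Gamma σ * (1 / Real.cos 1) ^ σ) * Mx ^ 2 *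
        r ^ (-(4 * σ + 1 + 2 * η)) *
        ∑' b : ℕ × ℕ, ‖eps k q b.1 b.2‖ * ((b.1 : ℝ) * b.2) ^ (-(1 + η))) * 4) :=
        mul_le_mul_of_nonneg_left hint (norm_nonneg _)
    _ = (‖(1 / (2 * Real.pi) : ℂ)‖ * 4) * (P ^ (-σ) * (Real.Gamma σ * (1 / Real.cos 1) ^ σ) * Mx ^ 2 *
        r ^ (-(4 * σ + 1 + 2 * η)) *
        ∑' b : ℕ × ℕ, ‖eps k q b.1 b.2‖ * ((b.1 : ℝ) * b.2) ^ (-(1 + η))) := by ring
    _ ≤ 1 * (P ^ (-σ) * (Real.Gamma σ * (1 / Real.cos 1) ^ σ) * Mx ^ 2 *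
        r ^ (-(4 * σ + 1 + 2 * η)) *
        ∑' b : ℕ × ℕ, ‖eps k q b.1 b.2‖ * ((b.1 : ℝ) * b.2) ^ (-(1 + η))) := by
        gcongr
    _ = (Real.Gamma σ * (1 / Real.cos 1) ^ σ) * P ^ (-σ) * Mx ^ 2 *
        r ^ (-(4 * σ + 1 + 2 * η)) *
        ∑' b : ℕ × ℕ, ‖eps k q b.1 b.2‖ * ((b.1 : ℝ) * b.2) ^ (-(1 + η)) := by ring
    _ ≤ _ := by gcongr

lemma K1_alg1 (K Q Z M R S : ℝ) (hQ : Q ≠ 0) (hZ : Z ≠ 0) :
    Z * (K * (Q * Z)⁻¹ * M * R * S) = (K * M * S) * (R / Q) := by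
  field_simp

lemma K1_alg7 (K Q Z M R S : ℝ) (hQ : Q ≠ 0) (hZ : Z ≠ 0) :
    Z * (K * ((Q * Z) ^ 7)⁻¹ * M * R * S) = (K * M * S) * (R / Z ^ 6 / Q ^ 7) := by
  field_simp

/-- the contribution of the frequency `k = ± q v²`, from the statements of E1, E2 and T -/
theorem K_term_of
    (hds : ∀ (k : ℤ) (q : ℕ) (u z w : ℂ), 0 < z.re → 0 < w.re →
      Summable (fun n : ℕ × ℕ => gk k n.1 n.2 * ((n.1 * n.2 : ℕ) : ℂ) ^ (u - 1 / 2) *
        (exp (-(2 * Real.pi * n.1 * z)) * exp (-(2 * Real.pi * n.2 * w)))) ∧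
      Summable (fun b : ℕ × ℕ => eps k q b.1 b.2 * ((b.1 * b.2 : ℕ) : ℂ) ^ (u - 1 / 2) *
        (T q u (b.1 * z) * T q u (b.2 * w))) ∧
      ∑' n : ℕ × ℕ, gk k n.1 n.2 * ((n.1 * n.2 : ℕ) : ℂ) ^ (u - 1 / 2) *
        (exp (-(2 * Real.pi * n.1 * z)) * exp (-(2 * Real.pi * n.2 * w))) =
      ∑' b : ℕ × ℕ, eps k q b.1 b.2 * ((b.1 * b.2 : ℕ) : ℂ) ^ (u - 1 / 2) *
        (T q u (b.1 * z) * T q u (b.2 * w)))
    (hE : ∃ C : ℕ, ∀ (η : ℝ) (k : ℤ) (q v : ℕ), 0 < η → η ≤ 1 / 2 → Squarefree q → 0 < v →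
      k.natAbs = q * v ^ 2 →
      Summable (fun b : ℕ × ℕ => ‖eps k q b.1 b.2‖ * ((b.1 : ℝ) * b.2) ^ (-(1 + η))) ∧
      ∑' b : ℕ × ℕ, ‖eps k q b.1 b.2‖ * ((b.1 : ℝ) * b.2) ^ (-(1 + η)) ≤
        (C / η) ^ C * (1 + Real.log (q * v ^ 2)) ^ C * (v.divisors.card : ℝ) ^ C)
    (hT : ∃ C : ℝ, 0 < C ∧ ∀ (d : ℕ) (a δ η r τ κ : ℝ), Squarefree d → 0 < δ → δ < a →
      a ≤ 1 / 8 → 0 < η → η ≤ 1 / 2 → 0 < r → (κ = 1 ∨ κ = 7) →
      ‖T d (κ + τ * I) (ray a r)‖ ≤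
        C / δ ^ 9 * MM (a - δ) η d * Real.exp ((a - δ) * |τ|) * r ^ (-(κ + 1 / 2 + η)) ∧
      ‖T d (κ + τ * I) ((starRingEnd ℂ) (ray a r))‖ ≤
        C / δ ^ 9 * MM (a - δ) η d * Real.exp ((a - δ) * |τ|) * r ^ (-(κ + 1 / 2 + η))) :
    ∃ C : ℕ, ∀ (a δ η Z r : ℝ) (k : ℤ) (q v : ℕ), 0 < δ → δ < a → a ≤ 1 / 8 →
    0 < η → η ≤ 1 / 2 → 0 < Z → 0 < r → Squarefree q → 0 < v → k.natAbs = q * v ^ 2 →
    Z * ‖∑' n : ℕ × ℕ, gk k n.1 n.2 * ((Real.sqrt (n.1 * n.2 : ℕ) : ℝ) : ℂ)⁻¹ *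
        exp (-(Real.pi * k ^ 2 * Z ^ 2 / ((n.1 * n.2 : ℕ) : ℂ) ^ 2)) *
        (exp (-(2 * Real.pi * n.1 * ray a r)) *
          exp (-(2 * Real.pi * n.2 * (starRingEnd ℂ) (ray a r))))‖ ≤
      (C / (δ * η)) ^ C * (1 + Real.log (q * v ^ 2)) ^ C * (v.divisors.card : ℝ) ^ C *
        (MM (a - δ) η q) ^ 2 *
        min (r ^ (-(3 + 2 * η)) / (q * v ^ 2)) (r ^ (-(15 + 2 * η)) / Z ^ 6 / (q * v ^ 2) ^ 7) := by
  obtain ⟨C₁, hC₁⟩ := hE
  obtain ⟨C₂, hC₂pos, hC₂⟩ := hT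
  set K₁ : ℝ := Real.Gamma (1 / 2) * (1 / Real.cos 1) ^ ((1 / 2) : ℝ) with hK₁
  set K₇ : ℝ := Real.Gamma (7 / 2) * (1 / Real.cos 1) ^ ((7 / 2) : ℝ) with hK₇
  have hcos1 : 0 < Real.cos 1 := Real.cos_one_pos
  have hK₁0 : 0 ≤ K₁ := mul_nonneg (Real.Gamma_pos_of_pos (by norm_num)).le (by positivity)
  have hK₇0 : 0 ≤ K₇ := mul_nonneg (Real.Gamma_pos_of_pos (by norm_num)).le (by positivity)
  obtain ⟨C₃, hC₃⟩ := exists_nat_ge ((K₁ + K₇) * C₂ ^ 2)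
  refine ⟨C₁ + C₃ + 18, ?_⟩
  intro a δ η Z r k q v hδ hδa ha hη hη1 hZ hr hq hv hk
  have hq0 : 0 < q := Nat.pos_of_ne_zero hq.ne_zero
  have hqR : (1:ℝ) ≤ q := by exact_mod_cast hq0
  have hvR : (1:ℝ) ≤ v := by exact_mod_cast hv
  have hqv1 : (1:ℝ) ≤ q * v ^ 2 := by nlinarith [one_le_pow₀ (n := 2) hvR]
  have hkabs : |(k : ℝ)| = q * v ^ 2 := by
    have : ((k.natAbs : ℕ) : ℝ) = |(k : ℝ)| := by
      rw [Nat.cast_natAbs]; push_cast; rfl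
    rw [← this, hk]; push_cast; rfl
  have hk0 : k ≠ 0 := by
    intro h
    rw [h] at hkabs
    simp at hkabs
    rcases hkabs with h | h <;> omega
  obtain ⟨hEs, hEb⟩ := hC₁ η k q v hη hη1 hq hv hk
  have hMM : 0 ≤ MM (a - δ) η q := by
    unfold MM
    exact Real.iSup_nonneg (fun t => by positivity)
  set Mx : ℝ := C₂ / δ ^ 9 * MM (a - δ) η q with hMx
  have hMx0 : 0 ≤ Mx := by positivity
  set S₀ : ℝ := ∑' b : ℕ × ℕ, ‖eps k q b.1 b.2‖ * ((b.1 : ℝ) * b.2) ^ (-(1 + η)) with hS₀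
  have hS₀0 : 0 ≤ S₀ := tsum_nonneg (fun b => by positivity)
  have hcore : ∀ κ : ℝ, (κ = 1 ∨ κ = 7) →
      ‖∑' n : ℕ × ℕ, gk k n.1 n.2 * ((Real.sqrt (n.1 * n.2 : ℕ) : ℝ) : ℂ)⁻¹ *
        exp (-(Real.pi * k ^ 2 * Z ^ 2 / ((n.1 * n.2 : ℕ) : ℂ) ^ 2)) *
        (exp (-(2 * Real.pi * n.1 * ray a r)) *
          exp (-(2 * Real.pi * n.2 * (starRingEnd ℂ) (ray a r))))‖ ≤
      (Real.Gamma (κ / 2) * (1 / Real.cos 1) ^ (κ / 2)) * (|(k : ℝ)| * Z) ^ (-κ) * Mx ^ 2 *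
        r ^ (-(2 * κ + 1 + 2 * η)) * S₀ := by
    intro κ hκ
    have hκ0 : 0 < κ := by rcases hκ with h | h <;> rw [h] <;> norm_num
    have h := K1_core (a := a) (δ := δ) (η := η) (Z := Z) (r := r) (σ := κ / 2) (Mx := Mx) (k := k)
      (q := q) (by positivity) (hδ.trans hδa) ha hδ hZ hr hk0 hMx0
      (fun τ r' hr' => by
        have := (hC₂ q a δ η r' τ κ hq hδ hδa ha hη hη1 hr' hκ).1
        rw [show (2 * (κ / 2) : ℝ) = κ by ring]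
        exact this)
      (fun τ r' hr' => by
        have := (hC₂ q a δ η r' τ κ hq hδ hδa ha hη hη1 hr' hκ).2
        rw [show (2 * (κ / 2) : ℝ) = κ by ring]
        exact this)
      hEs (fun u z w => hds k q u z w)
    rw [show (2 * (κ / 2) : ℝ) = κ by ring, show (4 * (κ / 2) : ℝ) = 2 * κ by ring] at h
    exact h
  have h1 := hcore 1 (Or.inl rfl)
  have h7 := hcore 7 (Or.inr rfl)
  -- collecting constants
  have hlog : 1 ≤ 1 + Real.log (q * v ^ 2) := by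
    have := Real.log_nonneg hqv1
    linarith
  have hcard : (1:ℝ) ≤ v.divisors.card := by
    have : 0 < v.divisors.card := Finset.card_pos.2 ⟨1, by simp [hv.ne']⟩
    exact_mod_cast this
  have hδ1 : δ ≤ 1 := by linarith
  set N : ℕ := C₁ + C₃ + 18 with hN
  have hconst : (K₁ + K₇) * Mx ^ 2 * S₀ ≤
      ((N : ℕ) / (δ * η)) ^ N * (1 + Real.log (q * v ^ 2)) ^ N * (v.divisors.card : ℝ) ^ N *
        (MM (a - δ) η q) ^ 2 := by
    set L : ℝ := 1 + Real.log (q * v ^ 2) with hL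
    set D : ℝ := (v.divisors.card : ℝ) with hD
    have hL0 : 0 < L := lt_of_lt_of_le one_pos hlog
    have hD0 : 0 < D := lt_of_lt_of_le one_pos hcard
    have e1 : L ^ C₁ ≤ L ^ N := pow_le_pow_right₀ hlog (by omega)
    have e2 : D ^ C₁ ≤ D ^ N := pow_le_pow_right₀ hcard (by omega)
    have hN1 : (1:ℝ) ≤ N := by
      have : 1 ≤ N := by omega
      exact_mod_cast this
    have e3 : (C₃ : ℝ) * (C₁ : ℝ) ^ C₁ ≤ (N : ℝ) ^ N := by
      have f1 : (C₁ : ℝ) ^ C₁ ≤ (N : ℝ) ^ C₁ := by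
        apply pow_le_pow_left₀ (by positivity)
        have : C₁ ≤ N := by omega
        exact_mod_cast this
      have f2 : (C₃ : ℝ) ≤ (N : ℝ) ^ (C₃ + 18) := by
        have g1 : (C₃ : ℝ) ≤ N := by
          have : C₃ ≤ N := by omega
          exact_mod_cast this
        refine g1.trans ?_
        calc (N : ℝ) = (N : ℝ) ^ 1 := (pow_one _).symm
          _ ≤ (N : ℝ) ^ (C₃ + 18) := pow_le_pow_right₀ hN1 (by omega)
      calc (C₃ : ℝ) * (C₁ : ℝ) ^ C₁ ≤ (N : ℝ) ^ (C₃ + 18) * (N : ℝ) ^ C₁ := by gcongr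
        _ = (N : ℝ) ^ N := by rw [← pow_add]; congr 1; omega
    have e4 : (1 / δ) ^ 18 ≤ (1 / δ) ^ N :=
      pow_le_pow_right₀ (by rw [le_div_iff₀ hδ]; linarith) (by omega)
    have e5 : (1 / η) ^ C₁ ≤ (1 / η) ^ N :=
      pow_le_pow_right₀ (by rw [le_div_iff₀ hη]; linarith) (by omega)
    have e6 : ((N : ℝ) / (δ * η)) ^ N = (N : ℝ) ^ N * ((1 / δ) ^ N * (1 / η) ^ N) := by
      rw [← mul_pow, ← mul_pow]; congr 1; field_simp
    have e7 : Mx ^ 2 = C₂ ^ 2 * (1 / δ) ^ 18 * (MM (a - δ) η q) ^ 2 := by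
      rw [hMx]; field_simp
    have e8 : ((C₁ : ℝ) / η) ^ C₁ = (C₁ : ℝ) ^ C₁ * (1 / η) ^ C₁ := by
      rw [← mul_pow]; congr 1; field_simp
    rw [e6, e7]
    rw [e8] at hEb
    have hKnn : 0 ≤ K₁ + K₇ := by linarith
    calc (K₁ + K₇) * (C₂ ^ 2 * (1 / δ) ^ 18 * (MM (a - δ) η q) ^ 2) * S₀
        = ((K₁ + K₇) * C₂ ^ 2) * (1 / δ) ^ 18 * (MM (a - δ) η q) ^ 2 * S₀ := by ring
      _ ≤ (C₃ : ℝ) * (1 / δ) ^ N * (MM (a - δ) η q) ^ 2 *
          ((C₁ : ℝ) ^ C₁ * (1 / η) ^ N * L ^ N * D ^ N) := by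
          refine mul_le_mul ?_ ?_ hS₀0 (by positivity)
          · gcongr
          · refine hEb.trans ?_
            gcongr
      _ = ((C₃ : ℝ) * (C₁ : ℝ) ^ C₁) * ((1 / δ) ^ N * (1 / η) ^ N) * L ^ N * D ^ N *
          (MM (a - δ) η q) ^ 2 := by ring
      _ ≤ _ := by gcongr
  have hA0 : 0 ≤ K₁ * Mx ^ 2 * S₀ := by positivity
  have hB0 : 0 ≤ K₇ * Mx ^ 2 * S₀ := by positivity
  have hsplit : (K₁ + K₇) * Mx ^ 2 * S₀ = K₁ * Mx ^ 2 * S₀ + K₇ * Mx ^ 2 * S₀ := by ring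
  have hc1 : K₁ * Mx ^ 2 * S₀ ≤ ((N : ℕ) / (δ * η)) ^ N * (1 + Real.log (q * v ^ 2)) ^ N *
      (v.divisors.card : ℝ) ^ N * (MM (a - δ) η q) ^ 2 := by
    refine le_trans ?_ hconst
    linarith [hsplit]
  have hc7 : K₇ * Mx ^ 2 * S₀ ≤ ((N : ℕ) / (δ * η)) ^ N * (1 + Real.log (q * v ^ 2)) ^ N *
      (v.divisors.card : ℝ) ^ N * (MM (a - δ) η q) ^ 2 := by
    refine le_trans ?_ hconst
    linarith [hsplit]
  have hRnn := hA0.trans hc1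
  rw [mul_min_of_nonneg _ _ hRnn]
  have hqv0 : (0:ℝ) < q * v ^ 2 := by linarith
  refine le_min ?_ ?_
  · refine (mul_le_mul_of_nonneg_left h1 hZ.le).trans ?_
    have e1 : (|(k : ℝ)| * Z) ^ (-(1:ℝ)) = (q * v ^ 2 * Z)⁻¹ := by
      rw [Real.rpow_neg (by positivity), Real.rpow_one, hkabs]
    have e2 : r ^ (-(2 * (1:ℝ) + 1 + 2 * η)) = r ^ (-(3 + 2 * η)) := by congr 1; ring
    rw [e1, e2, ← hK₁]
    calc Z * (K₁ * (q * v ^ 2 * Z)⁻¹ * Mx ^ 2 * r ^ (-(3 + 2 * η)) * S₀)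
        = (K₁ * Mx ^ 2 * S₀) * (r ^ (-(3 + 2 * η)) / (q * v ^ 2)) :=
          K1_alg1 _ _ _ _ _ _ hqv0.ne' hZ.ne'
      _ ≤ _ := mul_le_mul_of_nonneg_right hc1 (by positivity)
  · refine (mul_le_mul_of_nonneg_left h7 hZ.le).trans ?_
    have e1 : (|(k : ℝ)| * Z) ^ (-(7:ℝ)) = ((q * v ^ 2 * Z) ^ 7)⁻¹ := by
      rw [Real.rpow_neg (by positivity), hkabs, ← Real.rpow_natCast]
      norm_num
    have e2 : r ^ (-(2 * (7:ℝ) + 1 + 2 * η)) = r ^ (-(15 + 2 * η)) := by congr 1; ring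
    rw [e1, e2, ← hK₇]
    calc Z * (K₇ * ((q * v ^ 2 * Z) ^ 7)⁻¹ * Mx ^ 2 * r ^ (-(15 + 2 * η)) * S₀)
        = (K₇ * Mx ^ 2 * S₀) * (r ^ (-(15 + 2 * η)) / Z ^ 6 / (q * v ^ 2) ^ 7) :=
          K1_alg7 _ _ _ _ _ _ hqv0.ne' hZ.ne'
      _ ≤ _ := mul_le_mul_of_nonneg_right hc7 (by positivity)

end Pool.Agent.ZD
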