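import Mathlib
import Pool.Agent.ZD.F

/-!
Module T: the Mellin-Barnes bound.
-/

set_option autoImplicit false

open Complex MeasureTheory Set Filter Topology

namespace Pool.Agent.ZD

open Pool.Agent.H5 (c bd Lser)
open Pool.Agent.H6

/-! ### Upper bounds of the Gamma function -/

lemma norm_exp_cpow {θ : ℝ} (h0 : 0 ≤ θ) (h1 : θ < Real.pi / 2) (s : ℂ) :
    ‖Complex.exp (θ * I) ^ (-s)‖ = Real.exp (θ * s.im) := by
  have hpi := Real.pi_pos
  rw [Complex.cpow_def_of_ne_zero (Complex.exp_ne_zero _), Complex.log_exp, Complex.norm_exp]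
  · congr 1
    simp
  · simp; linarith
  · simp; linarith

/-- decay of the Gamma function -/
lemma norm_Gamma_le_int {θ : ℝ} (h0 : 0 ≤ θ) (h1 : θ < Real.pi / 2) {s : ℂ} (hs : 0 < s.re) :
    ‖Complex.Gamma s‖ * Real.exp (θ * |s.im|) ≤
      ∫ r in Ioi (0:ℝ), r ^ (s.re - 1) * Real.exp (-(Real.cos θ * r)) := by
  wlog him : 0 ≤ s.im generalizing s
  · have h := this (s := (starRingEnd ℂ) s) (by simpa using hs) (by
      rw [Complex.conj_im]; linarith [not_le.mp him])
    rw [Complex.Gamma_conj, Complex.norm_conj, Complex.conj_re, Complex.conj_im, abs_neg] at h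
    exact h
  rw [abs_of_nonneg him]
  have hcos : 0 < Real.cos θ := Real.cos_pos_of_mem_Ioo ⟨by linarith [Real.pi_pos], h1⟩
  set z : ℂ := Complex.exp (θ * I) with hz
  have hzre : z.re = Real.cos θ := by rw [hz, Complex.exp_ofReal_mul_I_re]
  have h2 := gamma_integral_complex (z := z) (s := s) (by rw [hzre]; exact hcos) hs
  have h3 : ‖z ^ (-s) * Complex.Gamma s‖ = ‖Complex.Gamma s‖ * Real.exp (θ * s.im) := by
    rw [norm_mul, hz, norm_exp_cpow h0 h1, mul_comm]
  rw [← h3, ← h2]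
  refine (norm_integral_le_integral_norm _).trans (le_of_eq ?_)
  apply setIntegral_congr_fun measurableSet_Ioi
  intro r hr
  have hr0 : (0:ℝ) < r := hr
  simp only
  rw [norm_mul, Complex.norm_cpow_eq_rpow_re_of_pos hr0, Complex.norm_exp]
  congr 2
  rw [Complex.neg_re, Complex.re_mul_ofReal, hzre]

lemma int_gamma_kernel {σ cc : ℝ} (hσ : 0 < σ) (hc : 0 < cc) :
    IntegrableOn (fun r : ℝ => r ^ (σ - 1) * Real.exp (-(cc * r))) (Ioi 0) := by
  have := integrableOn_kernel (κ := σ - 1) (a := cc) (by linarith) hc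
  refine this.congr_fun ?_ measurableSet_Ioi
  intro r _
  simp only
  congr 2
  ring

lemma norm_Gamma_le' {θ : ℝ} (h0 : 0 ≤ θ) (h1 : θ < Real.pi / 2) {s : ℂ} (hs : 0 < s.re) :
    ‖Complex.Gamma s‖ ≤ Real.Gamma s.re * Real.cos θ ^ (-s.re) * Real.exp (-(θ * |s.im|)) := by
  have hcos : 0 < Real.cos θ := Real.cos_pos_of_mem_Ioo ⟨by linarith [Real.pi_pos], h1⟩
  have h2 := norm_Gamma_le_int h0 h1 hs
  have h3 := Real.integral_rpow_mul_exp_neg_mul_Ioi (a := s.re) (r := Real.cos θ) hs hcos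
  rw [h3] at h2
  rw [Real.exp_neg, ← div_eq_mul_inv, le_div_iff₀ (Real.exp_pos _)]
  refine h2.trans (le_of_eq ?_)
  rw [one_div, Real.inv_rpow hcos.le, ← Real.rpow_neg hcos.le, mul_comm]

lemma integrable_exp_abs {b : ℝ} (hb : 0 < b) : Integrable (fun v : ℝ => Real.exp (-(b * |v|))) := by
  rw [← integrableOn_univ, ← Iic_union_Ioi (a := (0:ℝ))]
  apply IntegrableOn.union
  · have h := integrableOn_exp_mul_Iic hb 0
    refine h.congr_fun ?_ measurableSet_Iic
    intro v hv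
    have hv0 : v ≤ 0 := hv
    simp only
    rw [abs_of_nonpos hv0]
    congr 1; ring
  · have h := integrableOn_exp_mul_Ioi (a := -b) (by linarith) 0
    refine h.congr_fun ?_ measurableSet_Ioi
    intro v hv
    have hv0 : (0:ℝ) ≤ v := le_of_lt hv
    simp only
    rw [abs_of_nonneg hv0]
    congr 1; ring

lemma integral_exp_abs {b : ℝ} (hb : 0 < b) : ∫ v : ℝ, Real.exp (-(b * |v|)) = 2 / b := by
  have h := integral_comp_abs (f := fun v : ℝ => Real.exp (-(b * v)))
  rw [h]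
  have h2 := integral_exp_mul_Ioi (a := -b) (by linarith) 0
  have e : (fun x : ℝ => Real.exp (-(b * x))) = fun x => Real.exp (-b * x) := by
    funext x; congr 1; ring
  rw [e, h2]
  simp
  ring

/-! ### Complex powers -/

lemma norm_cpow_neg {w : ℂ} (hw : w ≠ 0) (s : ℂ) :
    ‖w ^ (-s)‖ = ‖w‖ ^ (-s.re) * Real.exp (w.arg * s.im) := by
  rw [Complex.norm_cpow_of_ne_zero hw, Complex.neg_re, Complex.neg_im, div_eq_mul_inv,
    ← Real.exp_neg]
  congr 2
  ring

lemma norm_cpow_neg_le {w : ℂ} (hw : w ≠ 0) {φ : ℝ} (hφ : |w.arg| ≤ φ) (s : ℂ) :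
    ‖w ^ (-s)‖ ≤ ‖w‖ ^ (-s.re) * Real.exp (φ * |s.im|) := by
  rw [norm_cpow_neg hw]
  apply mul_le_mul_of_nonneg_left _ (by positivity)
  apply Real.exp_le_exp.mpr
  calc w.arg * s.im ≤ |w.arg * s.im| := le_abs_self _
    _ = |w.arg| * |s.im| := abs_mul _ _
    _ ≤ _ := by gcongr

/-! ### Inversion -/

lemma gamma_cont {σ : ℝ} (hσ : 0 < σ) : Continuous (fun v : ℝ => Complex.Gamma (σ + v * I)) := by
  rw [continuous_iff_continuousAt]
  intro x
  have h1 : ContinuousAt Complex.Gamma (σ + x * I) := by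
    refine (Complex.differentiableAt_Gamma _ ?_).continuousAt
    intro m hm
    have := congrArg Complex.re hm
    simp at this
    have h2 : (0:ℝ) ≤ m := by positivity
    linarith
  exact ContinuousAt.comp (f := fun x : ℝ => (σ + x * I : ℂ)) h1 (by fun_prop)

lemma line_cont {σ : ℝ} (hσ : 0 < σ) {w : ℂ} (hw : w ≠ 0) :
    Continuous (fun v : ℝ => w ^ (-(σ + v * I)) * Complex.Gamma (σ + v * I)) := by
  apply Continuous.mul _ (gamma_cont hσ)
  apply Continuous.const_cpow (by fun_prop)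
  exact Or.inl hw

lemma line_norm_le {σ θ φ : ℝ} (hσ : 0 < σ) {w : ℂ} (hw : w ≠ 0) (h0 : 0 ≤ θ)
    (h1 : θ < Real.pi / 2) (hφ : |w.arg| ≤ φ) (v : ℝ) :
    ‖w ^ (-(σ + v * I : ℂ)) * Complex.Gamma (σ + v * I)‖ ≤
      ‖w‖ ^ (-σ) * (Real.Gamma σ * Real.cos θ ^ (-σ)) * Real.exp (-((θ - φ) * |v|)) := by
  have hre : (σ + v * I : ℂ).re = σ := by simp
  have him : (σ + v * I : ℂ).im = v := by simp
  have h2 := norm_cpow_neg_le hw hφ (σ + v * I : ℂ)
  have h3 := norm_Gamma_le' h0 h1 (s := (σ + v * I : ℂ)) (by rw [hre]; exact hσ)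
  rw [hre, him] at h2 h3
  rw [norm_mul]
  calc ‖w ^ (-(σ + v * I : ℂ))‖ * ‖Complex.Gamma (σ + v * I)‖
      ≤ (‖w‖ ^ (-σ) * Real.exp (φ * |v|)) *
        (Real.Gamma σ * Real.cos θ ^ (-σ) * Real.exp (-(θ * |v|))) := by gcongr
    _ = ‖w‖ ^ (-σ) * (Real.Gamma σ * Real.cos θ ^ (-σ)) *
        (Real.exp (φ * |v|) * Real.exp (-(θ * |v|))) := by ring
    _ = _ := by
        rw [← Real.exp_add]
        congr 2
        ring

lemma arg_bound {w : ℂ} (hw : 0 < w.re) : |w.arg| < Real.pi / 2 := by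
  rw [Complex.abs_arg_lt_pi_div_two_iff]
  exact Or.inl hw

lemma line_integrable {σ : ℝ} (hσ : 0 < σ) {w : ℂ} (hw : 0 < w.re) :
    Integrable (fun v : ℝ => w ^ (-(σ + v * I : ℂ)) * Complex.Gamma (σ + v * I)) := by
  have hw0 : w ≠ 0 := by intro h; rw [h] at hw; simp at hw
  have h1 := arg_bound hw
  set φ := |w.arg| with hφ
  have hφ0 : 0 ≤ φ := abs_nonneg _
  set θ := (φ + Real.pi / 2) / 2 with hθ
  have hlt : θ < Real.pi / 2 := by rw [hθ]; linarith
  have hgt : 0 < θ - φ := by rw [hθ]; linarith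
  refine Integrable.mono' ((integrable_exp_abs hgt).const_mul
    (‖w‖ ^ (-σ) * (Real.Gamma σ * Real.cos θ ^ (-σ)))) (line_cont hσ hw0).aestronglyMeasurable ?_
  filter_upwards with v
  exact line_norm_le hσ hw0 (by rw [hθ]; positivity) hlt le_rfl v

/-- Mellin inversion for the exponential function -/
lemma gamma_inversion {σ : ℝ} (hσ : 0 < σ) {w : ℂ} (hw : 0 < w.re) :
    ∫ v : ℝ, w ^ (-(σ + v * I : ℂ)) * Complex.Gamma (σ + v * I) = 2 * Real.pi * Complex.exp (-w) := by
  set f : ℝ → ℂ := fun r => Complex.exp (-(w * r)) with hf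
  have hm : ∀ v : ℝ, mellin f (σ + v * I) = w ^ (-(σ + v * I : ℂ)) * Complex.Gamma (σ + v * I) := by
    intro v
    rw [← gamma_integral_complex hw (by simp; exact hσ)]
    rfl
  have hc : MellinConvergent f σ := integrableOn_gint (z := w) (s := (σ : ℂ)) hw (by simpa using hσ)
  have h := mellinInv_mellin_eq σ f (x := 1) one_pos hc (by
    unfold VerticalIntegrable
    simp_rw [hm]
    exact line_integrable hσ hw) (by
    apply Continuous.continuousAt
    simp only [hf]
    fun_prop)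
  unfold mellinInv at h
  simp only [Complex.ofReal_one, Complex.one_cpow, one_smul] at h
  simp_rw [hm] at h
  simp only [hf, Complex.ofReal_one, mul_one, Complex.real_smul] at h
  set J := ∫ v : ℝ, w ^ (-(σ + v * I : ℂ)) * Complex.Gamma (σ + v * I) with hJ
  have hpi : (Real.pi : ℂ) ≠ 0 := by exact_mod_cast Real.pi_ne_zero
  calc J = 2 * Real.pi * (((1 / (2 * Real.pi) : ℝ) : ℂ) * J) := by
        push_cast
        field_simp
    _ = _ := by rw [h]

/-! ### Shifting vertical lines -/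

lemma vert_shift {F : ℂ → ℂ} {x₁ x₂ : ℝ}
    (hF : ∀ s : ℂ, s.re ∈ uIcc x₁ x₂ → DifferentiableAt ℂ F s) {g : ℝ → ℝ}
    (hg : Integrable g) (hgt : Tendsto g atTop (𝓝 0)) (hgb : Tendsto g atBot (𝓝 0))
    (hFg : ∀ x ∈ uIcc x₁ x₂, ∀ v : ℝ, ‖F (x + v * I)‖ ≤ g v) :
    ∫ v : ℝ, F (x₁ + v * I) = ∫ v : ℝ, F (x₂ + v * I) := by
  have hc : ∀ x ∈ uIcc x₁ x₂, Continuous (fun v : ℝ => F (x + v * I)) := by
    intro x hx
    rw [continuous_iff_continuousAt]
    intro v
    apply ContinuousAt.comp (f := fun v : ℝ => (x + v * I : ℂ)) (g := F)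
    · apply (hF _ _).continuousAt
      simpa using hx
    · fun_prop
  have hi : ∀ x ∈ uIcc x₁ x₂, Integrable (fun v : ℝ => F (x + v * I)) := by
    intro x hx
    refine Integrable.mono' hg (hc x hx).aestronglyMeasurable ?_
    filter_upwards with v
    exact hFg x hx v
  have t : ∀ x ∈ uIcc x₁ x₂, Tendsto (fun R : ℝ => ∫ v in (-R)..R, F (x + v * I)) atTop
      (𝓝 (∫ v : ℝ, F (x + v * I))) := fun x hx =>
    intervalIntegral_tendsto_integral (hi x hx) tendsto_neg_atTop_atBot tendsto_id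
  have h1 : (x₁ : ℝ) ∈ uIcc x₁ x₂ := left_mem_uIcc
  have h2 : (x₂ : ℝ) ∈ uIcc x₁ x₂ := right_mem_uIcc
  have hhor : ∀ (y : ℝ → ℝ), Tendsto (fun R => g (y R)) atTop (𝓝 0) →
      Tendsto (fun R : ℝ => ∫ x in x₁..x₂, F (x + y R * I)) atTop (𝓝 0) := by
    intro y hy
    rw [tendsto_zero_iff_norm_tendsto_zero]
    have h4 : Tendsto (fun R : ℝ => g (y R) * |x₂ - x₁|) atTop (𝓝 0) := by
      simpa using hy.mul_const |x₂ - x₁|
    refine squeeze_zero (fun _ => norm_nonneg _) (fun R => ?_) h4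
    apply intervalIntegral.norm_integral_le_of_norm_le_const
    intro x hx
    exact hFg x (uIoc_subset_uIcc hx) _
  have tb := hhor (fun R => -R) (hgb.comp tendsto_neg_atTop_atBot)
  have tt := hhor (fun R => R) hgt
  have key : ∀ R : ℝ, (∫ x in x₁..x₂, F (x + (-R : ℝ) * I)) - (∫ x in x₁..x₂, F (x + R * I)) +
      I * (∫ v in (-R)..R, F (x₂ + v * I)) - I * (∫ v in (-R)..R, F (x₁ + v * I)) = 0 := by
    intro R
    have := Complex.integral_boundary_rect_eq_zero_of_differentiableOn F (x₁ + (-R : ℝ) * I)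
      (x₂ + R * I) (by
        intro s hs
        apply DifferentiableAt.differentiableWithinAt
        apply hF
        have := hs.1
        simpa using this)
    simpa using this
  have tk : Tendsto (fun R : ℝ => (∫ x in x₁..x₂, F (x + (-R : ℝ) * I)) -
      (∫ x in x₁..x₂, F (x + R * I)) + I * (∫ v in (-R)..R, F (x₂ + v * I)) -
      I * (∫ v in (-R)..R, F (x₁ + v * I))) atTop
      (𝓝 (0 - 0 + I * (∫ v : ℝ, F (x₂ + v * I)) - I * (∫ v : ℝ, F (x₁ + v * I)))) :=
    ((tb.sub tt).add ((t x₂ h2).const_mul I)).sub ((t x₁ h1).const_mul I)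
  have h5 := tendsto_nhds_unique tk (tendsto_const_nhds.congr (fun R => (key R).symm))
  have h6 : I * ((∫ v : ℝ, F (x₂ + v * I)) - ∫ v : ℝ, F (x₁ + v * I)) = 0 := by
    linear_combination h5
  have h7 := (mul_eq_zero.mp h6).resolve_left Complex.I_ne_zero
  exact (sub_eq_zero.mp h7).symm

lemma tendsto_exp_abs_top {b : ℝ} (hb : 0 < b) (K : ℝ) :
    Tendsto (fun v : ℝ => K * Real.exp (-(b * |v|))) atTop (𝓝 0) := by
  have h : Tendsto (fun v : ℝ => b * |v|) atTop atTop := tendsto_abs_atTop_atTop.const_mul_atTop hb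
  simpa using (Real.tendsto_exp_neg_atTop_nhds_zero.comp h).const_mul K

lemma tendsto_exp_abs_bot {b : ℝ} (hb : 0 < b) (K : ℝ) :
    Tendsto (fun v : ℝ => K * Real.exp (-(b * |v|))) atBot (𝓝 0) := by
  have h : Tendsto (fun v : ℝ => b * |v|) atBot atTop := tendsto_abs_atBot_atTop.const_mul_atTop hb
  simpa using (Real.tendsto_exp_neg_atTop_nhds_zero.comp h).const_mul K

/-! ### Mellin-Barnes representation -/

/-- the integrand -/
noncomputable def mbF (d : ℕ) (u w : ℂ) (s : ℂ) : ℂ :=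
  (w ^ (-s) * Complex.Gamma s) * Lf d (s - u + 1 / 2)

lemma two_pi_mul_re {z : ℂ} (hz : 0 < z.re) : 0 < (2 * Real.pi * z).re := by
  have e : (2 * (Real.pi : ℂ) * z) = ((2 * Real.pi : ℝ) : ℂ) * z := by push_cast; ring
  rw [e, Complex.re_ofReal_mul]
  have := Real.pi_pos
  positivity

lemma T_repr {d : ℕ} (hd : Squarefree d) {u z : ℂ} (hz : 0 < z.re) (hu : 0 ≤ u.re) {σ : ℝ}
    (hσ : u.re + 1 < σ) :
    2 * Real.pi * T d u z = ∫ v : ℝ, mbF d u (2 * Real.pi * z) (σ + v * I) := by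
  have hσ0 : 0 < σ := by linarith
  have hpi := Real.pi_pos
  set w : ℂ := 2 * Real.pi * z with hw
  have hwre : 0 < w.re := two_pi_mul_re hz
  have hw0 : w ≠ 0 := by intro h; rw [h] at hwre; simp at hwre
  set F : ℕ → ℝ → ℂ := fun n v => ((bd d n : ℂ) * (n : ℂ) ^ (u - 1 / 2)) *
    ((n : ℂ) ^ (-(σ + v * I : ℂ)) * (w ^ (-(σ + v * I : ℂ)) * Complex.Gamma (σ + v * I))) with hF
  have hline := line_integrable hσ0 hwre
  set C0 : ℝ := ∫ v : ℝ, ‖w ^ (-(σ + v * I : ℂ)) * Complex.Gamma (σ + v * I)‖ with hC0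
  have hnorm : ∀ (n : ℕ) (v : ℝ), ‖F n v‖ = ‖(bd d n : ℂ) * (n : ℂ) ^ (-((σ : ℂ) - u + 1 / 2))‖ *
      ‖w ^ (-(σ + v * I : ℂ)) * Complex.Gamma (σ + v * I)‖ := by
    intro n v
    simp only [hF]
    rcases Nat.eq_zero_or_pos n with rfl | hn
    · rw [H5.bd_zero]; simp
    · rw [norm_mul, norm_mul, norm_mul ((n : ℂ) ^ _), norm_mul (bd d n : ℂ),
        Complex.norm_natCast_cpow_of_pos hn, Complex.norm_natCast_cpow_of_pos hn,
        Complex.norm_natCast_cpow_of_pos hn]
      have hn0 : (0:ℝ) < n := by exact_mod_cast hn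
      have e1 : (-((σ : ℂ) - u + 1 / 2)).re = (u - 1 / 2).re + (-(σ + v * I : ℂ)).re := by
        simp only [Complex.neg_re, Complex.add_re, Complex.sub_re, Complex.ofReal_re,
          Complex.mul_re, Complex.I_re, Complex.I_im, Complex.ofReal_im, mul_zero, zero_mul,
          sub_zero]
        ring
      rw [e1, Real.rpow_add hn0]
      ring
  have hFint : ∀ n, Integrable (F n) := by
    intro n
    apply Integrable.const_mul
    rcases Nat.eq_zero_or_pos n with rfl | hn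
    · refine (integrable_zero ℝ ℂ volume).congr ?_
      filter_upwards with v
      have h' : (-(σ + v * I : ℂ)) ≠ 0 := by
        intro h
        have := congrArg Complex.re h
        simp at this
        linarith
      show (0:ℂ) = ((0:ℕ) : ℂ) ^ (-(σ + v * I : ℂ)) * _
      rw [Nat.cast_zero, Complex.zero_cpow h', zero_mul]
    · have hn0 : (n : ℂ) ≠ 0 := by exact_mod_cast hn.ne'
      refine Integrable.mono' ((hline.norm).const_mul ((n : ℝ) ^ (-σ))) ?_ ?_
      · apply Continuous.aestronglyMeasurable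
        apply Continuous.mul _ (line_cont hσ0 hw0)
        apply Continuous.const_cpow (by fun_prop)
        exact Or.inl hn0
      · filter_upwards with v
        rw [norm_mul, Complex.norm_natCast_cpow_of_pos hn]
        apply le_of_eq
        congr 2
        simp
  have hsumn : Summable (fun n : ℕ => ‖(bd d n : ℂ) * (n : ℂ) ^ (-((σ : ℂ) - u + 1 / 2))‖) := by
    apply H5.summable_bd
    simp only [Complex.add_re, Complex.sub_re, Complex.ofReal_re]
    norm_num
    linarith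
  have hFsum : Summable (fun n => ∫ v : ℝ, ‖F n v‖) := by
    simp_rw [hnorm]
    simp_rw [integral_const_mul]
    exact hsumn.mul_right C0
  have hmain := hasSum_integral_of_summable_integral_norm hFint hFsum
  -- the integrals
  have hval : ∀ n : ℕ, ∫ v : ℝ, F n v = 2 * Real.pi * ((bd d n : ℂ) * (n : ℂ) ^ (u - 1 / 2) *
      exp (-(2 * Real.pi * n * z))) := by
    intro n
    rcases Nat.eq_zero_or_pos n with rfl | hn
    · simp only [hF]
      rw [H5.bd_zero]; simp
    · have hn0 : (0:ℝ) < n := by exact_mod_cast hn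
      simp only [hF]
      rw [integral_const_mul]
      have h1 := gamma_inversion hσ0 (w := (n : ℂ) * w) (by
        rw [← Complex.ofReal_natCast, Complex.re_ofReal_mul]; positivity)
      have h2 : ∀ v : ℝ, ((n : ℂ) * w) ^ (-(σ + v * I : ℂ)) * Complex.Gamma (σ + v * I) =
          (n : ℂ) ^ (-(σ + v * I : ℂ)) * (w ^ (-(σ + v * I : ℂ)) * Complex.Gamma (σ + v * I)) := by
        intro v
        have := ofReal_mul_cpow' hn0 hw0 (-(σ + v * I : ℂ))
        rw [Complex.ofReal_natCast] at this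
        rw [this, mul_assoc]
      simp_rw [h2] at h1
      rw [h1]
      have e : (n : ℂ) * w = 2 * Real.pi * n * z := by rw [hw]; ring
      rw [e]
      ring
  -- the sum
  have hsumF : ∀ v : ℝ, ∑' n, F n v = mbF d u w (σ + v * I) := by
    intro v
    unfold mbF
    have hre : 3 / 2 < ((σ + v * I : ℂ) - u + 1 / 2).re := by
      simp only [Complex.add_re, Complex.sub_re, Complex.ofReal_re, Complex.mul_re, Complex.I_re,
        Complex.I_im, Complex.ofReal_im, mul_zero, zero_mul, sub_zero]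
      norm_num
      linarith
    rw [(Lf_spec hd).2 _ hre]
    unfold Lser
    rw [← tsum_mul_left]
    congr 1
    funext n
    simp only [hF]
    rcases Nat.eq_zero_or_pos n with rfl | hn
    · rw [H5.bd_zero]; simp
    · have hn0 : (n : ℂ) ≠ 0 := by exact_mod_cast hn.ne'
      have e : (n : ℂ) ^ (-((σ + v * I : ℂ) - u + 1 / 2)) = (n : ℂ) ^ (u - 1 / 2) *
          (n : ℂ) ^ (-(σ + v * I : ℂ)) := by
        rw [← Complex.cpow_add _ _ hn0]
        congr 1
        ring
      rw [e]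
      ring
  rw [← integral_congr_ae (Eventually.of_forall hsumF), ← hmain.tsum_eq]
  simp_rw [hval]
  rw [tsum_mul_left]
  rfl

/-! ### Shift of the line -/

lemma ray_arg {a r : ℝ} (hr : 0 < r) (ha : 0 < a) (ha1 : a ≤ 1 / 8) :
    (ray a r).arg = Real.pi / 2 - a := by
  unfold ray
  have hpi := Real.pi_gt_three
  rw [Complex.arg_real_mul _ hr, Complex.exp_mul_I, Complex.arg_cos_add_sin_mul_I]
  constructor <;> linarith

lemma ray_norm {a r : ℝ} (hr : 0 < r) : ‖ray a r‖ = r := by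
  unfold ray
  rw [norm_mul, Complex.norm_exp_ofReal_mul_I, mul_one, Complex.norm_real, Real.norm_eq_abs,
    abs_of_pos hr]

lemma mbF_shift {d : ℕ} (hd : Squarefree d) {a η τ κ : ℝ} (ha : 0 < a) (ha1 : a ≤ 1 / 8)
    (hη : 0 < η) (hη1 : η ≤ 1 / 2) (hκ : 1 ≤ κ) {w : ℂ} (hw : 0 < w.re)
    (harg : |w.arg| ≤ Real.pi / 2 - a) :
    ∫ v : ℝ, mbF d (κ + τ * I) w ((κ + 2 : ℝ) + v * I) =
      ∫ v : ℝ, mbF d (κ + τ * I) w ((κ + 1 / 2 + η : ℝ) + v * I) := by
  have hpi := Real.pi_gt_three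
  have hw0 : w ≠ 0 := by intro h; rw [h] at hw; simp at hw
  have hwn : 0 < ‖w‖ := norm_pos_iff.mpr hw0
  obtain ⟨K, hK⟩ := growth hd (a := a / 4) (by positivity) (σ₁ := 1) one_pos 3
  have hK0 : 0 ≤ K := by
    have h := hK 1 (by simp) (by simp)
    simp at h
    exact (norm_nonneg _).trans h
  set σ' : ℝ := κ + 1 / 2 + η with hσ'
  set σ : ℝ := κ + 2 with hσ
  have hle : σ' ≤ σ := by rw [hσ', hσ]; linarith
  have hu : uIcc σ σ' = Icc σ' σ := by rw [uIcc_comm]; exact uIcc_of_le hle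
  set θ : ℝ := Real.pi / 2 - a / 4 with hθ
  have hθ0 : 0 ≤ θ := by rw [hθ]; linarith
  have hθ1 : θ < Real.pi / 2 := by rw [hθ]; linarith
  have hcos : 0 < Real.cos θ := Real.cos_pos_of_mem_Ioo ⟨by linarith, hθ1⟩
  set B : ℝ := ∫ r in Ioi (0:ℝ), (r ^ (σ' - 1) * Real.exp (-(Real.cos θ * r)) +
    r ^ (σ - 1) * Real.exp (-(Real.cos θ * r))) with hB
  have hσ'0 : 0 < σ' := by rw [hσ']; linarith
  have hσ0 : 0 < σ := by rw [hσ]; linarith
  have hi1 := int_gamma_kernel (σ := σ') hσ'0 hcos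
  have hi2 := int_gamma_kernel (σ := σ) hσ0 hcos
  have hB0 : 0 ≤ B := by
    apply setIntegral_nonneg measurableSet_Ioi
    intro r hr
    have hr0 : (0:ℝ) < r := hr
    positivity
  set C : ℝ := (‖w‖ ^ (-σ') + ‖w‖ ^ (-σ)) * B * (K * Real.exp (a / 4 * |τ|)) with hC
  have hC0 : 0 ≤ C := by positivity
  apply vert_shift (g := fun v => C * Real.exp (-(a / 2 * |v|)))
  · intro s hs
    rw [hu] at hs
    have hs0 : 0 < s.re := lt_of_lt_of_le hσ'0 hs.1
    unfold mbF
    apply DifferentiableAt.mul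
    · apply DifferentiableAt.mul
      · apply DifferentiableAt.const_cpow (by fun_prop)
        exact Or.inl hw0
      · apply Complex.differentiableAt_Gamma
        intro m hm
        rw [hm] at hs0
        simp at hs0
        have : (0:ℝ) ≤ m := by positivity
        linarith
    · exact ((Lf_spec hd).1 _).comp s (by fun_prop)
  · exact (integrable_exp_abs (by positivity)).const_mul C
  · exact tendsto_exp_abs_top (by positivity) C
  · exact tendsto_exp_abs_bot (by positivity) C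
  · intro x hx v
    rw [hu] at hx
    have hx0 : 0 < x := lt_of_lt_of_le hσ'0 hx.1
    unfold mbF
    have hre : (x + v * I : ℂ).re = x := by simp
    have him : (x + v * I : ℂ).im = v := by simp
    rw [norm_mul, norm_mul]
    have h1 := norm_cpow_neg_le hw0 harg (x + v * I : ℂ)
    have h2 := norm_Gamma_le_int hθ0 hθ1 (s := (x + v * I : ℂ)) (by rw [hre]; exact hx0)
    rw [hre, him] at h1 h2
    have h3 : ‖w‖ ^ (-x) ≤ ‖w‖ ^ (-σ') + ‖w‖ ^ (-σ) := by
      have := rpow_le_add (x := ‖w‖) (a := -σ) (b := -x) (c := -σ') hwn (by linarith [hx.2])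
        (by linarith [hx.1])
      linarith
    have h4 : ∫ r in Ioi (0:ℝ), r ^ (x - 1) * Real.exp (-(Real.cos θ * r)) ≤ B := by
      rw [hB]
      apply setIntegral_mono_on (int_gamma_kernel hx0 hcos) (hi1.add hi2) measurableSet_Ioi
      intro r hr
      have hr0 : (0:ℝ) < r := hr
      simp only [Pi.add_apply]
      rw [← add_mul]
      apply mul_le_mul_of_nonneg_right _ (Real.exp_pos _).le
      exact rpow_le_add hr0 (by linarith [hx.1]) (by linarith [hx.2])
    have h5 : ‖Complex.Gamma (x + v * I)‖ ≤ B * Real.exp (-(θ * |v|)) := by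
      rw [Real.exp_neg, ← div_eq_mul_inv, le_div_iff₀ (Real.exp_pos _)]
      exact h2.trans h4
    have h6 := hK ((x + v * I : ℂ) - (κ + τ * I) + 1 / 2) (by
      simp only [Complex.add_re, Complex.sub_re, Complex.ofReal_re, Complex.mul_re, Complex.I_re,
        Complex.I_im, Complex.ofReal_im, mul_zero, zero_mul, sub_zero]
      norm_num
      have := hx.1
      rw [hσ'] at this
      linarith) (by
      simp only [Complex.add_re, Complex.sub_re, Complex.ofReal_re, Complex.mul_re, Complex.I_re,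
        Complex.I_im, Complex.ofReal_im, mul_zero, zero_mul, sub_zero]
      norm_num
      have := hx.2
      rw [hσ] at this
      linarith)
    have h7 : ((x + v * I : ℂ) - (κ + τ * I) + 1 / 2).im = v - τ := by
      simp
    rw [h7] at h6
    have h8 : Real.exp (a / 4 * |v - τ|) ≤ Real.exp (a / 4 * |τ|) * Real.exp (a / 4 * |v|) := by
      rw [← Real.exp_add]
      apply Real.exp_le_exp.mpr
      have := abs_sub v τ
      nlinarith
    calc ‖w ^ (-(x + v * I : ℂ))‖ * ‖Complex.Gamma (x + v * I)‖ *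
          ‖Lf d ((x + v * I : ℂ) - (κ + τ * I) + 1 / 2)‖
        ≤ ((‖w‖ ^ (-σ') + ‖w‖ ^ (-σ)) * Real.exp ((Real.pi / 2 - a) * |v|)) *
          (B * Real.exp (-(θ * |v|))) *
          (K * (Real.exp (a / 4 * |τ|) * Real.exp (a / 4 * |v|))) := by
          gcongr
          · exact h1.trans (by gcongr)
          · exact h6.trans (by gcongr)
      _ = C * (Real.exp ((Real.pi / 2 - a) * |v|) * Real.exp (-(θ * |v|)) *
          Real.exp (a / 4 * |v|)) := by rw [hC]; ring
      _ = C * Real.exp (-(a / 2 * |v|)) := by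
          rw [← Real.exp_add, ← Real.exp_add]
          congr 2
          rw [hθ]
          ring

lemma Gamma_le_5040 {σ : ℝ} (h1 : 1 ≤ σ) (h8 : σ ≤ 8) : Real.Gamma σ ≤ 5040 := by
  have h := Real.convexOn_Gamma.le_max_of_mem_Icc (x := 1) (y := 8) (z := σ)
    (by norm_num) (by norm_num) ⟨h1, h8⟩
  have e1 : Real.Gamma 8 = 5040 := by
    have := Real.Gamma_nat_eq_factorial 7
    rw [show ((7:ℕ):ℝ) + 1 = 8 by norm_num] at this
    rw [this]
    norm_num [Nat.factorial]
  rw [Real.Gamma_one, e1] at h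
  refine h.trans (max_le (by norm_num) le_rfl)

lemma T_bound_gen {d : ℕ} (hd : Squarefree d) {a δ η r τ κ : ℝ} (hδ : 0 < δ) (hδa : δ < a)
    (ha1 : a ≤ 1 / 8) (hη : 0 < η) (hη1 : η ≤ 1 / 2) (hr : 0 < r) (hκ : 1 ≤ κ) (hκ7 : κ ≤ 7)
    {z : ℂ} (hz : 0 < z.re) (hzn : ‖z‖ = r) (harg : |z.arg| ≤ Real.pi / 2 - a) :
    ‖T d (κ + τ * I) z‖ ≤ 20160 * Real.pi ^ 8 / δ ^ 9 * MM (a - δ) η d *
      Real.exp ((a - δ) * |τ|) * r ^ (-(κ + 1 / 2 + η)) := by
  have hpi := Real.pi_gt_three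
  have hpi4 := Real.pi_lt_four
  have ha : 0 < a := hδ.trans hδa
  set w : ℂ := 2 * Real.pi * z with hw
  have hwre : 0 < w.re := two_pi_mul_re hz
  have hw0 : w ≠ 0 := by intro h; rw [h] at hwre; simp at hwre
  have ew : w = ((2 * Real.pi : ℝ) : ℂ) * z := by rw [hw]; push_cast; ring
  have hwarg : |w.arg| ≤ Real.pi / 2 - a := by
    rw [ew, Complex.arg_real_mul _ (by positivity)]
    exact harg
  have hwn : ‖w‖ = 2 * Real.pi * r := by
    rw [ew, norm_mul, hzn, Complex.norm_real, Real.norm_eq_abs, abs_of_pos (by positivity)]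
  have hre : (κ + τ * I : ℂ).re = κ := by simp
  have h1 := T_repr hd (u := (κ + τ * I : ℂ)) hz (by rw [hre]; linarith) (σ := κ + 2)
    (by rw [hre]; linarith)
  rw [mbF_shift hd ha ha1 hη hη1 hκ hwre hwarg] at h1
  set σ' : ℝ := κ + 1 / 2 + η with hσ'
  have hσ'1 : 1 ≤ σ' := by rw [hσ']; linarith
  have hσ'8 : σ' ≤ 8 := by rw [hσ']; linarith
  set θ : ℝ := Real.pi / 2 - δ / 2 with hθ
  have hθ0 : 0 ≤ θ := by rw [hθ]; linarith
  have hθ1 : θ < Real.pi / 2 := by rw [hθ]; linarith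
  have hcos : δ / Real.pi ≤ Real.cos θ := by
    rw [hθ, Real.cos_pi_div_two_sub]
    have := Real.mul_le_sin (x := δ / 2) (by positivity) (by linarith)
    calc δ / Real.pi = 2 / Real.pi * (δ / 2) := by ring
      _ ≤ _ := this
  have hcos0 : 0 < Real.cos θ := lt_of_lt_of_le (by positivity) hcos
  have hM0 : 0 ≤ MM (a - δ) η d := Real.iSup_nonneg (fun t => by positivity)
  have hL : ∀ t : ℝ, ‖Lf d (1 + η + t * I)‖ ≤ MM (a - δ) η d * Real.exp ((a - δ) * |t|) := by
    intro t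
    have := le_ciSup (MM_bdd hd (a := a - δ) (by linarith) hη) t
    rw [Real.exp_neg, ← div_eq_mul_inv, div_le_iff₀ (Real.exp_pos _)] at this
    exact this
  have hGcos : Real.Gamma σ' * Real.cos θ ^ (-σ') ≤ 5040 * (Real.pi / δ) ^ 8 := by
    have hg := Gamma_le_5040 hσ'1 hσ'8
    have hc : Real.cos θ ^ (-σ') ≤ (Real.pi / δ) ^ 8 := by
      rw [Real.rpow_neg hcos0.le, ← Real.inv_rpow hcos0.le]
      have h2 : (Real.cos θ)⁻¹ ≤ Real.pi / δ := by
        rw [inv_le_comm₀ hcos0 (by positivity), inv_div]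
        exact hcos
      have h3 : 1 ≤ Real.pi / δ := by
        rw [le_div_iff₀ hδ]
        linarith
      calc (Real.cos θ)⁻¹ ^ σ' ≤ (Real.pi / δ) ^ σ' := by
            apply Real.rpow_le_rpow (by positivity) h2 (by linarith)
        _ ≤ (Real.pi / δ) ^ (8:ℝ) := Real.rpow_le_rpow_of_exponent_le h3 hσ'8
        _ = _ := by norm_cast
    have hg0 : 0 ≤ Real.Gamma σ' := (Real.Gamma_pos_of_pos (by linarith)).le
    gcongr
  have hwp : ‖w‖ ^ (-σ') ≤ r ^ (-σ') := by
    rw [hwn]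
    rw [Real.mul_rpow (by positivity) hr.le]
    have : (2 * Real.pi) ^ (-σ') ≤ 1 := by
      apply Real.rpow_le_one_of_one_le_of_nonpos (by linarith) (by linarith)
    have hrp : 0 < r ^ (-σ') := Real.rpow_pos_of_pos hr _
    nlinarith
  have hpt : ∀ v : ℝ, ‖mbF d (κ + τ * I) w (σ' + v * I)‖ ≤
      (r ^ (-σ') * (5040 * (Real.pi / δ) ^ 8) * (MM (a - δ) η d * Real.exp ((a - δ) * |τ|))) *
        Real.exp (-(δ / 2 * |v|)) := by
    intro v
    unfold mbF
    rw [norm_mul]
    have h2 := line_norm_le (σ := σ') (by linarith) hw0 hθ0 hθ1 hwarg v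
    have e3 : (σ' + v * I : ℂ) - (κ + τ * I) + 1 / 2 = 1 + η + (v - τ : ℝ) * I := by
      rw [hσ']; push_cast; ring
    have h3 := hL (v - τ)
    rw [← e3] at h3
    have h4 : Real.exp ((a - δ) * |v - τ|) ≤
        Real.exp ((a - δ) * |τ|) * Real.exp ((a - δ) * |v|) := by
      rw [← Real.exp_add]
      apply Real.exp_le_exp.mpr
      have := abs_sub v τ
      nlinarith
    calc ‖w ^ (-(σ' + v * I : ℂ)) * Complex.Gamma (σ' + v * I)‖ *
          ‖Lf d ((σ' + v * I : ℂ) - (κ + τ * I) + 1 / 2)‖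
        ≤ (r ^ (-σ') * (5040 * (Real.pi / δ) ^ 8) *
            Real.exp (-((θ - (Real.pi / 2 - a)) * |v|))) *
          (MM (a - δ) η d * (Real.exp ((a - δ) * |τ|) * Real.exp ((a - δ) * |v|))) := by
          gcongr
          · exact h2.trans (by gcongr)
          · exact h3.trans (by gcongr)
      _ = (r ^ (-σ') * (5040 * (Real.pi / δ) ^ 8) *
            (MM (a - δ) η d * Real.exp ((a - δ) * |τ|))) *
          (Real.exp (-((θ - (Real.pi / 2 - a)) * |v|)) * Real.exp ((a - δ) * |v|)) := by ring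
      _ = _ := by
          rw [← Real.exp_add]
          congr 2
          rw [hθ]
          ring
  have hint : ‖2 * Real.pi * T d (κ + τ * I) z‖ ≤
      (r ^ (-σ') * (5040 * (Real.pi / δ) ^ 8) * (MM (a - δ) η d * Real.exp ((a - δ) * |τ|))) *
        (2 / (δ / 2)) := by
    have e : (2 * (Real.pi : ℂ) * T d (κ + τ * I) z) =
        ∫ v : ℝ, mbF d (κ + τ * I) w (σ' + v * I) := h1
    rw [e, ← integral_exp_abs (by positivity : 0 < δ / 2), ← integral_const_mul]
    apply norm_integral_le_of_norm_le ((integrable_exp_abs (by positivity)).const_mul _)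
    exact Eventually.of_forall hpt
  rw [norm_mul, norm_mul, Complex.norm_real, Real.norm_eq_abs, abs_of_pos (by positivity)] at hint
  have h2n : ‖(2:ℂ)‖ = 2 := by simp
  rw [h2n] at hint
  have hT0 := norm_nonneg (T d (κ + τ * I) z)
  calc ‖T d (κ + τ * I) z‖ ≤ 2 * Real.pi * ‖T d (κ + τ * I) z‖ := by nlinarith
    _ ≤ _ := hint
    _ = _ := by
        field_simp
        ring

theorem T_bound : ∃ C : ℝ, 0 < C ∧ ∀ (d : ℕ) (a δ η r τ κ : ℝ), Squarefree d → 0 < δ → δ < a →
    a ≤ 1 / 8 → 0 < η → η ≤ 1 / 2 → 0 < r → (κ = 1 ∨ κ = 7) →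
    ‖T d (κ + τ * I) (ray a r)‖ ≤
      C / δ ^ 9 * MM (a - δ) η d * Real.exp ((a - δ) * |τ|) * r ^ (-(κ + 1 / 2 + η)) ∧
    ‖T d (κ + τ * I) ((starRingEnd ℂ) (ray a r))‖ ≤
      C / δ ^ 9 * MM (a - δ) η d * Real.exp ((a - δ) * |τ|) * r ^ (-(κ + 1 / 2 + η)) := by
  refine ⟨20160 * Real.pi ^ 8, by positivity, ?_⟩
  intro d a δ η r τ κ hd hδ hδa ha1 hη hη1 hr hκ
  have hpi := Real.pi_gt_three
  have ha : 0 < a := hδ.trans hδa
  have hκ1 : 1 ≤ κ := by rcases hκ with rfl | rfl <;> norm_num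
  have hκ7 : κ ≤ 7 := by rcases hκ with rfl | rfl <;> norm_num
  have hre : 0 < (ray a r).re := by
    rw [ray_re_eq]
    have : 0 < Real.sin a := Real.sin_pos_of_pos_of_lt_pi ha (by linarith)
    positivity
  have harg := ray_arg hr ha ha1
  have hp : 0 ≤ Real.pi / 2 - a := by linarith
  constructor
  · apply T_bound_gen hd hδ hδa ha1 hη hη1 hr hκ1 hκ7 hre (ray_norm hr)
    rw [harg, abs_of_nonneg hp]
  · apply T_bound_gen hd hδ hδa ha1 hη hη1 hr hκ1 hκ7 (by rw [Complex.conj_re]; exact hre)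
    · rw [Complex.norm_conj, ray_norm hr]
    · rw [Complex.arg_conj, harg, if_neg (by linarith), abs_neg, abs_of_nonneg hp]

end Pool.Agent.ZD
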