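import Mathlib
import Pool.Agent.ZD.K1
import Pool.Agent.ZD.E1
import Pool.Agent.ZD.E2
import Pool.Agent.ZD.T

set_option autoImplicit false

open Complex Finset MeasureTheory

namespace Pool.Agent.ZD

/-- the contribution of the frequency `k = ± q v²` after Poisson -/
theorem K_term : ∃ C : ℕ, ∀ (a δ η Z r : ℝ) (k : ℤ) (q v : ℕ), 0 < δ → δ < a → a ≤ 1 / 8 →
    0 < η → η ≤ 1 / 2 → 0 < Z → 0 < r → Squarefree q → 0 < v → k.natAbs = q * v ^ 2 →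
    Z * ‖∑' n : ℕ × ℕ, gk k n.1 n.2 * ((Real.sqrt (n.1 * n.2 : ℕ) : ℝ) : ℂ)⁻¹ *
        exp (-(Real.pi * k ^ 2 * Z ^ 2 / ((n.1 * n.2 : ℕ) : ℂ) ^ 2)) *
        (exp (-(2 * Real.pi * n.1 * ray a r)) *
          exp (-(2 * Real.pi * n.2 * (starRingEnd ℂ) (ray a r))))‖ ≤
      (C / (δ * η)) ^ C * (1 + Real.log (q * v ^ 2)) ^ C * (v.divisors.card : ℝ) ^ C *
        (MM (a - δ) η q) ^ 2 *
        min (r ^ (-(3 + 2 * η)) / (q * v ^ 2)) (r ^ (-(15 + 2 * η)) / Z ^ 6 / (q * v ^ 2) ^ 7) :=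
  K_term_of double_sum eps_norm T_bound

end Pool.Agent.ZD
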