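import Mathlib
import Pool.Agent.ZD.Defs
import Pool.Agent.H6.LCoef

/-!
Module O: orthogonality for short sums, divisor sums (MP_553913_nt).
-/

set_option autoImplicit false

open Complex Finset MeasureTheory

namespace Pool.Agent.ZD

open Pool.Agent.H5 (c bd Lser)

namespace O

/-! ### sums of the Jacobi symbol over a period -/

theorem exists_neg_one {m : ℕ} (hm : Odd m) (h : ¬ IsSquare m) :
    ∃ y : ℤ, jacobiSym y m = -1 := by
  obtain ⟨a, b, hab, ha⟩ := Nat.sq_mul_squarefree m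
  have hm0 : m ≠ 0 := by rintro rfl; exact absurd hm (by decide)
  have ha1 : a ≠ 1 := by
    rintro rfl
    exact h ⟨b, by rw [← hab]; ring⟩
  obtain ⟨p, hp, hpa⟩ := Nat.exists_prime_and_dvd ha1
  have hfact : Fact p.Prime := ⟨hp⟩
  have hpm : p ∣ m := by rw [← hab]; exact hpa.mul_left _
  have hp2 : p ≠ 2 := by
    rintro rfl
    exact (Nat.not_even_iff_odd.2 hm) (even_iff_two_dvd.2 hpm)
  -- the exponent is odd
  have hodd : Odd (m.factorization p) := by
    have hb0 : b ≠ 0 := by rintro rfl; simp at hab; exact hm0 hab.symm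
    have ha0 : a ≠ 0 := ha.ne_zero
    have h1 : a.factorization p = 1 := by
      have h2 := (Nat.squarefree_iff_factorization_le_one ha0).1 ha p
      have h3 := hp.factorization_pos_of_dvd ha0 hpa
      omega
    rw [← hab, Nat.factorization_mul (pow_ne_zero 2 hb0) ha0, Nat.factorization_pow]
    simp only [Finsupp.coe_add, Finsupp.coe_smul, Pi.add_apply, Pi.smul_apply, smul_eq_mul, h1]
    exact ⟨b.factorization p, rfl⟩
  obtain ⟨a0, ha0⟩ := quadraticChar_exists_neg_one (F := ZMod p)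
    (by rw [ZMod.ringChar_zmod_n]; exact hp2)
  have hcop : Nat.Coprime (p ^ m.factorization p) (m / p ^ m.factorization p) :=
    (Nat.coprime_ordCompl hp hm0).pow_left _
  obtain ⟨y, hy1, hy2⟩ := Nat.chineseRemainder hcop a0.val 1
  refine ⟨y, ?_⟩
  have hmul : m = p ^ m.factorization p * (m / p ^ m.factorization p) :=
    (Nat.ordProj_mul_ordCompl_eq_self m p).symm
  have hne1 : NeZero (p ^ m.factorization p) := ⟨pow_ne_zero _ hp.ne_zero⟩
  have hne2 : NeZero (m / p ^ m.factorization p) := ⟨(Nat.ordCompl_pos p hm0).ne'⟩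
  have e1 : jacobiSym y p = -1 := by
    rw [← jacobiSym.legendreSym.to_jacobiSym]
    unfold legendreSym
    have : ((y : ℤ) : ZMod p) = a0 := by
      have h3 : y ≡ a0.val [MOD p] := by
        have hpos : 0 < m.factorization p := hp.factorization_pos_of_dvd hm0 hpm
        exact hy1.of_dvd (dvd_pow_self p hpos.ne')
      have h4 := (ZMod.natCast_eq_natCast_iff _ _ _).2 h3
      push_cast
      rw [h4]
      simp
    rw [this, ha0]
  have e2 : jacobiSym y (m / p ^ m.factorization p) = 1 := by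
    have h5 : ((y : ℤ)) % ((m / p ^ m.factorization p : ℕ) : ℤ) =
        (1 : ℤ) % ((m / p ^ m.factorization p : ℕ) : ℤ) := by
      have := hy2
      unfold Nat.ModEq at this
      exact_mod_cast this
    rw [jacobiSym.mod_left' h5, jacobiSym.one_left]
  have e3 : jacobiSym y m = jacobiSym y (p ^ m.factorization p * (m / p ^ m.factorization p)) := by
    rw [← hmul]
  rw [e3, jacobiSym.mul_right, e2, jacobiSym.pow_right, e1, mul_one]
  exact hodd.neg_one_pow

theorem coprime_of_neg_one {m : ℕ} {y : ℤ} (hm : m ≠ 0) (h : jacobiSym y m = -1) :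
    IsCoprime y (m : ℤ) := by
  by_contra hc
  have hne : NeZero m := ⟨hm⟩
  have : jacobiSym y m = 0 := by
    rw [jacobiSym.eq_zero_iff_not_coprime]
    intro hg
    exact hc (Int.isCoprime_iff_gcd_eq_one.2 hg)
  rw [h] at this
  norm_num at this

theorem sum_period {m : ℕ} (hm : Odd m) (h : ¬ IsSquare m) :
    ∑ x ∈ range m, jacobiSym x m = 0 := by
  obtain ⟨y, hy⟩ := exists_neg_one hm h
  have hm0 : m ≠ 0 := by rintro rfl; exact absurd hm (by decide)
  have hmZ : (m : ℤ) ≠ 0 := by exact_mod_cast hm0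
  have hcop := coprime_of_neg_one hm0 hy
  set f : ℕ → ℕ := fun x => ((y * x) % m).toNat with hf
  have hnn : ∀ x : ℕ, 0 ≤ (y * x) % (m : ℤ) := fun x => Int.emod_nonneg _ hmZ
  have hfc : ∀ x : ℕ, ((f x : ℕ) : ℤ) = (y * x) % m := fun x => Int.toNat_of_nonneg (hnn x)
  have hlt : ∀ x : ℕ, f x < m := by
    intro x
    have h1 : (y * x) % (m : ℤ) < m := Int.emod_lt_of_pos _ (by positivity)
    have := hfc x
    omega
  have hinj : Set.InjOn f (range m : Set ℕ) := by
    intro a ha b hb hab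
    rw [mem_coe, mem_range] at ha hb
    have h1 : (y * a) % (m : ℤ) = (y * b) % m := by rw [← hfc, ← hfc, hab]
    have h2 : (m : ℤ) ∣ y * a - y * b := by
      have h1' : y * b ≡ y * a [ZMOD m] := h1.symm
      exact h1'.dvd
    have h3 : (m : ℤ) ∣ (a : ℤ) - b := by
      rw [← mul_sub] at h2
      exact hcop.symm.dvd_of_dvd_mul_left h2
    have h4 : (a : ℤ) ≡ b [ZMOD m] := (Int.modEq_iff_dvd.2 h3).symm
    have h5 : a ≡ b [MOD m] := Int.natCast_modEq_iff.1 h4
    have := Nat.ModEq.eq_of_lt_of_lt h5 ha hb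
    exact this
  have himg : (range m).image f = range m := by
    apply Finset.eq_of_subset_of_card_le
    · intro z hz
      obtain ⟨x, _, rfl⟩ := Finset.mem_image.1 hz
      exact mem_range.2 (hlt x)
    · rw [Finset.card_image_of_injOn hinj]
  have h1 : ∑ x ∈ range m, jacobiSym x m = ∑ x ∈ range m, jacobiSym (f x : ℕ) m := by
    conv_lhs => rw [← himg]
    rw [Finset.sum_image hinj]
  have h2 : ∀ x ∈ range m, jacobiSym (f x : ℕ) m = - jacobiSym x m := by
    intro x _
    rw [hfc, ← jacobiSym.mod_left, jacobiSym.mul_left, hy]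
    ring
  rw [Finset.sum_congr rfl h2, Finset.sum_neg_distrib] at h1
  omega

theorem abs_sum_le {m : ℕ} (hm : Odd m) (h : ¬ IsSquare m) (X : ℕ) :
    |∑ d ∈ Icc 1 X, jacobiSym d m| ≤ m := by
  have hper : ∀ N : ℕ, ∑ x ∈ range (N + m), jacobiSym x m = ∑ x ∈ range N, jacobiSym x m := by
    intro N
    induction N with
    | zero => simpa using sum_period hm h
    | succ N ih =>
      have e : N + 1 + m = N + m + 1 := by ring
      rw [e, Finset.sum_range_succ, Finset.sum_range_succ, ih]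
      congr 1
      apply jacobiSym.mod_left'
      push_cast
      simp
  have hbd : ∀ N : ℕ, |∑ x ∈ range N, jacobiSym x m| ≤ m := by
    intro N
    induction N using Nat.strong_induction_on with
    | _ N ih =>
      by_cases hN : N ≤ m
      · calc |∑ x ∈ range N, jacobiSym x m| ≤ ∑ x ∈ range N, |jacobiSym x m| :=
              Finset.abs_sum_le_sum_abs _ _
          _ ≤ ∑ x ∈ range N, 1 := by
              apply Finset.sum_le_sum
              intro x _
              rcases jacobiSym.trichotomy x m with h | h | h <;> rw [h] <;> simp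
          _ = N := by simp
          _ ≤ m := by exact_mod_cast hN
      · push Not at hN
        have hm0 : 0 < m := hm.pos
        have e : N = (N - m) + m := by omega
        rw [e, hper]
        exact ih _ (by omega)
  have h1 : 1 < m := by
    have hm0 : 0 < m := hm.pos
    rcases Nat.lt_or_ge 1 m with h' | h'
    · exact h'
    · exfalso
      have : m = 1 := by omega
      exact h (this ▸ ⟨1, rfl⟩)
  have h2 := hbd (X + 1)
  rw [Finset.sum_range_succ', Nat.cast_zero, jacobiSym.zero_left h1, add_zero] at h2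
  have h3 : ∑ d ∈ Icc 1 X, jacobiSym d m = ∑ k ∈ range X, jacobiSym ((k + 1 : ℕ) : ℤ) m := by
    rw [Finset.range_eq_Ico, Finset.sum_Ico_add' (fun d : ℕ => jacobiSym (d : ℤ) m) 0 X 1]
    rfl
  rw [h3]
  exact h2

end O

open O

theorem ortho (X Y : ℕ) (b : ℕ → ℂ) (hb : ∀ n, Even n → b n = 0) :
    ∑ d ∈ Icc 1 X, ‖∑ n ∈ Icc 1 Y, b n * (jacobiSym d n : ℂ)‖ ^ 2 ≤
      X * (∑ p ∈ (Icc 1 Y ×ˢ Icc 1 Y).filter (fun p : ℕ × ℕ => IsSquare (p.1 * p.2)),
        ‖b p.1‖ * ‖b p.2‖) + (∑ n ∈ Icc 1 Y, ‖b n‖ * n) ^ 2 := by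
  classical
  have h1 : ((∑ d ∈ Icc 1 X, ‖∑ n ∈ Icc 1 Y, b n * (jacobiSym d n : ℂ)‖ ^ 2 : ℝ) : ℂ) =
      ∑ p ∈ Icc 1 Y ×ˢ Icc 1 Y, b p.1 * (starRingEnd ℂ) (b p.2) *
        ((∑ d ∈ Icc 1 X, jacobiSym d (p.1 * p.2) : ℤ) : ℂ) := by
    push_cast
    have h2 : ∀ d ∈ Icc 1 X, ((‖∑ n ∈ Icc 1 Y, b n * (jacobiSym d n : ℂ)‖ : ℝ) : ℂ) ^ 2 =
        ∑ p ∈ Icc 1 Y ×ˢ Icc 1 Y, b p.1 * (starRingEnd ℂ) (b p.2) *
          ((jacobiSym d (p.1 * p.2) : ℤ) : ℂ) := by
      intro d _
      rw [← Complex.mul_conj', map_sum, Finset.sum_mul_sum, Finset.sum_product]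
      apply Finset.sum_congr rfl
      intro m hm
      apply Finset.sum_congr rfl
      intro n hn
      have hm1 : NeZero m := ⟨by have := (Finset.mem_Icc.1 hm).1; omega⟩
      have hn1 : NeZero n := ⟨by have := (Finset.mem_Icc.1 hn).1; omega⟩
      have hc : (starRingEnd ℂ) ((jacobiSym d n : ℤ) : ℂ) = ((jacobiSym d n : ℤ) : ℂ) :=
        Complex.conj_eq_iff_real.2 ⟨((jacobiSym d n : ℤ) : ℝ), by push_cast; rfl⟩
      rw [jacobiSym.mul_right, map_mul, hc]
      push_cast
      ring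
    rw [Finset.sum_congr rfl h2, Finset.sum_comm]
    apply Finset.sum_congr rfl
    intro p _
    rw [Finset.mul_sum]
  have h3 : ∑ d ∈ Icc 1 X, ‖∑ n ∈ Icc 1 Y, b n * (jacobiSym d n : ℂ)‖ ^ 2 ≤
      ∑ p ∈ Icc 1 Y ×ˢ Icc 1 Y, ‖b p.1‖ * ‖b p.2‖ *
        |((∑ d ∈ Icc 1 X, jacobiSym d (p.1 * p.2) : ℤ) : ℝ)| := by
    have hnn : 0 ≤ ∑ d ∈ Icc 1 X, ‖∑ n ∈ Icc 1 Y, b n * (jacobiSym d n : ℂ)‖ ^ 2 := by positivity
    calc _ = ‖((∑ d ∈ Icc 1 X, ‖∑ n ∈ Icc 1 Y, b n * (jacobiSym d n : ℂ)‖ ^ 2 : ℝ) : ℂ)‖ := by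
          rw [Complex.norm_real, Real.norm_of_nonneg hnn]
      _ ≤ _ := by
          rw [h1]
          refine (norm_sum_le _ _).trans (le_of_eq ?_)
          apply Finset.sum_congr rfl
          intro p _
          rw [norm_mul, norm_mul, Complex.norm_conj, Complex.norm_intCast]
  refine h3.trans ?_
  have h4 : ∀ p ∈ Icc 1 Y ×ˢ Icc 1 Y, ‖b p.1‖ * ‖b p.2‖ *
        |((∑ d ∈ Icc 1 X, jacobiSym d (p.1 * p.2) : ℤ) : ℝ)| ≤
      (if IsSquare (p.1 * p.2) then X * (‖b p.1‖ * ‖b p.2‖) else 0) +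
        (‖b p.1‖ * p.1) * (‖b p.2‖ * p.2) := by
    intro p hp
    have hnn : 0 ≤ (‖b p.1‖ * p.1) * (‖b p.2‖ * p.2) := by positivity
    split_ifs with hs
    · have h5 : |((∑ d ∈ Icc 1 X, jacobiSym d (p.1 * p.2) : ℤ) : ℝ)| ≤ X := by
        have : |∑ d ∈ Icc 1 X, jacobiSym d (p.1 * p.2)| ≤ (X : ℤ) := by
          calc _ ≤ ∑ d ∈ Icc 1 X, |jacobiSym d (p.1 * p.2)| := Finset.abs_sum_le_sum_abs _ _
            _ ≤ ∑ d ∈ Icc 1 X, 1 := by
                apply Finset.sum_le_sum
                intro x _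
                rcases jacobiSym.trichotomy x (p.1 * p.2) with h | h | h <;> rw [h] <;> simp
            _ = X := by simp
        exact_mod_cast this
      have : ‖b p.1‖ * ‖b p.2‖ * |((∑ d ∈ Icc 1 X, jacobiSym d (p.1 * p.2) : ℤ) : ℝ)| ≤
          ‖b p.1‖ * ‖b p.2‖ * X := by gcongr
      linarith
    · rw [zero_add]
      by_cases hodd : Odd (p.1 * p.2)
      · have h5 : |((∑ d ∈ Icc 1 X, jacobiSym d (p.1 * p.2) : ℤ) : ℝ)| ≤ ((p.1 * p.2 : ℕ) : ℝ) := by
          have := abs_sum_le hodd hs X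
          exact_mod_cast this
        push_cast at h5
        calc _ ≤ ‖b p.1‖ * ‖b p.2‖ * ((p.1 : ℝ) * p.2) := by
              push_cast
              gcongr
          _ = _ := by ring
      · rw [Nat.odd_mul, not_and_or, Nat.not_odd_iff_even, Nat.not_odd_iff_even] at hodd
        rcases hodd with h | h <;> rw [hb _ h] <;> simp
  refine (Finset.sum_le_sum h4).trans (le_of_eq ?_)
  rw [Finset.sum_add_distrib, ← Finset.sum_filter, ← Finset.mul_sum, sq, Finset.sum_mul_sum,
    Finset.sum_product (f := fun p : ℕ × ℕ => (‖b p.1‖ * p.1) * (‖b p.2‖ * p.2))]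

/-- `∑_l d(l)^K l^{-1-η} ≤ (C/η)^C` -/
theorem divisor_sum (K : ℕ) : ∃ C : ℕ, ∀ η : ℝ, 0 < η → η ≤ 1 →
    Summable (fun l : ℕ => ((l.divisors.card : ℝ) ^ K) * (l : ℝ) ^ (-(1 + η))) ∧
    ∑' l : ℕ, ((l.divisors.card : ℝ) ^ K) * (l : ℝ) ^ (-(1 + η)) ≤ (C / η) ^ C := by
  refine ⟨2 * 2 ^ K, fun η hη hη1 => ⟨Pool.Agent.H6.tau_summable hη K, ?_⟩⟩
  refine (Pool.Agent.H6.tau_tsum_le hη K).trans ?_
  have h1 := Pool.Agent.H6.zs_le hη
  have h2 : (1 : ℝ) ≤ 1 / η := by rw [le_div_iff₀ hη]; linarith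
  have h3 : Pool.Agent.H6.zs η ≤ 2 / η := by
    have : 2 / η = 1 / η + 1 / η := by ring
    linarith
  have h4 : (1 : ℝ) ≤ 2 ^ K := one_le_pow₀ (by norm_num)
  push_cast
  have h5 : 2 / η ≤ 2 * 2 ^ K / η := by
    gcongr
    linarith
  have h6 : 1 ≤ 2 * 2 ^ K / η := by
    have : 2 / η = 1 / η + 1 / η := by ring
    linarith
  calc Pool.Agent.H6.zs η ^ 2 ^ K ≤ (2 * 2 ^ K / η) ^ 2 ^ K := by
        have := Pool.Agent.H6.zs_nonneg η
        gcongr
        linarith
    _ ≤ (2 * 2 ^ K / η) ^ (2 * 2 ^ K) := pow_le_pow_right₀ h6 (by omega)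

theorem square_sum (K : ℕ) : ∃ C : ℕ, ∀ η : ℝ, 0 < η → η ≤ 1 →
    Summable (fun p : ℕ × ℕ => if IsSquare (p.1 * p.2) then
      ((p.1.divisors.card * p.2.divisors.card : ℕ) : ℝ) ^ K *
        ((p.1 * p.2 : ℕ) : ℝ) ^ (-(1 / 2 + η)) else 0) ∧
    ∑' p : ℕ × ℕ, (if IsSquare (p.1 * p.2) then
      ((p.1.divisors.card * p.2.divisors.card : ℕ) : ℝ) ^ K *
        ((p.1 * p.2 : ℕ) : ℝ) ^ (-(1 / 2 + η)) else 0) ≤ (C / η) ^ C := by
  obtain ⟨C, hC⟩ := divisor_sum (4 * K + 2)
  refine ⟨C, fun η hη hη1 => ?_⟩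
  obtain ⟨hsum, hle⟩ := hC η hη hη1
  set f : ℕ × ℕ → ℝ := fun p => if IsSquare (p.1 * p.2) then
      ((p.1.divisors.card * p.2.divisors.card : ℕ) : ℝ) ^ K *
        ((p.1 * p.2 : ℕ) : ℝ) ^ (-(1 / 2 + η)) else 0 with hf
  have hf0 : ∀ p, 0 ≤ f p := by
    intro p
    simp only [hf]
    split_ifs <;> positivity
  set G : ℕ → ℝ := fun l => ((l.divisors.card : ℝ) ^ (4 * K + 2)) * (l : ℝ) ^ (-(1 + η)) with hG
  have hG0 : ∀ l, 0 ≤ G l := fun l => by simp only [hG]; positivity
  -- sum over a fibre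
  have hfib : ∀ (s : Finset (ℕ × ℕ)) (m : ℕ),
      ∑ p ∈ s.filter (fun p : ℕ × ℕ => Nat.sqrt (p.1 * p.2) = m), f p ≤ G m := by
    intro s m
    rcases Nat.eq_zero_or_pos m with rfl | hm
    · have : ∀ p ∈ s.filter (fun p : ℕ × ℕ => Nat.sqrt (p.1 * p.2) = 0), f p = 0 := by
        intro p hp
        have hp' := (Finset.mem_filter.1 hp).2
        rw [Nat.sqrt_eq_zero] at hp'
        simp only [hf, hp']
        rw [Nat.cast_zero, Real.zero_rpow (by linarith)]
        simp
      rw [Finset.sum_eq_zero this]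
      exact hG0 0
    · have hcard : ∀ {x y : ℕ}, 0 < y → x ∣ y → (x.divisors.card : ℝ) ≤ y.divisors.card := by
        intro x y hy hxy
        exact_mod_cast Finset.card_le_card (Nat.divisors_subset_of_dvd hy.ne' hxy)
      have hm2 : 0 < m * m := Nat.mul_pos hm hm
      have hmm : ((m * m).divisors.card : ℝ) ≤ (m.divisors.card : ℝ) ^ 2 := by
        have := Pool.Agent.H6.tau_mul_le m m
        unfold Pool.Agent.H6.tau at this
        rw [sq]
        exact_mod_cast this
      calc ∑ p ∈ s.filter (fun p : ℕ × ℕ => Nat.sqrt (p.1 * p.2) = m), f p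
          ≤ ∑ p ∈ (m * m).divisorsAntidiagonal,
            ((m.divisors.card : ℝ) ^ 4) ^ K * (m : ℝ) ^ (-(1 + η)) := by
            have h1 : ∑ p ∈ s.filter (fun p : ℕ × ℕ => Nat.sqrt (p.1 * p.2) = m), f p =
                ∑ p ∈ (s.filter (fun p : ℕ × ℕ => Nat.sqrt (p.1 * p.2) = m)).filter
                  (fun p : ℕ × ℕ => IsSquare (p.1 * p.2)), f p := by
              rw [Finset.sum_filter (s := s.filter _)]
              apply Finset.sum_congr rfl
              intro p _
              split_ifs with h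
              · rfl
              · simp only [hf]
                rw [if_neg h]
            rw [h1]
            have hsub : (s.filter (fun p : ℕ × ℕ => Nat.sqrt (p.1 * p.2) = m)).filter
                  (fun p : ℕ × ℕ => IsSquare (p.1 * p.2)) ⊆ (m * m).divisorsAntidiagonal := by
              intro p hp
              rw [Finset.mem_filter, Finset.mem_filter] at hp
              obtain ⟨⟨_, h2⟩, r, hr⟩ := hp
              rw [Nat.mem_divisorsAntidiagonal]
              rw [hr, Nat.sqrt_eq] at h2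
              exact ⟨by rw [hr, h2], hm2.ne'⟩
            refine (Finset.sum_le_sum (g := fun _ => ((m.divisors.card : ℝ) ^ 4) ^ K *
              (m : ℝ) ^ (-(1 + η))) ?_).trans ?_
            · intro p hp
              have hp' := hsub hp
              rw [Nat.mem_divisorsAntidiagonal] at hp'
              obtain ⟨h2, _⟩ := hp'
              simp only [hf]
              rw [if_pos (by rw [h2]; exact ⟨m, rfl⟩), h2]
              have h3 : (p.1.divisors.card : ℝ) ≤ (m.divisors.card : ℝ) ^ 2 :=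
                (hcard hm2 ⟨p.2, h2.symm⟩).trans hmm
              have h4 : (p.2.divisors.card : ℝ) ≤ (m.divisors.card : ℝ) ^ 2 :=
                (hcard hm2 ⟨p.1, by rw [← h2]; ring⟩).trans hmm
              have h5 : ((p.1.divisors.card * p.2.divisors.card : ℕ) : ℝ) ≤
                  (m.divisors.card : ℝ) ^ 4 := by
                push_cast
                calc _ ≤ (m.divisors.card : ℝ) ^ 2 * (m.divisors.card : ℝ) ^ 2 := by gcongr
                  _ = _ := by ring
              have hm1 : (1 : ℝ) ≤ m := by exact_mod_cast hm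
              have h6 : ((m * m : ℕ) : ℝ) ^ (-(1 / 2 + η)) ≤ (m : ℝ) ^ (-(1 + η)) := by
                have e : ((m * m : ℕ) : ℝ) = (m : ℝ) ^ (2 : ℝ) := by
                  rw [Real.rpow_two]; push_cast; ring
                rw [e, ← Real.rpow_mul (by positivity)]
                apply Real.rpow_le_rpow_of_exponent_le hm1
                linarith
              gcongr
            · exact Finset.sum_le_sum_of_subset_of_nonneg hsub (fun _ _ _ => by positivity)
        _ = ((m * m).divisors.card : ℝ) * (((m.divisors.card : ℝ) ^ 4) ^ K *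
              (m : ℝ) ^ (-(1 + η))) := by
            rw [Finset.sum_const, nsmul_eq_mul]
            congr 2
            rw [← Nat.map_div_right_divisors, Finset.card_map]
        _ ≤ ((m.divisors.card : ℝ) ^ 2) * (((m.divisors.card : ℝ) ^ 4) ^ K *
              (m : ℝ) ^ (-(1 + η))) := by gcongr
        _ = G m := by
            simp only [hG]
            ring
  have hbound : ∀ s : Finset (ℕ × ℕ), ∑ p ∈ s, f p ≤ ∑' l, G l := by
    intro s
    rw [← Finset.sum_fiberwise_of_maps_to (s := s)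
      (t := s.image (fun p : ℕ × ℕ => Nat.sqrt (p.1 * p.2)))
      (g := fun p : ℕ × ℕ => Nat.sqrt (p.1 * p.2))
      (fun p hp => Finset.mem_image_of_mem _ hp) f]
    refine (Finset.sum_le_sum fun m _ => hfib s m).trans ?_
    exact hsum.sum_le_tsum _ (fun l _ => hG0 l)
  exact ⟨summable_of_sum_le hf0 hbound, (Real.tsum_le_of_sum_le hf0 hbound).trans hle⟩

end Pool.Agent.ZD
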