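import Mathlib
import Pool.Agent.ZD.Defs
import Pool.Agent.ZD.F
import Pool.Agent.ZD.G1
import Pool.Agent.ZD.E1
import Pool.Agent.ZD.O
import Pool.Agent.ZD.K1T

/-!
Module K2: the dual bound for the weighted mean square of the theta series over all twists.
-/

set_option autoImplicit false

open Complex Finset MeasureTheory

namespace Pool.Agent.ZD

open Pool.Agent.H5 (c bd Lser c_zero C_of_even)

namespace K2

/-- the exponential `e(n z)` -/
noncomputable def ee (z : ℂ) (n : ℕ) : ℂ := exp (-(2 * Real.pi * n * z))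

lemma norm_ee (z : ℂ) (n : ℕ) : ‖ee z n‖ = Real.exp (-(2 * Real.pi * n * z.re)) := by
  unfold ee
  rw [Complex.norm_exp]
  congr 1
  have : (-(2 * (Real.pi : ℂ) * n * z)) = ((-(2 * Real.pi * n) : ℝ) : ℂ) * z := by
    push_cast; ring
  rw [this, Complex.re_ofReal_mul]
  ring

/-- the weight of a pair -/
noncomputable def wt (z : ℂ) (p : ℕ × ℕ) : ℂ :=
  ((c p.1 : ℤ) : ℂ) * ((c p.2 : ℤ) : ℂ) * (ee z p.1 * ee ((starRingEnd ℂ) z) p.2)

lemma c_even {n : ℕ} (hn : n % 2 = 0) : c n = 0 := by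
  have h := Pool.Agent.H5.C_eq n
  unfold c
  rw [C_of_even hn]
  simp

lemma wt_zero {z : ℂ} {p : ℕ × ℕ} (h : ¬ (Odd p.1 ∧ Odd p.2)) : wt z p = 0 := by
  unfold wt
  by_cases h1 : Odd p.1
  · have h2 : ¬ Odd p.2 := fun h2 => h ⟨h1, h2⟩
    rw [Nat.not_odd_iff] at h2
    rw [c_even h2]
    simp
  · rw [Nat.not_odd_iff] at h1
    rw [c_even h1]
    simp

lemma abs_c_sq (n : ℕ) : |(c n : ℝ)| ≤ (n : ℝ) ^ 2 := by
  rcases Nat.eq_zero_or_pos n with rfl | hn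
  · rw [c_zero]; simp
  have h1 := abs_c_le' n
  have h2 : (n.divisors.card : ℝ) ≤ n := by exact_mod_cast Nat.card_divisors_le_self n
  have h3 : Real.sqrt n ≤ n := by
    rw [Real.sqrt_le_left (by positivity)]
    have : (1 : ℝ) ≤ n := by exact_mod_cast hn
    nlinarith
  calc |(c n : ℝ)| ≤ n.divisors.card * Real.sqrt n := h1
    _ ≤ n * n := mul_le_mul h2 h3 (Real.sqrt_nonneg _) (by positivity)
    _ = (n : ℝ) ^ 2 := by ring

lemma summable_poly_exp (k : ℕ) {x : ℝ} (hx : 0 < x) :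
    Summable (fun n : ℕ => (n : ℝ) ^ k * Real.exp (-(2 * Real.pi * n * x))) := by
  have h := Real.summable_pow_mul_exp_neg_nat_mul k (r := 2 * Real.pi * x) (by positivity)
  refine h.congr fun n => ?_
  congr 2
  ring

lemma norm_wt_le {z : ℂ} (p : ℕ × ℕ) : ‖wt z p‖ ≤
    ((p.1 : ℝ) ^ 2 * Real.exp (-(2 * Real.pi * p.1 * z.re))) *
      ((p.2 : ℝ) ^ 2 * Real.exp (-(2 * Real.pi * p.2 * z.re))) := by
  unfold wt
  rw [norm_mul, norm_mul, norm_mul, norm_ee, norm_ee, Complex.conj_re]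
  have h1 : ‖((c p.1 : ℤ) : ℂ)‖ ≤ (p.1 : ℝ) ^ 2 := by
    rw [Complex.norm_intCast]; exact abs_c_sq _
  have h2 : ‖((c p.2 : ℤ) : ℂ)‖ ≤ (p.2 : ℝ) ^ 2 := by
    rw [Complex.norm_intCast]; exact abs_c_sq _
  have h3 := mul_le_mul h1 h2 (norm_nonneg _) (by positivity)
  calc _ ≤ ((p.1 : ℝ) ^ 2 * (p.2 : ℝ) ^ 2) * (Real.exp (-(2 * Real.pi * p.1 * z.re)) *
        Real.exp (-(2 * Real.pi * p.2 * z.re))) :=
        mul_le_mul_of_nonneg_right h3 (by positivity)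
    _ = _ := by ring

lemma summable_wt_poly {z : ℂ} (hz : 0 < z.re) (k : ℕ) :
    Summable (fun p : ℕ × ℕ => ‖wt z p‖ * ((p.1 * p.2 : ℕ) : ℝ) ^ k) := by
  have h1 := summable_poly_exp (2 + k) hz
  have h2 := h1.mul_of_nonneg h1 (fun n => by positivity) (fun n => by positivity)
  refine Summable.of_nonneg_of_le (fun p => by positivity) (fun p => ?_) h2
  calc ‖wt z p‖ * ((p.1 * p.2 : ℕ) : ℝ) ^ k ≤
      (((p.1 : ℝ) ^ 2 * Real.exp (-(2 * Real.pi * p.1 * z.re))) *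
      ((p.2 : ℝ) ^ 2 * Real.exp (-(2 * Real.pi * p.2 * z.re)))) * ((p.1 * p.2 : ℕ) : ℝ) ^ k :=
        mul_le_mul_of_nonneg_right (norm_wt_le p) (by positivity)
    _ = _ := by push_cast; rw [pow_add, pow_add, mul_pow]; ring

lemma summable_wt {z : ℂ} (hz : 0 < z.re) : Summable (fun p : ℕ × ℕ => ‖wt z p‖) := by
  simpa using summable_wt_poly hz 0

lemma norm_jac (D : ℤ) (n : ℕ) : ‖((jacobiSym D n : ℤ) : ℂ)‖ ≤ 1 := by
  rcases jacobiSym.trichotomy D n with h | h | h <;> rw [h] <;> simp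

lemma summable_S {z : ℂ} (hz : 0 < z.re) (D : ℤ) :
    Summable (fun n : ℕ => ‖(bd D n : ℂ) * ee z n‖) := by
  refine Summable.of_nonneg_of_le (fun _ => norm_nonneg _) (fun n => ?_) (summable_poly_exp 2 hz)
  rw [norm_mul, norm_ee]
  refine mul_le_mul_of_nonneg_right ?_ (Real.exp_pos _).le
  unfold bd
  push_cast
  rw [norm_mul]
  calc ‖((jacobiSym D n : ℤ) : ℂ)‖ * ‖((c n : ℤ) : ℂ)‖ ≤ 1 * (n : ℝ) ^ 2 := by
        refine mul_le_mul (norm_jac D n) ?_ (norm_nonneg _) zero_le_one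
        rw [Complex.norm_intCast]; exact abs_c_sq _
    _ = _ := one_mul _

lemma conj_S (D : ℤ) (z : ℂ) : (starRingEnd ℂ) (S D z) = S D ((starRingEnd ℂ) z) := by
  unfold S
  rw [Complex.conj_tsum]
  congr 1
  funext n
  rw [map_mul, ← Complex.exp_conj]
  simp [map_ofNat]

/-- expansion of the square -/
lemma norm_S_sq {z : ℂ} (hz : 0 < z.re) (D : ℤ) :
    ((‖S D z‖ ^ 2 : ℝ) : ℂ) =
      ∑' p : ℕ × ℕ, ((jacobiSym D (p.1 * p.2) : ℤ) : ℂ) * wt z p := by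
  have hz' : 0 < ((starRingEnd ℂ) z).re := by rwa [Complex.conj_re]
  have h1 : ((‖S D z‖ ^ 2 : ℝ) : ℂ) = S D z * S D ((starRingEnd ℂ) z) := by
    rw [← conj_S, Complex.mul_conj, Complex.normSq_eq_norm_sq]
  rw [h1]
  have h2 : S D z = ∑' n : ℕ, (bd D n : ℂ) * ee z n := rfl
  have h3 : S D ((starRingEnd ℂ) z) = ∑' n : ℕ, (bd D n : ℂ) * ee ((starRingEnd ℂ) z) n := rfl
  rw [h2, h3, tsum_mul_tsum_of_summable_norm (summable_S hz D) (summable_S hz' D)]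
  congr 1
  funext p
  by_cases hp : Odd p.1 ∧ Odd p.2
  · have : NeZero p.1 := ⟨hp.1.pos.ne'⟩
    have : NeZero p.2 := ⟨hp.2.pos.ne'⟩
    rw [jacobiSym.mul_right]
    unfold bd wt
    push_cast
    ring
  · rw [wt_zero hp, mul_zero]
    unfold bd
    rw [not_and_or, Nat.not_odd_iff, Nat.not_odd_iff] at hp
    rcases hp with h | h
    · rw [c_even h]; simp
    · rw [c_even h]; simp

/-- the Gaussian weight -/
noncomputable def gs (Z : ℝ) (D : ℤ) : ℝ := Real.exp (-(Real.pi * D ^ 2 / Z ^ 2))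

/-- a majorant for Gaussians on the integers -/
noncomputable def bb (k : ℤ) : ℝ := if k = 0 then 1 else 1 / (k : ℝ) ^ 2

lemma summable_bb : Summable bb := by
  have h1 : Summable (fun k : ℤ => 1 / (k : ℝ) ^ 2) := by
    have := (Real.summable_one_div_int_pow (p := 2)).2 (by norm_num)
    exact this
  have h2 : Summable (fun k : ℤ => if k = 0 then (1 : ℝ) else 0) := by
    exact (hasSum_ite_eq (0 : ℤ) (1 : ℝ)).summable
  refine Summable.of_nonneg_of_le (fun k => ?_) (fun k => ?_) (h1.add h2)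
  · unfold bb; split_ifs <;> positivity
  · unfold bb
    split_ifs with h
    · subst h; simp
    · simp

lemma bb_nonneg (k : ℤ) : 0 ≤ bb k := by
  unfold bb; split_ifs <;> positivity

lemma gauss_le {m : ℝ} (hm : 1 ≤ m) (k : ℤ) :
    Real.exp (-(Real.pi * k ^ 2 / m ^ 2)) ≤ m ^ 2 * bb k := by
  unfold bb
  split_ifs with h
  · subst h
    have h1 : (1 : ℝ) ≤ m ^ 2 := one_le_pow₀ hm
    have h2 : Real.exp (-(Real.pi * ((0 : ℤ) : ℝ) ^ 2 / m ^ 2)) = 1 := by simp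
    rw [h2, mul_one]
    exact h1
  · have hk : (0 : ℝ) < (k : ℝ) ^ 2 := by
      have : (k : ℝ) ≠ 0 := by exact_mod_cast h
      positivity
    have hx : 0 < Real.pi * (k : ℝ) ^ 2 / m ^ 2 := by positivity
    have h1 : Real.exp (-(Real.pi * (k : ℝ) ^ 2 / m ^ 2)) ≤ 1 / (Real.pi * (k : ℝ) ^ 2 / m ^ 2) := by
      rw [Real.exp_neg, ← one_div]
      apply one_div_le_one_div_of_le hx
      linarith [Real.add_one_le_exp (Real.pi * (k : ℝ) ^ 2 / m ^ 2)]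
    refine h1.trans ?_
    rw [one_div_div, mul_one_div]
    apply div_le_div_of_nonneg_left (by positivity) hk
    have : (1 : ℝ) ≤ Real.pi := by linarith [Real.pi_gt_three]
    nlinarith

lemma gs_nonneg (Z : ℝ) (D : ℤ) : 0 ≤ gs Z D := (Real.exp_pos _).le

lemma gs_summable {Z : ℝ} (hZ : 1 ≤ Z) : Summable (gs Z) := by
  refine Summable.of_nonneg_of_le (fun k => (Real.exp_pos _).le) (fun k => gauss_le hZ k)
    (summable_bb.mul_left _)

/-- the dual term -/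
noncomputable def HH (Z : ℝ) (z : ℂ) (k : ℤ) (p : ℕ × ℕ) : ℂ :=
  wt z p * (((Z / (p.1 * p.2 : ℕ) : ℝ) : ℂ) *
    (tau k (p.1 * p.2) * exp (-(Real.pi * k ^ 2 * Z ^ 2 / ((p.1 * p.2 : ℕ) : ℂ) ^ 2))))

lemma norm_gexp {m : ℕ} (Z : ℝ) (k : ℤ) :
    ‖exp (-(Real.pi * k ^ 2 * Z ^ 2 / (m : ℂ) ^ 2))‖ =
      Real.exp (-(Real.pi * k ^ 2 * Z ^ 2 / (m : ℝ) ^ 2)) := by
  rw [Complex.norm_exp]
  congr 1
  have : (-((Real.pi : ℂ) * k ^ 2 * Z ^ 2 / (m : ℂ) ^ 2)) =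
      ((-(Real.pi * k ^ 2 * Z ^ 2 / (m : ℝ) ^ 2) : ℝ) : ℂ) := by push_cast; ring
  rw [this, Complex.ofReal_re]

lemma norm_HH_le {Z : ℝ} (hZ : 1 ≤ Z) (z : ℂ) (k : ℤ) (p : ℕ × ℕ) :
    ‖HH Z z k p‖ ≤ Z * ((‖wt z p‖ * ((p.1 * p.2 : ℕ) : ℝ) ^ 2) * bb k) := by
  by_cases hp : Odd p.1 ∧ Odd p.2
  · have hm : 1 ≤ p.1 * p.2 := Nat.mul_pos hp.1.pos hp.2.pos
    have hmR : (1 : ℝ) ≤ ((p.1 * p.2 : ℕ) : ℝ) := by exact_mod_cast hm
    unfold HH
    rw [norm_mul, norm_mul, norm_mul, norm_gexp, Complex.norm_real,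
      Real.norm_of_nonneg (by positivity)]
    have h1 := norm_tau_le k (p.1 * p.2)
    have h2 : Real.exp (-(Real.pi * k ^ 2 * Z ^ 2 / ((p.1 * p.2 : ℕ) : ℝ) ^ 2)) ≤
        ((p.1 * p.2 : ℕ) : ℝ) ^ 2 * bb k := by
      refine le_trans ?_ (gauss_le hmR k)
      apply Real.exp_le_exp.mpr
      apply neg_le_neg
      apply div_le_div_of_nonneg_right _ (by positivity)
      have : 0 ≤ Real.pi * (k : ℝ) ^ 2 := by positivity
      exact le_mul_of_one_le_right this (one_le_pow₀ hZ)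
    have hb := bb_nonneg k
    calc ‖wt z p‖ * (Z / ((p.1 * p.2 : ℕ) : ℝ) * (‖tau k (p.1 * p.2)‖ *
          Real.exp (-(Real.pi * k ^ 2 * Z ^ 2 / ((p.1 * p.2 : ℕ) : ℝ) ^ 2))))
        ≤ ‖wt z p‖ * (Z / ((p.1 * p.2 : ℕ) : ℝ) * (((p.1 * p.2 : ℕ) : ℝ) *
          (((p.1 * p.2 : ℕ) : ℝ) ^ 2 * bb k))) := by
          gcongr
      _ = _ := by
          have : ((p.1 * p.2 : ℕ) : ℝ) ≠ 0 := by positivity
          field_simp
  · unfold HH
    rw [wt_zero hp]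
    simp

lemma summable_HH {Z : ℝ} (hZ : 1 ≤ Z) {z : ℂ} (hz : 0 < z.re) :
    Summable (fun x : (ℕ × ℕ) × ℤ => HH Z z x.2 x.1) := by
  have h1 := (summable_wt_poly hz 2).mul_of_nonneg summable_bb (fun n => by positivity)
    (fun k => bb_nonneg k)
  refine Summable.of_norm_bounded (h1.mul_left Z) (fun x => ?_)
  exact norm_HH_le hZ z x.2 x.1

/-- Poisson summation of the whole sum -/
theorem dual {Z : ℝ} (hZ : 1 ≤ Z) {z : ℂ} (hz : 0 < z.re) :
    Summable (fun D : ℤ => gs Z D * ‖S D z‖ ^ 2) ∧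
    ((∑' D : ℤ, gs Z D * ‖S D z‖ ^ 2 : ℝ) : ℂ) = ∑' k : ℤ, ∑' p : ℕ × ℕ, HH Z z k p := by
  have hG : Summable (fun x : ℤ × (ℕ × ℕ) => ((gs Z x.1 : ℝ) : ℂ) *
      (((jacobiSym x.1 (x.2.1 * x.2.2) : ℤ) : ℂ) * wt z x.2)) := by
    have h1 := (gs_summable hZ).mul_of_nonneg (summable_wt hz) (fun n => (Real.exp_pos _).le)
      (fun k => norm_nonneg _)
    refine Summable.of_norm_bounded h1 (fun x => ?_)
    rw [norm_mul, norm_mul, Complex.norm_real, Real.norm_of_nonneg (gs_nonneg _ _)]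
    have h2 := norm_jac x.1 (x.2.1 * x.2.2)
    have h3 : ‖((jacobiSym x.1 (x.2.1 * x.2.2) : ℤ) : ℂ)‖ * ‖wt z x.2‖ ≤ ‖wt z x.2‖ := by
      nlinarith [norm_nonneg (wt z x.2)]
    exact mul_le_mul_of_nonneg_left h3 (gs_nonneg _ _)
  have hrow : ∀ D : ℤ, ((gs Z D * ‖S D z‖ ^ 2 : ℝ) : ℂ) =
      ∑' p : ℕ × ℕ, ((gs Z D : ℝ) : ℂ) * (((jacobiSym D (p.1 * p.2) : ℤ) : ℂ) * wt z p) := by
    intro D
    rw [tsum_mul_left, ← norm_S_sq hz]
    push_cast
    ring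
  have hsumC : Summable (fun D : ℤ => ((gs Z D * ‖S D z‖ ^ 2 : ℝ) : ℂ)) := by
    simp_rw [hrow]
    exact hG.prod
  have hsumR : Summable (fun D : ℤ => gs Z D * ‖S D z‖ ^ 2) := Complex.summable_ofReal.1 hsumC
  refine ⟨hsumR, ?_⟩
  rw [Complex.ofReal_tsum]
  simp_rw [hrow]
  have hG' : Summable (fun x : (ℕ × ℕ) × ℤ => ((gs Z x.2 : ℝ) : ℂ) *
      (((jacobiSym x.2 (x.1.1 * x.1.2) : ℤ) : ℂ) * wt z x.1)) :=
    (Equiv.prodComm _ _).summable_iff.1 (hG.congr (fun x => rfl))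
  have hswap : ∑' (D : ℤ) (p : ℕ × ℕ), ((gs Z D : ℝ) : ℂ) *
        (((jacobiSym D (p.1 * p.2) : ℤ) : ℂ) * wt z p) =
      ∑' (p : ℕ × ℕ) (D : ℤ), ((gs Z D : ℝ) : ℂ) *
        (((jacobiSym D (p.1 * p.2) : ℤ) : ℂ) * wt z p) :=
    Summable.tsum_comm' (f := fun (p : ℕ × ℕ) (D : ℤ) => ((gs Z D : ℝ) : ℂ) *
        (((jacobiSym D (p.1 * p.2) : ℤ) : ℂ) * wt z p)) hG' (fun p => hG'.prod_factor p)
        (fun D => hG.prod_factor D)
  rw [hswap]
  have hcol : ∀ p : ℕ × ℕ, ∑' D : ℤ, ((gs Z D : ℝ) : ℂ) *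
      (((jacobiSym D (p.1 * p.2) : ℤ) : ℂ) * wt z p) = ∑' k : ℤ, HH Z z k p := by
    intro p
    by_cases hp : Odd p.1 ∧ Odd p.2
    · have hm : Odd (p.1 * p.2) := hp.1.mul hp.2
      obtain ⟨_, hP⟩ := poisson hm (lt_of_lt_of_le one_pos hZ)
      have h1 : ∀ D : ℤ, ((gs Z D : ℝ) : ℂ) * (((jacobiSym D (p.1 * p.2) : ℤ) : ℂ) * wt z p) =
          wt z p * ((jacobiSym D (p.1 * p.2) : ℂ) * exp (-(Real.pi * D ^ 2 / Z ^ 2))) := by
        intro D
        unfold gs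
        push_cast
        ring
      simp_rw [h1]
      rw [tsum_mul_left, ← hP.tsum_eq, ← tsum_mul_left]
      rfl
    · unfold HH
      rw [wt_zero hp]
      simp
  simp_rw [hcol]
  have h2 : Summable (fun x : (ℕ × ℕ) × ℤ => HH Z z x.2 x.1) := summable_HH hZ hz
  have h2' : Summable (fun x : ℤ × (ℕ × ℕ) => HH Z z x.1 x.2) :=
    (Equiv.prodComm _ _).summable_iff.1 (h2.congr (fun x => rfl))
  exact Summable.tsum_comm' (f := fun (k : ℤ) (p : ℕ × ℕ) => HH Z z k p) h2'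
    (fun k => h2'.prod_factor k) (fun p => h2.prod_factor p)

lemma ray_re (a r : ℝ) : (ray a r).re = r * Real.sin a := by
  unfold ray
  rw [Complex.re_ofReal_mul, Complex.exp_ofReal_mul_I_re, Real.cos_pi_div_two_sub]

lemma exp_neg_le {η x : ℝ} (hη : 0 < η) (hη1 : η ≤ 1 / 2) (hx : 0 < x) :
    Real.exp (-x) ≤ x ^ (-(1 + η)) := by
  rw [Real.exp_neg, Real.rpow_neg hx.le]
  apply inv_anti₀ (by positivity)
  rcases le_total x 1 with h | h
  · calc x ^ (1 + η) ≤ 1 := Real.rpow_le_one hx.le h (by linarith)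
      _ ≤ Real.exp x := Real.one_le_exp hx.le
  · have h1 : x ^ (1 + η) ≤ x ^ (2 : ℝ) := Real.rpow_le_rpow_of_exponent_le h (by linarith)
    have h2 : x ^ (2 : ℝ) = x ^ 2 := by norm_cast
    have h3 : Real.exp x = Real.exp (x / 2) ^ 2 := by
      rw [← Real.exp_nat_mul]; congr 1; push_cast; ring
    have h4 := Real.quadratic_le_exp_of_nonneg (x := x / 2) (by positivity)
    have h5 : x ≤ Real.exp (x / 2) := by nlinarith [sq_nonneg (x - 2)]
    rw [h2] at h1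
    rw [h3]
    exact h1.trans (pow_le_pow_left₀ hx.le h5 2)

lemma ee_bound {a r η : ℝ} (ha : 0 < a) (ha1 : a ≤ 1 / 8) (hη : 0 < η) (hη1 : η ≤ 1 / 2)
    (hr : 0 < r) {n : ℕ} (hn : 0 < n) :
    Real.exp (-(2 * Real.pi * n * (ray a r).re)) ≤ (n : ℝ) ^ (-(1 + η)) * (r * a) ^ (-(1 + η)) := by
  have hn' : (0 : ℝ) < n := by exact_mod_cast hn
  rw [← Real.mul_rpow hn'.le (by positivity)]
  refine le_trans ?_ (exp_neg_le hη hη1 (x := n * (r * a)) (by positivity))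
  apply Real.exp_le_exp.mpr
  rw [ray_re]
  have h1 : 2 / Real.pi * a ≤ Real.sin a :=
    Real.mul_le_sin ha.le (by linarith [Real.pi_gt_three])
  have h2 : 4 * a ≤ 2 * Real.pi * Real.sin a := by
    have := mul_le_mul_of_nonneg_left h1 (by positivity : (0 : ℝ) ≤ 2 * Real.pi)
    calc 4 * a = 2 * Real.pi * (2 / Real.pi * a) := by field_simp; ring
      _ ≤ _ := this
  have h3 : n * (r * a) ≤ n * r * (2 * Real.pi * Real.sin a) := by
    have : n * (r * a) = n * r * a := by ring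
    rw [this]
    exact mul_le_mul_of_nonneg_left (by linarith) (by positivity)
  linarith

/-- the majorant of the diagonal -/
noncomputable def sq (η : ℝ) (p : ℕ × ℕ) : ℝ := if IsSquare (p.1 * p.2) then
      ((p.1.divisors.card * p.2.divisors.card : ℕ) : ℝ) ^ 1 *
        ((p.1 * p.2 : ℕ) : ℝ) ^ (-(1 / 2 + η)) else 0

lemma norm_HH_zero {a r η Z : ℝ} (ha : 0 < a) (ha1 : a ≤ 1 / 8) (hη : 0 < η) (hη1 : η ≤ 1 / 2)
    (hr : 0 < r) (hZ : 1 ≤ Z) (p : ℕ × ℕ) :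
    ‖HH Z (ray a r) 0 p‖ ≤ Z * (r * a) ^ (-(2 + 2 * η)) * sq η p := by
  have hsq : 0 ≤ sq η p := by unfold sq; split_ifs <;> positivity
  by_cases hp : Odd p.1 ∧ Odd p.2
  · have hm : Odd (p.1 * p.2) := hp.1.mul hp.2
    have hmp : 0 < p.1 * p.2 := hm.pos
    unfold HH
    by_cases hs : IsSquare (p.1 * p.2)
    · have hw : ‖wt (ray a r) p‖ ≤ (r * a) ^ (-(2 + 2 * η)) * sq η p := by
        unfold wt sq
        rw [if_pos hs, norm_mul, norm_mul, norm_mul, norm_ee, norm_ee, Complex.conj_re, pow_one]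
        have h1 : ‖((c p.1 : ℤ) : ℂ)‖ ≤ p.1.divisors.card * Real.sqrt p.1 := by
          rw [Complex.norm_intCast]; exact abs_c_le' _
        have h2 : ‖((c p.2 : ℤ) : ℂ)‖ ≤ p.2.divisors.card * Real.sqrt p.2 := by
          rw [Complex.norm_intCast]; exact abs_c_le' _
        have e1 := ee_bound ha ha1 hη hη1 hr hp.1.pos
        have e2 := ee_bound ha ha1 hη hη1 hr hp.2.pos
        have p1 : (0 : ℝ) < (p.1 : ℝ) := by exact_mod_cast hp.1.pos
        have p2 : (0 : ℝ) < (p.2 : ℝ) := by exact_mod_cast hp.2.pos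
        have hra : 0 < r * a := by positivity
        calc _ ≤ ((p.1.divisors.card * Real.sqrt p.1) * (p.2.divisors.card * Real.sqrt p.2)) *
              (((p.1 : ℝ) ^ (-(1 + η)) * (r * a) ^ (-(1 + η))) *
                ((p.2 : ℝ) ^ (-(1 + η)) * (r * a) ^ (-(1 + η)))) := by
              gcongr
          _ = ((r * a) ^ (-(1 + η)) * (r * a) ^ (-(1 + η))) *
              ((p.1.divisors.card * p.2.divisors.card) *
              ((Real.sqrt p.1 * (p.1 : ℝ) ^ (-(1 + η))) *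
                (Real.sqrt p.2 * (p.2 : ℝ) ^ (-(1 + η))))) := by ring
          _ = _ := by
              rw [← Real.rpow_add hra, Real.sqrt_eq_rpow, Real.sqrt_eq_rpow, ← Real.rpow_add p1,
                ← Real.rpow_add p2, ← Real.mul_rpow p1.le p2.le]
              push_cast
              congr 3
              · ring
              · ring
      rw [norm_mul, norm_mul, norm_mul, Complex.norm_real, Real.norm_of_nonneg (by positivity)]
      have h1 := norm_tau_le 0 (p.1 * p.2)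
      have h2 : ‖exp (-(Real.pi * ((0 : ℤ) : ℂ) ^ 2 * Z ^ 2 / ((p.1 * p.2 : ℕ) : ℂ) ^ 2))‖ = 1 := by
        simp
      rw [h2, mul_one]
      have h3 : (0 : ℝ) < ((p.1 * p.2 : ℕ) : ℝ) := by exact_mod_cast hmp
      have h4 : Z / ((p.1 * p.2 : ℕ) : ℝ) * ‖tau 0 (p.1 * p.2)‖ ≤ Z := by
        rw [div_mul_eq_mul_div, div_le_iff₀ h3]
        exact mul_le_mul_of_nonneg_left h1 (by linarith)
      calc ‖wt (ray a r) p‖ * (Z / ((p.1 * p.2 : ℕ) : ℝ) * ‖tau 0 (p.1 * p.2)‖)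
          ≤ ((r * a) ^ (-(2 + 2 * η)) * sq η p) * Z := by
            refine mul_le_mul hw h4 (by positivity) (by positivity)
        _ = _ := by ring
    · rw [tau_zero_not_square hm hs]
      simp only [zero_mul, mul_zero, norm_zero]
      positivity
  · unfold HH
    rw [wt_zero hp]
    simp only [zero_mul, norm_zero]
    positivity

lemma HH_eq {Z : ℝ} (z : ℂ) (k : ℤ) (p : ℕ × ℕ) :
    HH Z z k p = (Z : ℂ) * (gk k p.1 p.2 * ((Real.sqrt (p.1 * p.2 : ℕ) : ℝ) : ℂ)⁻¹ *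
        exp (-(Real.pi * k ^ 2 * Z ^ 2 / ((p.1 * p.2 : ℕ) : ℂ) ^ 2)) *
        (exp (-(2 * Real.pi * p.1 * z)) *
          exp (-(2 * Real.pi * p.2 * (starRingEnd ℂ) z)))) := by
  unfold HH wt gk ee
  have h1 : ((Z / (p.1 * p.2 : ℕ) : ℝ) : ℂ) = (Z : ℂ) * (((Real.sqrt (p.1 * p.2 : ℕ) : ℝ) : ℂ)⁻¹ *
      ((Real.sqrt (p.1 * p.2 : ℕ) : ℝ) : ℂ)⁻¹) := by
    rw [← mul_inv, ← Complex.ofReal_mul, Real.mul_self_sqrt (by positivity)]
    push_cast
    ring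
  rw [h1]
  push_cast
  ring

/-- summation over `k = q v^2` -/
lemma sum_le_aux {g : ℤ → ℝ} {h : ℕ × ℕ → ℝ} (hs : Summable h) (h0 : ∀ x, 0 ≤ h x)
    (H : ∀ (k : ℤ) (q v : ℕ), Squarefree q → 0 < v → k.natAbs = q * v ^ 2 → g k ≤ h (q, v))
    (u : Finset ℤ) (hu : ∀ k ∈ u, k ≠ 0) (hinj : Set.InjOn Int.natAbs (u : Set ℤ)) :
    ∑ k ∈ u, g k ≤ ∑' x, h x := by
  have hex : ∀ n : ℕ, ∃ x : ℕ × ℕ, 0 < n → Squarefree x.1 ∧ 0 < x.2 ∧ n = x.1 * x.2 ^ 2 := by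
    intro n
    rcases Nat.eq_zero_or_pos n with rfl | hn
    · exact ⟨(0, 0), fun h => absurd h (lt_irrefl _)⟩
    · obtain ⟨a, b, ha, hb, hab, hsq⟩ := Nat.sq_mul_squarefree_of_pos hn
      exact ⟨(a, b), fun _ => ⟨hsq, hb, by rw [← hab]; ring⟩⟩
  choose φ hφ using hex
  have hpos : ∀ k ∈ u, 0 < k.natAbs := fun k hk => Int.natAbs_pos.2 (hu k hk)
  have h1 : ∑ k ∈ u, g k ≤ ∑ k ∈ u, h (φ k.natAbs) := by
    refine Finset.sum_le_sum fun k hk => ?_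
    obtain ⟨s1, s2, s3⟩ := hφ k.natAbs (hpos k hk)
    exact H k _ _ s1 s2 s3
  refine h1.trans ?_
  have hinj2 : Set.InjOn (fun k : ℤ => φ k.natAbs) (u : Set ℤ) := by
    intro k hk l hl hkl
    apply hinj hk hl
    have e1 := (hφ k.natAbs (hpos k hk)).2.2
    have e2 := (hφ l.natAbs (hpos l hl)).2.2
    simp only at hkl
    rw [e1, e2, hkl]
  rw [← Finset.sum_image (f := h) (g := fun k : ℤ => φ k.natAbs) hinj2]
  exact hs.sum_le_tsum _ (fun x _ => h0 x)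

lemma tsum_int_le {g : ℤ → ℝ} {h : ℕ × ℕ → ℝ} (hg : ∀ k, 0 ≤ g k) (hs : Summable h)
    (h0 : ∀ x, 0 ≤ h x)
    (H : ∀ (k : ℤ) (q v : ℕ), Squarefree q → 0 < v → k.natAbs = q * v ^ 2 → g k ≤ h (q, v)) :
    Summable g ∧ ∑' k, g k ≤ g 0 + 2 * ∑' x, h x := by
  have key : ∀ u : Finset ℤ, ∑ k ∈ u, g k ≤ g 0 + 2 * ∑' x, h x := by
    intro u
    have h1 : ∑ k ∈ u, g k = ∑ k ∈ u.filter (fun k => k = 0), g k +
        (∑ k ∈ u.filter (fun k => 0 < k), g k + ∑ k ∈ u.filter (fun k => k < 0), g k) := by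
      rw [← Finset.sum_filter_add_sum_filter_not u (fun k => k = 0)]
      congr 1
      rw [← Finset.sum_filter_add_sum_filter_not (u.filter (fun k => ¬ k = 0)) (fun k => 0 < k)]
      rw [Finset.filter_filter, Finset.filter_filter]
      congr 1
      · apply Finset.sum_congr _ (fun _ _ => rfl)
        ext k
        simp only [Finset.mem_filter]
        constructor
        · rintro ⟨a, b, c⟩; exact ⟨a, c⟩
        · rintro ⟨a, b⟩; exact ⟨a, by omega, b⟩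
      · apply Finset.sum_congr _ (fun _ _ => rfl)
        ext k
        simp only [Finset.mem_filter]
        constructor
        · rintro ⟨a, b, c⟩; exact ⟨a, by omega⟩
        · rintro ⟨a, b⟩; exact ⟨a, by omega, by omega⟩
    rw [h1]
    have e0 : ∑ k ∈ u.filter (fun k => k = 0), g k ≤ g 0 := by
      calc ∑ k ∈ u.filter (fun k => k = 0), g k ≤ ∑ k ∈ ({0} : Finset ℤ), g k := by
            apply Finset.sum_le_sum_of_subset_of_nonneg
            · intro k hk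
              rw [Finset.mem_filter] at hk
              simp [hk.2]
            · intro k _ _; exact hg k
        _ = g 0 := by simp
    have e1 : ∑ k ∈ u.filter (fun k => 0 < k), g k ≤ ∑' x, h x := by
      apply sum_le_aux hs h0 H
      · intro k hk; rw [Finset.mem_filter] at hk; omega
      · intro k hk l hl hkl
        rw [Finset.mem_coe, Finset.mem_filter] at hk hl
        omega
    have e2 : ∑ k ∈ u.filter (fun k => k < 0), g k ≤ ∑' x, h x := by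
      apply sum_le_aux hs h0 H
      · intro k hk; rw [Finset.mem_filter] at hk; omega
      · intro k hk l hl hkl
        rw [Finset.mem_coe, Finset.mem_filter] at hk hl
        omega
    linarith
  exact ⟨summable_of_sum_le hg key, Real.tsum_le_of_sum_le hg key⟩

lemma log_pow_le (C : ℕ) : ∃ K : ℝ, 0 ≤ K ∧ ∀ v : ℕ, 0 < v →
    (1 + 2 * Real.log v) ^ C ≤ K * (v : ℝ) ^ (1 / 2 : ℝ) := by
  set ε : ℝ := 1 / (2 * (C + 1)) with hε
  have hε0 : 0 < ε := by positivity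
  refine ⟨(1 + 2 / ε) ^ C, by positivity, ?_⟩
  intro v hv
  have hv1 : (1 : ℝ) ≤ v := by exact_mod_cast hv
  have hlog : 0 ≤ Real.log v := Real.log_nonneg hv1
  have h1 : Real.log v ≤ (v : ℝ) ^ ε / ε := Real.log_le_rpow_div (by positivity) hε0
  have h2 : 1 ≤ (v : ℝ) ^ ε := Real.one_le_rpow hv1 hε0.le
  have h3 : 1 + 2 * Real.log v ≤ (1 + 2 / ε) * (v : ℝ) ^ ε := by
    have : (1 + 2 / ε) * (v : ℝ) ^ ε = (v : ℝ) ^ ε + 2 * ((v : ℝ) ^ ε / ε) := by ring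
    rw [this]; linarith
  calc (1 + 2 * Real.log v) ^ C ≤ ((1 + 2 / ε) * (v : ℝ) ^ ε) ^ C :=
        pow_le_pow_left₀ (by positivity) h3 C
    _ = (1 + 2 / ε) ^ C * (v : ℝ) ^ (ε * C) := by
        rw [mul_pow, ← Real.rpow_natCast ((v : ℝ) ^ ε) C, ← Real.rpow_mul (by positivity)]
    _ ≤ (1 + 2 / ε) ^ C * (v : ℝ) ^ (1 / 2 : ℝ) := by
        apply mul_le_mul_of_nonneg_left _ (by positivity)
        apply Real.rpow_le_rpow_of_exponent_le hv1
        rw [hε, div_mul_eq_mul_div, one_mul, div_le_div_iff₀ (by positivity) (by norm_num)]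
        nlinarith

/-- the factor in `v` -/
noncomputable def F3 (C : ℕ) (v : ℕ) : ℝ :=
  (1 / (v : ℝ) ^ 2) * ((v.divisors.card : ℝ) ^ C * (1 + 2 * Real.log v) ^ C)

lemma F3_nonneg (C v : ℕ) : 0 ≤ F3 C v := by
  unfold F3
  have : 0 ≤ Real.log v := Real.log_natCast_nonneg v
  positivity

lemma F3_summable (C : ℕ) : Summable (F3 C) := by
  obtain ⟨K, hK0, hK⟩ := log_pow_le C
  obtain ⟨C', hC'⟩ := divisor_sum C
  obtain ⟨hs, _⟩ := hC' (1 / 2) (by norm_num) (by norm_num)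
  refine Summable.of_nonneg_of_le (fun v => F3_nonneg C v) (fun v => ?_) (hs.mul_left K)
  rcases Nat.eq_zero_or_pos v with rfl | hv
  · unfold F3
    simp
    positivity
  · have hv0 : (0 : ℝ) < v := by exact_mod_cast hv
    unfold F3
    calc (1 / (v : ℝ) ^ 2) * ((v.divisors.card : ℝ) ^ C * (1 + 2 * Real.log v) ^ C)
        ≤ (1 / (v : ℝ) ^ 2) * ((v.divisors.card : ℝ) ^ C * (K * (v : ℝ) ^ (1 / 2 : ℝ))) := by
          gcongr
          exact hK v hv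
      _ = K * ((v.divisors.card : ℝ) ^ C * ((v : ℝ) ^ (1 / 2 : ℝ) * (1 / (v : ℝ) ^ 2))) := by ring
      _ = _ := by
          congr 2
          have e1 : (1 / (v : ℝ) ^ 2) = (v : ℝ) ^ (-2 : ℝ) := by
            rw [Real.rpow_neg hv0.le, one_div]
            norm_cast
          rw [e1, ← Real.rpow_add hv0]
          norm_num

lemma MM_nonneg (a η : ℝ) (d : ℕ) : 0 ≤ MM a η d :=
  Real.iSup_nonneg fun t => by positivity

/-- the factor in `q` -/
noncomputable def F2 (C : ℕ) (a δ η Z r : ℝ) (q : ℕ) : ℝ := if Squarefree q then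
          min (r ^ (-(3 + 2 * η)) / q) (r ^ (-(15 + 2 * η)) / Z ^ 6 / q ^ 7) *
            (1 + Real.log q) ^ C * (MM (a - δ) η q) ^ 2 else 0

lemma F2_nonneg (C : ℕ) {a δ η Z r : ℝ} (hr : 0 < r) (hZ : 1 ≤ Z) (q : ℕ) :
    0 ≤ F2 C a δ η Z r q := by
  unfold F2
  split_ifs
  · have : 0 ≤ Real.log q := Real.log_natCast_nonneg q
    have h2 : 0 ≤ min (r ^ (-(3 + 2 * η)) / q) (r ^ (-(15 + 2 * η)) / Z ^ 6 / q ^ 7) :=
      le_min (by positivity) (by positivity)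
    positivity
  · exact le_rfl

lemma F2_summable (C : ℕ) {a δ η Z r : ℝ} (hδ : 0 < δ) (hδa : δ < a) (ha1 : a ≤ 1 / 8)
    (hη : 0 < η) (hη1 : η ≤ 1 / 2) (hr : 0 < r) (hZ : 1 ≤ Z) :
    Summable (F2 C a δ η Z r) := by
  obtain ⟨K, hK0, hK⟩ := log_pow_le C
  obtain ⟨C₁, hC₁⟩ := MM_trivial
  have hs : Summable (fun q : ℕ => 1 / (q : ℝ) ^ 2) := by
    exact Real.summable_one_div_nat_pow.2 (by norm_num)
  have had : 0 < a - δ := by linarith
  refine Summable.of_nonneg_of_le (fun v => F2_nonneg C hr hZ v) (fun q => ?_)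
    (hs.mul_left (r ^ (-(15 + 2 * η)) / Z ^ 6 * K * (C₁ / (a - δ) ^ 2) ^ 2))
  unfold F2
  split_ifs with hq
  · have hq0 : 0 < q := Nat.pos_of_ne_zero hq.ne_zero
    have hq1 : (1 : ℝ) ≤ q := by exact_mod_cast hq0
    have hlog : 0 ≤ Real.log q := Real.log_natCast_nonneg q
    have h1 : (1 + Real.log q) ^ C ≤ K * (q : ℝ) ^ (1 / 2 : ℝ) := by
      refine le_trans (pow_le_pow_left₀ (by positivity) ?_ C) (hK q hq0)
      linarith
    have h1' : (q : ℝ) ^ (1 / 2 : ℝ) ≤ q := by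
      calc (q : ℝ) ^ (1 / 2 : ℝ) ≤ (q : ℝ) ^ (1 : ℝ) :=
            Real.rpow_le_rpow_of_exponent_le hq1 (by norm_num)
        _ = q := Real.rpow_one _
    have h1'' : (1 + Real.log q) ^ C ≤ K * q :=
      h1.trans (mul_le_mul_of_nonneg_left h1' hK0)
    have h2 : MM (a - δ) η q ≤ C₁ * q / (a - δ) ^ 2 :=
      hC₁ q (a - δ) η hq had (by linarith) hη hη1
    have h3 : (MM (a - δ) η q) ^ 2 ≤ (C₁ * q / (a - δ) ^ 2) ^ 2 :=
      pow_le_pow_left₀ (MM_nonneg _ _ _) h2 2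
    calc min (r ^ (-(3 + 2 * η)) / q) (r ^ (-(15 + 2 * η)) / Z ^ 6 / q ^ 7) *
            (1 + Real.log q) ^ C * (MM (a - δ) η q) ^ 2
        ≤ (r ^ (-(15 + 2 * η)) / Z ^ 6 / q ^ 7) * (K * q) * (C₁ * q / (a - δ) ^ 2) ^ 2 := by
          gcongr
          exact min_le_right _ _
      _ = (r ^ (-(15 + 2 * η)) / Z ^ 6 * K * (C₁ / (a - δ) ^ 2) ^ 2) * (1 / (q : ℝ) ^ 4) := by
          field_simp
      _ ≤ _ := by
          apply mul_le_mul_of_nonneg_left _ (by positivity)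
          apply one_div_le_one_div_of_le (by positivity)
          exact pow_le_pow_right₀ hq1 (by norm_num)
  · positivity

lemma min_scale {A B v q : ℝ} (hA : 0 ≤ A) (hB : 0 ≤ B) (hv : 1 ≤ v) (hq : 0 < q) :
    min (A / (q * v ^ 2)) (B / (q * v ^ 2) ^ 7) ≤ (1 / v ^ 2) * min (A / q) (B / q ^ 7) := by
  have hv0 : 0 < v := by linarith
  rw [mul_min_of_nonneg _ _ (by positivity)]
  apply min_le_min
  · apply le_of_eq
    field_simp
  · have h1 : B / (q * v ^ 2) ^ 7 = (1 / v ^ 14) * (B / q ^ 7) := by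
      field_simp
    rw [h1]
    apply mul_le_mul_of_nonneg_right _ (by positivity)
    apply one_div_le_one_div_of_le (by positivity)
    exact pow_le_pow_right₀ hv (by norm_num)

lemma log_scale {q v : ℕ} (hq : 0 < q) (hv : 0 < v) (C : ℕ) :
    (1 + Real.log (q * v ^ 2)) ^ C ≤ (1 + Real.log q) ^ C * (1 + 2 * Real.log v) ^ C := by
  have hq0 : (0 : ℝ) < q := by exact_mod_cast hq
  have hv0 : (0 : ℝ) < v := by exact_mod_cast hv
  have h1 : 0 ≤ Real.log q := Real.log_natCast_nonneg q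
  have h2 : 0 ≤ Real.log v := Real.log_natCast_nonneg v
  rw [← mul_pow, Real.log_mul hq0.ne' (by positivity), Real.log_pow]
  apply pow_le_pow_left₀ (by push_cast; positivity)
  push_cast
  nlinarith [mul_nonneg h1 h2]

lemma pow_const {a b : ℕ} {X K : ℝ} (hab : a + 1 ≤ b) (hX : 1 ≤ X) (hK : K ≤ b) (hK0 : 0 ≤ K) :
    K * (a * X) ^ a ≤ (b * X) ^ b := by
  have hb1 : (1 : ℝ) ≤ b := by
    have : 1 ≤ b := by omega
    exact_mod_cast this
  have hbX : 1 ≤ (b : ℝ) * X := by nlinarith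
  have h1 : ((a : ℝ) * X) ^ a ≤ (b * X) ^ a := by
    apply pow_le_pow_left₀ (by positivity)
    have : (a : ℝ) ≤ b := by exact_mod_cast (by omega : a ≤ b)
    nlinarith
  calc K * (a * X) ^ a ≤ (b * X) * (b * X) ^ a := by
        apply mul_le_mul _ h1 (by positivity) (by positivity)
        nlinarith
    _ = (b * X) ^ (a + 1) := by ring
    _ ≤ (b * X) ^ b := pow_le_pow_right₀ hbX hab

end K2

open K2 in
theorem K_main : ∃ C : ℕ, ∀ (a δ η Z r : ℝ), 0 < δ → δ < a → a ≤ 1 / 8 → 0 < η → η ≤ 1 / 2 →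
    1 ≤ Z → 0 < r → r ≤ 1 →
    Summable (fun D : ℤ => Real.exp (-(Real.pi * D ^ 2 / Z ^ 2)) * ‖S D (ray a r)‖ ^ 2) ∧
    Summable (fun q : ℕ => if Squarefree q then
      min (r ^ (-(3 + 2 * η)) / q) (r ^ (-(15 + 2 * η)) / Z ^ 6 / q ^ 7) *
        (1 + Real.log q) ^ C * (MM (a - δ) η q) ^ 2 else 0) ∧
    ∑' D : ℤ, Real.exp (-(Real.pi * D ^ 2 / Z ^ 2)) * ‖S D (ray a r)‖ ^ 2 ≤
      (C / (δ * η)) ^ C * (Z * r ^ (-(2 + 2 * η)) +
        ∑' q : ℕ, if Squarefree q then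
          min (r ^ (-(3 + 2 * η)) / q) (r ^ (-(15 + 2 * η)) / Z ^ 6 / q ^ 7) *
            (1 + Real.log q) ^ C * (MM (a - δ) η q) ^ 2 else 0) := by
  obtain ⟨C₀, hC₀⟩ := square_sum 1
  obtain ⟨C₁, hC₁⟩ := K_term
  have hV0 : 0 ≤ ∑' v, F3 C₁ v := tsum_nonneg fun v => F3_nonneg _ _
  obtain ⟨N, hN⟩ := exists_nat_ge (2 * ∑' v, F3 C₁ v)
  refine ⟨C₀ + C₁ + 4 + N, ?_⟩
  intro a δ η Z r hδ hδa ha1 hη hη1 hZ hr hr1
  set C : ℕ := C₀ + C₁ + 4 + N with hC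
  have ha : 0 < a := by linarith
  have hre : 0 < (ray a r).re := by
    rw [ray_re]
    have : 0 < Real.sin a := Real.sin_pos_of_pos_of_lt_pi ha (by linarith [Real.pi_gt_three])
    positivity
  obtain ⟨hsum1, hdual⟩ := dual hZ hre
  have hsum2 := F2_summable C (Z := Z) hδ hδa ha1 hη hη1 hr hZ
  refine ⟨hsum1, hsum2, ?_⟩
  change ∑' D : ℤ, gs Z D * ‖S D (ray a r)‖ ^ 2 ≤ (C / (δ * η)) ^ C * (Z * r ^ (-(2 + 2 * η)) +
    ∑' q, F2 C a δ η Z r q)
  -- the dual sum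
  set g : ℤ → ℝ := fun k => ‖∑' p : ℕ × ℕ, HH Z (ray a r) k p‖ with hg
  set X : ℝ := 1 / (δ * η) with hX
  have hδη : 0 < δ * η := by positivity
  have hX1 : 1 ≤ X := by
    rw [hX, le_div_iff₀ hδη]
    nlinarith
  have hCX : ∀ n : ℕ, ((n : ℝ) / (δ * η)) ^ n = (n * X) ^ n := by
    intro n; rw [hX]; ring
  set h : ℕ × ℕ → ℝ := fun x => ((C₁ : ℝ) * X) ^ C₁ * (F2 C₁ a δ η Z r x.1 * F3 C₁ x.2) with hh
  have hF2s := F2_summable C₁ (Z := Z) hδ hδa ha1 hη hη1 hr hZ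
  have hprod : Summable (fun x : ℕ × ℕ => F2 C₁ a δ η Z r x.1 * F3 C₁ x.2) :=
    hF2s.mul_of_nonneg (F3_summable C₁) (fun q => F2_nonneg _ hr hZ q) (fun v => F3_nonneg _ v)
  have hhs : Summable h := hprod.mul_left _
  have hh0 : ∀ x, 0 ≤ h x := fun x => by
    have h1 := F2_nonneg C₁ (a := a) (δ := δ) (η := η) hr hZ x.1
    have h2 := F3_nonneg C₁ x.2
    show 0 ≤ ((C₁ : ℝ) * X) ^ C₁ * (F2 C₁ a δ η Z r x.1 * F3 C₁ x.2)
    positivity
  have H : ∀ (k : ℤ) (q v : ℕ), Squarefree q → 0 < v → k.natAbs = q * v ^ 2 → g k ≤ h (q, v) := by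
    intro k q v hq hv hk
    have hq0 : 0 < q := Nat.pos_of_ne_zero hq.ne_zero
    have hqR : (0 : ℝ) < q := by exact_mod_cast hq0
    have hvR : (1 : ℝ) ≤ v := by exact_mod_cast hv
    have h1 := hC₁ a δ η Z r k q v hδ hδa ha1 hη hη1 (by linarith) hr hq hv hk
    have h2 : g k = Z * ‖∑' n : ℕ × ℕ, gk k n.1 n.2 * ((Real.sqrt (n.1 * n.2 : ℕ) : ℝ) : ℂ)⁻¹ *
        exp (-(Real.pi * k ^ 2 * Z ^ 2 / ((n.1 * n.2 : ℕ) : ℂ) ^ 2)) *
        (exp (-(2 * Real.pi * n.1 * ray a r)) *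
          exp (-(2 * Real.pi * n.2 * (starRingEnd ℂ) (ray a r))))‖ := by
      show ‖∑' p : ℕ × ℕ, HH Z (ray a r) k p‖ = _
      simp_rw [HH_eq]
      rw [tsum_mul_left, norm_mul, Complex.norm_real, Real.norm_of_nonneg (by linarith)]
    rw [h2]
    refine h1.trans ?_
    show _ ≤ ((C₁ : ℝ) * X) ^ C₁ * (F2 C₁ a δ η Z r q * F3 C₁ v)
    rw [hCX]
    unfold F2 F3
    rw [if_pos hq]
    have hm := min_scale (A := r ^ (-(3 + 2 * η))) (B := r ^ (-(15 + 2 * η)) / Z ^ 6)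
      (by positivity) (by positivity) hvR hqR
    have hl := log_scale hq0 hv C₁
    have hlog : 0 ≤ Real.log q := Real.log_natCast_nonneg q
    have hlog2 : 0 ≤ Real.log v := Real.log_natCast_nonneg v
    have hm0 : 0 ≤ min (r ^ (-(3 + 2 * η)) / (q * v ^ 2))
        (r ^ (-(15 + 2 * η)) / Z ^ 6 / (q * v ^ 2) ^ 7) :=
      le_min (by positivity) (by positivity)
    calc (C₁ * X) ^ C₁ * (1 + Real.log (q * v ^ 2)) ^ C₁ * (v.divisors.card : ℝ) ^ C₁ *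
        (MM (a - δ) η q) ^ 2 *
        min (r ^ (-(3 + 2 * η)) / (q * v ^ 2)) (r ^ (-(15 + 2 * η)) / Z ^ 6 / (q * v ^ 2) ^ 7)
        ≤ (C₁ * X) ^ C₁ * ((1 + Real.log q) ^ C₁ * (1 + 2 * Real.log v) ^ C₁) *
          (v.divisors.card : ℝ) ^ C₁ * (MM (a - δ) η q) ^ 2 *
          ((1 / (v : ℝ) ^ 2) * min (r ^ (-(3 + 2 * η)) / q)
            (r ^ (-(15 + 2 * η)) / Z ^ 6 / q ^ 7)) := by
          gcongr
      _ = _ := by ring
  obtain ⟨hgs, hgle⟩ := tsum_int_le (fun k => norm_nonneg _) hhs hh0 H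
  have hLHS : ∑' D : ℤ, gs Z D * ‖S D (ray a r)‖ ^ 2 ≤ ∑' k, g k := by
    have h1 : ‖((∑' D : ℤ, gs Z D * ‖S D (ray a r)‖ ^ 2 : ℝ) : ℂ)‖ ≤ ∑' k, g k := by
      rw [hdual]
      exact norm_tsum_le_tsum_norm hgs
    rw [Complex.norm_real] at h1
    exact (Real.le_norm_self _).trans h1
  refine hLHS.trans (hgle.trans ?_)
  -- zero frequency
  have hg0 : g 0 ≤ Z * (r * a) ^ (-(2 + 2 * η)) * (C₀ / η) ^ C₀ := by
    obtain ⟨hq1, hq2⟩ := hC₀ η hη (by linarith)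
    have hsq : Summable (sq η) := hq1
    have hb := fun p => norm_HH_zero ha ha1 hη hη1 hr hZ p
    have hbs : Summable (fun p => Z * (r * a) ^ (-(2 + 2 * η)) * sq η p) := hsq.mul_left _
    calc g 0 ≤ ∑' p, Z * (r * a) ^ (-(2 + 2 * η)) * sq η p :=
          tsum_of_norm_bounded hbs.hasSum hb
      _ = Z * (r * a) ^ (-(2 + 2 * η)) * ∑' p, sq η p := tsum_mul_left
      _ ≤ _ := mul_le_mul_of_nonneg_left hq2 (by positivity)
  have hcast : ((C : ℕ) : ℝ) = C₀ + C₁ + 4 + N := by rw [hC]; push_cast; ring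
  have hfirst : g 0 ≤ (C / (δ * η)) ^ C * (Z * r ^ (-(2 + 2 * η))) := by
    refine hg0.trans ?_
    rw [Real.mul_rpow hr.le ha.le, hCX]
    have e1 : a ^ (-(2 + 2 * η)) ≤ X ^ 3 := by
      have e2 : a ^ (-(2 + 2 * η)) ≤ a ^ (-3 : ℝ) :=
        Real.rpow_le_rpow_of_exponent_ge ha (by linarith) (by linarith)
      have e3 : a ^ (-3 : ℝ) = (1 / a) ^ 3 := by
        rw [Real.rpow_neg ha.le, one_div, inv_pow]
        norm_cast
      rw [e3] at e2
      refine e2.trans (pow_le_pow_left₀ (by positivity) ?_ 3)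
      apply one_div_le_one_div_of_le hδη
      nlinarith
    have e4 : ((C₀ : ℝ) / η) ^ C₀ ≤ (C₀ * X) ^ C₀ := by
      apply pow_le_pow_left₀ (by positivity)
      rw [hX, mul_one_div]
      apply div_le_div_of_nonneg_left (by positivity) hδη
      nlinarith
    have hCR : (1 : ℝ) ≤ C := by
      rw [hcast]
      have : (0 : ℝ) ≤ C₀ + C₁ + N := by positivity
      linarith
    have e5 : X ^ 3 * (C₀ * X) ^ C₀ ≤ (C * X) ^ C := by
      have hCX1 : X ≤ C * X := by nlinarith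
      have hC0 : (C₀ : ℝ) ≤ C := by
        rw [hcast]
        have : (0 : ℝ) ≤ C₁ + 4 + N := by positivity
        linarith
      calc X ^ 3 * (C₀ * X) ^ C₀ ≤ (C * X) ^ 3 * (C * X) ^ C₀ := by gcongr
        _ = (C * X) ^ (3 + C₀) := by ring
        _ ≤ (C * X) ^ C := pow_le_pow_right₀ (by nlinarith) (by omega)
    calc Z * (r ^ (-(2 + 2 * η)) * a ^ (-(2 + 2 * η))) * (C₀ / η) ^ C₀
        ≤ Z * (r ^ (-(2 + 2 * η)) * X ^ 3) * (C₀ * X) ^ C₀ := by gcongr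
      _ = (X ^ 3 * (C₀ * X) ^ C₀) * (Z * r ^ (-(2 + 2 * η))) := by ring
      _ ≤ _ := mul_le_mul_of_nonneg_right e5 (by positivity)
  have hF2le : ∀ q, F2 C₁ a δ η Z r q ≤ F2 C a δ η Z r q := by
    intro q
    unfold F2
    split_ifs with hq
    · have hlog : 0 ≤ Real.log q := Real.log_natCast_nonneg q
      have h2 : 0 ≤ min (r ^ (-(3 + 2 * η)) / q) (r ^ (-(15 + 2 * η)) / Z ^ 6 / q ^ 7) :=
        le_min (by positivity) (by positivity)
      have h3 : (1 + Real.log q) ^ C₁ ≤ (1 + Real.log q) ^ C :=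
        pow_le_pow_right₀ (by linarith) (by omega)
      gcongr
    · exact le_rfl
  have hsecond : 2 * ∑' x, h x ≤ (C / (δ * η)) ^ C * ∑' q, F2 C a δ η Z r q := by
    have e1 : ∑' x, h x = (C₁ * X) ^ C₁ * ((∑' q, F2 C₁ a δ η Z r q) * ∑' v, F3 C₁ v) := by
      show ∑' x : ℕ × ℕ, ((C₁ : ℝ) * X) ^ C₁ * (F2 C₁ a δ η Z r x.1 * F3 C₁ x.2) = _
      rw [tsum_mul_left, hF2s.tsum_mul_tsum (F3_summable C₁) hprod]
    have e2 : ∑' q, F2 C₁ a δ η Z r q ≤ ∑' q, F2 C a δ η Z r q :=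
      hF2s.tsum_le_tsum hF2le hsum2
    have e3 : (2 * ∑' v, F3 C₁ v) * (C₁ * X) ^ C₁ ≤ (C * X) ^ C := by
      apply pow_const (by omega) hX1 _ (by positivity)
      rw [hcast]
      have : (0 : ℝ) ≤ C₀ + C₁ + 4 := by positivity
      linarith
    have e4 : 0 ≤ ∑' q, F2 C₁ a δ η Z r q := tsum_nonneg fun q => F2_nonneg _ hr hZ q
    rw [e1, hCX]
    calc 2 * ((C₁ * X) ^ C₁ * ((∑' q, F2 C₁ a δ η Z r q) * ∑' v, F3 C₁ v))
        = ((2 * ∑' v, F3 C₁ v) * (C₁ * X) ^ C₁) * ∑' q, F2 C₁ a δ η Z r q := by ring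
      _ ≤ (C * X) ^ C * ∑' q, F2 C a δ η Z r q := mul_le_mul e3 e2 e4 (by positivity)
  rw [mul_add]
  linarith

end Pool.Agent.ZD
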