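import Mathlib
import Pool.Agent.ZD.Defs
import Pool.Agent.H6.MeanSqC

/-!
Module R, part 1: the prime trick `I(d) ≤ 4 I(d p²)`.
-/

set_option autoImplicit false

open Complex Finset MeasureTheory Set Filter Topology

namespace Pool.Agent.ZD.R

open Pool.Agent.H5 (c bd bd_zero bd_one bd_mul bd_prime)
open Pool.Agent.H6 (Good bd_bad bR Fs)

/-- the square factor -/
noncomputable def sqf (d : ℤ) (p : ℕ) : ℤ := open Classical in if (p : ℤ) ∣ d then 0 else (p : ℤ)

lemma abs_sqf_le (d : ℤ) (p : ℕ) : |(sqf d p : ℝ)| ≤ p := by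
  unfold sqf
  split_ifs
  · simp
  · simp

lemma jac_psq {p m : ℕ} (hp : p.Prime) (hm : ¬ p ∣ m) : jacobiSym ((p : ℤ) ^ 2) m = 1 := by
  have : (p : ℤ).gcd m = 1 := by
    rw [Int.gcd_natCast_natCast]
    exact (Nat.Prime.coprime_iff_not_dvd hp).mpr hm
  rw [pow_two]
  have h := jacobiSym.sq_one (a := (p : ℤ)) (b := m) this
  rw [jacobiSym.mul_left, ← pow_two]
  exact h

lemma jac_psq_dvd (d : ℤ) {p m : ℕ} (hp : p.Prime) (hm0 : m ≠ 0) (hm : p ∣ m) :
    jacobiSym (d * (p : ℤ) ^ 2) m = 0 := by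
  have : NeZero m := ⟨hm0⟩
  rw [jacobiSym.eq_zero_iff_not_coprime]
  intro h
  have h1 : (p : ℤ) ∣ d * (p : ℤ) ^ 2 := Dvd.dvd.mul_left (dvd_pow_self _ two_ne_zero) _
  have h2 : (p : ℤ) ∣ (m : ℤ) := by exact_mod_cast hm
  have h3 := Int.dvd_coe_gcd h1 h2
  rw [h] at h3
  have h4 : (p : ℤ) ≤ 1 := Int.le_of_dvd one_pos (by exact_mod_cast h3)
  have := hp.two_le
  omega

lemma bd_rec2 (d : ℤ) {p : ℕ} (hp : p.Prime) (h2 : p ≠ 2) (e : ℕ) :
    bd d (p ^ (e + 2)) = bd d p * bd d (p ^ (e + 1)) - sqf d p * bd d (p ^ e) := by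
  have hf := Fact.mk hp
  by_cases hg : (p : ℤ) ∣ d
  · have hb : ¬ Good d p := fun h => h.2 hg
    rw [bd_bad d hp hb (by omega), bd_bad d hp hb (by omega)]
    have : bd d p = 0 := by
      have := bd_bad d hp hb (e := 1) one_ne_zero
      rwa [pow_one] at this
    simp [this, sqf, hg]
  · obtain ⟨h1, hrec⟩ := bd_prime d p h2 hg
    rw [hrec e, ← h1]
    simp [sqf, hg]

lemma bd_psq (d : ℤ) {p : ℕ} (hp : p.Prime) (h2 : p ≠ 2) (n : ℕ) :
    bd (d * (p : ℤ) ^ 2) n = bd d n - bd d p * (if p ∣ n then bd d (n / p) else 0) +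
      sqf d p * (if p ^ 2 ∣ n then bd d (n / p ^ 2) else 0) := by
  rcases Nat.eq_zero_or_pos n with rfl | hn
  · simp [bd_zero]
  obtain ⟨j, m, hm, rfl⟩ := Nat.exists_eq_pow_mul_and_not_dvd hn.ne' p hp.ne_one
  have hcop : ∀ k, (p ^ k).Coprime m := fun k =>
    Nat.Coprime.pow_left k ((Nat.Prime.coprime_iff_not_dvd hp).mpr hm)
  have hm0 : m ≠ 0 := by rintro rfl; simp at hm
  rcases j with _ | _ | j
  · have h1 : ¬ p ∣ p ^ 0 * m := by simpa using hm
    have h3 : ¬ p ^ 2 ∣ p ^ 0 * m := by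
      intro h
      exact h1 ((dvd_pow_self p two_ne_zero).trans h)
    rw [if_neg h1, if_neg h3, pow_zero, one_mul]
    unfold bd
    rw [jacobiSym.mul_left, jac_psq hp hm]
    ring
  · have h1 : p ∣ p ^ (0 + 1) * m := by simp
    have h3 : ¬ p ^ 2 ∣ p ^ (0 + 1) * m := by
      rw [zero_add, pow_one, pow_two]
      intro h
      exact hm (Nat.dvd_of_mul_dvd_mul_left hp.pos h)
    rw [if_pos h1, if_neg h3]
    have h4 : p ^ (0 + 1) * m / p = m := by
      rw [zero_add, pow_one]; exact Nat.mul_div_cancel_left m hp.pos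
    rw [h4]
    have h5 : bd (d * (p : ℤ) ^ 2) (p ^ (0 + 1) * m) = 0 := by
      unfold bd
      rw [jac_psq_dvd d hp (mul_ne_zero (pow_ne_zero _ hp.ne_zero) hm0) h1, zero_mul]
    rw [h5, bd_mul d (hcop _), zero_add, pow_one]
    ring
  · have h1 : p ∣ p ^ (j + 1 + 1) * m := Dvd.dvd.mul_right (dvd_pow_self p (by omega)) _
    have h3 : p ^ 2 ∣ p ^ (j + 1 + 1) * m := Dvd.dvd.mul_right (pow_dvd_pow p (by omega)) _
    rw [if_pos h1, if_pos h3]
    have h4 : p ^ (j + 1 + 1) * m / p = p ^ (j + 1) * m := by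
      rw [pow_succ p (j + 1)]
      rw [show p ^ (j + 1) * p * m = p * (p ^ (j + 1) * m) by ring]
      exact Nat.mul_div_cancel_left _ hp.pos
    have h6 : p ^ (j + 1 + 1) * m / p ^ 2 = p ^ j * m := by
      rw [show p ^ (j + 1 + 1) * m = p ^ 2 * (p ^ j * m) by ring]
      exact Nat.mul_div_cancel_left _ (pow_pos hp.pos 2)
    rw [h4, h6]
    have h5 : bd (d * (p : ℤ) ^ 2) (p ^ (j + 1 + 1) * m) = 0 := by
      unfold bd
      rw [jac_psq_dvd d hp (mul_ne_zero (pow_ne_zero _ hp.ne_zero) hm0) h1, zero_mul]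
    rw [h5, bd_mul d (hcop _), bd_mul d (hcop _), bd_mul d (hcop _)]
    have := bd_rec2 d hp h2 j
    rw [show j + 1 + 1 = j + 2 by ring, this]
    ring

/-! ### The series -/

lemma S_eq_Fs (D : ℤ) (z : ℂ) : S D z = Fs (bR D) (2 * Real.pi * z) := by
  unfold S Fs bR
  congr 1
  funext n
  rw [show (-(2 * Real.pi * n * z) : ℂ) = -(n * (2 * Real.pi * z)) by ring]
  push_cast
  rfl

lemma lin_bR (D : ℤ) : ∃ C : ℝ, 0 ≤ C ∧ ∀ n : ℕ, |bR D n| ≤ C * n := by
  obtain ⟨C, hC, h, _⟩ := Pool.Agent.H6.linear_bR D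
  exact ⟨C, hC, h⟩

lemma re_two_pi_mul {z : ℂ} (hz : 0 < z.re) : 0 < (2 * Real.pi * z : ℂ).re := by
  have : (2 * Real.pi * z : ℂ) = ((2 * Real.pi : ℝ) : ℂ) * z := by push_cast; ring
  rw [this, Complex.re_ofReal_mul]
  positivity

lemma summable_S (D : ℤ) {z : ℂ} (hz : 0 < z.re) :
    Summable (fun n : ℕ => (bd D n : ℂ) * exp (-(2 * Real.pi * n * z))) := by
  obtain ⟨C, hC, h⟩ := lin_bR D
  have := (Pool.Agent.H6.Fs_summable hC h (re_two_pi_mul hz)).of_norm
  refine this.congr (fun n => ?_)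
  unfold bR
  rw [show (-(2 * Real.pi * n * z) : ℂ) = -(n * (2 * Real.pi * z)) by ring]
  push_cast
  rfl

lemma S_psq (d : ℤ) {p : ℕ} (hp : p.Prime) (h2 : p ≠ 2) {z : ℂ} (hz : 0 < z.re) :
    S (d * (p : ℤ) ^ 2) z = S d z - (bd d p : ℂ) * S d (p * z) + (sqf d p : ℂ) * S d (p ^ 2 * z) := by
  have hp0 : (0:ℝ) < p := by exact_mod_cast hp.pos
  have hz1 : 0 < ((p : ℂ) * z).re := by
    have : (p : ℂ) * z = ((p : ℝ) : ℂ) * z := by push_cast; ring
    rw [this, Complex.re_ofReal_mul]; positivity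
  have hz2 : 0 < ((p : ℂ) ^ 2 * z).re := by
    have : (p : ℂ) ^ 2 * z = ((p ^ 2 : ℝ) : ℂ) * z := by push_cast; ring
    rw [this, Complex.re_ofReal_mul]; positivity
  -- multiples
  have hmul : ∀ m : ℕ, 1 ≤ m → 0 < ((m : ℂ) * z).re →
      HasSum (fun n : ℕ => ((if m ∣ n then bd d (n / m) else 0 : ℤ) : ℂ) *
        exp (-(2 * Real.pi * n * z))) (S d (m * z)) := by
    intro m hm hmz
    have hinj : Function.Injective (fun k : ℕ => m * k) := fun a b h =>
      Nat.eq_of_mul_eq_mul_left hm h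
    have hs := (summable_S d hmz).hasSum
    rw [← hinj.hasSum_iff]
    · have e : ((fun n : ℕ => ((if m ∣ n then bd d (n / m) else 0 : ℤ) : ℂ) *
          exp (-(2 * Real.pi * n * z))) ∘ fun k => m * k) =
          fun n : ℕ => (bd d n : ℂ) * exp (-(2 * Real.pi * n * (m * z))) := by
        funext k
        simp only [Function.comp]
        rw [if_pos (Dvd.intro k rfl), Nat.mul_div_cancel_left k hm]
        congr 2
        push_cast; ring
      rw [e]
      exact hs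
    · intro n hn
      have : ¬ m ∣ n := by
        rintro ⟨k, hk⟩
        exact hn ⟨k, hk.symm⟩
      simp [this]
  have h0 := (summable_S d hz).hasSum
  have h1 := hmul p hp.one_lt.le hz1
  have h3 := hmul (p ^ 2) (Nat.one_le_pow _ _ hp.pos) (by push_cast; exact hz2)
  have h4 := (h0.sub (h1.mul_left (bd d p : ℂ))).add (h3.mul_left (sqf d p : ℂ))
  have h5 := (summable_S (d * (p : ℤ) ^ 2) hz).hasSum
  have e2 : (fun n : ℕ => (bd (d * (p : ℤ) ^ 2) n : ℂ) * exp (-(2 * Real.pi * n * z))) =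
      fun n : ℕ => (bd d n : ℂ) * exp (-(2 * Real.pi * n * z)) -
        (bd d p : ℂ) * (((if p ∣ n then bd d (n / p) else 0 : ℤ) : ℂ) *
          exp (-(2 * Real.pi * n * z))) +
        (sqf d p : ℂ) * (((if p ^ 2 ∣ n then bd d (n / p ^ 2) else 0 : ℤ) : ℂ) *
          exp (-(2 * Real.pi * n * z))) := by
    funext n
    rw [bd_psq d hp h2 n]
    push_cast
    ring
  rw [e2] at h5
  have := h5.unique h4
  unfold S at this ⊢
  rw [e2] 
  rw [this]
  push_cast
  rfl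

/-! ### The ray integrals -/

lemma ray_re (a r : ℝ) : (ray a r).re = r * Real.sin a := by
  unfold ray
  rw [Complex.re_ofReal_mul]
  congr 1
  rw [Complex.exp_ofReal_mul_I_re, Real.cos_pi_div_two_sub]

lemma ray_mul (a r x : ℝ) : (x : ℂ) * ray a r = ray a (x * r) := by
  unfold ray; push_cast; ring

lemma ray_re_pos {a r : ℝ} (ha : 0 < a) (ha1 : a ≤ 1 / 8) (hr : 0 < r) : 0 < (ray a r).re := by
  rw [ray_re]
  have := Real.sin_pos_of_pos_of_lt_pi ha (by linarith [Real.pi_gt_three])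
  positivity

lemma S_continuousOn (D : ℤ) : ContinuousOn (S D) {z | 0 < z.re} := by
  obtain ⟨C, hC, h⟩ := lin_bR D
  have h1 := Pool.Agent.H6.Fs_continuousOn hC h
  have h2 : ContinuousOn (fun z : ℂ => Fs (bR D) (2 * Real.pi * z)) {z | 0 < z.re} := by
    apply h1.comp (by fun_prop)
    intro z hz
    exact re_two_pi_mul hz
  exact h2.congr (fun z _ => S_eq_Fs D z)

lemma ray_continuous (a : ℝ) : Continuous (ray a) := by
  unfold ray; fun_prop

lemma S_ray_continuousOn (D : ℤ) {a : ℝ} (ha : 0 < a) (ha1 : a ≤ 1 / 8) :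
    ContinuousOn (fun r : ℝ => S D (ray a r)) (Ioi 0) := by
  apply (S_continuousOn D).comp (ray_continuous a).continuousOn
  intro r hr
  exact ray_re_pos ha ha1 hr

lemma rpow_continuousOn (η : ℝ) : ContinuousOn (fun r : ℝ => r ^ η) (Ioi 0) := by
  intro r hr
  have hr0 : (0:ℝ) < r := hr
  exact (Real.continuousAt_rpow_const r η (Or.inl hr0.ne')).continuousWithinAt

end Pool.Agent.ZD.R
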