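import Mathlib
import Pool.Agent.ZD.R1
import Pool.Agent.ZD.F

/-!
Module R, part 2: integrals along the ray.
-/

set_option autoImplicit false

open Complex Finset MeasureTheory Set Filter Topology

namespace Pool.Agent.ZD.R

open Pool.Agent.H5 (c bd bd_zero bd_one bd_mul bd_prime)
open Pool.Agent.H6 (integrableOn_kernel bd_pow_bound)

/-- the integral along the ray -/
noncomputable def I0 (D : ℤ) (a η ρ : ℝ) : ℝ := ∫ r in Ioi ρ, ‖S D (ray a r)‖ * r ^ η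

lemma sin_pos {a : ℝ} (ha : 0 < a) (ha1 : a ≤ 1 / 8) : 0 < Real.sin a :=
  Real.sin_pos_of_pos_of_lt_pi ha (by linarith [Real.pi_gt_three])

lemma integrable_ray (D : ℤ) {a η ρ : ℝ} (ha : 0 < a) (ha1 : a ≤ 1 / 8) (hη : 0 ≤ η) (hρ : 0 < ρ) :
    IntegrableOn (fun r : ℝ => ‖S D (ray a r)‖ * r ^ η) (Ioi ρ) := by
  obtain ⟨C, hC⟩ := norm_S_le
  have hs := sin_pos ha ha1
  have hC0 : 0 ≤ C := by
    have h1 := (norm_nonneg _).trans (hC 0 1 (by simp))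
    have h2 : (0:ℝ) < 1 / (1:ℂ).re ^ 2 * Real.exp (-(1:ℂ).re) := by simp; positivity
    rw [mul_assoc] at h1
    exact nonneg_of_mul_nonneg_left h1 h2
  have hint := (integrableOn_kernel (κ := η) (by linarith) hs).mono_set (Ioi_subset_Ioi hρ.le)
  refine (hint.const_mul (C * (1 / (ρ * Real.sin a) ^ 2))).mono' ?_ ?_
  · apply ContinuousOn.aestronglyMeasurable _ measurableSet_Ioi
    exact ((S_ray_continuousOn D ha ha1).norm.mul (rpow_continuousOn η)).mono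
      (Ioi_subset_Ioi hρ.le)
  · filter_upwards [ae_restrict_mem measurableSet_Ioi] with r hr
    have hr1 : ρ < r := hr
    have hr0 : 0 < r := hρ.trans hr1
    rw [Real.norm_of_nonneg (by positivity)]
    have h := hC D (ray a r) (ray_re_pos ha ha1 hr0)
    rw [ray_re] at h
    have h3 : (1 / (r * Real.sin a) ^ 2) ≤ 1 / (ρ * Real.sin a) ^ 2 := by gcongr
    calc ‖S D (ray a r)‖ * r ^ η ≤
        (C * (1 / (r * Real.sin a) ^ 2) * Real.exp (-(r * Real.sin a))) * r ^ η := by gcongr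
      _ ≤ (C * (1 / (ρ * Real.sin a) ^ 2) * Real.exp (-(r * Real.sin a))) * r ^ η := by gcongr
      _ = _ := by ring_nf

lemma I0_nonneg (D : ℤ) (a η : ℝ) {ρ : ℝ} (hρ : 0 < ρ) : 0 ≤ I0 D a η ρ := by
  unfold I0
  apply setIntegral_nonneg measurableSet_Ioi
  intro r hr
  have hr0 : 0 < r := hρ.trans hr
  positivity

lemma I0_scale (D : ℤ) {a η ρ x : ℝ} (ha : 0 < a) (ha1 : a ≤ 1 / 8) (hη : 0 ≤ η) (hρ : 0 < ρ)
    (hx : 1 ≤ x) :
    IntegrableOn (fun r : ℝ => ‖S D ((x : ℂ) * ray a r)‖ * r ^ η) (Ioi ρ) ∧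
    ∫ r in Ioi ρ, ‖S D ((x : ℂ) * ray a r)‖ * r ^ η ≤ x⁻¹ * I0 D a η ρ := by
  have hx0 : 0 < x := by linarith
  have hxρ : ρ ≤ x * ρ := by nlinarith
  set g : ℝ → ℝ := fun r => ‖S D (ray a r)‖ * r ^ η with hg
  have e1 : ∀ r ∈ Ioi ρ, ‖S D ((x : ℂ) * ray a r)‖ * r ^ η = (x ^ η)⁻¹ * g (x * r) := by
    intro r hr
    have hr0 : 0 < r := hρ.trans hr
    rw [hg]
    simp only
    rw [ray_mul, Real.mul_rpow hx0.le hr0.le]
    have : x ^ η ≠ 0 := (Real.rpow_pos_of_pos hx0 η).ne'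
    field_simp
  have hint := integrable_ray D ha ha1 hη hρ
  have hint2 : IntegrableOn g (Ioi (x * ρ)) := hint.mono_set (Ioi_subset_Ioi hxρ)
  have hint3 : IntegrableOn (fun r => g (x * r)) (Ioi ρ) := by
    rw [integrableOn_Ioi_comp_mul_left_iff _ _ hx0]
    exact hint2
  constructor
  · exact (integrableOn_congr_fun e1 measurableSet_Ioi).mpr (hint3.const_mul _)
  · rw [setIntegral_congr_fun measurableSet_Ioi e1, integral_const_mul,
      integral_comp_mul_left_Ioi g ρ hx0, smul_eq_mul]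
    have h1 : ∫ r in Ioi (x * ρ), g r ≤ I0 D a η ρ := by
      unfold I0
      apply setIntegral_mono_set hint
      · filter_upwards [ae_restrict_mem measurableSet_Ioi] with r hr
        have hr0 : 0 < r := hρ.trans hr
        show 0 ≤ ‖S D (ray a r)‖ * r ^ η
        positivity
      · exact (Ioi_subset_Ioi hxρ).eventuallyLE
    have h2 : (x ^ η)⁻¹ ≤ 1 := inv_le_one_of_one_le₀ (Real.one_le_rpow hx hη)
    have h3 : 0 ≤ ∫ r in Ioi (x * ρ), g r := by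
      apply setIntegral_nonneg measurableSet_Ioi
      intro r hr
      have hr0 : 0 < r := (by positivity : 0 < x * ρ).trans hr
      show 0 ≤ ‖S D (ray a r)‖ * r ^ η
      positivity
    calc (x ^ η)⁻¹ * (x⁻¹ * ∫ r in Ioi (x * ρ), g r) ≤ 1 * (x⁻¹ * ∫ r in Ioi (x * ρ), g r) := by
          gcongr
      _ ≤ _ := by rw [one_mul]; gcongr

/-- the prime trick -/
lemma I0_le (d : ℤ) {a η ρ : ℝ} (ha : 0 < a) (ha1 : a ≤ 1 / 8) (hη : 0 ≤ η) (hρ : 0 < ρ)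
    {p : ℕ} (hp : p.Prime) (h11 : 11 ≤ p) : I0 d a η ρ ≤ 4 * I0 (d * (p : ℤ) ^ 2) a η ρ := by
  have hp11 : (11:ℝ) ≤ p := by exact_mod_cast h11
  have hp0 : (0:ℝ) < p := by linarith
  have hs1 := I0_scale d ha ha1 hη hρ (x := p) (by linarith)
  have hs2 := I0_scale d ha ha1 hη hρ (x := p ^ 2) (by nlinarith)
  have hi0 := integrable_ray d ha ha1 hη hρ
  have hi' := integrable_ray (d * (p : ℤ) ^ 2) ha ha1 hη hρ
  have hb : |(bd d p : ℝ)| ≤ 2 * √(p : ℝ) := by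
    have := bd_pow_bound d hp 1
    simp only [pow_one] at this
    convert this using 2
    norm_num
  have hq := abs_sqf_le d p
  have hpt : ∀ r ∈ Ioi ρ, ‖S d (ray a r)‖ * r ^ η ≤
      ‖S (d * (p : ℤ) ^ 2) (ray a r)‖ * r ^ η +
      (2 * √(p : ℝ)) * (‖S d (((p : ℝ) : ℂ) * ray a r)‖ * r ^ η) +
      (p : ℝ) * (‖S d (((p ^ 2 : ℝ) : ℂ) * ray a r)‖ * r ^ η) := by
    intro r hr
    have hr0 : 0 < r := hρ.trans hr
    have h := S_psq d hp (by omega) (ray_re_pos ha ha1 hr0)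
    have h2 : S d (ray a r) = S (d * (p : ℤ) ^ 2) (ray a r) + (bd d p : ℂ) * S d (p * ray a r) -
        (sqf d p : ℂ) * S d (p ^ 2 * ray a r) := by rw [h]; ring
    have h3 : ‖S d (ray a r)‖ ≤ ‖S (d * (p : ℤ) ^ 2) (ray a r)‖ +
        (2 * √(p : ℝ)) * ‖S d (((p : ℝ) : ℂ) * ray a r)‖ +
        (p : ℝ) * ‖S d (((p ^ 2 : ℝ) : ℂ) * ray a r)‖ := by
      rw [h2]
      refine (norm_sub_le _ _).trans (add_le_add ((norm_add_le _ _).trans
        (add_le_add le_rfl ?_)) ?_)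
      · rw [norm_mul, Complex.norm_intCast]
        push_cast
        gcongr
      · rw [norm_mul, Complex.norm_intCast]
        push_cast
        gcongr
    calc ‖S d (ray a r)‖ * r ^ η ≤ (‖S (d * (p : ℤ) ^ 2) (ray a r)‖ +
        (2 * √(p : ℝ)) * ‖S d (((p : ℝ) : ℂ) * ray a r)‖ +
        (p : ℝ) * ‖S d (((p ^ 2 : ℝ) : ℂ) * ray a r)‖) * r ^ η := by gcongr
      _ = _ := by ring
  have hle : I0 d a η ρ ≤ I0 (d * (p : ℤ) ^ 2) a η ρ + (2 * √(p : ℝ)) * ((p : ℝ)⁻¹ * I0 d a η ρ) +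
      (p : ℝ) * (((p : ℝ) ^ 2)⁻¹ * I0 d a η ρ) := by
    have h4 := setIntegral_mono_on hi0 ((hi'.add (hs1.1.const_mul (2 * √(p : ℝ)))).add
      (hs2.1.const_mul (p : ℝ))) measurableSet_Ioi hpt
    have e : ∫ r in Ioi ρ, (‖S (d * (p : ℤ) ^ 2) (ray a r)‖ * r ^ η +
      (2 * √(p : ℝ)) * (‖S d (((p : ℝ) : ℂ) * ray a r)‖ * r ^ η) +
      (p : ℝ) * (‖S d (((p ^ 2 : ℝ) : ℂ) * ray a r)‖ * r ^ η)) =
      I0 (d * (p : ℤ) ^ 2) a η ρ +
      (2 * √(p : ℝ)) * (∫ r in Ioi ρ, ‖S d (((p : ℝ) : ℂ) * ray a r)‖ * r ^ η) +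
      (p : ℝ) * ∫ r in Ioi ρ, ‖S d (((p ^ 2 : ℝ) : ℂ) * ray a r)‖ * r ^ η := by
      have g1 : Integrable (fun r : ℝ => ‖S (d * (p : ℤ) ^ 2) (ray a r)‖ * r ^ η +
          (2 * √(p : ℝ)) * (‖S d (((p : ℝ) : ℂ) * ray a r)‖ * r ^ η)) (volume.restrict (Ioi ρ)) :=
        hi'.add (hs1.1.const_mul (2 * √(p : ℝ)))
      rw [integral_add g1 (hs2.1.const_mul (p : ℝ)),
        integral_add hi' (hs1.1.const_mul (2 * √(p : ℝ))), integral_const_mul, integral_const_mul]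
      rfl
    have h5 : I0 d a η ρ ≤ _ := h4
    refine h5.trans (e.le.trans ?_)
    have h6 := hs1.2
    have h7 := hs2.2
    gcongr
  have hI := I0_nonneg d a η hρ
  have hsq : √(p : ℝ) * √(p : ℝ) = p := Real.mul_self_sqrt hp0.le
  have hsp : 3.3 ≤ √(p : ℝ) := by
    apply Real.le_sqrt_of_sq_le; linarith
  have e3 : (2 * √(p : ℝ)) * ((p : ℝ)⁻¹ * I0 d a η ρ) = (2 / √(p : ℝ)) * I0 d a η ρ := by
    have hsp0 : √(p : ℝ) ≠ 0 := by positivity
    rw [show (p : ℝ)⁻¹ = (√(p : ℝ))⁻¹ * (√(p : ℝ))⁻¹ by rw [← mul_inv, hsq]]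
    field_simp
  have e4 : (p : ℝ) * (((p : ℝ) ^ 2)⁻¹ * I0 d a η ρ) = (1 / p) * I0 d a η ρ := by
    field_simp
  rw [e3, e4] at hle
  have h8 : 2 / √(p : ℝ) ≤ 0.61 := by
    rw [div_le_iff₀ (by positivity)]; linarith
  have h9 : 1 / (p : ℝ) ≤ 0.1 := by
    rw [div_le_iff₀ (by positivity)]; linarith
  have h10 := mul_le_mul_of_nonneg_right h8 hI
  have h12 := mul_le_mul_of_nonneg_right h9 hI
  linarith

end Pool.Agent.ZD.R
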