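import Mathlib
import Pool.Agent.ZD.R2

/-!
Module R, part 3: splitting the ray integral, Cauchy-Schwarz.
-/

set_option autoImplicit false

open Complex Finset MeasureTheory Set Filter Topology

namespace Pool.Agent.ZD.R

open Pool.Agent.H5 (c bd bd_zero bd_one bd_mul bd_prime)

lemma cs_integral {μ : Measure ℝ} {f g : ℝ → ℝ} (hf : Integrable (fun x => f x ^ 2) μ)
    (hg : Integrable (fun x => g x ^ 2) μ) (hfg : Integrable (fun x => f x * g x) μ) :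
    (∫ x, f x * g x ∂μ) ^ 2 ≤ (∫ x, f x ^ 2 ∂μ) * ∫ x, g x ^ 2 ∂μ := by
  have h : ∀ t : ℝ, 0 ≤ (∫ x, g x ^ 2 ∂μ) * (t * t) + (-2 * ∫ x, f x * g x ∂μ) * t +
      ∫ x, f x ^ 2 ∂μ := by
    intro t
    have h1 : 0 ≤ ∫ x, (f x - t * g x) ^ 2 ∂μ := integral_nonneg (fun x => sq_nonneg _)
    have e : (fun x => (f x - t * g x) ^ 2) =
        fun x => f x ^ 2 + ((-2 * t) * (f x * g x) + (t ^ 2) * g x ^ 2) := by
      funext x; ring
    have g1 : Integrable (fun x => (-2 * t) * (f x * g x) + (t ^ 2) * g x ^ 2) μ :=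
      (hfg.const_mul _).add (hg.const_mul _)
    rw [e, integral_add hf g1, integral_add (hfg.const_mul _) (hg.const_mul _),
      integral_const_mul, integral_const_mul] at h1
    linarith
  have h2 := discrim_le_zero h
  unfold discrim at h2
  nlinarith

lemma sin_ge {a : ℝ} (ha : 0 < a) (ha1 : a ≤ 1 / 8) : a / 2 ≤ Real.sin a := by
  have h := Real.sin_gt_sub_cube ha
  have h2 : a ^ 2 ≤ 1 / 64 := by nlinarith
  have h3 : a ^ 3 = a * a ^ 2 := by ring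
  nlinarith

/-- the tail `r > 1` -/
lemma tail_le : ∃ C : ℝ, 0 ≤ C ∧ ∀ (D : ℤ) (a η : ℝ), 0 < a → a ≤ 1 / 8 → 0 ≤ η → η ≤ 1 / 2 →
    I0 D a η 1 ≤ C / a ^ 2 := by
  obtain ⟨C, hC⟩ := norm_S_le
  have hC0 : 0 ≤ C := by
    have h1 := (norm_nonneg _).trans (hC 0 1 (by simp))
    have h2 : (0:ℝ) < 1 / (1:ℂ).re ^ 2 * Real.exp (-(1:ℂ).re) := by simp; positivity
    rw [mul_assoc] at h1
    exact nonneg_of_mul_nonneg_left h1 h2
  refine ⟨8 * C, by positivity, ?_⟩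
  intro D a η ha ha1 hη hη1
  have hs := sin_pos ha ha1
  have hs2 := sin_ge ha ha1
  have hint := integrable_ray D ha ha1 hη one_pos
  have hg : IntegrableOn (fun r : ℝ => (C * (4 / a ^ 2)) * r ^ (-(3/2) : ℝ)) (Ioi 1) :=
    (integrableOn_Ioi_rpow_of_lt (by norm_num) one_pos).const_mul _
  unfold I0
  have h1 := setIntegral_mono_on hint hg measurableSet_Ioi (fun r hr => by
    have hr1 : 1 < r := hr
    have hr0 : 0 < r := by linarith
    have h := hC D (ray a r) (ray_re_pos ha ha1 hr0)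
    rw [ray_re] at h
    have h3 : (1 / (r * Real.sin a) ^ 2) ≤ 4 / a ^ 2 * r ^ (-2 : ℝ) := by
      have : r ^ (-2 : ℝ) = 1 / r ^ 2 := by
        rw [Real.rpow_neg hr0.le, one_div]; norm_num
      rw [this]
      have h4 : (r * (a / 2)) ^ 2 ≤ (r * Real.sin a) ^ 2 := by gcongr
      calc 1 / (r * Real.sin a) ^ 2 ≤ 1 / (r * (a / 2)) ^ 2 := by gcongr
        _ = _ := by field_simp; ring
    have h5 : Real.exp (-(r * Real.sin a)) ≤ 1 := by
      rw [Real.exp_le_one_iff]; nlinarith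
    have h6 : r ^ η ≤ r ^ (1 / 2 : ℝ) := Real.rpow_le_rpow_of_exponent_le hr1.le hη1
    calc ‖S D (ray a r)‖ * r ^ η ≤
        (C * (1 / (r * Real.sin a) ^ 2) * Real.exp (-(r * Real.sin a))) * r ^ η := by gcongr
      _ ≤ (C * (4 / a ^ 2 * r ^ (-2 : ℝ)) * 1) * r ^ (1 / 2 : ℝ) := by gcongr
      _ = C * (4 / a ^ 2) * (r ^ (-2 : ℝ) * r ^ (1 / 2 : ℝ)) := by ring
      _ = C * (4 / a ^ 2) * r ^ (-(3/2) : ℝ) := by
          rw [← Real.rpow_add hr0]; norm_num)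
  refine h1.trans (le_of_eq ?_)
  rw [integral_const_mul, integral_Ioi_rpow_of_lt (by norm_num) one_pos]
  rw [Real.one_rpow]
  field_simp
  ring

/-- the second moment on `(ρ,1]` -/
noncomputable def J0 (D : ℤ) (a η ρ : ℝ) : ℝ :=
  ∫ r in Ioc ρ 1, ‖S D (ray a r)‖ ^ 2 * r ^ (1 + 2 * η)

lemma integrable_Ioc {f : ℝ → ℝ} (hf : ContinuousOn f (Ioi 0)) {ρ : ℝ} (hρ : 0 < ρ) :
    IntegrableOn f (Ioc ρ 1) := by
  have h1 : ContinuousOn f (Icc ρ 1) := hf.mono (fun r hr => hρ.trans_le hr.1)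
  exact (h1.integrableOn_Icc).mono_set Ioc_subset_Icc_self

lemma J0_cont (D : ℤ) {a : ℝ} (η : ℝ) (ha : 0 < a) (ha1 : a ≤ 1 / 8) :
    ContinuousOn (fun r : ℝ => ‖S D (ray a r)‖ ^ 2 * r ^ (1 + 2 * η)) (Ioi 0) :=
  ((S_ray_continuousOn D ha ha1).norm.pow 2).mul (rpow_continuousOn _)

lemma I0_sq_le (D : ℤ) {a η ρ : ℝ} (ha : 0 < a) (ha1 : a ≤ 1 / 8) (hη : 0 ≤ η)
    (hρ : 0 < ρ) (hρ1 : ρ ≤ 1) :
    (I0 D a η ρ) ^ 2 ≤ 2 * (I0 D a η 1) ^ 2 + 2 * (Real.log (1 / ρ) * J0 D a η ρ) := by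
  have hint := integrable_ray D ha ha1 hη hρ
  have hcont : ContinuousOn (fun r : ℝ => ‖S D (ray a r)‖ * r ^ η) (Ioi 0) :=
    (S_ray_continuousOn D ha ha1).norm.mul (rpow_continuousOn _)
  have hsplit : I0 D a η ρ = (∫ r in Ioc ρ 1, ‖S D (ray a r)‖ * r ^ η) + I0 D a η 1 := by
    unfold I0
    rw [← setIntegral_union (Ioc_disjoint_Ioi le_rfl) measurableSet_Ioi
      (hint.mono_set Ioc_subset_Ioi_self) (hint.mono_set (Ioi_subset_Ioi hρ1)),
      Ioc_union_Ioi_eq_Ioi hρ1]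
  have hcs : (∫ r in Ioc ρ 1, ‖S D (ray a r)‖ * r ^ η) ^ 2 ≤ J0 D a η ρ * Real.log (1 / ρ) := by
    set f : ℝ → ℝ := fun r => ‖S D (ray a r)‖ * r ^ (1 / 2 + η) with hf
    set g : ℝ → ℝ := fun r => r ^ (-(1 / 2) : ℝ) with hg
    have hfc : ContinuousOn f (Ioi 0) :=
      (S_ray_continuousOn D ha ha1).norm.mul (rpow_continuousOn _)
    have hgc : ContinuousOn g (Ioi 0) := rpow_continuousOn _
    have h1 := cs_integral (μ := volume.restrict (Ioc ρ 1)) (f := f) (g := g)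
      (integrable_Ioc (hfc.pow 2) hρ) (integrable_Ioc (hgc.pow 2) hρ)
      (integrable_Ioc (hfc.mul hgc) hρ)
    have e1 : ∫ r in Ioc ρ 1, f r * g r = ∫ r in Ioc ρ 1, ‖S D (ray a r)‖ * r ^ η := by
      apply setIntegral_congr_fun measurableSet_Ioc
      intro r hr
      have hr0 : 0 < r := hρ.trans hr.1
      simp only [hf, hg]
      rw [mul_assoc, ← Real.rpow_add hr0]
      congr 2; ring
    have e2 : ∫ r in Ioc ρ 1, f r ^ 2 = J0 D a η ρ := by
      unfold J0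
      apply setIntegral_congr_fun measurableSet_Ioc
      intro r hr
      have hr0 : 0 < r := hρ.trans hr.1
      simp only [hf]
      rw [mul_pow, ← Real.rpow_natCast (r ^ (1 / 2 + η)), ← Real.rpow_mul hr0.le]
      congr 2; push_cast; ring
    have e3 : ∫ r in Ioc ρ 1, g r ^ 2 = Real.log (1 / ρ) := by
      have e4 : ∫ r in Ioc ρ 1, g r ^ 2 = ∫ r in Ioc ρ 1, r⁻¹ := by
        apply setIntegral_congr_fun measurableSet_Ioc
        intro r hr
        have hr0 : 0 < r := hρ.trans hr.1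
        simp only [hg]
        rw [← Real.rpow_natCast (r ^ (-(1 / 2) : ℝ)), ← Real.rpow_mul hr0.le,
          ← Real.rpow_neg_one]
        congr 1; push_cast; ring
      rw [e4, ← intervalIntegral.integral_of_le hρ1, integral_inv_of_pos hρ one_pos]
    rw [e1, e2, e3] at h1
    exact h1
  rw [hsplit]
  nlinarith [sq_nonneg ((∫ r in Ioc ρ 1, ‖S D (ray a r)‖ * r ^ η) - I0 D a η 1)]

end Pool.Agent.ZD.R
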