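import Mathlib
import Pool.Agent.ZD.R3
import Pool.Agent.ZD.K2

/-!
Module R, part 4: one step of the recursion.
-/

set_option autoImplicit false

open Complex Finset MeasureTheory Set Filter Topology

namespace Pool.Agent.ZD.R


open Pool.Agent.H5 (c bd bd_zero bd_one bd_mul bd_prime)

/-- the index set of pairs `(d,p)` -/
def Idx (X P : ℕ) : Finset (ℕ × ℕ) :=
  ((Finset.Icc 1 X).filter Squarefree) ×ˢ ((Finset.Icc 11 P).filter Nat.Prime)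

lemma idx_inj (X P : ℕ) : Set.InjOn (fun x : ℕ × ℕ => ((x.1 : ℤ) * (x.2 : ℤ) ^ 2)) (Idx X P) := by
  intro x hx y hy h
  simp only [Idx, Finset.coe_product, Finset.coe_filter, Finset.mem_Icc, Set.mem_prod,
    Set.mem_ofPred_eq] at hx hy
  obtain ⟨⟨_, hxs⟩, ⟨_, hxp⟩⟩ := hx
  obtain ⟨⟨_, hys⟩, ⟨_, hyp⟩⟩ := hy
  have h' : (x.1 : ℤ) * (x.2 : ℤ) ^ 2 = (y.1 : ℤ) * (y.2 : ℤ) ^ 2 := h
  have h1 : x.1 * x.2 ^ 2 = y.1 * y.2 ^ 2 := by exact_mod_cast h'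
  have h2 : x.2 = y.2 := by
    by_contra hne
    have h3 : x.2 ^ 2 ∣ y.1 * y.2 ^ 2 := by rw [← h1]; exact Dvd.intro_left _ rfl
    have h4 : (x.2 ^ 2).Coprime (y.2 ^ 2) :=
      Nat.Coprime.pow 2 2 ((Nat.coprime_primes hxp hyp).mpr hne)
    have h5 : x.2 ^ 2 ∣ y.1 := h4.dvd_of_dvd_mul_right h3
    have h6 := hys x.2 (by rw [← pow_two]; exact h5)
    exact hxp.one_lt.ne' (Nat.isUnit_iff.mp h6)
  have h7 : x.1 = y.1 := by
    rw [h2] at h1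
    exact Nat.eq_of_mul_eq_mul_right (pow_pos hyp.pos 2) h1
  exact Prod.ext h7 h2

/-- the dual weights -/
noncomputable def Wq (C : ℕ) (b η ρ Z : ℝ) (q : ℕ) : ℝ :=
  if Squarefree q then min (ρ⁻¹ / q) (ρ⁻¹ ^ 13 / Z ^ 6 / q ^ 7) *
    (1 + Real.log q) ^ C * (MM b η q) ^ 2 else 0

lemma one_add_log_nonneg (q : ℕ) : 0 ≤ 1 + Real.log q := by
  have : 0 ≤ Real.log q := Real.log_natCast_nonneg q
  linarith

lemma Wq_nonneg (C : ℕ) {b η ρ Z : ℝ} (hρ : 0 < ρ) (hZ : 0 < Z) (q : ℕ) : 0 ≤ Wq C b η ρ Z q := by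
  unfold Wq
  split_ifs
  · have := one_add_log_nonneg q
    have h2 : 0 ≤ min (ρ⁻¹ / q) (ρ⁻¹ ^ 13 / Z ^ 6 / (q : ℝ) ^ 7) := by
      apply le_min <;> positivity
    positivity
  · exact le_rfl

lemma weight_le {ρ r η Z : ℝ} (hρ : 0 < ρ) (hr : ρ ≤ r) (hZ : 0 < Z) (q : ℕ) :
    r * (min (r ^ (-(3 + 2 * η)) / q) (r ^ (-(15 + 2 * η)) / Z ^ 6 / q ^ 7) * r ^ (1 + 2 * η)) ≤
      min (ρ⁻¹ / q) (ρ⁻¹ ^ 13 / Z ^ 6 / q ^ 7) := by
  have hr0 : 0 < r := hρ.trans_le hr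
  have hinv : r⁻¹ ≤ ρ⁻¹ := by gcongr
  have e1 : r ^ (-(3 + 2 * η)) * r ^ (1 + 2 * η) * r = r⁻¹ := by
    rw [← Real.rpow_add hr0, ← Real.rpow_add_one hr0.ne', ← Real.rpow_neg_one]
    congr 1; ring
  have e2 : r ^ (-(15 + 2 * η)) * r ^ (1 + 2 * η) * r = r⁻¹ ^ 13 := by
    rw [← Real.rpow_add hr0, ← Real.rpow_add_one hr0.ne', inv_pow, ← Real.rpow_natCast,
      ← Real.rpow_neg hr0.le]
    congr 1; push_cast; ring
  have hp : 0 ≤ r ^ (1 + 2 * η) := by positivity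
  apply le_min
  · calc r * (min (r ^ (-(3 + 2 * η)) / q) (r ^ (-(15 + 2 * η)) / Z ^ 6 / q ^ 7) * r ^ (1 + 2 * η))
        ≤ r * ((r ^ (-(3 + 2 * η)) / q) * r ^ (1 + 2 * η)) := by
          gcongr; exact min_le_left _ _
      _ = (r ^ (-(3 + 2 * η)) * r ^ (1 + 2 * η) * r) / q := by ring
      _ ≤ _ := by rw [e1]; gcongr
  · calc r * (min (r ^ (-(3 + 2 * η)) / q) (r ^ (-(15 + 2 * η)) / Z ^ 6 / q ^ 7) * r ^ (1 + 2 * η))
        ≤ r * ((r ^ (-(15 + 2 * η)) / Z ^ 6 / q ^ 7) * r ^ (1 + 2 * η)) := by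
          gcongr; exact min_le_right _ _
      _ = (r ^ (-(15 + 2 * η)) * r ^ (1 + 2 * η) * r) / Z ^ 6 / q ^ 7 := by ring
      _ ≤ _ := by rw [e2]; gcongr

/-- the sum of the second moments -/
lemma sum_J0_le : ∃ C : ℕ, ∀ (a δ η ρ : ℝ) (X P : ℕ), 0 < δ → δ < a → a ≤ 1 / 8 → 0 < η →
    η ≤ 1 / 2 → 1 ≤ X → 1 ≤ P → 0 < ρ → ρ ≤ 1 →
    Summable (Wq C (a - δ) η ρ (X * P ^ 2)) ∧
    ∑ x ∈ Idx X P, J0 ((x.1 : ℤ) * (x.2 : ℤ) ^ 2) a η ρ ≤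
      Real.exp Real.pi * (C / (δ * η)) ^ C * (X * P ^ 2 + ∑' q, Wq C (a - δ) η ρ (X * P ^ 2) q) *
        Real.log (1 / ρ) := by
  obtain ⟨C, hC⟩ := K_main
  refine ⟨C, ?_⟩
  intro a δ η ρ X P hδ hδa ha1 hη hη1 hX hP hρ hρ1
  have ha : 0 < a := hδ.trans hδa
  have hX1 : (1:ℝ) ≤ X := by exact_mod_cast hX
  have hP1 : (1:ℝ) ≤ P := by exact_mod_cast hP
  set Z : ℝ := X * P ^ 2 with hZ
  have hZ1 : 1 ≤ Z := by
    rw [hZ]
    have : (1:ℝ) ≤ (P:ℝ) ^ 2 := one_le_pow₀ hP1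
    nlinarith
  have hZ0 : 0 < Z := by linarith
  -- summability
  have hsum : Summable (Wq C (a - δ) η ρ Z) := by
    have h1 := (hC a δ η Z ρ hδ hδa ha1 hη hη1 hZ1 hρ hρ1).2.1
    refine Summable.of_nonneg_of_le (fun q => Wq_nonneg C hρ hZ0 q) (fun q => ?_) h1
    unfold Wq
    split_ifs
    · have h2 := one_add_log_nonneg q
      have h3 : ρ⁻¹ ≤ ρ ^ (-(3 + 2 * η)) := by
        rw [← Real.rpow_neg_one]
        exact Real.rpow_le_rpow_of_exponent_ge hρ hρ1 (by linarith)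
      have h4 : ρ⁻¹ ^ 13 ≤ ρ ^ (-(15 + 2 * η)) := by
        rw [inv_pow, ← Real.rpow_natCast, ← Real.rpow_neg hρ.le]
        exact Real.rpow_le_rpow_of_exponent_ge hρ hρ1 (by push_cast; linarith)
      gcongr
    · exact le_rfl
  refine ⟨hsum, ?_⟩
  set W : ℝ := ∑' q, Wq C (a - δ) η ρ Z q with hW
  set K : ℝ := (C / (δ * η)) ^ C with hK
  have hK0 : 0 ≤ K := by positivity
  -- the pointwise bound
  have hpt : ∀ r ∈ Ioc ρ 1, ∑ x ∈ Idx X P,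
      ‖S ((x.1 : ℤ) * (x.2 : ℤ) ^ 2) (ray a r)‖ ^ 2 * r ^ (1 + 2 * η) ≤
      (Real.exp Real.pi * K * (Z + W)) * r⁻¹ := by
    intro r hr
    have hr0 : 0 < r := hρ.trans hr.1
    obtain ⟨hs1, hs2, hle⟩ := hC a δ η Z r hδ hδa ha1 hη hη1 hZ1 hr0 hr.2
    have h1 : ∑ x ∈ Idx X P, ‖S ((x.1 : ℤ) * (x.2 : ℤ) ^ 2) (ray a r)‖ ^ 2 ≤
        Real.exp Real.pi * ∑' D : ℤ, Real.exp (-(Real.pi * D ^ 2 / Z ^ 2)) * ‖S D (ray a r)‖ ^ 2 := by
      rw [← tsum_mul_left]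
      have h2 := (hs1.mul_left (Real.exp Real.pi)).sum_le_tsum
        ((Idx X P).image (fun x : ℕ × ℕ => ((x.1 : ℤ) * (x.2 : ℤ) ^ 2)))
        (fun D _ => by positivity)
      rw [Finset.sum_image (idx_inj X P)] at h2
      refine le_trans (Finset.sum_le_sum (fun x hx => ?_)) h2
      simp only [Idx, Finset.mem_product, Finset.mem_filter, Finset.mem_Icc] at hx
      have h3 : ((((x.1 : ℤ) * (x.2 : ℤ) ^ 2 : ℤ) : ℝ)) ^ 2 ≤ Z ^ 2 := by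
        push_cast
        rw [hZ]
        have h4 : (x.1 : ℝ) ≤ X := by exact_mod_cast hx.1.1.2
        have h5 : (x.2 : ℝ) ≤ P := by exact_mod_cast hx.2.1.2
        gcongr
      have h6 : 1 ≤ Real.exp Real.pi *
          Real.exp (-(Real.pi * (((x.1 : ℤ) * (x.2 : ℤ) ^ 2 : ℤ) : ℝ) ^ 2 / Z ^ 2)) := by
        rw [← Real.exp_add]
        apply Real.one_le_exp
        have h7 : (((x.1 : ℤ) * (x.2 : ℤ) ^ 2 : ℤ) : ℝ) ^ 2 / Z ^ 2 ≤ 1 := by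
          rw [div_le_one (by positivity)]; exact h3
        have h8 : Real.pi * (((x.1 : ℤ) * (x.2 : ℤ) ^ 2 : ℤ) : ℝ) ^ 2 / Z ^ 2 ≤ Real.pi := by
          rw [mul_div_assoc]
          nlinarith [Real.pi_pos]
        linarith
      calc ‖S ((x.1 : ℤ) * (x.2 : ℤ) ^ 2) (ray a r)‖ ^ 2 =
          1 * ‖S ((x.1 : ℤ) * (x.2 : ℤ) ^ 2) (ray a r)‖ ^ 2 := (one_mul _).symm
        _ ≤ (Real.exp Real.pi *
          Real.exp (-(Real.pi * (((x.1 : ℤ) * (x.2 : ℤ) ^ 2 : ℤ) : ℝ) ^ 2 / Z ^ 2))) *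
            ‖S ((x.1 : ℤ) * (x.2 : ℤ) ^ 2) (ray a r)‖ ^ 2 := by gcongr
        _ = _ := by ring
    -- the dual sum
    have h9 : r * ((∑' q : ℕ, if Squarefree q then
          min (r ^ (-(3 + 2 * η)) / q) (r ^ (-(15 + 2 * η)) / Z ^ 6 / q ^ 7) *
            (1 + Real.log q) ^ C * (MM (a - δ) η q) ^ 2 else 0) * r ^ (1 + 2 * η)) ≤ W := by
      rw [← tsum_mul_right, ← tsum_mul_left, hW]
      refine ((hs2.mul_right _).mul_left _).tsum_le_tsum (fun q => ?_) hsum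
      unfold Wq
      split_ifs
      · have h2 := one_add_log_nonneg q
        have h10 := weight_le (η := η) hρ hr.1.le hZ0 q
        calc r * (min (r ^ (-(3 + 2 * η)) / q) (r ^ (-(15 + 2 * η)) / Z ^ 6 / q ^ 7) *
            (1 + Real.log q) ^ C * (MM (a - δ) η q) ^ 2 * r ^ (1 + 2 * η)) =
            (r * (min (r ^ (-(3 + 2 * η)) / q) (r ^ (-(15 + 2 * η)) / Z ^ 6 / q ^ 7) *
              r ^ (1 + 2 * η))) * (1 + Real.log q) ^ C * (MM (a - δ) η q) ^ 2 := by ring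
          _ ≤ _ := by gcongr
      · simp
    have h11 : r * ((Z * r ^ (-(2 + 2 * η))) * r ^ (1 + 2 * η)) = Z := by
      have e1 : r ^ (-(2 + 2 * η)) * r ^ (1 + 2 * η) * r = 1 := by
        rw [← Real.rpow_add hr0, ← Real.rpow_add_one hr0.ne']
        rw [show -(2 + 2 * η) + (1 + 2 * η) + 1 = 0 by ring, Real.rpow_zero]
      calc r * ((Z * r ^ (-(2 + 2 * η))) * r ^ (1 + 2 * η)) =
          Z * (r ^ (-(2 + 2 * η)) * r ^ (1 + 2 * η) * r) := by ring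
        _ = Z := by rw [e1, mul_one]
    rw [← Finset.sum_mul]
    have h12 : 0 ≤ r ^ (1 + 2 * η) := by positivity
    have h13 : r * ((∑ x ∈ Idx X P, ‖S ((x.1 : ℤ) * (x.2 : ℤ) ^ 2) (ray a r)‖ ^ 2) *
        r ^ (1 + 2 * η)) ≤ Real.exp Real.pi * K * (Z + W) := by
      calc r * ((∑ x ∈ Idx X P, ‖S ((x.1 : ℤ) * (x.2 : ℤ) ^ 2) (ray a r)‖ ^ 2) *
          r ^ (1 + 2 * η)) ≤ r * ((Real.exp Real.pi * (K * (Z * r ^ (-(2 + 2 * η)) +
            ∑' q : ℕ, if Squarefree q then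
            min (r ^ (-(3 + 2 * η)) / q) (r ^ (-(15 + 2 * η)) / Z ^ 6 / q ^ 7) *
            (1 + Real.log q) ^ C * (MM (a - δ) η q) ^ 2 else 0))) * r ^ (1 + 2 * η)) := by
            gcongr
            exact h1.trans (by gcongr)
        _ = Real.exp Real.pi * K * (r * ((Z * r ^ (-(2 + 2 * η))) * r ^ (1 + 2 * η)) +
            r * ((∑' q : ℕ, if Squarefree q then
            min (r ^ (-(3 + 2 * η)) / q) (r ^ (-(15 + 2 * η)) / Z ^ 6 / q ^ 7) *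
            (1 + Real.log q) ^ C * (MM (a - δ) η q) ^ 2 else 0) * r ^ (1 + 2 * η))) := by ring
        _ ≤ _ := by rw [h11]; gcongr
    rw [← div_eq_mul_inv, le_div_iff₀ hr0, mul_comm]
    exact h13
  -- integrate
  have hint : ∀ x ∈ Idx X P, IntegrableOn (fun r : ℝ =>
      ‖S ((x.1 : ℤ) * (x.2 : ℤ) ^ 2) (ray a r)‖ ^ 2 * r ^ (1 + 2 * η)) (Ioc ρ 1) :=
    fun x _ => integrable_Ioc (J0_cont _ η ha ha1) hρ
  unfold J0
  rw [← integral_finsetSum _ hint]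
  have hinv : ContinuousOn (fun r : ℝ => r⁻¹) (Ioi 0) := by
    apply ContinuousOn.inv₀ continuousOn_id
    intro r hr
    exact (show (0:ℝ) < r from hr).ne'
  have h14 := setIntegral_mono_on (integrable_finsetSum _ hint)
    ((integrable_Ioc hinv hρ).const_mul (Real.exp Real.pi * K * (Z + W))) measurableSet_Ioc hpt
  refine h14.trans (le_of_eq ?_)
  rw [integral_const_mul, ← intervalIntegral.integral_of_le hρ1, integral_inv_of_pos hρ one_pos]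

end Pool.Agent.ZD.R
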