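import Mathlib
import Pool.Agent.ZD.R4

/-!
Module R, part 5: the inequality `#primes * ∑_{d ≤ X} MM² ≤ polylog (X P² + dual)`.
-/

set_option autoImplicit false

open Complex Finset MeasureTheory Set Filter Topology

namespace Pool.Agent.ZD.R

open Pool.Agent.H5 (c bd bd_zero bd_one bd_mul bd_prime)

/-- the second moment of the sup norms -/
noncomputable def FF (η a : ℝ) (X : ℕ) : ℝ :=
  ∑ d ∈ (Finset.Icc 1 X).filter Squarefree, (MM a η d) ^ 2

/-- the simplified dual weights -/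
noncomputable def Vq (C : ℕ) (b η : ℝ) (X : ℕ) (q : ℕ) : ℝ :=
  if Squarefree q then min (6 * ((X : ℝ) / q)) (6 ^ 13 * ((X : ℝ) / q) ^ 7) *
    (1 + Real.log q) ^ C * (MM b η q) ^ 2 else 0

lemma Vq_nonneg (C : ℕ) (b η : ℝ) (X q : ℕ) : 0 ≤ Vq C b η X q := by
  unfold Vq
  split_ifs
  · have := one_add_log_nonneg q
    have h2 : 0 ≤ min (6 * ((X : ℝ) / q)) (6 ^ 13 * ((X : ℝ) / q) ^ 7) := by
      apply le_min <;> positivity
    positivity
  · exact le_rfl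

lemma MM_nonneg (a η : ℝ) (d : ℕ) : 0 ≤ MM a η d := by
  unfold MM
  apply Real.iSup_nonneg
  intro t; positivity

lemma MM_le_I0 {d X : ℕ} (hd : Squarefree d) (hdX : d ≤ X) {a η : ℝ} (ha : 0 < a) (ha1 : a ≤ 1 / 8)
    (hη : 0 < η) (hη1 : η ≤ 1 / 2) : MM a η d ≤ 40 * I0 d a η (1 / (6 * X)) := by
  have hd0 : 0 < d := Nat.pos_of_ne_zero hd.ne_zero
  have hd1 : (0:ℝ) < d := by exact_mod_cast hd0
  have hX1 : (d:ℝ) ≤ X := by exact_mod_cast hdX
  have hX0 : (0:ℝ) < X := lt_of_lt_of_le hd1 hX1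
  obtain ⟨hint, hle⟩ := MM_le_integral hd ha ha1 hη hη1
  refine hle.trans ?_
  have h : ∫ r in Set.Ioi (1 / (6 * (d : ℝ))), ‖S d (ray a r)‖ * r ^ η ≤ I0 d a η (1 / (6 * X)) := by
    unfold I0
    apply setIntegral_mono_set (integrable_ray (d : ℤ) ha ha1 hη.le (by positivity))
    · filter_upwards [ae_restrict_mem measurableSet_Ioi] with r hr
      have hr0 : 0 < r := lt_trans (by positivity) (show 1 / (6 * (X:ℝ)) < r from hr)
      show 0 ≤ ‖S d (ray a r)‖ * r ^ η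
      positivity
    · apply (Set.Ioi_subset_Ioi _).eventuallyLE
      gcongr
  linarith

theorem R_step : ∃ C : ℕ, 1 ≤ C ∧ ∀ (a δ η : ℝ) (X P : ℕ), 0 < δ → δ < a → a ≤ 1 / 8 → 0 < η →
    η ≤ 1 / 2 → 1 ≤ X → 1 ≤ P →
    Summable (Vq C (a - δ) η X) ∧
    (((Finset.Icc 11 P).filter Nat.Prime).card : ℝ) * FF η a X ≤
      (C / (δ * η)) ^ C * (1 + Real.log X) ^ 2 * (X * P ^ 2 + ∑' q, Vq C (a - δ) η X q) := by
  obtain ⟨C₁, hC₁⟩ := sum_J0_le
  obtain ⟨C₃, hC₃0, hC₃⟩ := tail_le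
  obtain ⟨C₄, hC₄⟩ := MM_trivial
  set M0 : ℝ := 25600 * (2 * C₃ ^ 2 + 200 * (C₁ : ℝ) ^ C₁) with hM0
  have hM0n : 0 ≤ M0 := by positivity
  refine ⟨⌈M0⌉₊ + C₁ + 4, by omega, ?_⟩
  intro a δ η X P hδ hδa ha1 hη hη1 hX hP
  set C := ⌈M0⌉₊ + C₁ + 4 with hCdef
  have ha : 0 < a := hδ.trans hδa
  have hX1 : (1:ℝ) ≤ X := by exact_mod_cast hX
  have hP1 : (1:ℝ) ≤ P := by exact_mod_cast hP
  have hX0 : (0:ℝ) < X := by linarith
  set ρ : ℝ := 1 / (6 * X) with hρdef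
  have hρ : 0 < ρ := by positivity
  have hρ1 : ρ ≤ 1 := by
    rw [hρdef, div_le_one (by positivity)]; linarith
  have hρi : ρ⁻¹ = 6 * X := by rw [hρdef]; simp
  obtain ⟨hsW, hJ⟩ := hC₁ a δ η ρ X P hδ hδa ha1 hη hη1 hX hP hρ hρ1
  -- summability of V: comparison with a convergent series via MM_trivial
  have hsV : Summable (Vq C (a - δ) η X) := by
    have hb : 0 < a - δ := by linarith
    have hb1 : a - δ ≤ 1 / 8 := by linarith
    have hbase : Summable (fun q : ℕ => (6 ^ 13 * (X : ℝ) ^ 7 * (C₄ / (a - δ) ^ 2) ^ 2 *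
        ((C : ℝ) + 1) ^ C) * (1 / (q : ℝ) ^ 2)) :=
      (Real.summable_one_div_nat_pow.mpr (by norm_num)).mul_left _
    have hbase2 : Summable (fun q : ℕ => (6 ^ 13 * (X : ℝ) ^ 7 * (C₄ / (a - δ) ^ 2) ^ 2) *
        ((1 + Real.log q) ^ C / (q : ℝ) ^ 5)) := by
      apply Summable.mul_left
      have h1 : Summable (fun q : ℕ => (2 : ℝ) ^ C * ((1 : ℝ) / (q : ℝ) ^ 5 * 1) +
          (2 : ℝ) ^ C * ((Real.log q) ^ C / (q : ℝ) ^ 5)) := by
        apply Summable.add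
        · apply Summable.mul_left
          simp
        · apply Summable.mul_left
          have hlo : (fun q : ℕ => (Real.log q) ^ C / (q : ℝ) ^ 5) =O[atTop]
              (fun q : ℕ => 1 / (q : ℝ) ^ 4) := by
            have h2 : (fun x : ℝ => Real.log x ^ C) =o[atTop] (fun x : ℝ => x) := by
              have := isLittleO_log_rpow_rpow_atTop (C : ℝ) (by norm_num : (0:ℝ) < 1)
              simpa using this
            have h3 := (h2.comp_tendsto tendsto_natCast_atTop_atTop).isBigO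
            have h4 : (fun q : ℕ => (Real.log q) ^ C / (q : ℝ) ^ 5) =O[atTop]
                (fun q : ℕ => (q : ℝ) * (1 / (q : ℝ) ^ 5)) := by
              have := h3.mul (Asymptotics.isBigO_refl (fun q : ℕ => 1 / (q : ℝ) ^ 5) atTop)
              refine this.congr_left (fun q => ?_)
              simp [Function.comp, div_eq_mul_inv]
            refine h4.congr_right (fun q => ?_)
            rcases Nat.eq_zero_or_pos q with rfl | hq
            · simp
            · have : (q : ℝ) ≠ 0 := by positivity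
              field_simp
          exact summable_of_isBigO_nat (Real.summable_one_div_nat_pow.mpr (by norm_num)) hlo
      refine Summable.of_nonneg_of_le (fun q => ?_) (fun q => ?_) h1
      · have := one_add_log_nonneg q
        positivity
      · have h2 : 0 ≤ Real.log q := Real.log_natCast_nonneg q
        have h3 : (1 + Real.log q) ^ C ≤ 2 ^ C * (1 + (Real.log q) ^ C) := by
          have h4 : (1 + Real.log q) ≤ 2 * max 1 (Real.log q) := by
            have := le_max_left 1 (Real.log q)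
            have := le_max_right 1 (Real.log q)
            linarith
          calc (1 + Real.log q) ^ C ≤ (2 * max 1 (Real.log q)) ^ C := by gcongr
            _ = 2 ^ C * (max 1 (Real.log q)) ^ C := by rw [mul_pow]
            _ ≤ 2 ^ C * (1 + (Real.log q) ^ C) := by
                gcongr
                rcases le_total 1 (Real.log q) with h | h
                · rw [max_eq_right h]; linarith
                · rw [max_eq_left h, one_pow]
                  have : 0 ≤ (Real.log q) ^ C := by positivity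
                  linarith
        calc (1 + Real.log q) ^ C / (q : ℝ) ^ 5 ≤ (2 ^ C * (1 + (Real.log q) ^ C)) / (q : ℝ) ^ 5 := by
              gcongr
          _ = _ := by ring
    refine Summable.of_nonneg_of_le (fun q => Vq_nonneg _ _ _ _ q) (fun q => ?_) hbase2
    unfold Vq
    split_ifs with hq
    · have hq0 : 0 < q := Nat.pos_of_ne_zero hq.ne_zero
      have hq1 : (0:ℝ) < q := by exact_mod_cast hq0
      have h2 := one_add_log_nonneg q
      have h3 := hC₄ q (a - δ) η hq hb hb1 hη hη1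
      have h4 := MM_nonneg (a - δ) η q
      calc min (6 * ((X : ℝ) / q)) (6 ^ 13 * ((X : ℝ) / q) ^ 7) * (1 + Real.log q) ^ C *
          (MM (a - δ) η q) ^ 2 ≤ (6 ^ 13 * ((X : ℝ) / q) ^ 7) * (1 + Real.log q) ^ C *
          (C₄ * q / (a - δ) ^ 2) ^ 2 := by
            gcongr
            exact min_le_right _ _
        _ = _ := by field_simp
    · have := one_add_log_nonneg q
      positivity
  refine ⟨hsV, ?_⟩
  -- W ≤ V
  have hWV : ∑' q, Wq C₁ (a - δ) η ρ (X * P ^ 2) q ≤ ∑' q, Vq C (a - δ) η X q := by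
    refine hsW.tsum_le_tsum (fun q => ?_) hsV
    unfold Wq Vq
    split_ifs with hq
    · have hq0 : 0 < q := Nat.pos_of_ne_zero hq.ne_zero
      have hq1 : (0:ℝ) < q := by exact_mod_cast hq0
      have hl : 1 ≤ 1 + Real.log q := by
        have := Real.log_natCast_nonneg q; linarith
      have h5 : (1 + Real.log q) ^ C₁ ≤ (1 + Real.log q) ^ C :=
        pow_le_pow_right₀ hl (by omega)
      have h6 : min (ρ⁻¹ / q) (ρ⁻¹ ^ 13 / ((X : ℝ) * P ^ 2) ^ 6 / q ^ 7) ≤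
          min (6 * ((X : ℝ) / q)) (6 ^ 13 * ((X : ℝ) / q) ^ 7) := by
        rw [hρi]
        apply min_le_min
        · apply le_of_eq; ring
        · have h7 : (X : ℝ) ^ 6 ≤ ((X : ℝ) * P ^ 2) ^ 6 := by
            have : (1:ℝ) ≤ (P:ℝ) ^ 2 := one_le_pow₀ hP1
            gcongr
            nlinarith
          calc (6 * (X : ℝ)) ^ 13 / ((X : ℝ) * P ^ 2) ^ 6 / q ^ 7 ≤
              (6 * (X : ℝ)) ^ 13 / (X : ℝ) ^ 6 / q ^ 7 := by gcongr
            _ = _ := by field_simp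
      have h8 : 0 ≤ min (ρ⁻¹ / q) (ρ⁻¹ ^ 13 / ((X : ℝ) * P ^ 2) ^ 6 / (q : ℝ) ^ 7) := by
        apply le_min <;> positivity
      gcongr
    · exact le_rfl
  set V : ℝ := ∑' q, Vq C (a - δ) η X q with hV
  have hV0 : 0 ≤ V := tsum_nonneg (fun q => Vq_nonneg _ _ _ _ q)
  -- log
  have hlog : Real.log (1 / ρ) ≤ 2 * (1 + Real.log X) := by
    rw [one_div, hρi, Real.log_mul (by norm_num) hX0.ne']
    have h6 : Real.log 6 ≤ 2 := by
      have : (6:ℝ) ≤ Real.exp 2 := by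
        have h := Real.add_one_le_exp (1:ℝ)
        have h2 : Real.exp 2 = Real.exp 1 ^ 2 := by rw [← Real.exp_nat_mul]; norm_num
        have h3 := Real.exp_one_gt_d9
        rw [h2]; nlinarith
      rw [Real.log_le_iff_le_exp (by norm_num)]; exact this
    have := Real.log_nonneg hX1
    linarith
  have hlog0 : 0 ≤ Real.log (1 / ρ) := by
    apply Real.log_nonneg
    rw [one_div, hρi]; linarith
  set Lg : ℝ := 1 + Real.log X with hLg
  have hLg1 : 1 ≤ Lg := by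
    have := Real.log_nonneg hX1
    linarith
  -- the sum over pairs
  have hpairs : (((Finset.Icc 11 P).filter Nat.Prime).card : ℝ) * FF η a X =
      ∑ x ∈ Idx X P, (MM a η x.1) ^ 2 := by
    unfold FF Idx
    rw [Finset.sum_product, Finset.mul_sum]
    simp only [Finset.sum_const, nsmul_eq_mul]
  have hterm : ∀ x ∈ Idx X P, (MM a η x.1) ^ 2 ≤
      25600 * (2 * (C₃ / a ^ 2) ^ 2 + 2 * (Real.log (1 / ρ) *
        J0 ((x.1 : ℤ) * (x.2 : ℤ) ^ 2) a η ρ)) := by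
    intro x hx
    simp only [Idx, Finset.mem_product, Finset.mem_filter, Finset.mem_Icc] at hx
    have h1 := MM_le_I0 hx.1.2 hx.1.1.2 ha ha1 hη hη1
    rw [← hρdef] at h1
    have h2 := I0_le (x.1 : ℤ) ha ha1 hη.le hρ hx.2.2 hx.2.1.1
    have h3 := I0_sq_le ((x.1 : ℤ) * (x.2 : ℤ) ^ 2) ha ha1 hη.le hρ hρ1
    have h4 := hC₃ ((x.1 : ℤ) * (x.2 : ℤ) ^ 2) a η ha ha1 hη.le hη1
    have h5 := I0_nonneg ((x.1 : ℤ) * (x.2 : ℤ) ^ 2) a η one_pos
    have h6 := MM_nonneg a η x.1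
    have h7 : MM a η x.1 ≤ 160 * I0 ((x.1 : ℤ) * (x.2 : ℤ) ^ 2) a η ρ := by
      linarith
    have h8 : (I0 ((x.1 : ℤ) * (x.2 : ℤ) ^ 2) a η 1) ^ 2 ≤ (C₃ / a ^ 2) ^ 2 := by gcongr
    calc (MM a η x.1) ^ 2 ≤ (160 * I0 ((x.1 : ℤ) * (x.2 : ℤ) ^ 2) a η ρ) ^ 2 := by gcongr
      _ = 25600 * (I0 ((x.1 : ℤ) * (x.2 : ℤ) ^ 2) a η ρ) ^ 2 := by ring
      _ ≤ _ := by gcongr; linarith
  rw [hpairs]
  refine (Finset.sum_le_sum hterm).trans ?_
  rw [← Finset.mul_sum, Finset.sum_add_distrib, Finset.sum_const, ← Finset.mul_sum,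
    ← Finset.mul_sum]
  have hcard : ((Idx X P).card : ℝ) ≤ X * P := by
    have : (Idx X P).card ≤ X * P := by
      unfold Idx
      rw [Finset.card_product]
      apply Nat.mul_le_mul
      · refine (Finset.card_filter_le _ _).trans ?_
        simp
      · refine (Finset.card_filter_le _ _).trans ?_
        simp
    exact_mod_cast this
  set y : ℝ := 1 / (δ * η) with hy
  have hδ1 : δ ≤ 1 / 8 := by linarith
  have hδη : δ * η ≤ 1 / 16 := by nlinarith
  have hy1 : 1 ≤ y := by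
    rw [hy, le_div_iff₀ (by positivity)]; linarith
  have hCy : ∀ n : ℕ, (n / (δ * η)) ^ n = (n : ℝ) ^ n * y ^ n := by
    intro n; rw [hy, ← mul_pow]; ring
  have hinvδ : 1 / δ ≤ y := by
    rw [hy]
    apply one_div_le_one_div_of_le (by positivity)
    nlinarith
  have ha2 : (C₃ / a ^ 2) ^ 2 ≤ C₃ ^ 2 * y ^ 4 := by
    have h1 : 1 / a ≤ y := le_trans (one_div_le_one_div_of_le hδ hδa.le) hinvδ
    have h2 : (C₃ / a ^ 2) ^ 2 = C₃ ^ 2 * (1 / a) ^ 4 := by field_simp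
    rw [h2]
    gcongr
  have hexp : Real.exp Real.pi ≤ 25 := by
    have h1 : Real.pi ≤ 3.2 := by linarith [Real.pi_lt_d2]
    have h3 := Real.exp_one_lt_d9
    have h4 : Real.exp (3.2:ℝ) ≤ 25 := by
      have h5 : Real.exp (3.2:ℝ) = (Real.exp 1) ^ 3 * Real.exp 0.2 := by
        rw [← Real.exp_nat_mul, ← Real.exp_add]; norm_num
      have h6 : Real.exp (0.2:ℝ) ≤ 1.23 := by
        have h7 := Real.exp_bound' (x := 0.2) (by norm_num) (by norm_num) (n := 3) (by norm_num)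
        refine h7.trans ?_
        norm_num [Finset.sum_range_succ, Nat.factorial]
      have h8 : (Real.exp 1) ^ 3 ≤ 2.7182818286 ^ 3 := by gcongr
      have h9 : (0:ℝ) ≤ Real.exp 0.2 := (Real.exp_pos _).le
      rw [h5]
      calc (Real.exp 1) ^ 3 * Real.exp 0.2 ≤ 2.7182818286 ^ 3 * 1.23 := by gcongr
        _ ≤ 25 := by norm_num
    exact (Real.exp_le_exp.mpr h1).trans h4
  have hXP : (X : ℝ) * P ≤ X * P ^ 2 + V := by
    have : (P : ℝ) ≤ P ^ 2 := by nlinarith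
    have h2 : (X : ℝ) * P ≤ X * P ^ 2 := by gcongr
    linarith
  have hB : ((Idx X P).card : ℝ) * (2 * (C₃ / a ^ 2) ^ 2) ≤
      2 * C₃ ^ 2 * y ^ 4 * (Lg ^ 2 * (X * P ^ 2 + V)) := by
    have h1 : (1:ℝ) ≤ Lg ^ 2 := one_le_pow₀ hLg1
    have h2 : 0 ≤ (X : ℝ) * P ^ 2 + V := by positivity
    calc ((Idx X P).card : ℝ) * (2 * (C₃ / a ^ 2) ^ 2) ≤ (X * P ^ 2 + V) * (2 * (C₃ ^ 2 * y ^ 4)) := by
          gcongr
          exact hcard.trans hXP
      _ = 2 * C₃ ^ 2 * y ^ 4 * (1 * (X * P ^ 2 + V)) := by ring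
      _ ≤ _ := by gcongr
  have hD : 2 * (Real.log (1 / ρ) * ∑ x ∈ Idx X P, J0 ((x.1 : ℤ) * (x.2 : ℤ) ^ 2) a η ρ) ≤
      200 * (C₁ : ℝ) ^ C₁ * y ^ C₁ * (Lg ^ 2 * (X * P ^ 2 + V)) := by
    have h2 : 0 ≤ (X : ℝ) * P ^ 2 + V := by positivity
    have hW0 : 0 ≤ (X : ℝ) * P ^ 2 + ∑' q, Wq C₁ (a - δ) η ρ (X * P ^ 2) q := by
      have : 0 ≤ ∑' q, Wq C₁ (a - δ) η ρ (X * P ^ 2) q :=
        tsum_nonneg (fun q => Wq_nonneg C₁ hρ (by positivity) q)
      positivity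
    calc 2 * (Real.log (1 / ρ) * ∑ x ∈ Idx X P, J0 ((x.1 : ℤ) * (x.2 : ℤ) ^ 2) a η ρ) ≤
        2 * (Real.log (1 / ρ) * (Real.exp Real.pi * (C₁ / (δ * η)) ^ C₁ *
          (X * P ^ 2 + ∑' q, Wq C₁ (a - δ) η ρ (X * P ^ 2) q) * Real.log (1 / ρ))) := by gcongr
      _ ≤ 2 * ((2 * Lg) * (25 * ((C₁ : ℝ) ^ C₁ * y ^ C₁) * (X * P ^ 2 + V) * (2 * Lg))) := by
          rw [hCy]; gcongr
      _ = _ := by ring
  have hfin : 25600 * (((Idx X P).card : ℝ) * (2 * (C₃ / a ^ 2) ^ 2) +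
      2 * (Real.log (1 / ρ) * ∑ x ∈ Idx X P, J0 ((x.1 : ℤ) * (x.2 : ℤ) ^ 2) a η ρ)) ≤
      (C / (δ * η)) ^ C * Lg ^ 2 * (X * P ^ 2 + V) := by
    have h2 : 0 ≤ Lg ^ 2 * ((X : ℝ) * P ^ 2 + V) := by positivity
    have h3 : y ^ 4 ≤ y ^ C := pow_le_pow_right₀ hy1 (by omega)
    have h4 : y ^ C₁ ≤ y ^ C := pow_le_pow_right₀ hy1 (by omega)
    have h5 : M0 ≤ (C : ℝ) ^ C := by
      have h6 : M0 ≤ (C : ℝ) := by
        refine (Nat.le_ceil M0).trans ?_
        exact_mod_cast (by omega : ⌈M0⌉₊ ≤ C)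
      have h7 : (1:ℝ) ≤ C := by exact_mod_cast (by omega : 1 ≤ C)
      exact h6.trans (le_self_pow₀ h7 (by omega))
    calc _ ≤ 25600 * (2 * C₃ ^ 2 * y ^ 4 * (Lg ^ 2 * (X * P ^ 2 + V)) +
          200 * (C₁ : ℝ) ^ C₁ * y ^ C₁ * (Lg ^ 2 * (X * P ^ 2 + V))) := by gcongr
      _ ≤ 25600 * (2 * C₃ ^ 2 * y ^ C * (Lg ^ 2 * (X * P ^ 2 + V)) +
          200 * (C₁ : ℝ) ^ C₁ * y ^ C * (Lg ^ 2 * (X * P ^ 2 + V))) := by gcongr
      _ = M0 * y ^ C * (Lg ^ 2 * (X * P ^ 2 + V)) := by rw [hM0]; ring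
      _ ≤ (C : ℝ) ^ C * y ^ C * (Lg ^ 2 * (X * P ^ 2 + V)) := by gcongr
      _ = _ := by rw [hCy]; ring
  rw [nsmul_eq_mul]
  exact hfin

end Pool.Agent.ZD.R
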