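import Mathlib
import Pool.Agent.ZD.R5

/-!
Module R, part 6: primes, dyadic sums, the recursion.
-/

set_option autoImplicit false

open Complex Finset MeasureTheory Set Filter Topology

namespace Pool.Agent.ZD.R

/-! ### Primes -/

lemma prime_count (N : ℕ) (hN : 20 ≤ N) :
    (N : ℝ) / 2 ≤ (((Finset.Icc 11 (N ^ 2)).filter Nat.Prime).card : ℝ) := by
  have hN1 : (20:ℝ) ≤ N := by exact_mod_cast hN
  have h1 := Chebyshev.pi_ge (N ^ 2)
  have h2 : (Nat.primeCounting (N ^ 2) : ℝ) ≤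
      (((Finset.Icc 11 (N ^ 2)).filter Nat.Prime).card : ℝ) + 11 := by
    have h3 : Nat.primeCounting (N ^ 2) ≤ ((Finset.Icc 11 (N ^ 2)).filter Nat.Prime).card + 11 := by
      rw [Nat.primeCounting, Nat.primeCounting', Nat.count_eq_card_filter_range]
      have : (Finset.range (N ^ 2 + 1)).filter Nat.Prime ⊆
          ((Finset.Icc 11 (N ^ 2)).filter Nat.Prime) ∪ Finset.range 11 := by
        intro p hp
        simp only [Finset.mem_filter, Finset.mem_range, Finset.mem_union, Finset.mem_Icc] at hp ⊢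
        by_cases h : p < 11
        · right; exact h
        · left; exact ⟨⟨by omega, by omega⟩, hp.2⟩
      refine (Finset.card_le_card this).trans ((Finset.card_union_le _ _).trans ?_)
      simp
    exact_mod_cast h3
  have hlogN : 0 < Real.log N := Real.log_pos (by linarith)
  have hl2 : 0.69 ≤ Real.log 2 := by linarith [Real.log_two_gt_d9]
  -- log N ≤ N / 5 * ... : use log x ≤ 2 (√x) ; elementary: log N ≤ N/6 + 0.8
  have hlog : Real.log N ≤ N / 6 + 0.8 := by
    have h := Real.log_le_sub_one_of_pos (show (0:ℝ) < N / 6 by positivity)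
    have h6 : Real.log ((N : ℝ) / 6) = Real.log N - Real.log 6 := Real.log_div (by linarith) (by norm_num)
    have h7 : Real.log 6 ≤ 1.8 := by
      have e : Real.log 6 = Real.log 2 + Real.log 3 := by
        rw [← Real.log_mul (by norm_num) (by norm_num)]; norm_num
      have h3 : Real.log 3 ≤ 1.0987 := by
        have := Real.log_three_lt_d9
        linarith
      have := Real.log_two_lt_d9
      linarith
    rw [h6] at h
    linarith
  have h3 : ((N ^ 2 : ℕ) : ℝ) = (N : ℝ) ^ 2 := by push_cast; rfl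
  rw [h3] at h1
  have h4 : Real.log ((N : ℝ) ^ 2) = 2 * Real.log N := by
    rw [Real.log_pow]; push_cast; ring
  have h5 : Real.log ((N : ℝ) ^ 2 + 1) ≤ 2 * Real.log N + 1 := by
    have : (N : ℝ) ^ 2 + 1 ≤ (N : ℝ) ^ 2 * 2 := by nlinarith
    have h6 := Real.log_le_log (by positivity) this
    rw [Real.log_mul (by positivity) (by norm_num), h4] at h6
    have := Real.log_two_lt_d9
    linarith
  rw [h4] at h1
  have h6 : (N : ℝ) / 2 + 11 ≤ ((N : ℝ) ^ 2 * Real.log 2 - Real.log ((N : ℝ) ^ 2 + 1)) / (2 * Real.log N) := by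
    rw [le_div_iff₀ (by positivity)]
    have h7 : (N : ℝ) ^ 2 * 0.69 ≤ (N : ℝ) ^ 2 * Real.log 2 := by gcongr
    have h8 : ((N : ℝ) / 2 + 11) * (2 * Real.log N) ≤ ((N : ℝ) / 2 + 11) * (2 * (N / 6 + 0.8)) := by
      gcongr
    nlinarith
  linarith

/-! ### The dyadic sum -/

/-- the decay of the dual weights -/
noncomputable def nw (I i : ℕ) : ℝ := if i ≤ I then 6 else 6 ^ 13 / 16 ^ (i - I)

lemma nw_nonneg (I i : ℕ) : 0 ≤ nw I i := by unfold nw; split_ifs <;> positivity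

lemma sum_nw (B : ℕ) : ∃ cB : ℝ, 0 ≤ cB ∧ ∀ I N : ℕ,
    ∑ i ∈ Finset.range N, (2 + (i : ℝ)) ^ B * nw I i ≤ cB * (2 + (I : ℝ)) ^ (B + 1) := by
  have hs : Summable (fun k : ℕ => (1 + (k : ℝ)) ^ B / 16 ^ k) := by
    have h1 : Summable (fun k : ℕ => ((k : ℝ)) ^ B * (1 / 16 : ℝ) ^ k) := by
      have := summable_pow_mul_geometric_of_norm_lt_one (R := ℝ) B (r := 1 / 16) (by norm_num)
      exact this
    have h2 := (summable_nat_add_iff 1).mpr h1
    refine (h2.mul_left 16).congr (fun k => ?_)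
    push_cast
    rw [pow_succ (1 / 16 : ℝ) k, one_div, inv_pow]
    field_simp
    ring
  refine ⟨6 + 6 ^ 13 * ∑' k : ℕ, (1 + (k : ℝ)) ^ B / 16 ^ k, ?_, ?_⟩
  · have : 0 ≤ ∑' k : ℕ, (1 + (k : ℝ)) ^ B / 16 ^ k := tsum_nonneg (fun k => by positivity)
    positivity
  · intro I N
    have hI : (1:ℝ) ≤ 2 + (I : ℝ) := by
      have : (0:ℝ) ≤ I := Nat.cast_nonneg I
      linarith
    have hsplit : ∀ i ∈ Finset.range N, (2 + (i : ℝ)) ^ B * nw I i ≤
        (if i ∈ Finset.range (I + 1) then 6 * (2 + (I : ℝ)) ^ B else 0) +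
        (if I < i then 6 ^ 13 * (2 + (I : ℝ)) ^ B * ((1 + ((i - I : ℕ) : ℝ)) ^ B / 16 ^ (i - I)) else 0) := by
      intro i _
      unfold nw
      by_cases h : i ≤ I
      · have h1 : i ∈ Finset.range (I + 1) := Finset.mem_range.mpr (by omega)
        rw [if_pos h, if_pos h1, if_neg (by omega), add_zero, mul_comm]
        have : (i : ℝ) ≤ I := by exact_mod_cast h
        gcongr
      · have h1 : ¬ i ∈ Finset.range (I + 1) := by rw [Finset.mem_range]; omega
        rw [if_neg h, if_neg h1, if_pos (by omega), zero_add]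
        have h2 : (2 + (i : ℝ)) ≤ (2 + (I : ℝ)) * (1 + ((i - I : ℕ) : ℝ)) := by
          rw [Nat.cast_sub (by omega)]
          have h3 : (I : ℝ) ≤ i := by exact_mod_cast (by omega : I ≤ i)
          nlinarith
        calc (2 + (i : ℝ)) ^ B * (6 ^ 13 / 16 ^ (i - I)) ≤
            ((2 + (I : ℝ)) * (1 + ((i - I : ℕ) : ℝ))) ^ B * (6 ^ 13 / 16 ^ (i - I)) := by gcongr
          _ = _ := by rw [mul_pow]; ring
    refine (Finset.sum_le_sum hsplit).trans ?_
    rw [Finset.sum_add_distrib]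
    have h1 : ∑ i ∈ Finset.range N, (if i ∈ Finset.range (I + 1) then 6 * (2 + (I : ℝ)) ^ B else 0) ≤
        (I + 1) * (6 * (2 + (I : ℝ)) ^ B) := by
      rw [← Finset.sum_filter, Finset.sum_const, nsmul_eq_mul]
      have : ((Finset.range N).filter (fun i => i ∈ Finset.range (I + 1))).card ≤ I + 1 := by
        have h3 : (Finset.range N).filter (fun i => i ∈ Finset.range (I + 1)) ⊆ Finset.range (I + 1) := by
          intro i hi
          exact (Finset.mem_filter.mp hi).2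
        refine (Finset.card_le_card h3).trans ?_
        simp
      have h4 : (((Finset.range N).filter (fun i => i ∈ Finset.range (I + 1))).card : ℝ) ≤ I + 1 := by
        exact_mod_cast this
      gcongr
    have h2 : ∑ i ∈ Finset.range N, (if I < i then 6 ^ 13 * (2 + (I : ℝ)) ^ B *
        ((1 + ((i - I : ℕ) : ℝ)) ^ B / 16 ^ (i - I)) else 0) ≤
        6 ^ 13 * (2 + (I : ℝ)) ^ B * ∑' k : ℕ, (1 + (k : ℝ)) ^ B / 16 ^ k := by
      rw [← Finset.sum_filter, ← Finset.mul_sum]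
      have hinj : Set.InjOn (fun i : ℕ => i - I) ((Finset.range N).filter (fun i => I < i)) := by
        intro x hx y hy hxy
        simp only [Finset.coe_filter, Finset.mem_range, Set.mem_ofPred_eq] at hx hy
        simp only at hxy
        omega
      have h3 : ∑ i ∈ (Finset.range N).filter (fun i => I < i),
          ((1 + ((i - I : ℕ) : ℝ)) ^ B / 16 ^ (i - I)) ≤ ∑' k : ℕ, (1 + (k : ℝ)) ^ B / 16 ^ k := by
        rw [← Finset.sum_image (f := fun k : ℕ => (1 + (k : ℝ)) ^ B / 16 ^ k) hinj]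
        exact hs.sum_le_tsum _ (fun k _ => by positivity)
      gcongr
    have h5 : ((I : ℝ) + 1) * (6 * (2 + (I : ℝ)) ^ B) ≤ 6 * (2 + (I : ℝ)) ^ (B + 1) := by
      have : 0 ≤ (2 + (I : ℝ)) ^ B := by positivity
      rw [pow_succ]
      nlinarith
    have h6 : 6 ^ 13 * (2 + (I : ℝ)) ^ B * ∑' k : ℕ, (1 + (k : ℝ)) ^ B / 16 ^ k ≤
        6 ^ 13 * (2 + (I : ℝ)) ^ (B + 1) * ∑' k : ℕ, (1 + (k : ℝ)) ^ B / 16 ^ k := by
      have : 0 ≤ ∑' k : ℕ, (1 + (k : ℝ)) ^ B / 16 ^ k := tsum_nonneg (fun k => by positivity)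
      have h7 : (2 + (I : ℝ)) ^ B ≤ (2 + (I : ℝ)) ^ (B + 1) := pow_le_pow_right₀ hI (by omega)
      gcongr
    calc _ ≤ (I + 1) * (6 * (2 + (I : ℝ)) ^ B) +
          6 ^ 13 * (2 + (I : ℝ)) ^ B * ∑' k : ℕ, (1 + (k : ℝ)) ^ B / 16 ^ k := add_le_add h1 h2
      _ ≤ 6 * (2 + (I : ℝ)) ^ (B + 1) +
          6 ^ 13 * (2 + (I : ℝ)) ^ (B + 1) * ∑' k : ℕ, (1 + (k : ℝ)) ^ B / 16 ^ k := add_le_add h5 h6
      _ = _ := by ring

end Pool.Agent.ZD.R
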