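import Mathlib
import Pool.Agent.ZD.R6

/-!
Module R, part 7: the recursion and `R_main`.
-/

set_option autoImplicit false

open Complex Finset MeasureTheory Set Filter Topology

namespace Pool.Agent.ZD.R

lemma FF_nonneg (η a : ℝ) (X : ℕ) : 0 ≤ FF η a X := by
  unfold FF
  exact Finset.sum_nonneg (fun d _ => sq_nonneg _)

/-- the dyadic weight -/
noncomputable def xw (I i : ℕ) : ℝ :=
  min (6 * ((2:ℝ) ^ I / 2 ^ i)) (6 ^ 13 * ((2:ℝ) ^ I / 2 ^ i) ^ 7)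

lemma xw_nonneg (I i : ℕ) : 0 ≤ xw I i := by
  unfold xw; apply le_min <;> positivity

lemma xw_two (I i : ℕ) : xw I i * 2 ^ (i + 1) ≤ 2 * 2 ^ I * nw I i := by
  unfold xw nw
  by_cases h : i ≤ I
  · rw [if_pos h]
    calc min (6 * ((2:ℝ) ^ I / 2 ^ i)) (6 ^ 13 * ((2:ℝ) ^ I / 2 ^ i) ^ 7) * 2 ^ (i + 1) ≤
        (6 * ((2:ℝ) ^ I / 2 ^ i)) * 2 ^ (i + 1) := by gcongr; exact min_le_left _ _
      _ = _ := by field_simp; ring
  · rw [if_neg h]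
    obtain ⟨e, rfl⟩ : ∃ e, i = I + e := ⟨i - I, by omega⟩
    have e1 : (2:ℝ) ^ I / 2 ^ (I + e) = (1 / 2) ^ e := by
      rw [pow_add, one_div, inv_pow]; field_simp
    rw [Nat.add_sub_cancel_left]
    calc min (6 * ((2:ℝ) ^ I / 2 ^ (I + e))) (6 ^ 13 * ((2:ℝ) ^ I / 2 ^ (I + e)) ^ 7) * 2 ^ (I + e + 1) ≤
        (6 ^ 13 * ((2:ℝ) ^ I / 2 ^ (I + e)) ^ 7) * 2 ^ (I + e + 1) := by gcongr; exact min_le_right _ _
      _ = 2 * 2 ^ I * (6 ^ 13 * ((1 / 2) ^ e) ^ 7 * 2 ^ e) := by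
          rw [e1, pow_succ, pow_add]; ring
      _ ≤ 2 * 2 ^ I * (6 ^ 13 / 16 ^ e) := by
          have : ((1 / 2 : ℝ) ^ e) ^ 7 * 2 ^ e ≤ 1 / 16 ^ e := by
            have e2 : ((1 / 2 : ℝ) ^ e) ^ 7 * 2 ^ e = (1 / 64) ^ e := by
              rw [← pow_mul, mul_comm e 7, pow_mul, ← mul_pow]; norm_num
            have e3 : (1 : ℝ) / 16 ^ e = (1 / 16) ^ e := by rw [one_div, one_div, inv_pow]
            rw [e2, e3]
            apply pow_le_pow_left₀ (by norm_num) (by norm_num)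
          calc 2 * 2 ^ I * (6 ^ 13 * ((1 / 2 : ℝ) ^ e) ^ 7 * 2 ^ e) =
              2 * 2 ^ I * (6 ^ 13 * (((1 / 2 : ℝ) ^ e) ^ 7 * 2 ^ e)) := by ring
            _ ≤ 2 * 2 ^ I * (6 ^ 13 * (1 / 16 ^ e)) := by gcongr
            _ = _ := by ring

lemma xw_eight (I i : ℕ) : xw I i * 8 ^ (i + 1) ≤ 8 * 8 ^ I * nw I i := by
  unfold xw nw
  by_cases h : i ≤ I
  · rw [if_pos h]
    obtain ⟨e, rfl⟩ : ∃ e, I = i + e := ⟨I - i, by omega⟩
    calc min (6 * ((2:ℝ) ^ (i + e) / 2 ^ i)) (6 ^ 13 * ((2:ℝ) ^ (i + e) / 2 ^ i) ^ 7) * 8 ^ (i + 1) ≤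
        (6 * ((2:ℝ) ^ (i + e) / 2 ^ i)) * 8 ^ (i + 1) := by gcongr; exact min_le_left _ _
      _ = 8 * 8 ^ i * 6 * 2 ^ e := by rw [pow_add]; field_simp; ring
      _ ≤ 8 * 8 ^ i * 6 * 8 ^ e := by
          have : (2:ℝ) ^ e ≤ 8 ^ e := pow_le_pow_left₀ (by norm_num) (by norm_num) e
          gcongr
      _ = _ := by rw [pow_add]; ring
  · rw [if_neg h]
    obtain ⟨e, rfl⟩ : ∃ e, i = I + e := ⟨i - I, by omega⟩
    have e1 : (2:ℝ) ^ I / 2 ^ (I + e) = (1 / 2) ^ e := by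
      rw [pow_add, one_div, inv_pow]; field_simp
    rw [Nat.add_sub_cancel_left]
    calc min (6 * ((2:ℝ) ^ I / 2 ^ (I + e))) (6 ^ 13 * ((2:ℝ) ^ I / 2 ^ (I + e)) ^ 7) * 8 ^ (I + e + 1) ≤
        (6 ^ 13 * ((2:ℝ) ^ I / 2 ^ (I + e)) ^ 7) * 8 ^ (I + e + 1) := by gcongr; exact min_le_right _ _
      _ = 8 * 8 ^ I * (6 ^ 13 * (((1 / 2) ^ e) ^ 7 * 8 ^ e)) := by
          rw [e1, pow_succ, pow_add]; ring
      _ = 8 * 8 ^ I * (6 ^ 13 / 16 ^ e) := by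
          have e2 : ((1 / 2 : ℝ) ^ e) ^ 7 * 8 ^ e = (1 / 16) ^ e := by
            rw [← pow_mul, mul_comm e 7, pow_mul, ← mul_pow]; norm_num
          rw [e2, one_div, inv_pow]; ring

lemma log_dyadic {q i : ℕ} (hq0 : 0 < q) (hq : q < 2 ^ (i + 1)) : 1 + Real.log q ≤ 2 + i := by
  have h1 : (q : ℝ) ≤ 2 ^ (i + 1) := by exact_mod_cast hq.le
  have h2 := Real.log_le_log (by exact_mod_cast hq0) h1
  rw [Real.log_pow] at h2
  have h3 := Real.log_two_lt_d9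
  have h4 : (((i + 1 : ℕ) : ℝ)) * Real.log 2 ≤ ((i + 1 : ℕ) : ℝ) * 1 := by
    gcongr; linarith
  push_cast at h2 h4
  linarith

lemma dual_range (C : ℕ) (b η : ℝ) (I N : ℕ) :
    ∑ q ∈ Finset.range (2 ^ N), Vq C b η (2 ^ I) q ≤
      ∑ i ∈ Finset.range N, xw I i * (2 + (i : ℝ)) ^ C * FF η b (2 ^ (i + 1)) := by
  induction N with
  | zero => simp [Vq]
  | succ N ih =>
    rw [Finset.sum_range_succ, ← Finset.sum_range_add_sum_Ico _
      (Nat.pow_le_pow_right (by norm_num) (Nat.le_succ N))]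
    refine add_le_add ih ?_
    have h1 : ∀ q ∈ Finset.Ico (2 ^ N) (2 ^ (N + 1)), Vq C b η (2 ^ I) q ≤
        if Squarefree q then xw I N * (2 + (N : ℝ)) ^ C * (MM b η q) ^ 2 else 0 := by
      intro q hq
      rw [Finset.mem_Ico] at hq
      unfold Vq
      split_ifs with hs
      · have hq0 : 0 < q := Nat.pos_of_ne_zero hs.ne_zero
        have hq1 : (0:ℝ) < q := by exact_mod_cast hq0
        have h2 := one_add_log_nonneg q
        have h3 := log_dyadic hq0 hq.2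
        have h4 : (2:ℝ) ^ N ≤ q := by exact_mod_cast hq.1
        have h5 : min (6 * (((2 ^ I : ℕ) : ℝ) / q)) (6 ^ 13 * (((2 ^ I : ℕ) : ℝ) / q) ^ 7) ≤ xw I N := by
          unfold xw
          push_cast
          apply min_le_min
          · gcongr
          · gcongr
        have h6 := xw_nonneg I N
        gcongr
      · exact le_rfl
    refine (Finset.sum_le_sum h1).trans ?_
    rw [← Finset.sum_filter, ← Finset.mul_sum]
    have h7 : ∑ q ∈ (Finset.Ico (2 ^ N) (2 ^ (N + 1))).filter Squarefree, (MM b η q) ^ 2 ≤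
        FF η b (2 ^ (N + 1)) := by
      unfold FF
      apply Finset.sum_le_sum_of_subset_of_nonneg
      · intro q hq
        simp only [Finset.mem_filter, Finset.mem_Ico, Finset.mem_Icc] at hq ⊢
        have : 0 < 2 ^ N := by positivity
        exact ⟨⟨by omega, by omega⟩, hq.2⟩
      · intro q _ _
        positivity
    have h8 := xw_nonneg I N
    gcongr

/-- the dual sum under an inductive hypothesis -/
lemma dual_le (C A : ℕ) {c1 c2 : ℝ}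
    (h1 : ∀ I N : ℕ, ∑ i ∈ Finset.range N, (2 + (i : ℝ)) ^ (A + C) * nw I i ≤
      c1 * (2 + (I : ℝ)) ^ (A + C + 1))
    (h2 : ∀ I N : ℕ, ∑ i ∈ Finset.range N, (2 + (i : ℝ)) ^ C * nw I i ≤
      c2 * (2 + (I : ℝ)) ^ (C + 1))
    {α β b η : ℝ} (hα : 0 ≤ α) (hβ : 0 ≤ β)
    (hF : ∀ i : ℕ, FF η b (2 ^ i) ≤ α * 2 ^ i * (2 + (i : ℝ)) ^ A + β * 8 ^ i) (I : ℕ) :
    ∑' q, Vq C b η (2 ^ I) q ≤
      (2 ^ (A + 1) * c1) * (2 + (I : ℝ)) ^ (A + C + 1) * (α * 2 ^ I) +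
        (8 * c2) * (2 + (I : ℝ)) ^ (C + 1) * (β * 8 ^ I) := by
  apply Real.tsum_le_of_sum_range_le (fun q => Vq_nonneg _ _ _ _ q)
  intro n
  have hn : n ≤ 2 ^ n := Nat.lt_two_pow_self.le
  have h3 : ∑ q ∈ Finset.range n, Vq C b η (2 ^ I) q ≤
      ∑ q ∈ Finset.range (2 ^ n), Vq C b η (2 ^ I) q :=
    Finset.sum_le_sum_of_subset_of_nonneg (Finset.range_subset_range.mpr hn)
      (fun q _ _ => Vq_nonneg _ _ _ _ q)
  refine h3.trans ((dual_range C b η I n).trans ?_)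
  have h4 : ∀ i ∈ Finset.range n, xw I i * (2 + (i : ℝ)) ^ C * FF η b (2 ^ (i + 1)) ≤
      (α * 2 ^ (A + 1) * 2 ^ I) * ((2 + (i : ℝ)) ^ (A + C) * nw I i) +
      (8 * β * 8 ^ I) * ((2 + (i : ℝ)) ^ C * nw I i) := by
    intro i _
    have h5 := xw_nonneg I i
    have h6 := xw_two I i
    have h7 := xw_eight I i
    have h8 := hF (i + 1)
    have h9 : (2 + ((i + 1 : ℕ) : ℝ)) ^ A ≤ 2 ^ A * (2 + (i : ℝ)) ^ A := by
      rw [← mul_pow]
      have : (0:ℝ) ≤ i := Nat.cast_nonneg i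
      gcongr
      push_cast
      linarith
    calc xw I i * (2 + (i : ℝ)) ^ C * FF η b (2 ^ (i + 1)) ≤
        xw I i * (2 + (i : ℝ)) ^ C * (α * 2 ^ (i + 1) * (2 ^ A * (2 + (i : ℝ)) ^ A) +
          β * 8 ^ (i + 1)) := by
          gcongr
          refine h8.trans ?_
          gcongr
      _ = (2 + (i : ℝ)) ^ C * (α * (2 ^ A * (2 + (i : ℝ)) ^ A)) * (xw I i * 2 ^ (i + 1)) +
          (2 + (i : ℝ)) ^ C * β * (xw I i * 8 ^ (i + 1)) := by ring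
      _ ≤ (2 + (i : ℝ)) ^ C * (α * (2 ^ A * (2 + (i : ℝ)) ^ A)) * (2 * 2 ^ I * nw I i) +
          (2 + (i : ℝ)) ^ C * β * (8 * 8 ^ I * nw I i) := by gcongr
      _ = _ := by rw [pow_add (2 + (i : ℝ)) A C, pow_succ (2:ℝ) A]; ring
  refine (Finset.sum_le_sum h4).trans ?_
  rw [Finset.sum_add_distrib, ← Finset.mul_sum, ← Finset.mul_sum]
  have h10 := h1 I n
  have h11 := h2 I n
  calc _ ≤ (α * 2 ^ (A + 1) * 2 ^ I) * (c1 * (2 + (I : ℝ)) ^ (A + C + 1)) +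
      (8 * β * 8 ^ I) * (c2 * (2 + (I : ℝ)) ^ (C + 1)) := by gcongr
    _ = _ := by ring

end Pool.Agent.ZD.R
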