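import Mathlib
import Pool.Agent.ZD.R7

/-!
Module R, part 8: the recursion and `R_main`.
-/

set_option autoImplicit false

open Complex Finset MeasureTheory Set Filter Topology

namespace Pool.Agent.ZD.R

/-- one step of the induction -/
lemma rec_step {C : ℕ} {c1 c2 : ℝ}
    (h1 : ∀ I N : ℕ, ∑ i ∈ Finset.range N, (2 + (i : ℝ)) ^ (4 * C + 14 + C) * nw I i ≤
      c1 * (2 + (I : ℝ)) ^ (4 * C + 14 + C + 1))
    (h2 : ∀ I N : ℕ, ∑ i ∈ Finset.range N, (2 + (i : ℝ)) ^ C * nw I i ≤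
      c2 * (2 + (I : ℝ)) ^ (C + 1))
    {G K a δ η α β : ℝ} (hG1 : 2 ^ (4 * C + 14 + 1) * c1 ≤ G) (hG2 : 8 * c2 ≤ G) (hG0 : 0 ≤ G)
    (hK : K = (C / (δ * η)) ^ C) (hα : α = 2 * K * (4 * K * G + 21) ^ 4) (hβ : 0 ≤ β)
    (hstep : ∀ X P : ℕ, 1 ≤ X → 1 ≤ P → Summable (Vq C (a - δ) η X) ∧
      (((Finset.Icc 11 P).filter Nat.Prime).card : ℝ) * FF η a X ≤
      (C / (δ * η)) ^ C * (1 + Real.log X) ^ 2 * (X * P ^ 2 + ∑' q, Vq C (a - δ) η X q))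
    (hδη : 0 < δ * η)
    (hF : ∀ i : ℕ, FF η (a - δ) (2 ^ i) ≤ α * 2 ^ i * (2 + (i : ℝ)) ^ (4 * C + 14) + β * 8 ^ i)
    (I : ℕ) :
    FF η a (2 ^ I) ≤ α * 2 ^ I * (2 + (I : ℝ)) ^ (4 * C + 14) + β / 2 * 8 ^ I := by
  have hK0 : 0 ≤ K := by rw [hK]; positivity
  have hα0 : 0 ≤ α := by rw [hα]; positivity
  set x : ℝ := 2 + (I : ℝ) with hx
  have hx1 : 1 ≤ x := by
    have : (0:ℝ) ≤ I := Nat.cast_nonneg I
    linarith
  set N : ℕ := ⌈4 * K * G * x ^ (C + 3)⌉₊ + 20 with hN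
  have hN1 : 4 * K * G * x ^ (C + 3) ≤ N := by
    rw [hN]; push_cast
    have := Nat.le_ceil (4 * K * G * x ^ (C + 3))
    linarith
  have hN2 : (N : ℝ) ≤ (4 * K * G + 21) * x ^ (C + 3) := by
    rw [hN]; push_cast
    have h3 := (Nat.ceil_lt_add_one (by positivity : 0 ≤ 4 * K * G * x ^ (C + 3))).le
    have h4 : (1:ℝ) ≤ x ^ (C + 3) := one_le_pow₀ hx1
    linarith
  have hN20 : 20 ≤ N := by omega
  have hN20' : (20:ℝ) ≤ N := by exact_mod_cast hN20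
  set π' : ℝ := (((Finset.Icc 11 (N ^ 2)).filter Nat.Prime).card : ℝ) with hπ
  have hπN : (N : ℝ) / 2 ≤ π' := prime_count N hN20
  have hπ1 : 1 ≤ π' := by linarith
  have hπ2 : 2 * (K * G * x ^ (C + 3)) ≤ π' := by linarith
  obtain ⟨hs, hle⟩ := hstep (2 ^ I) (N ^ 2) (Nat.one_le_pow _ _ (by norm_num))
    (Nat.one_le_pow _ _ (by omega))
  have hD := dual_le C (4 * C + 14) h1 h2 hα0 hβ hF I
  set D : ℝ := ∑' q, Vq C (a - δ) η (2 ^ I) q with hDdef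
  have hD0 : 0 ≤ D := tsum_nonneg (fun q => Vq_nonneg _ _ _ _ q)
  rw [← hK] at hle
  have hlog : 1 + Real.log ((2 ^ I : ℕ) : ℝ) ≤ x := by
    push_cast
    rw [Real.log_pow]
    have h3 := Real.log_two_lt_d9
    have h4 : (I : ℝ) * Real.log 2 ≤ I * 1 := by gcongr; linarith
    linarith
  have hlog0 : 0 ≤ 1 + Real.log ((2 ^ I : ℕ) : ℝ) := one_add_log_nonneg _
  -- bound D
  have hD2 : D ≤ G * x ^ (C + 1) * (α * 2 ^ I * x ^ (4 * C + 14) + β * 8 ^ I) := by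
    calc D ≤ (2 ^ (4 * C + 14 + 1) * c1) * x ^ (4 * C + 14 + C + 1) * (α * 2 ^ I) +
          (8 * c2) * x ^ (C + 1) * (β * 8 ^ I) := hD
      _ ≤ G * x ^ (4 * C + 14 + C + 1) * (α * 2 ^ I) + G * x ^ (C + 1) * (β * 8 ^ I) := by gcongr
      _ = _ := by
          rw [show 4 * C + 14 + C + 1 = (4 * C + 14) + (C + 1) by ring, pow_add x (4 * C + 14) (C + 1)]
          ring
  -- the two parts
  have hpart1 : K * x ^ 2 * (2 ^ I * ((N : ℝ) ^ 2) ^ 2) ≤ α / 2 * 2 ^ I * x ^ (4 * C + 14) := by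
    calc K * x ^ 2 * (2 ^ I * ((N : ℝ) ^ 2) ^ 2) = K * x ^ 2 * 2 ^ I * (N : ℝ) ^ 4 := by ring
      _ ≤ K * x ^ 2 * 2 ^ I * ((4 * K * G + 21) * x ^ (C + 3)) ^ 4 := by gcongr
      _ = K * (4 * K * G + 21) ^ 4 * 2 ^ I * (x ^ 2 * (x ^ (C + 3)) ^ 4) := by ring
      _ = K * (4 * K * G + 21) ^ 4 * 2 ^ I * x ^ (4 * C + 14) := by
          rw [← pow_mul, ← pow_add]
          congr 2
          ring
      _ = _ := by rw [hα]; ring
  have hpart2 : K * x ^ 2 * D ≤ π' * ((α * 2 ^ I * x ^ (4 * C + 14) + β * 8 ^ I) / 2) := by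
    have h3 : 0 ≤ α * 2 ^ I * x ^ (4 * C + 14) + β * 8 ^ I := by positivity
    calc K * x ^ 2 * D ≤ K * x ^ 2 * (G * x ^ (C + 1) * (α * 2 ^ I * x ^ (4 * C + 14) + β * 8 ^ I)) := by
          gcongr
      _ = (2 * (K * G * x ^ (C + 3))) * ((α * 2 ^ I * x ^ (4 * C + 14) + β * 8 ^ I) / 2) := by
          rw [show C + 3 = 2 + (C + 1) by ring, pow_add x 2 (C + 1)]
          ring
      _ ≤ _ := by gcongr
  have hpart1' : K * x ^ 2 * (2 ^ I * ((N : ℝ) ^ 2) ^ 2) ≤ π' * (α / 2 * 2 ^ I * x ^ (4 * C + 14)) := by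
    refine hpart1.trans ?_
    have : 0 ≤ α / 2 * 2 ^ I * x ^ (4 * C + 14) := by positivity
    nlinarith
  have hmain : π' * FF η a (2 ^ I) ≤
      π' * (α * 2 ^ I * x ^ (4 * C + 14) + β / 2 * 8 ^ I) := by
    calc π' * FF η a (2 ^ I) ≤ K * (1 + Real.log ((2 ^ I : ℕ) : ℝ)) ^ 2 *
          (((2 ^ I : ℕ) : ℝ) * ((N ^ 2 : ℕ) : ℝ) ^ 2 + D) := hle
      _ ≤ K * x ^ 2 * (((2 ^ I : ℕ) : ℝ) * ((N ^ 2 : ℕ) : ℝ) ^ 2 + D) := by gcongr
      _ = K * x ^ 2 * (2 ^ I * ((N : ℝ) ^ 2) ^ 2) + K * x ^ 2 * D := by push_cast; ring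
      _ ≤ π' * (α / 2 * 2 ^ I * x ^ (4 * C + 14)) +
          π' * ((α * 2 ^ I * x ^ (4 * C + 14) + β * 8 ^ I) / 2) := add_le_add hpart1' hpart2
      _ = _ := by ring
  exact le_of_mul_le_mul_left hmain (by linarith)

/-- the trivial bound -/
lemma FF_trivial {C₄ : ℝ} (hC₄ : ∀ (d : ℕ) (a η : ℝ), Squarefree d → 0 < a → a ≤ 1 / 8 →
    0 < η → η ≤ 1 / 2 → MM a η d ≤ C₄ * d / a ^ 2) {a η : ℝ} (ha : 0 < a) (ha1 : a ≤ 1 / 8)
    (hη : 0 < η) (hη1 : η ≤ 1 / 2) (I : ℕ) : FF η a (2 ^ I) ≤ (C₄ ^ 2 / a ^ 4) * 8 ^ I := by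
  unfold FF
  have h1 : ∀ d ∈ (Finset.Icc 1 (2 ^ I)).filter Squarefree, (MM a η d) ^ 2 ≤
      (C₄ * 2 ^ I / a ^ 2) ^ 2 := by
    intro d hd
    simp only [Finset.mem_filter, Finset.mem_Icc] at hd
    have h2 := hC₄ d a η hd.2 ha ha1 hη hη1
    have h3 := MM_nonneg a η d
    have hd1 : (1:ℝ) ≤ d := by exact_mod_cast hd.1.1
    have hd2 : (d:ℝ) ≤ 2 ^ I := by exact_mod_cast hd.1.2
    have hC0 : 0 ≤ C₄ := by
      have h4 : 0 ≤ C₄ * d / a ^ 2 := h3.trans h2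
      by_contra h
      push Not at h
      have : C₄ * d / a ^ 2 < 0 := by
        apply div_neg_of_neg_of_pos _ (by positivity)
        nlinarith
      linarith
    gcongr
    refine h2.trans ?_
    gcongr
  refine (Finset.sum_le_sum h1).trans ?_
  rw [Finset.sum_const, nsmul_eq_mul]
  have h2 : ((((Finset.Icc 1 (2 ^ I)).filter Squarefree).card : ℕ) : ℝ) ≤ 2 ^ I := by
    have h3 : ((Finset.Icc 1 (2 ^ I)).filter Squarefree).card ≤ 2 ^ I := by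
      refine (Finset.card_filter_le _ _).trans ?_
      simp
    exact_mod_cast h3
  calc _ ≤ 2 ^ I * (C₄ * 2 ^ I / a ^ 2) ^ 2 := by gcongr
    _ = (C₄ ^ 2 / a ^ 4) * (2 ^ I * 2 ^ I * 2 ^ I) := by field_simp
    _ = _ := by
      rw [← mul_pow, ← mul_pow]; norm_num

end Pool.Agent.ZD.R

namespace Pool.Agent.ZD

open R

/-- **the mean square bound** -/
theorem R_main : ∃ A : ℕ, ∀ (J : ℕ) (a : ℝ), 1 ≤ J → 0 < a → a ≤ 1 / 8 →
    ∑ d ∈ (Finset.Icc 1 (2 ^ J)).filter Squarefree, (MM a (1 / (2 * J)) d) ^ 2 ≤ (A * J / a) ^ A * 2 ^ J := by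
  obtain ⟨C, hC1, hstep⟩ := R_step
  obtain ⟨c1, hc1, h1⟩ := sum_nw (4 * C + 14 + C)
  obtain ⟨c2, hc2, h2⟩ := sum_nw C
  obtain ⟨C₄, hC₄⟩ := MM_trivial
  set G : ℝ := 2 ^ (4 * C + 14 + 1) * c1 + 8 * c2 with hG
  have hG0 : 0 ≤ G := by positivity
  have hG1 : 2 ^ (4 * C + 14 + 1) * c1 ≤ G := by rw [hG]; linarith
  have hG2 : 8 * c2 ≤ G := by
    rw [hG]
    have : 0 ≤ 2 ^ (4 * C + 14 + 1) * c1 := by positivity
    linarith
  set M : ℝ := 2 * (4 * G + 21) ^ 4 * (8 * (C:ℝ)) ^ (5 * C) * 3 ^ (4 * C + 14) + 16 * C₄ ^ 2 with hM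
  have hM0 : 0 ≤ M := by positivity
  set E : ℕ := 10 * C + (4 * C + 14) + 4 with hE
  refine ⟨⌈M⌉₊ + E + 1, ?_⟩
  intro J a hJ ha ha1
  set A' := ⌈M⌉₊ + E + 1 with hA'
  have hJ1 : (1:ℝ) ≤ J := by exact_mod_cast hJ
  have hJ0 : (0:ℝ) < J := by linarith
  set η : ℝ := 1 / (2 * J) with hη
  set δ : ℝ := a / (4 * J) with hδ
  have hη0 : 0 < η := by positivity
  have hη1 : η ≤ 1 / 2 := by
    rw [hη, div_le_div_iff₀ (by positivity) (by norm_num)]; linarith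
  have hδ0 : 0 < δ := by positivity
  have hδη : 0 < δ * η := by positivity
  set K : ℝ := (C / (δ * η)) ^ C with hK
  set α : ℝ := 2 * K * (4 * K * G + 21) ^ 4 with hα
  set β : ℝ := C₄ ^ 2 / (a / 2) ^ 4 with hβ
  have hβ0 : 0 ≤ β := by positivity
  -- the induction
  have hind : ∀ j : ℕ, j ≤ 2 * J → ∀ I : ℕ, FF η (a / 2 + j * δ) (2 ^ I) ≤
      α * 2 ^ I * (2 + (I : ℝ)) ^ (4 * C + 14) + β * (1 / 2) ^ j * 8 ^ I := by
    intro j
    induction j with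
    | zero =>
      intro _ I
      have h3 := FF_trivial hC₄ (a := a / 2) (η := η) (by positivity) (by linarith) hη0 hη1 I
      have h4 : 0 ≤ α * 2 ^ I * (2 + (I : ℝ)) ^ (4 * C + 14) := by positivity
      simp only [Nat.cast_zero, zero_mul, add_zero, pow_zero, mul_one]
      linarith
    | succ j ih =>
      intro hj I
      have hj' : ((j + 1 : ℕ) : ℝ) ≤ 2 * J := by exact_mod_cast hj
      have ha' : a / 2 + ((j + 1 : ℕ) : ℝ) * δ ≤ a := by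
        have : ((j + 1 : ℕ) : ℝ) * δ ≤ 2 * J * δ := by gcongr
        have e : 2 * J * δ = a / 2 := by rw [hδ]; field_simp; ring
        linarith
      have hsub : a / 2 + ((j + 1 : ℕ) : ℝ) * δ - δ = a / 2 + (j : ℝ) * δ := by push_cast; ring
      have hlt : δ < a / 2 + ((j + 1 : ℕ) : ℝ) * δ := by
        push_cast
        have : 0 ≤ (j : ℝ) * δ := by positivity
        linarith
      have h5 := rec_step h1 h2 hG1 hG2 hG0 hK hα
        (β := β * (1 / 2) ^ j) (by positivity)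
        (fun X P hX hP => hstep (a / 2 + ((j + 1 : ℕ) : ℝ) * δ) δ η X P hδ0 hlt (by linarith) hη0 hη1
          hX hP) hδη (by rw [hsub]; exact ih (by omega)) I
      refine h5.trans (le_of_eq ?_)
      rw [pow_succ]; ring
  have hfin := hind (2 * J) le_rfl J
  have e1 : a / 2 + ((2 * J : ℕ) : ℝ) * δ = a := by
    push_cast; rw [hδ]; field_simp; ring
  rw [e1] at hfin
  have e2 : β * (1 / 2) ^ (2 * J) * 8 ^ J = β * 2 ^ J := by
    rw [pow_mul, mul_assoc, ← mul_pow]; norm_num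
  rw [e2] at hfin
  change FF η a (2 ^ J) ≤ _
  refine hfin.trans ?_
  -- polynomial bound in t = J / a
  set t : ℝ := J / a with ht
  have ht1 : 1 ≤ t := by
    rw [ht, le_div_iff₀ ha]; linarith
  have ht0 : 0 < t := by linarith
  have hJt : (J : ℝ) ≤ t := by
    rw [ht, le_div_iff₀ ha]; nlinarith
  have hat : 1 / a ≤ t := by rw [ht]; gcongr
  have hK1 : K ≤ (8 * (C:ℝ)) ^ C * t ^ (2 * C) := by
    rw [hK, pow_mul, ← mul_pow]
    apply pow_le_pow_left₀ (by positivity)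
    have e3 : (C : ℝ) / (δ * η) = 8 * C * (J * (J / a)) := by
      rw [hδ, hη]; field_simp; ring
    rw [e3]
    have : (J : ℝ) * (J / a) ≤ t ^ 2 := by rw [pow_two]; gcongr
    gcongr
  have hKge : 1 ≤ K := by
    rw [hK]
    apply one_le_pow₀
    rw [le_div_iff₀ hδη]
    have hC1' : (1:ℝ) ≤ C := by exact_mod_cast hC1
    have : δ * η ≤ 1 := by
      have h6 : δ ≤ 1 := by
        rw [hδ, div_le_one (by positivity)]; nlinarith
      nlinarith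
    linarith
  have hα1 : α ≤ 2 * (4 * G + 21) ^ 4 * (8 * (C:ℝ)) ^ (5 * C) * t ^ (10 * C) := by
    have h6 : 4 * K * G + 21 ≤ (4 * G + 21) * K := by nlinarith
    calc α ≤ 2 * K * ((4 * G + 21) * K) ^ 4 := by rw [hα]; gcongr
      _ = 2 * (4 * G + 21) ^ 4 * K ^ 5 := by ring
      _ ≤ 2 * (4 * G + 21) ^ 4 * ((8 * (C:ℝ)) ^ C * t ^ (2 * C)) ^ 5 := by gcongr
      _ = _ := by
        rw [mul_pow, ← pow_mul, ← pow_mul]
        rw [show C * 5 = 5 * C by ring, show 2 * C * 5 = 10 * C by ring]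
        ring
  have hJ3 : (2 + (J : ℝ)) ^ (4 * C + 14) ≤ 3 ^ (4 * C + 14) * t ^ (4 * C + 14) := by
    rw [← mul_pow]
    gcongr
    linarith
  have hβ1 : β ≤ 16 * C₄ ^ 2 * t ^ 4 := by
    have e4 : β = 16 * C₄ ^ 2 * (1 / a) ^ 4 := by rw [hβ]; field_simp; ring
    rw [e4]; gcongr
  have hpE : ∀ n : ℕ, n ≤ E → t ^ n ≤ t ^ E := fun n hn => pow_le_pow_right₀ ht1 hn
  have hsum : α * (2 + (J : ℝ)) ^ (4 * C + 14) + β ≤ M * t ^ E := by
    calc α * (2 + (J : ℝ)) ^ (4 * C + 14) + β ≤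
        (2 * (4 * G + 21) ^ 4 * (8 * (C:ℝ)) ^ (5 * C) * t ^ (10 * C)) *
          (3 ^ (4 * C + 14) * t ^ (4 * C + 14)) + 16 * C₄ ^ 2 * t ^ 4 := by gcongr
      _ = (2 * (4 * G + 21) ^ 4 * (8 * (C:ℝ)) ^ (5 * C) * 3 ^ (4 * C + 14)) *
          t ^ (10 * C + (4 * C + 14)) + 16 * C₄ ^ 2 * t ^ 4 := by
          rw [pow_add t]; ring
      _ ≤ (2 * (4 * G + 21) ^ 4 * (8 * (C:ℝ)) ^ (5 * C) * 3 ^ (4 * C + 14)) *
          t ^ E + 16 * C₄ ^ 2 * t ^ E := by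
          have h7 := hpE (10 * C + (4 * C + 14)) (by omega)
          have h8 := hpE 4 (by omega)
          gcongr
      _ = _ := by rw [hM]; ring
  have hlast : M * t ^ E ≤ (A' * J / a) ^ A' := by
    have hA1 : (1:ℝ) ≤ A' := by exact_mod_cast (by omega : 1 ≤ A')
    have h9 : M ≤ A' := by
      refine (Nat.le_ceil M).trans ?_
      exact_mod_cast (by omega : ⌈M⌉₊ ≤ A')
    have e5 : (A' : ℝ) * J / a = A' * t := by rw [ht]; ring
    rw [e5, mul_pow]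
    have h10 : (A' : ℝ) ≤ (A' : ℝ) ^ A' := le_self_pow₀ hA1 (by omega)
    have h11 : t ^ E ≤ t ^ A' := pow_le_pow_right₀ ht1 (by omega)
    have h12 : M ≤ (A' : ℝ) ^ A' := h9.trans h10
    gcongr
  calc α * 2 ^ J * (2 + (J : ℝ)) ^ (4 * C + 14) + β * 2 ^ J =
      (α * (2 + (J : ℝ)) ^ (4 * C + 14) + β) * 2 ^ J := by ring
    _ ≤ (A' * J / a) ^ A' * 2 ^ J := by
      have := hsum.trans hlast
      gcongr

end Pool.Agent.ZD
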