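import Mathlib
import Pool.Agent.H26.Shift

/-!
Module Z, part 1: Cauchy formula on a strip.
-/

set_option autoImplicit false

open Complex MeasureTheory Set Filter Topology

namespace Pool.Agent.ZD

lemma integrable_exp_neg_abs : Integrable (fun y : ℝ => Real.exp (-|y|)) := by
  have h1 : IntegrableOn (fun y : ℝ => Real.exp (-|y|)) (Ioi 0) := by
    refine (integrableOn_exp_neg_Ioi 0).congr_fun ?_ measurableSet_Ioi
    intro y hy
    simp only [abs_of_pos (show (0:ℝ) < y from hy)]
  have h2 : IntegrableOn (fun y : ℝ => Real.exp (-|y|)) (Iic 0) := by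
    have h3 : IntegrableOn (fun y : ℝ => Real.exp y) (Iic 0) := integrableOn_exp_Iic 0
    refine h3.congr_fun ?_ measurableSet_Iic
    intro y hy
    simp only [abs_of_nonpos (show y ≤ 0 from hy), neg_neg]
  have h4 := h2.union h1
  rw [Iic_union_Ioi] at h4
  exact integrableOn_univ.mp h4

/-- `∫ e^{w²}/w` along a vertical line -/
lemma gauss_kernel {σ : ℝ} (hσ : 0 < σ) :
    ∫ y : ℝ, exp ((σ + y * I) ^ 2) / (σ + y * I) = Real.pi := by
  have h1 : ∀ y : ℝ, exp ((σ + y * I) ^ 2) / (σ + y * I) =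
      ∫ t in Ioi (0:ℝ), exp ((σ + y * I) ^ 2) * exp (-(σ + y * I) * t) := by
    intro y
    have hre : (-(σ + y * I) : ℂ).re < 0 := by simp; exact hσ
    have hne : (σ + y * I : ℂ) ≠ 0 := by
      intro h
      have := congrArg Complex.re h
      simp at this
      exact hσ.ne' this
    rw [integral_const_mul, integral_exp_mul_complex_Ioi hre]
    simp only [ofReal_zero, mul_zero, exp_zero]
    field_simp
  simp_rw [h1]
  have hnorm : ∀ y t : ℝ, ‖exp (((σ:ℂ) + y * I) ^ 2) * exp (-((σ:ℂ) + y * I) * t)‖ =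
      (Real.exp (σ ^ 2) * Real.exp (-1 * y ^ 2)) * Real.exp (-σ * t) := by
    intro y t
    rw [norm_mul, Complex.norm_exp, Complex.norm_exp, ← Real.exp_add, ← Real.exp_add,
      ← Real.exp_add]
    congr 1
    simp [pow_two]
    ring
  have hswap := integral_integral_swap (μ := (volume : Measure ℝ))
    (ν := (volume : Measure ℝ).restrict (Ioi (0:ℝ)))
    (f := fun (y t : ℝ) => exp (((σ:ℂ) + y * I) ^ 2) * exp (-((σ:ℂ) + y * I) * t)) (by
      have hi : Integrable (fun z : ℝ × ℝ => (Real.exp (σ ^ 2) * Real.exp (-1 * z.1 ^ 2)) *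
          Real.exp (-σ * z.2)) ((volume : Measure ℝ).prod ((volume : Measure ℝ).restrict (Ioi (0:ℝ)))) := by
        refine Integrable.mul_prod (f := fun y : ℝ => Real.exp (σ ^ 2) * Real.exp (-1 * y ^ 2))
          (g := fun t : ℝ => Real.exp (-σ * t)) ?_ ?_
        · exact (integrable_exp_neg_mul_sq one_pos).const_mul _
        · exact integrableOn_exp_mul_Ioi (by linarith) 0
      refine hi.mono' ?_ ?_
      · apply Continuous.aestronglyMeasurable
        unfold Function.uncurry
        fun_prop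
      · filter_upwards with z
        simp only [Function.uncurry]
        rw [hnorm])
  rw [hswap]
  have h2 : ∀ t : ℝ, ∫ y : ℝ, exp (((σ:ℂ) + y * I) ^ 2) * exp (-((σ:ℂ) + y * I) * t) =
      ((Real.sqrt Real.pi * Real.exp (-(1 / 4) * t ^ 2) : ℝ) : ℂ) := by
    intro t
    have h3 : ∀ y : ℝ, exp (((σ:ℂ) + y * I) ^ 2) * exp (-((σ:ℂ) + y * I) * t) =
        exp ((-1 : ℂ) * (y:ℂ) ^ 2 + ((2 * σ - t) * I) * y + (σ ^ 2 - σ * t)) := by
      intro y
      rw [← Complex.exp_add]
      congr 1
      have := I_sq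
      linear_combination ((y:ℂ) ^ 2) * this
    simp_rw [h3]
    rw [integral_cexp_quadratic (by simp)]
    have h4 : (Real.pi / -(-1 : ℂ)) ^ (1 / 2 : ℂ) = ((Real.sqrt Real.pi : ℝ) : ℂ) := by
      rw [Real.sqrt_eq_rpow, Complex.ofReal_cpow Real.pi_pos.le]
      norm_num
    rw [h4]
    push_cast
    congr 2
    have := I_sq
    linear_combination (((2:ℂ) * σ - t) ^ 2 / 4) * this
  simp_rw [h2]
  have h6 : ∫ t in Ioi (0:ℝ), ((Real.sqrt Real.pi * Real.exp (-(1 / 4) * t ^ 2) : ℝ) : ℂ) =
      ((∫ t in Ioi (0:ℝ), Real.sqrt Real.pi * Real.exp (-(1 / 4) * t ^ 2) : ℝ) : ℂ) :=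
    integral_ofReal
  rw [h6, integral_const_mul, integral_gaussian_Ioi]
  have h5 : Real.sqrt Real.pi * (Real.sqrt (Real.pi / (1 / 4)) / 2) = Real.pi := by
    have e : Real.pi / (1 / 4) = Real.pi * 2 ^ 2 := by ring
    rw [e, Real.sqrt_mul Real.pi_pos.le, Real.sqrt_sq (by norm_num)]
    have := Real.mul_self_sqrt Real.pi_pos.le
    linear_combination this
  rw [h5]

lemma gauss_kernel_neg {σ : ℝ} (hσ : 0 < σ) :
    ∫ y : ℝ, exp (((-σ : ℝ) + y * I : ℂ) ^ 2) / ((-σ : ℝ) + y * I : ℂ) = -Real.pi := by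
  rw [← gauss_kernel hσ, ← integral_neg, ← integral_neg_eq_self]
  apply integral_congr_ae
  filter_upwards with y
  have e : (((-σ : ℝ) : ℂ) + ((-y : ℝ) : ℂ) * I) = -((σ:ℂ) + y * I) := by push_cast; ring
  rw [e, neg_sq, div_neg]

/-- Cauchy's formula on a strip -/
theorem strip_formula {F : ℂ → ℂ} (hF : Differentiable ℂ F) {x K : ℝ} (hx : 0 < x) (hx1 : x ≤ 1)
    (hK : ∀ w : ℂ, -x ≤ w.re → w.re ≤ 2 → ‖F w‖ ≤ K * Real.exp (-|w.im|)) :
    2 * Real.pi * F 0 = (∫ y : ℝ, F ((2:ℝ) + y * I) / ((2:ℝ) + y * I)) -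
      ∫ y : ℝ, F ((-x : ℝ) + y * I) / ((-x : ℝ) + y * I) := by
  have hK0 : ‖F 0‖ ≤ K := by
    have := hK 0 (by simp; linarith) (by simp)
    simpa using this
  have hKnn : 0 ≤ K := (norm_nonneg _).trans hK0
  set h : ℂ → ℂ := fun w => F w - F 0 * exp (w ^ 2) with hh
  have hhd : Differentiable ℂ h := by
    rw [hh]; fun_prop
  have hh0 : h 0 = 0 := by simp [hh]
  set g : ℂ → ℂ := dslope h 0 with hg
  have hgd : Differentiable ℂ g := by
    have := (Complex.differentiableOn_dslope (f := h) (s := univ) (c := 0) univ_mem).mpr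
      hhd.differentiableOn
    rwa [differentiableOn_univ] at this
  have hgw : ∀ w : ℂ, w ≠ 0 → g w = F w / w - F 0 * (exp (w ^ 2) / w) := by
    intro w hw
    rw [hg, dslope_of_ne _ hw, slope_def_field, hh0, sub_zero, sub_zero, hh]
    simp only
    ring
  -- bound of h
  have hexp : ∀ w : ℂ, -x ≤ w.re → w.re ≤ 2 → ‖exp (w ^ 2)‖ ≤ Real.exp 5 * Real.exp (-|w.im|) := by
    intro w h1 h2
    rw [Complex.norm_exp, ← Real.exp_add]
    apply Real.exp_le_exp.mpr
    have e : (w ^ 2).re = w.re ^ 2 - w.im ^ 2 := by simp [pow_two]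
    rw [e]
    have h3 : w.re ^ 2 ≤ 4 := by nlinarith
    have h4 : |w.im| ^ 2 = w.im ^ 2 := sq_abs _
    nlinarith [sq_nonneg (|w.im| - 1), abs_nonneg w.im]
  have hhb : ∀ w : ℂ, -x ≤ w.re → w.re ≤ 2 → ‖h w‖ ≤ (K + K * Real.exp 5) * Real.exp (-|w.im|) := by
    intro w h1 h2
    rw [hh]
    simp only
    calc ‖F w - F 0 * exp (w ^ 2)‖ ≤ ‖F w‖ + ‖F 0‖ * ‖exp (w ^ 2)‖ := by
          rw [← norm_mul]; exact norm_sub_le _ _
      _ ≤ K * Real.exp (-|w.im|) + K * (Real.exp 5 * Real.exp (-|w.im|)) := by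
          gcongr
          · exact hK w h1 h2
          · exact hexp w h1 h2
      _ = _ := by ring
  obtain ⟨K2, hK2⟩ : ∃ K2 : ℝ, ∀ w : ℂ, ‖w‖ ≤ 3 → ‖g w‖ ≤ K2 := by
    obtain ⟨K2, hK2⟩ := (isCompact_closedBall (0:ℂ) 3).exists_bound_of_continuousOn
      hgd.continuous.continuousOn
    exact ⟨K2, fun w hw => hK2 w (by simpa using hw)⟩
  have hK2nn : 0 ≤ K2 := (norm_nonneg _).trans (hK2 0 (by simp))
  set K3 := K + K * Real.exp 5 + K2 * Real.exp 1 with hK3
  have hgb : ∀ u y : ℝ, -x ≤ u → u ≤ 2 → ‖g (u + y * I)‖ ≤ K3 * Real.exp (-|y|) := by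
    intro u y h1 h2
    rcases le_total 1 |y| with hy | hy
    · have hw : (u + y * I : ℂ) ≠ 0 := by
        intro h0
        have := congrArg Complex.im h0
        simp at this
        rw [this] at hy
        norm_num at hy
      have him : ‖(u + y * I : ℂ)‖ ≥ 1 := by
        have := Complex.abs_im_le_norm (u + y * I)
        simp at this
        linarith
      rw [hg, dslope_of_ne _ hw, slope_def_field, hh0, sub_zero, sub_zero, norm_div]
      have h3 := hhb (u + y * I) (by simpa using h1) (by simpa using h2)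
      simp only [add_im, ofReal_im, mul_im, ofReal_re, I_im, mul_one, I_re, mul_zero, add_zero,
        zero_add] at h3
      calc ‖h (u + y * I)‖ / ‖(u + y * I : ℂ)‖ ≤ ‖h (u + y * I)‖ := div_le_self (norm_nonneg _) him
        _ ≤ _ := h3
        _ ≤ _ := by
          apply mul_le_mul_of_nonneg_right _ (Real.exp_nonneg _)
          have : 0 ≤ K2 * Real.exp 1 := by positivity
          rw [hK3]
          linarith
    · have h3 : ‖(u + y * I : ℂ)‖ ≤ 3 := by
        refine (norm_add_le _ _).trans ?_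
        rw [norm_mul, norm_I, mul_one, Complex.norm_real, Complex.norm_real, Real.norm_eq_abs,
          Real.norm_eq_abs]
        have : |u| ≤ 2 := abs_le.mpr ⟨by linarith, h2⟩
        linarith
      refine (hK2 _ h3).trans ?_
      have h4 : K2 ≤ K2 * Real.exp 1 * Real.exp (-|y|) := by
        rw [mul_assoc, ← Real.exp_add]
        have : 1 ≤ Real.exp (1 + -|y|) := Real.one_le_exp (by linarith)
        nlinarith
      refine h4.trans ?_
      apply mul_le_mul_of_nonneg_right _ (Real.exp_nonneg _)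
      have : 0 ≤ K + K * Real.exp 5 := by positivity
      rw [hK3]
      linarith
  have hmt : Tendsto (fun y : ℝ => K3 * Real.exp (-|y|)) atTop (𝓝 0) := by
    rw [← mul_zero K3]
    apply Tendsto.const_mul
    exact Real.tendsto_exp_neg_atTop_nhds_zero.comp tendsto_abs_atTop_atTop
  have hmb : Tendsto (fun y : ℝ => K3 * Real.exp (-|y|)) atBot (𝓝 0) := by
    rw [← mul_zero K3]
    apply Tendsto.const_mul
    exact Real.tendsto_exp_neg_atTop_nhds_zero.comp tendsto_abs_atBot_atTop
  have hshift := Pool.Agent.H26.integral_vertical_shift (f := g) (a := -x) (b := 2) (by linarith)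
    (fun z _ _ => hgd z) (m := fun y => K3 * Real.exp (-|y|)) hgb
    (integrable_exp_neg_abs.const_mul _) hmt hmb
  -- integrability of the pieces
  have hcF : ∀ σ : ℝ, σ ≠ 0 → -x ≤ σ → σ ≤ 2 →
      Integrable (fun y : ℝ => F (σ + y * I) / (σ + y * I)) := by
    intro σ hσ h1 h2
    have hne : ∀ y : ℝ, (σ + y * I : ℂ) ≠ 0 := by
      intro y h0
      have := congrArg Complex.re h0
      simp at this
      exact hσ this
    refine Integrable.mono' ((integrable_exp_neg_abs.const_mul K).const_mul (1 / |σ|)) ?_ ?_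
    · apply Continuous.aestronglyMeasurable
      apply Continuous.div
      · exact hF.continuous.comp (by fun_prop)
      · fun_prop
      · exact hne
    · filter_upwards with y
      rw [norm_div, div_eq_mul_inv, mul_comm]
      have h3 := hK (σ + y * I) (by simpa using h1) (by simpa using h2)
      simp only [add_im, ofReal_im, mul_im, ofReal_re, I_im, mul_one, I_re, mul_zero, add_zero,
        zero_add] at h3
      have h4 : ‖(σ + y * I : ℂ)‖⁻¹ ≤ 1 / |σ| := by
        rw [one_div]
        apply inv_anti₀ (abs_pos.mpr hσ)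
        have := Complex.abs_re_le_norm (σ + y * I)
        simpa using this
      gcongr
  have hcE : ∀ σ : ℝ, σ ≠ 0 → -x ≤ σ → σ ≤ 2 →
      Integrable (fun y : ℝ => F 0 * (exp ((σ + y * I) ^ 2) / (σ + y * I))) := by
    intro σ hσ h1 h2
    have hne : ∀ y : ℝ, (σ + y * I : ℂ) ≠ 0 := by
      intro y h0
      have := congrArg Complex.re h0
      simp at this
      exact hσ this
    apply Integrable.const_mul
    refine Integrable.mono' ((integrable_exp_neg_abs.const_mul (Real.exp 5)).const_mul (1 / |σ|)) ?_ ?_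
    · apply Continuous.aestronglyMeasurable
      apply Continuous.div
      · fun_prop
      · fun_prop
      · exact hne
    · filter_upwards with y
      rw [norm_div, div_eq_mul_inv, mul_comm]
      have h3 := hexp (σ + y * I) (by simpa using h1) (by simpa using h2)
      simp only [add_im, ofReal_im, mul_im, ofReal_re, I_im, mul_one, I_re, mul_zero, add_zero,
        zero_add] at h3
      have h4 : ‖(σ + y * I : ℂ)‖⁻¹ ≤ 1 / |σ| := by
        rw [one_div]
        apply inv_anti₀ (abs_pos.mpr hσ)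
        have := Complex.abs_re_le_norm (σ + y * I)
        simpa using this
      gcongr
  have hsplit : ∀ σ : ℝ, σ ≠ 0 → -x ≤ σ → σ ≤ 2 → ∫ y : ℝ, g (σ + y * I) =
      (∫ y : ℝ, F (σ + y * I) / (σ + y * I)) -
        F 0 * ∫ y : ℝ, exp ((σ + y * I) ^ 2) / (σ + y * I) := by
    intro σ hσ h1 h2
    rw [← integral_const_mul, ← integral_sub (hcF σ hσ h1 h2) (hcE σ hσ h1 h2)]
    apply integral_congr_ae
    filter_upwards with y
    apply hgw
    intro h0
    have := congrArg Complex.re h0
    simp at this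
    exact hσ this
  rw [hsplit 2 (by norm_num) (by linarith) le_rfl, hsplit (-x) (by linarith) le_rfl (by linarith),
    gauss_kernel (by norm_num : (0:ℝ) < 2), gauss_kernel_neg hx] at hshift
  linear_combination (-1 : ℂ) * hshift

end Pool.Agent.ZD
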