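import Mathlib
import Pool.Agent.ZD.Defs
import Pool.Agent.H6.MeanSqC

/-!
Module Z, part 2: the mollified Dirichlet series and the mean square of the mollifier.
-/

set_option autoImplicit false

open Complex MeasureTheory Set Filter Topology

namespace Pool.Agent.ZD

open Pool.Agent.H5 (c bd Lser bd_zero)
open Pool.Agent.H6

/-! ### The product of `L` and the mollifier -/

lemma lin_coef : ∃ C : ℝ, 1 ≤ C ∧ ∀ (d : ℤ) (n : ℕ), |(bd d n : ℝ)| ≤ C * n ∧
    ∀ Y : ℕ, |(aY d Y n : ℝ)| ≤ C * n := by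
  obtain ⟨C, hC, h⟩ := coef_bound (ε := 1 / 2) (by norm_num)
  refine ⟨C, hC, fun d n => ⟨?_, fun Y => ?_⟩⟩
  · rcases Nat.eq_zero_or_pos n with rfl | hn
    · simp [bd_zero]
    · have := (h d n hn.ne').1
      norm_num at this
      exact this
  · rcases Nat.eq_zero_or_pos n with rfl | hn
    · simp [aY_zero]
    · have := (h d n hn.ne').2.2 Y
      norm_num at this
      exact this

lemma norm_npow {s : ℂ} (hs : 3 ≤ s.re) {n : ℕ} (hn : n ≠ 0) :
    ‖(n : ℂ) ^ (-s)‖ ≤ ((n : ℝ) ^ 3)⁻¹ := by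
  have hn0 : 0 < n := Nat.pos_of_ne_zero hn
  rw [Complex.norm_natCast_cpow_of_pos hn0, Complex.neg_re, Real.rpow_neg (by positivity)]
  apply inv_anti₀ (by positivity)
  have h1 : (1:ℝ) ≤ n := by exact_mod_cast hn0
  have := Real.rpow_le_rpow_of_exponent_le h1 hs
  have h3 : (n:ℝ) ^ (3:ℝ) = (n:ℝ) ^ 3 := by
    rw [← Real.rpow_natCast]; norm_num
  rwa [h3] at this

lemma term_le {s : ℂ} (hs : 3 ≤ s.re) {C : ℝ} {n : ℕ} {a : ℝ} (ha : |a| ≤ C * n) :
    ‖(a : ℂ) * (n : ℂ) ^ (-s)‖ ≤ C * ((n : ℝ) ^ 2)⁻¹ := by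
  rcases Nat.eq_zero_or_pos n with rfl | hn
  · have : a = 0 := by simpa using ha
    rw [this]; simp
  · have hn0 : (0:ℝ) < n := by exact_mod_cast hn
    rw [norm_mul, Complex.norm_real, Real.norm_eq_abs]
    calc |a| * ‖(n : ℂ) ^ (-s)‖ ≤ (C * n) * ((n : ℝ) ^ 3)⁻¹ := by
          gcongr
          · exact (abs_nonneg _).trans ha
          · exact norm_npow hs hn.ne'
      _ = C * ((n : ℝ) ^ 2)⁻¹ := by
          field_simp

lemma summable_inv_sq' (C : ℝ) : Summable (fun n : ℕ => C * ((n : ℝ) ^ 2)⁻¹) :=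
  (Real.summable_nat_pow_inv.mpr (by norm_num)).mul_left C

lemma Lser_mul_mol (d : ℤ) (Y : ℕ) {s : ℂ} (hs : 3 ≤ s.re) :
    Summable (fun n : ℕ => ((aY d Y n : ℝ) : ℂ) * (n : ℂ) ^ (-s)) ∧
    Lser d s * mol d Y s = ∑' n : ℕ, ((aY d Y n : ℝ) : ℂ) * (n : ℂ) ^ (-s) := by
  obtain ⟨C, hC, hcb⟩ := lin_coef
  have hsumA : Summable (fun n : ℕ => ((aY d Y n : ℝ) : ℂ) * (n : ℂ) ^ (-s)) := by
    refine Summable.of_norm_bounded (summable_inv_sq' C) fun n => ?_
    exact term_le hs ((hcb d n).2 Y)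
  refine ⟨hsumA, ?_⟩
  -- one multiple
  have hone : ∀ m ∈ Finset.Icc 1 Y,
      HasSum (fun n : ℕ => (((mb d m : ℝ) * (if m ∣ n then bR d (n / m) else 0) : ℝ) : ℂ) *
        (n : ℂ) ^ (-s)) (Lser d s * ((mb d m : ℂ) * (m : ℂ) ^ (-s))) := by
    intro m hm
    have hm1 : 1 ≤ m := (Finset.mem_Icc.mp hm).1
    have hinj : Function.Injective (fun k : ℕ => m * k) := fun a b h => by
      exact Nat.eq_of_mul_eq_mul_left hm1 h
    have hb : HasSum (fun k : ℕ => ((mb d m : ℂ) * (m : ℂ) ^ (-s)) *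
        ((bd d k : ℂ) * (k : ℂ) ^ (-s))) (((mb d m : ℂ) * (m : ℂ) ^ (-s)) * Lser d s) := by
      apply HasSum.mul_left
      apply Summable.hasSum
      refine Summable.of_norm_bounded (summable_inv_sq' C) fun n => ?_
      have := term_le hs (a := (bd d n : ℝ)) (hcb d n).1
      simpa using this
    rw [mul_comm]
    have hcomp : (fun k : ℕ => ((mb d m : ℂ) * (m : ℂ) ^ (-s)) * ((bd d k : ℂ) * (k : ℂ) ^ (-s))) =
        (fun n : ℕ => (((mb d m : ℝ) * (if m ∣ n then bR d (n / m) else 0) : ℝ) : ℂ) *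
        (n : ℂ) ^ (-s)) ∘ (fun k : ℕ => m * k) := by
      funext k
      simp only [Function.comp]
      rw [if_pos (Dvd.intro k rfl), Nat.mul_div_cancel_left k hm1]
      push_cast
      rw [Complex.natCast_mul_natCast_cpow]
      unfold bR
      push_cast
      ring
    rw [hcomp] at hb
    refine (hinj.hasSum_iff ?_).mp hb
    intro n hn
    have : ¬ m ∣ n := by
      rintro ⟨k, hk⟩
      exact hn ⟨k, hk.symm⟩
    simp [this]
  have h2 := hasSum_sum hone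
  rw [← Finset.mul_sum] at h2
  change HasSum _ (Lser d s * mol d Y s) at h2
  rw [← h2.tsum_eq]
  congr 1
  funext n
  rw [aY_eq_sum, ← Finset.sum_mul]
  push_cast
  rfl

/-- the mollified series is close to one -/
theorem mol_right : ∃ C : ℝ, 0 < C ∧ ∀ (d : ℤ) (Y : ℕ) (s : ℂ), 1 ≤ Y → 3 ≤ s.re →
    ‖Lser d s * mol d Y s - 1‖ ≤ C / Y := by
  obtain ⟨C, hC, hcb⟩ := lin_coef
  refine ⟨C, by linarith, fun d Y s hY hs => ?_⟩
  obtain ⟨hsum, hprod⟩ := Lser_mul_mol d Y hs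
  have h1 : HasSum (fun n : ℕ => if n = 1 then (1:ℂ) else 0) 1 := hasSum_ite_eq 1 1
  rw [hprod, ← h1.tsum_eq, ← hsum.tsum_sub h1.summable]
  have hf : ∀ n : ℕ, ‖((aY d Y n : ℝ) : ℂ) * (n : ℂ) ^ (-s) - (if n = 1 then (1:ℂ) else 0)‖ ≤
      if n ≤ Y then 0 else C * ((n : ℝ) ^ 2)⁻¹ := by
    intro n
    split_ifs with h1 h2 h2
    · subst h1
      rw [aY_one d hY]; simp
    · rw [h1, aY_one d hY] ; simp
      omega
    · rcases Nat.eq_zero_or_pos n with rfl | hn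
      · simp [aY_zero]
      · rw [aY_of_le d (by omega) h2]; simp
    · rw [sub_zero]
      exact term_le hs ((hcb d n).2 Y)
  have hsumf : Summable (fun n : ℕ => if n ≤ Y then 0 else C * ((n : ℝ) ^ 2)⁻¹) := by
    refine Summable.of_nonneg_of_le (fun n => ?_) (fun n => ?_) (summable_inv_sq' C)
    · split_ifs <;> positivity
    · split_ifs
      · positivity
      · exact le_rfl
  refine (tsum_of_norm_bounded hsumf.hasSum hf).trans ?_
  apply Real.tsum_le_of_sum_range_le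
  · intro n; split_ifs <;> positivity
  · intro M
    have hYr : (0:ℝ) < Y := by exact_mod_cast hY
    rcases Nat.lt_or_ge M (Y + 1) with hM | hM
    · have : ∑ n ∈ Finset.range M, (if n ≤ Y then 0 else C * ((n : ℝ) ^ 2)⁻¹) = 0 := by
        apply Finset.sum_eq_zero
        intro n hn
        rw [if_pos (by have := Finset.mem_range.mp hn; omega)]
      rw [this]; positivity
    · have h2 : ∑ n ∈ Finset.range M, (if n ≤ Y then 0 else C * ((n : ℝ) ^ 2)⁻¹) ≤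
          ∑ n ∈ Finset.Ioc Y M, C * ((n : ℝ) ^ 2)⁻¹ := by
        have h3 : ∑ n ∈ Finset.range M, (if n ≤ Y then 0 else C * ((n : ℝ) ^ 2)⁻¹) =
            ∑ n ∈ (Finset.range M).filter (fun n => ¬ n ≤ Y), C * ((n : ℝ) ^ 2)⁻¹ := by
          rw [Finset.sum_filter]
          apply Finset.sum_congr rfl
          intro n _
          by_cases h : n ≤ Y <;> simp [h]
        rw [h3]
        apply Finset.sum_le_sum_of_subset_of_nonneg
        · intro n hn
          simp only [Finset.mem_filter, Finset.mem_range, Finset.mem_Ioc] at hn ⊢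
          omega
        · intro n _ _
          positivity
      refine h2.trans ?_
      rw [← Finset.mul_sum]
      have h4 := sum_Ioc_inv_sq_le_sub (α := ℝ) (k := Y) (n := M) (by omega) (by omega)
      have h5 : (0:ℝ) ≤ (M:ℝ)⁻¹ := by positivity
      calc C * ∑ i ∈ Finset.Ioc Y M, ((i:ℝ) ^ 2)⁻¹ ≤ C * (Y:ℝ)⁻¹ := by
            gcongr
            linarith
        _ = C / Y := by rw [div_eq_mul_inv]

/-! ### The mollifier as a character sum -/

lemma c_two : c 2 = 0 := by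
  have h := bd_bad 1 Nat.prime_two (by unfold Good; simp) (e := 1) one_ne_zero
  rw [pow_one] at h
  unfold bd at h
  rw [jacobiSym.one_left, one_mul] at h
  exact h

lemma mloc_eq (d : ℤ) {p : ℕ} (hp : p.Prime) (k : ℕ) :
    mloc d p k = jacobiSym d (p ^ k) * mloc 1 p k := by
  have hf := Fact.mk hp
  unfold mloc
  by_cases h0 : k = 0
  · subst h0; simp
  rw [if_neg h0, if_neg h0]
  by_cases h1 : k = 1
  · subst h1
    rw [if_pos rfl, if_pos rfl, pow_one]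
    unfold bd
    rw [jacobiSym.one_left]
    ring
  rw [if_neg h1, if_neg h1]
  by_cases h2 : k = 2
  · subst h2
    rw [if_pos rfl, if_pos rfl]
    by_cases hp2 : p = 2
    · subst hp2
      have g1 : ¬ Good d 2 := by unfold Good; simp
      have g2 : ¬ Good 1 2 := by unfold Good; simp
      rw [if_neg g1, if_neg g2, mul_zero]
    · have g2 : Good 1 p := by
        unfold Good
        refine ⟨hp2, fun h => ?_⟩
        have := Int.isUnit_iff.mp (isUnit_of_dvd_one h)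
        rcases this with h | h
        · have : p = 1 := by exact_mod_cast h
          exact hp.one_lt.ne' this
        · omega
      rw [if_pos g2]
      have hj : jacobiSym d (p ^ 2) = jacobiSym d p ^ 2 := jacobiSym.pow_right d p 2
      rw [hj, ← jacobiSym.legendreSym.to_jacobiSym]
      by_cases hd : (p : ℤ) ∣ d
      · have g1 : ¬ Good d p := by unfold Good; push Not; intro _; exact hd
        rw [if_neg g1, (legendreSym.eq_zero_iff p d).mpr
          ((ZMod.intCast_zmod_eq_zero_iff_dvd d p).mpr hd)]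
        ring
      · have g1 : Good d p := ⟨hp2, hd⟩
        have h3 : ((d : ℤ) : ZMod p) ≠ 0 := fun h =>
          hd ((ZMod.intCast_zmod_eq_zero_iff_dvd d p).mp h)
        rw [if_pos g1, legendreSym.sq_one p h3]
        ring
  · rw [if_neg h2, if_neg h2, mul_zero]

lemma mb_eq (d : ℤ) (n : ℕ) : mb d n = jacobiSym d n * mb 1 n := by
  induction n using Nat.recOnPosPrimePosCoprime with
  | prime_pow p k hp hk =>
    rw [mb_prime_pow d hp, mb_prime_pow 1 hp, mloc_eq d hp]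
  | zero => simp [mb_zero]
  | one => simp [mb_one]
  | coprime a b ha hb hab iha ihb =>
    rw [mb_mul d hab, mb_mul 1 hab, iha, ihb]
    have : NeZero a := ⟨by omega⟩
    have : NeZero b := ⟨by omega⟩
    rw [jacobiSym.mul_right]
    ring

lemma mb_even (d : ℤ) {n : ℕ} (hn : Even n) : mb d n = 0 := by
  rcases Nat.eq_zero_or_pos n with rfl | hpos
  · exact mb_zero d
  · obtain ⟨k, m, hm, rfl⟩ := Nat.exists_eq_two_pow_mul_odd hpos.ne'
    have hk : k ≠ 0 := by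
      rintro rfl
      rw [pow_zero, one_mul] at hn
      exact (Nat.not_even_iff_odd.mpr hm) hn
    rw [mb_mul d (Nat.Coprime.pow_left k (Nat.coprime_two_left.mpr hm)),
      mb_prime_pow d Nat.prime_two]
    have : mloc d 2 k = 0 := by
      unfold mloc
      rw [if_neg hk]
      split_ifs with h1 h2 h3
      · have : bd d 2 = 0 := by
          unfold bd; rw [c_two, mul_zero]
        rw [this, neg_zero]
      · exact absurd rfl h3.1
      · rfl
      · rfl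
    rw [this, zero_mul]

/-! ### Mean squares -/

/-- the statement of module O on character sums -/
def OrthoSt : Prop := ∀ (X Y : ℕ) (b : ℕ → ℂ), (∀ n, Even n → b n = 0) →
    ∑ d ∈ Finset.Icc 1 X, ‖∑ n ∈ Finset.Icc 1 Y, b n * (jacobiSym d n : ℂ)‖ ^ 2 ≤
      X * (∑ p ∈ (Finset.Icc 1 Y ×ˢ Finset.Icc 1 Y).filter (fun p : ℕ × ℕ => IsSquare (p.1 * p.2)),
        ‖b p.1‖ * ‖b p.2‖) + (∑ n ∈ Finset.Icc 1 Y, ‖b n‖ * n) ^ 2

/-- the statement of module O on square sums -/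
def SquareSt : Prop := ∀ K : ℕ, ∃ C : ℕ, ∀ η : ℝ, 0 < η → η ≤ 1 →
    Summable (fun p : ℕ × ℕ => if IsSquare (p.1 * p.2) then
      ((p.1.divisors.card * p.2.divisors.card : ℕ) : ℝ) ^ K *
        ((p.1 * p.2 : ℕ) : ℝ) ^ (-(1 / 2 + η)) else 0) ∧
    ∑' p : ℕ × ℕ, (if IsSquare (p.1 * p.2) then
      ((p.1.divisors.card * p.2.divisors.card : ℕ) : ℝ) ^ K *
        ((p.1 * p.2 : ℕ) : ℝ) ^ (-(1 / 2 + η)) else 0) ≤ (C / η) ^ C

lemma norm_bcoef {η t : ℝ} {n : ℕ} (hn : 1 ≤ n) :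
    ‖((mb 1 n : ℂ) * (n : ℂ) ^ (-(1 + η + t * I : ℂ)))‖ ≤
      (n.divisors.card : ℝ) * (n : ℝ) ^ (-(1 / 2 + η)) := by
  have hn0 : (0:ℝ) < n := by exact_mod_cast hn
  have hn1 : n ≠ 0 := by omega
  rw [norm_mul, Complex.norm_natCast_cpow_of_pos (by omega)]
  have h1 : ‖(mb 1 n : ℂ)‖ = |(mb 1 n : ℝ)| := Complex.norm_intCast _
  have h2 : (-(1 + η + t * I : ℂ)).re = -(1 + η) := by simp
  rw [h1, h2]
  have h3 := mb_tau 1 hn1
  unfold Pool.Agent.H6.tau at h3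
  calc |(mb 1 n : ℝ)| * (n:ℝ) ^ (-(1 + η)) ≤ ((n.divisors.card : ℝ) * √n) * (n:ℝ) ^ (-(1 + η)) := by
        gcongr
    _ = (n.divisors.card : ℝ) * (n : ℝ) ^ (-(1 / 2 + η)) := by
        rw [Real.sqrt_eq_rpow, mul_assoc, ← Real.rpow_add hn0]
        congr 2
        ring

/-- mean square of the mollifier over the family, at a point -/
theorem mol_family (hO : OrthoSt) (hS : SquareSt) : ∃ C : ℕ, 1 ≤ C ∧
    ∀ (X Y : ℕ) (η t : ℝ), 0 < η → η ≤ 1 → 1 ≤ X → (Y : ℝ) ^ 4 ≤ X →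
    ∑ d ∈ Finset.Icc 1 X, ‖mol d Y (1 + η + t * I)‖ ^ 2 ≤ X * (C / η) ^ C := by
  obtain ⟨C1, hC1⟩ := hS 1
  obtain ⟨C2, hC2, htau⟩ := tau_le_rpow (ε := 1 / 2) (by norm_num)
  set C3 := ⌈C2⌉₊ with hC3
  have hC3' : C2 ≤ C3 := Nat.le_ceil _
  refine ⟨C1 + C3 ^ 2 + 1, by omega, fun X Y η t hη hη1 hX hY => ?_⟩
  set b : ℕ → ℂ := fun n => (mb 1 n : ℂ) * (n : ℂ) ^ (-(1 + η + t * I : ℂ)) with hb
  have h1 := hO X Y b (fun n hn => by rw [hb]; simp only; rw [mb_even 1 hn]; simp)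
  have h2 : ∀ d : ℕ, mol d Y (1 + η + t * I) = ∑ n ∈ Finset.Icc 1 Y, b n * (jacobiSym d n : ℂ) := by
    intro d
    unfold mol
    apply Finset.sum_congr rfl
    intro n _
    rw [mb_eq, hb]
    push_cast
    ring
  simp_rw [h2]
  refine h1.trans ?_
  -- the square part
  have h3 : ∑ p ∈ (Finset.Icc 1 Y ×ˢ Finset.Icc 1 Y).filter (fun p : ℕ × ℕ => IsSquare (p.1 * p.2)),
        ‖b p.1‖ * ‖b p.2‖ ≤ (C1 / η) ^ C1 := by
    refine le_trans ?_ (hC1 η hη hη1).2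
    have h4 : ∑ p ∈ (Finset.Icc 1 Y ×ˢ Finset.Icc 1 Y).filter
        (fun p : ℕ × ℕ => IsSquare (p.1 * p.2)), ‖b p.1‖ * ‖b p.2‖ ≤
        ∑ p ∈ (Finset.Icc 1 Y ×ˢ Finset.Icc 1 Y).filter (fun p : ℕ × ℕ => IsSquare (p.1 * p.2)),
        (if IsSquare (p.1 * p.2) then
      ((p.1.divisors.card * p.2.divisors.card : ℕ) : ℝ) ^ 1 *
        ((p.1 * p.2 : ℕ) : ℝ) ^ (-(1 / 2 + η)) else 0) := by
      apply Finset.sum_le_sum
      intro p hp
      simp only [Finset.mem_filter, Finset.mem_product, Finset.mem_Icc] at hp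
      rw [if_pos hp.2, pow_one]
      have e1 := norm_bcoef (η := η) (t := t) hp.1.1.1
      have e2 := norm_bcoef (η := η) (t := t) hp.1.2.1
      calc ‖b p.1‖ * ‖b p.2‖ ≤ ((p.1.divisors.card : ℝ) * (p.1 : ℝ) ^ (-(1 / 2 + η))) *
            ((p.2.divisors.card : ℝ) * (p.2 : ℝ) ^ (-(1 / 2 + η))) := by
            gcongr
        _ = _ := by
            push_cast
            rw [Real.mul_rpow (by positivity) (by positivity)]
            ring
    refine h4.trans ?_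
    apply (hC1 η hη hη1).1.sum_le_tsum
    intro p _
    split_ifs <;> positivity
  -- the remainder
  have h5 : ∑ n ∈ Finset.Icc 1 Y, ‖b n‖ * n ≤ C3 * (Y:ℝ) ^ 2 := by
    have h6 : ∀ n ∈ Finset.Icc 1 Y, ‖b n‖ * n ≤ C3 * Y := by
      intro n hn
      have hn1 := (Finset.mem_Icc.mp hn).1
      have hnY : (n:ℝ) ≤ Y := by exact_mod_cast (Finset.mem_Icc.mp hn).2
      have hn0 : (0:ℝ) < n := by exact_mod_cast hn1
      have hn1' : (1:ℝ) ≤ n := by exact_mod_cast hn1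
      have e1 := norm_bcoef (η := η) (t := t) hn1
      have e2 := htau n (by omega)
      unfold Pool.Agent.H6.tau at e2
      calc ‖b n‖ * n ≤ ((n.divisors.card : ℝ) * (n : ℝ) ^ (-(1 / 2 + η))) * n := by gcongr
        _ ≤ ((C2 * (n:ℝ) ^ (1 / 2 : ℝ)) * (n : ℝ) ^ (-(1 / 2) : ℝ)) * n := by
            have e3 : (n : ℝ) ^ (-(1 / 2 + η)) ≤ (n : ℝ) ^ (-(1 / 2) : ℝ) :=
              Real.rpow_le_rpow_of_exponent_le hn1' (by linarith)
            gcongr
        _ = C2 * n := by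
            rw [mul_assoc C2, ← Real.rpow_add hn0]
            norm_num
        _ ≤ C3 * Y := by gcongr
    refine (Finset.sum_le_sum h6).trans ?_
    rw [Finset.sum_const, Nat.card_Icc, nsmul_eq_mul]
    simp only [Nat.add_sub_cancel]
    apply le_of_eq
    ring
  have h7 : (∑ n ∈ Finset.Icc 1 Y, ‖b n‖ * n) ^ 2 ≤ (C3 : ℝ) ^ 2 * X := by
    have h8 : 0 ≤ ∑ n ∈ Finset.Icc 1 Y, ‖b n‖ * n := Finset.sum_nonneg fun n _ => by positivity
    calc (∑ n ∈ Finset.Icc 1 Y, ‖b n‖ * n) ^ 2 ≤ (C3 * (Y:ℝ) ^ 2) ^ 2 := by gcongr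
      _ = (C3 : ℝ) ^ 2 * (Y:ℝ) ^ 4 := by ring
      _ ≤ _ := by gcongr
  set C := C1 + C3 ^ 2 + 1 with hC
  have hCr : ((C : ℕ) : ℝ) = C1 + (C3:ℝ) ^ 2 + 1 := by rw [hC]; push_cast; ring
  have hCη : 1 ≤ (C : ℝ) / η := by
    rw [le_div_iff₀ hη, hCr]
    have : (0:ℝ) ≤ (C1:ℝ) + (C3:ℝ) ^ 2 := by positivity
    linarith
  have h9 : (C1 / η) ^ C1 + (C3:ℝ) ^ 2 ≤ (C / η) ^ C := by
    have e1 : ((C1:ℝ) / η) ^ C1 ≤ (C / η) ^ C1 := by
      have e0 : (C1:ℝ) ≤ C := by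
        rw [hCr]
        have : (0:ℝ) ≤ (C3:ℝ) ^ 2 := by positivity
        linarith
      gcongr
    have e2 : (C3:ℝ) ^ 2 ≤ C / η - 1 := by
      have : (C : ℝ) ≤ C / η := by
        rw [le_div_iff₀ hη]
        have : (0:ℝ) ≤ C := by positivity
        nlinarith
      rw [hCr] at this ⊢
      have : (0:ℝ) ≤ C1 := by positivity
      linarith
    have e3 : (C / η) ^ (C1 + 1) ≤ ((C:ℝ) / η) ^ C := pow_le_pow_right₀ hCη (by omega)
    have e4 : 1 ≤ ((C:ℝ) / η) ^ C1 := one_le_pow₀ hCη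
    rw [pow_succ] at e3
    nlinarith
  calc X * (∑ p ∈ (Finset.Icc 1 Y ×ˢ Finset.Icc 1 Y).filter
        (fun p : ℕ × ℕ => IsSquare (p.1 * p.2)), ‖b p.1‖ * ‖b p.2‖) +
        (∑ n ∈ Finset.Icc 1 Y, ‖b n‖ * n) ^ 2 ≤ X * (C1 / η) ^ C1 + (C3 : ℝ) ^ 2 * X := by gcongr
    _ = X * ((C1 / η) ^ C1 + (C3:ℝ) ^ 2) := by ring
    _ ≤ X * (C / η) ^ C := by gcongr

/-- weighted mean square of the mollifier on a line -/
noncomputable def KK (Y : ℕ) (η : ℝ) (d : ℕ) : ℝ :=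
  ∫ t : ℝ, ‖mol d Y (1 + η + t * I)‖ ^ 2 * (1 + t ^ 2)⁻¹

lemma norm_mol_le (d : ℤ) (Y : ℕ) {s : ℂ} (hs : 0 ≤ s.re) :
    ‖mol d Y s‖ ≤ ∑ m ∈ Finset.Icc 1 Y, |(mb d m : ℝ)| := by
  unfold mol
  refine (norm_sum_le _ _).trans (Finset.sum_le_sum fun m hm => ?_)
  have hm1 := (Finset.mem_Icc.mp hm).1
  rw [norm_mul, Complex.norm_natCast_cpow_of_pos (by omega)]
  have h1 : ‖(mb d m : ℂ)‖ = |(mb d m : ℝ)| := Complex.norm_intCast _
  rw [h1]
  have h2 : (m:ℝ) ^ (-s).re ≤ 1 := by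
    apply Real.rpow_le_one_of_one_le_of_nonpos
    · exact_mod_cast hm1
    · simpa using hs
  calc |(mb d m : ℝ)| * (m:ℝ) ^ (-s).re ≤ |(mb d m : ℝ)| * 1 := by gcongr
    _ = _ := mul_one _

lemma continuous_mol_line (d : ℤ) (Y : ℕ) (η : ℝ) :
    Continuous (fun t : ℝ => mol d Y (1 + η + t * I)) :=
  (differentiable_mol d Y).continuous.comp (by fun_prop)

lemma KK_integrable (d Y : ℕ) {η : ℝ} (hη : 0 < η) :
    Integrable (fun t : ℝ => ‖mol d Y (1 + η + t * I)‖ ^ 2 * (1 + t ^ 2)⁻¹) := by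
  refine (integrable_inv_one_add_sq.const_mul ((∑ m ∈ Finset.Icc 1 Y, |(mb d m : ℝ)|) ^ 2)).mono' ?_ ?_
  · apply Continuous.aestronglyMeasurable
    apply Continuous.mul
    · exact (continuous_mol_line d Y η).norm.pow 2
    · apply Continuous.inv₀ (by fun_prop)
      intro t; positivity
  · filter_upwards with t
    rw [Real.norm_of_nonneg (by positivity)]
    gcongr
    apply norm_mol_le
    simp; linarith

theorem KK_sum (hO : OrthoSt) (hS : SquareSt) : ∃ C : ℕ, 1 ≤ C ∧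
    ∀ (X Y : ℕ) (η : ℝ), 0 < η → η ≤ 1 → 1 ≤ X → (Y : ℝ) ^ 4 ≤ X →
    ∑ d ∈ Finset.Icc 1 X, KK Y η d ≤ Real.pi * (X * (C / η) ^ C) := by
  obtain ⟨C, hC, h⟩ := mol_family hO hS
  refine ⟨C, hC, fun X Y η hη hη1 hX hY => ?_⟩
  unfold KK
  rw [← integral_finset_sum _ (fun d _ => KK_integrable d Y hη)]
  have h1 : ∫ t : ℝ, (X * (C / η) ^ C) * (1 + t ^ 2)⁻¹ = Real.pi * (X * (C / η) ^ C) := by
    rw [integral_const_mul, integral_univ_inv_one_add_sq]
    ring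
  rw [← h1]
  apply integral_mono
  · exact integrable_finset_sum _ fun d _ => KK_integrable d Y hη
  · exact integrable_inv_one_add_sq.const_mul _
  · intro t
    simp only
    rw [← Finset.sum_mul]
    gcongr
    exact h X Y η t hη hη1 hX hY

end Pool.Agent.ZD
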