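import Mathlib
import Pool.Agent.ZD.F
import Pool.Agent.ZD.Z1
import Pool.Agent.ZD.Z2
import Pool.Agent.H6.EdStrip

/-!
Module Z, part 3: zero detection.
-/

set_option autoImplicit false

open Complex MeasureTheory Set Filter Topology

namespace Pool.Agent.ZD

open Pool.Agent.H5 (c bd Lser)
open Pool.Agent.H6

/-- Cauchy-Schwarz for continuous nonnegative functions on the line -/
lemma cs_line {f g : ℝ → ℝ} (hf : Continuous f) (hg : Continuous g) (hf0 : ∀ x, 0 ≤ f x)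
    (hg0 : ∀ x, 0 ≤ g x) (hfi : Integrable (fun x => f x ^ 2)) (hgi : Integrable (fun x => g x ^ 2)) :
    ∫ x, f x * g x ≤ √(∫ x, f x ^ 2) * √(∫ x, g x ^ 2) := by
  have hp : (2:ℝ).HolderConjugate 2 := Real.HolderConjugate.two_two
  have e2 : ENNReal.ofReal 2 = 2 := by norm_num
  have hfm : MemLp f (ENNReal.ofReal 2) := by
    rw [e2, memLp_two_iff_integrable_sq hf.aestronglyMeasurable]
    exact hfi
  have hgm : MemLp g (ENNReal.ofReal 2) := by
    rw [e2, memLp_two_iff_integrable_sq hg.aestronglyMeasurable]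
    exact hgi
  have := integral_mul_le_Lp_mul_Lq_of_nonneg hp (ae_of_all _ hf0) (ae_of_all _ hg0) hfm hgm
  rw [Real.sqrt_eq_rpow, Real.sqrt_eq_rpow]
  simpa using this

/-- a zero to the right of `1 + 2η` makes the mollified function large -/
theorem star_main : ∃ C : ℝ, 1 ≤ C ∧ ∀ (X J d : ℕ) (T β : ℝ) (ρ : ℂ), 3 ≤ X → 1 ≤ J → X ≤ 2 ^ J →
    1 ≤ T → Squarefree d → Lf d ρ = 0 → 1 + β ≤ ρ.re → 1 / (J : ℝ) < β → |ρ.im| ≤ T →
    (X : ℝ) ^ (β / 8) ≤ C * J * (1 + T * (MM (1 / (8 * T)) (1 / (2 * J)) d *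
      √(KK ⌊(X : ℝ) ^ (1 / 4 : ℝ)⌋₊ (1 / (2 * J)) d))) := by
  obtain ⟨C1, hC1, hright⟩ := mol_right
  set c0 : ℝ := 1 / (1 + 2 * (C1 * Real.exp 4)) with hc0
  have hE4 : 0 < Real.exp 4 := Real.exp_pos 4
  have hc00 : 0 < c0 := by rw [hc0]; positivity
  have hc01 : c0 ≤ 1 := by
    rw [hc0, div_le_one (by positivity)]
    have : 0 ≤ 2 * (C1 * Real.exp 4) := by positivity
    linarith
  refine ⟨96 / c0, by rw [le_div_iff₀ hc00]; linarith, ?_⟩
  intro X J d T β ρ hX hJ hXJ hT hd hρ0 hρ hβ hρT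
  have hXr : (3:ℝ) ≤ X := by exact_mod_cast hX
  have hX0 : (0:ℝ) < X := by linarith
  have hJr : (1:ℝ) ≤ J := by exact_mod_cast hJ
  have hJ0 : (0:ℝ) < J := by linarith
  set Y := ⌊(X : ℝ) ^ (1 / 4 : ℝ)⌋₊ with hY
  set η : ℝ := 1 / (2 * J) with hη
  set a : ℝ := 1 / (8 * T) with ha
  have hη0 : 0 < η := by rw [hη]; positivity
  have hη1 : η ≤ 1 / 2 := by
    rw [hη]
    apply one_div_le_one_div_of_le (by norm_num) (by linarith)
  have ha0 : 0 < a := by rw [ha]; positivity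
  have hJη : 1 / (J:ℝ) = 2 * η := by rw [hη]; field_simp
  obtain ⟨hdiff, hLs⟩ := Lf_spec hd
  -- the location of the zero
  set b : ℝ := ρ.re - 1 with hb
  have hbβ : β ≤ b := by rw [hb]; linarith
  have hb2 : b ≤ 1 / 2 := by
    by_contra hcon
    push Not at hcon
    have h1 : 3 / 2 < ρ.re := by rw [hb] at hcon; linarith
    obtain ⟨z0, hz0, hz⟩ := exists_Lser_lower (κ := ρ.re - 1 / 2) (by linarith)
    have h2 := hz d ρ (by linarith)
    rw [← hLs ρ h1, hρ0, norm_zero] at h2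
    linarith
  set x : ℝ := b - η with hx
  have hxη : η ≤ x := by rw [hx]; linarith
  have hx0 : 0 < x := by linarith
  have hx1 : x ≤ 1 / 2 := by rw [hx]; linarith
  set γ : ℝ := ρ.im with hγ
  have hρeq : ρ = (1 + b : ℝ) + γ * I := by
    apply Complex.ext
    · simp [hb]
    · simp [hγ]
  set U : ℝ := c0 * (X:ℝ) ^ (1 / 8 : ℝ) with hU
  have hU0 : 0 < U := by rw [hU]; positivity
  -- the function
  set G : ℂ → ℂ := fun s => Lf d s * mol d Y s - 1 with hG
  have hGd : Differentiable ℂ G := by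
    rw [hG]
    exact (hdiff.mul (differentiable_mol d Y)).sub_const 1
  set F : ℂ → ℂ := fun w => G (ρ + w) * exp (w ^ 2) * exp (w * (Real.log U : ℝ)) with hF
  have hFd : Differentiable ℂ F := by
    rw [hF]
    apply Differentiable.mul
    · apply Differentiable.mul
      · exact hGd.comp (by fun_prop)
      · fun_prop
    · fun_prop
  have hF0 : F 0 = -1 := by
    simp [hF, hG, hρ0]
  have hnormU : ∀ w : ℂ, ‖exp (w * (Real.log U : ℝ))‖ = U ^ w.re := by
    intro w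
    rw [Complex.norm_exp, Real.rpow_def_of_pos hU0]
    congr 1
    simp
    ring
  have hnormE : ∀ w : ℂ, ‖exp (w ^ 2)‖ = Real.exp (w.re ^ 2 - w.im ^ 2) := by
    intro w
    rw [Complex.norm_exp]
    congr 1
    simp [pow_two]
  -- growth
  obtain ⟨K0, hK0⟩ := growth hd (a := 1) one_pos (σ₁ := 1) one_pos 4
  set M0 := ∑ m ∈ Finset.Icc 1 Y, |(mb d m : ℝ)| with hM0
  have hM00 : 0 ≤ M0 := Finset.sum_nonneg fun _ _ => abs_nonneg _
  have hK00 : 0 ≤ K0 := by
    have := (norm_nonneg _).trans (hK0 1 (by simp) (by simp))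
    by_contra h
    push Not at h
    have h2 : K0 * Real.exp (1 * |(1:ℂ).im|) < 0 := mul_neg_of_neg_of_pos h (Real.exp_pos _)
    linarith
  have hGb : ∀ s : ℂ, 1 ≤ s.re → s.re ≤ 4 → ‖G s‖ ≤ (K0 * M0 + 1) * Real.exp |s.im| := by
    intro s h1 h2
    rw [hG]
    simp only
    have h3 := hK0 s h1 h2
    rw [one_mul] at h3
    have h4 := norm_mol_le d Y (s := s) (by linarith)
    have h5 : 1 ≤ Real.exp |s.im| := Real.one_le_exp (abs_nonneg _)
    calc ‖Lf d s * mol d Y s - 1‖ ≤ ‖Lf d s‖ * ‖mol d Y s‖ + ‖(1:ℂ)‖ := by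
          rw [← norm_mul]; exact norm_sub_le _ _
      _ ≤ (K0 * Real.exp |s.im|) * M0 + 1 := by
          rw [norm_one]
          gcongr
      _ ≤ K0 * M0 * Real.exp |s.im| + Real.exp |s.im| :=
          le_of_eq_of_le (by ring : _ = K0 * M0 * Real.exp |s.im| + 1) (by linarith)
      _ = _ := by ring
  set UU : ℝ := max 1 U with hUU
  have hUU1 : 1 ≤ UU := le_max_left _ _
  set VV : ℝ := max 1 (U⁻¹) with hVV
  have hVV1 : 1 ≤ VV := le_max_left _ _
  have hUpow : ∀ r : ℝ, -x ≤ r → r ≤ 2 → U ^ r ≤ UU ^ 2 * VV ^ 2 := by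
    intro r h1 h2
    rcases le_total 0 r with h | h
    · calc U ^ r ≤ UU ^ r := Real.rpow_le_rpow hU0.le (le_max_right _ _) h
        _ ≤ UU ^ (2:ℝ) := Real.rpow_le_rpow_of_exponent_le hUU1 h2
        _ = UU ^ 2 * 1 := by rw [mul_one]; exact Real.rpow_two _
        _ ≤ UU ^ 2 * VV ^ 2 := by
            gcongr
            exact one_le_pow₀ hVV1
    · have e : U ^ r = (U⁻¹) ^ (-r) := by
        rw [Real.inv_rpow hU0.le, Real.rpow_neg hU0.le, inv_inv]
      rw [e]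
      calc (U⁻¹) ^ (-r) ≤ VV ^ (-r) :=
            Real.rpow_le_rpow (by positivity) (le_max_right _ _) (by linarith)
        _ ≤ VV ^ (2:ℝ) := Real.rpow_le_rpow_of_exponent_le hVV1 (by linarith)
        _ = 1 * VV ^ 2 := by rw [one_mul]; exact Real.rpow_two _
        _ ≤ UU ^ 2 * VV ^ 2 := by
            gcongr
            exact one_le_pow₀ hUU1
  have hFb : ∀ w : ℂ, -x ≤ w.re → w.re ≤ 2 → ‖F w‖ ≤
      ((K0 * M0 + 1) * Real.exp (T + 5) * (UU ^ 2 * VV ^ 2)) * Real.exp (-|w.im|) := by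
    intro w h1 h2
    rw [hF]
    simp only
    rw [norm_mul, norm_mul, hnormU, hnormE]
    have h3 := hGb (ρ + w) (by
      rw [Complex.add_re]; rw [hx] at h1; rw [hb] at h1; linarith) (by
      rw [Complex.add_re]
      have : ρ.re ≤ 3 / 2 := by rw [hb] at hb2; linarith
      linarith)
    have h4 := hUpow w.re h1 h2
    have h5 : Real.exp |(ρ + w).im| * Real.exp (w.re ^ 2 - w.im ^ 2) ≤
        Real.exp (T + 5) * Real.exp (-|w.im|) := by
      rw [← Real.exp_add, ← Real.exp_add]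
      apply Real.exp_le_exp.mpr
      rw [Complex.add_im]
      have e1 : |ρ.im + w.im| ≤ T + |w.im| := (abs_add_le _ _).trans (by linarith)
      have e2 : w.re ^ 2 ≤ 2 ^ 2 := sq_le_sq' (by linarith) h2
      have e3 : |w.im| ^ 2 = w.im ^ 2 := sq_abs _
      linarith [sq_nonneg (|w.im| - 1)]
    have hA : 0 ≤ K0 * M0 + 1 := by positivity
    calc ‖G (ρ + w)‖ * Real.exp (w.re ^ 2 - w.im ^ 2) * U ^ w.re ≤
        ((K0 * M0 + 1) * Real.exp |(ρ + w).im|) * Real.exp (w.re ^ 2 - w.im ^ 2) *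
          (UU ^ 2 * VV ^ 2) := by gcongr
      _ = (K0 * M0 + 1) * (Real.exp |(ρ + w).im| * Real.exp (w.re ^ 2 - w.im ^ 2)) *
          (UU ^ 2 * VV ^ 2) := by ring
      _ ≤ (K0 * M0 + 1) * (Real.exp (T + 5) * Real.exp (-|w.im|)) * (UU ^ 2 * VV ^ 2) := by
          gcongr
      _ = _ := by ring
  have hform := strip_formula hFd hx0 (by linarith) hFb
  rw [hF0] at hform
  -- right line
  have hY1 : 1 ≤ (X:ℝ) ^ (1 / 4 : ℝ) := Real.one_le_rpow (by linarith) (by norm_num)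
  have hYpos : 1 ≤ Y := Nat.le_floor (by simpa using hY1)
  have hYlow : (X:ℝ) ^ (1 / 4 : ℝ) / 2 ≤ Y := by
    have h1 := Nat.lt_floor_add_one ((X:ℝ) ^ (1 / 4 : ℝ))
    rw [← hY] at h1
    have h2 : (1:ℝ) ≤ Y := by exact_mod_cast hYpos
    linarith
  have hsqrtpi : √Real.pi ≤ 2 := by
    rw [Real.sqrt_le_left (by norm_num)]
    linarith [Real.pi_lt_four]
  have hR : ‖∫ y : ℝ, F ((2:ℝ) + y * I) / ((2:ℝ) + y * I)‖ ≤ Real.pi := by
    have h1 : ∀ y : ℝ, ‖F ((2:ℝ) + y * I) / ((2:ℝ) + y * I)‖ ≤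
        (C1 / Y * Real.exp 4 * U ^ 2 / 2) * Real.exp (-1 * y ^ 2) := by
      intro y
      have e1 : ‖(((2:ℝ):ℂ) + y * I)‖ ≥ 2 := by
        have := Complex.re_le_norm (((2:ℝ):ℂ) + y * I)
        simpa using this
      rw [norm_div, hF]
      simp only
      rw [norm_mul, norm_mul, hnormU, hnormE]
      have hre : (((2:ℝ):ℂ) + y * I).re = 2 := by simp
      have him : (((2:ℝ):ℂ) + y * I).im = y := by simp
      rw [hre, him]
      have e2 : ‖G (ρ + (((2:ℝ):ℂ) + y * I))‖ ≤ C1 / Y := by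
        rw [hG]
        simp only
        have e3 : 3 ≤ (ρ + (((2:ℝ):ℂ) + y * I)).re := by
          rw [Complex.add_re, hre]; linarith [hη0]
        rw [hLs _ (by linarith)]
        exact hright d Y _ hYpos e3
      have e4 : Real.exp (2 ^ 2 - y ^ 2) = Real.exp 4 * Real.exp (-1 * y ^ 2) := by
        rw [← Real.exp_add]; congr 1; ring
      rw [e4, Real.rpow_two]
      have hC1Y : 0 ≤ C1 / Y := by positivity
      calc ‖G (ρ + (((2:ℝ):ℂ) + y * I))‖ * (Real.exp 4 * Real.exp (-1 * y ^ 2)) * U ^ 2 /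
            ‖(((2:ℝ):ℂ) + y * I)‖ ≤
            (C1 / Y) * (Real.exp 4 * Real.exp (-1 * y ^ 2)) * U ^ 2 / 2 := by
            gcongr
        _ = _ := by ring
    refine (norm_integral_le_of_norm_le ((integrable_exp_neg_mul_sq one_pos).const_mul _)
      (ae_of_all _ h1)).trans ?_
    rw [integral_const_mul, integral_gaussian, div_one]
    have hU2 : U ^ 2 = c0 ^ 2 * (X:ℝ) ^ (1 / 4 : ℝ) := by
      rw [hU, mul_pow, ← Real.rpow_natCast ((X:ℝ) ^ (1 / 8 : ℝ)) 2, ← Real.rpow_mul hX0.le]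
      norm_num
    have h2 : C1 / Y * Real.exp 4 * U ^ 2 / 2 ≤ C1 * Real.exp 4 * c0 ^ 2 := by
      rw [hU2]
      have h3 : (X:ℝ) ^ (1 / 4 : ℝ) / Y ≤ 2 := by
        rw [div_le_iff₀ (by exact_mod_cast hYpos)]
        linarith
      calc C1 / Y * Real.exp 4 * (c0 ^ 2 * (X:ℝ) ^ (1 / 4 : ℝ)) / 2 =
            C1 * Real.exp 4 * c0 ^ 2 * ((X:ℝ) ^ (1 / 4 : ℝ) / Y) / 2 := by ring
        _ ≤ C1 * Real.exp 4 * c0 ^ 2 * 2 / 2 := by gcongr
        _ = _ := by ring
    have h4 : C1 * Real.exp 4 * c0 ^ 2 ≤ 1 / 2 := by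
      have h5 : c0 ^ 2 ≤ c0 := by rw [pow_two]; exact mul_le_of_le_one_left hc00.le hc01
      have h6 : C1 * Real.exp 4 * c0 ≤ 1 / 2 := by
        rw [hc0, mul_one_div, div_le_div_iff₀ (by positivity) (by norm_num)]
        linarith
      have h7 : 0 ≤ C1 * Real.exp 4 := by positivity
      exact (mul_le_mul_of_nonneg_left h5 h7).trans h6
    calc C1 / Y * Real.exp 4 * U ^ 2 / 2 * √Real.pi ≤ 1 / 2 * 2 :=
          mul_le_mul (h2.trans h4) hsqrtpi (Real.sqrt_nonneg _) (by norm_num)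
      _ ≤ Real.pi := by linarith [Real.pi_gt_three]
  -- left line
  set Q : ℝ → ℝ := fun y => ‖G (1 + η + ((γ + y : ℝ) : ℂ) * I)‖ * Real.exp (-1 * y ^ 2) with hQ
  have hQc : Continuous Q := by
    rw [hQ]
    apply Continuous.mul
    · exact (hGd.continuous.comp (by fun_prop)).norm
    · fun_prop
  have hQi : Integrable Q := by
    refine (integrable_exp_neg_abs.const_mul ((K0 * M0 + 1) * Real.exp (T + 1))).mono'
      hQc.aestronglyMeasurable ?_
    filter_upwards with y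
    rw [hQ, Real.norm_of_nonneg (by positivity)]
    have h3 := hGb (1 + η + ((γ + y : ℝ) : ℂ) * I) (by simp; linarith) (by simp; linarith)
    have him : (1 + η + ((γ + y : ℝ) : ℂ) * I : ℂ).im = γ + y := by simp
    rw [him] at h3
    have hA : 0 ≤ K0 * M0 + 1 := by positivity
    calc ‖G (1 + η + ((γ + y : ℝ) : ℂ) * I)‖ * Real.exp (-1 * y ^ 2) ≤
        ((K0 * M0 + 1) * Real.exp |γ + y|) * Real.exp (-1 * y ^ 2) := by gcongr
      _ = (K0 * M0 + 1) * (Real.exp |γ + y| * Real.exp (-1 * y ^ 2)) := by ring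
      _ ≤ (K0 * M0 + 1) * (Real.exp (T + 1) * Real.exp (-|y|)) := by
          gcongr ?_ * ?_
          rw [← Real.exp_add, ← Real.exp_add]
          apply Real.exp_le_exp.mpr
          have e1 : |γ + y| ≤ T + |y| := (abs_add_le _ _).trans (by linarith)
          have e3 : |y| ^ 2 = y ^ 2 := sq_abs _
          linarith [sq_nonneg (|y| - 1)]
      _ = _ := by ring
  have hL : ‖∫ y : ℝ, F ((-x : ℝ) + y * I) / ((-x : ℝ) + y * I)‖ ≤
      (2 * U ^ (-x) / x) * ∫ y : ℝ, Q y := by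
    have h1 : ∀ y : ℝ, ‖F ((-x : ℝ) + y * I) / ((-x : ℝ) + y * I)‖ ≤ (2 * U ^ (-x) / x) * Q y := by
      intro y
      have hre : (((-x : ℝ):ℂ) + y * I).re = -x := by simp
      have him : (((-x : ℝ):ℂ) + y * I).im = y := by simp
      have e1 : x ≤ ‖(((-x : ℝ):ℂ) + y * I)‖ := by
        have := Complex.abs_re_le_norm (((-x : ℝ):ℂ) + y * I)
        rw [hre, abs_neg, abs_of_pos hx0] at this
        exact this
      rw [norm_div, hF]
      simp only
      rw [norm_mul, norm_mul, hnormU, hnormE, hre, him]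
      have e2 : ρ + (((-x : ℝ):ℂ) + y * I) = 1 + η + ((γ + y : ℝ) : ℂ) * I := by
        rw [hρeq, hx]; push_cast; ring
      rw [e2]
      have e3 : Real.exp ((-x) ^ 2 - y ^ 2) ≤ 2 * Real.exp (-1 * y ^ 2) := by
        have e4 : Real.exp ((-x) ^ 2 - y ^ 2) = Real.exp (x ^ 2) * Real.exp (-1 * y ^ 2) := by
          rw [← Real.exp_add]; congr 1; ring
        rw [e4]
        gcongr
        have e5 : x ^ 2 ≤ 1 / 2 := (pow_le_pow_left₀ hx0.le hx1 2).trans (by norm_num)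
        have e6 : Real.exp (x ^ 2) ≤ Real.exp (1 / 2) := Real.exp_le_exp.mpr e5
        have e7 : Real.exp (1 / 2) ≤ 2 := by
          have e8 : Real.exp (1 / 2) ^ 2 = Real.exp 1 := by
            rw [← Real.exp_nat_mul]; norm_num
          have e9 := Real.exp_one_lt_d9
          have e10 : Real.exp (1 / 2) ^ 2 ≤ 2 ^ 2 := by rw [e8]; linarith
          exact le_of_sq_le_sq e10 (by norm_num)
        linarith
      calc ‖G (1 + η + ((γ + y : ℝ) : ℂ) * I)‖ * Real.exp ((-x) ^ 2 - y ^ 2) * U ^ (-x) /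
            ‖(((-x : ℝ):ℂ) + y * I)‖ ≤
            ‖G (1 + η + ((γ + y : ℝ) : ℂ) * I)‖ * (2 * Real.exp (-1 * y ^ 2)) * U ^ (-x) / x := by
            gcongr
        _ = _ := by rw [hQ]; ring
    refine (norm_integral_le_of_norm_le (hQi.const_mul _) (ae_of_all _ h1)).trans ?_
    rw [integral_const_mul]
  -- combine
  have hcomb : Real.pi ≤ (2 * U ^ (-x) / x) * ∫ y : ℝ, Q y := by
    have h1 : ‖(2 * Real.pi * (-1) : ℂ)‖ = 2 * Real.pi := by
      rw [norm_mul, norm_mul]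
      simp [abs_of_pos Real.pi_pos]
    have h2 := norm_sub_le (∫ y : ℝ, F ((2:ℝ) + y * I) / ((2:ℝ) + y * I))
      (∫ y : ℝ, F ((-x : ℝ) + y * I) / ((-x : ℝ) + y * I))
    rw [← hform, h1] at h2
    linarith
  -- the integral of Q
  have hbdd := MM_bdd hd (a := a) (η := η) ha0 hη0
  have hMM : ∀ t : ℝ, ‖Lf d (1 + η + t * I)‖ ≤ MM a η d * Real.exp (a * |t|) := by
    intro t
    have h1 : ‖Lf d (1 + η + t * I)‖ * Real.exp (-(a * |t|)) ≤ MM a η d := le_ciSup hbdd t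
    have h2 : ‖Lf d (1 + η + t * I)‖ = ‖Lf d (1 + η + t * I)‖ * Real.exp (-(a * |t|)) *
        Real.exp (a * |t|) := by
      rw [mul_assoc, ← Real.exp_add]; simp
    rw [h2]
    gcongr
  have hMM0 : 0 ≤ MM a η d := by
    have := (norm_nonneg _).trans (hMM 0)
    simpa using this
  set f1 : ℝ → ℝ := fun y => ‖mol d Y (1 + η + ((γ + y : ℝ) : ℂ) * I)‖ *
    √((1 + (γ + y) ^ 2)⁻¹) with hf1
  set g1 : ℝ → ℝ := fun y => √(1 + (γ + y) ^ 2) * Real.exp (-(1 / 2) * y ^ 2) with hg1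
  have hf1c : Continuous f1 := by
    rw [hf1]
    apply Continuous.mul
    · exact ((differentiable_mol d Y).continuous.comp (by fun_prop)).norm
    · apply Real.continuous_sqrt.comp
      apply Continuous.inv₀ (by fun_prop)
      intro y; positivity
  have hg1c : Continuous g1 := by
    rw [hg1]
    apply Continuous.mul
    · exact Real.continuous_sqrt.comp (by fun_prop)
    · fun_prop
  have hf1sq : ∀ y : ℝ, f1 y ^ 2 = (fun t : ℝ => ‖mol d Y (1 + η + t * I)‖ ^ 2 *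
      (1 + t ^ 2)⁻¹) (γ + y) := by
    intro y
    rw [hf1]
    simp only
    rw [mul_pow, Real.sq_sqrt (by positivity)]
  have hf1i : Integrable (fun y => f1 y ^ 2) := by
    simp_rw [hf1sq]
    exact (KK_integrable d Y hη0).comp_add_left γ
  have hf1int : ∫ y, f1 y ^ 2 = KK Y η d := by
    simp_rw [hf1sq]
    rw [integral_add_left_eq_self (fun t : ℝ => ‖mol d Y (1 + η + t * I)‖ ^ 2 *
      (1 + t ^ 2)⁻¹) γ]
    rfl
  have hg1sq : ∀ y : ℝ, g1 y ^ 2 ≤ (12 * T ^ 2) * Real.exp (-(1 / 2) * y ^ 2) := by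
    intro y
    rw [hg1]
    simp only
    rw [mul_pow, Real.sq_sqrt (by positivity), ← Real.exp_nat_mul]
    have e1 : ((2:ℕ):ℝ) * (-(1 / 2) * y ^ 2) = -(1 / 2) * y ^ 2 + -(1 / 2) * y ^ 2 := by
      push_cast; ring
    rw [e1, Real.exp_add, ← mul_assoc]
    apply mul_le_mul_of_nonneg_right _ (Real.exp_nonneg _)
    have e2 : 1 + (γ + y) ^ 2 ≤ 3 * T ^ 2 * (1 + 2 * y ^ 2) := by
      have e3 : γ ^ 2 ≤ T ^ 2 := by
        rw [← sq_abs γ]
        gcongr
      have e4 : 1 ≤ T ^ 2 := one_le_pow₀ hT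
      have e5 : y ^ 2 ≤ T ^ 2 * y ^ 2 := le_mul_of_one_le_left (sq_nonneg y) e4
      linarith [sq_nonneg (γ - y), sq_nonneg y]
    have e5 : 1 + 2 * y ^ 2 ≤ 4 * Real.exp ((1 / 2) * y ^ 2) := by
      have := Real.add_one_le_exp ((1 / 2) * y ^ 2)
      linarith
    have e6 : Real.exp ((1 / 2) * y ^ 2) * Real.exp (-(1 / 2) * y ^ 2) = 1 := by
      rw [← Real.exp_add]; simp
    calc (1 + (γ + y) ^ 2) * Real.exp (-(1 / 2) * y ^ 2) ≤
        (3 * T ^ 2 * (4 * Real.exp ((1 / 2) * y ^ 2))) * Real.exp (-(1 / 2) * y ^ 2) := by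
          apply mul_le_mul_of_nonneg_right _ (Real.exp_nonneg _)
          exact e2.trans (mul_le_mul_of_nonneg_left e5 (by positivity))
      _ = 12 * T ^ 2 * (Real.exp ((1 / 2) * y ^ 2) * Real.exp (-(1 / 2) * y ^ 2)) := by ring
      _ = 12 * T ^ 2 := by rw [e6, mul_one]
  have hgi0 : Integrable (fun y : ℝ => (12 * T ^ 2) * Real.exp (-(1 / 2) * y ^ 2)) :=
    (integrable_exp_neg_mul_sq (by norm_num)).const_mul _
  have hg1i : Integrable (fun y => g1 y ^ 2) := by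
    refine hgi0.mono' (hg1c.pow 2).aestronglyMeasurable ?_
    filter_upwards with y
    rw [Real.norm_of_nonneg (by positivity)]
    exact hg1sq y
  have hg1int : ∫ y, g1 y ^ 2 ≤ (6 * T) ^ 2 := by
    refine (integral_mono hg1i hgi0 hg1sq).trans ?_
    rw [integral_const_mul, integral_gaussian]
    have e1 : √(Real.pi / (1 / 2)) ≤ 3 := by
      rw [Real.sqrt_le_left (by norm_num)]
      linarith [Real.pi_lt_four]
    calc 12 * T ^ 2 * √(Real.pi / (1 / 2)) ≤ 12 * T ^ 2 * 3 := by gcongr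
      _ = (6 * T) ^ 2 := by ring
  have hKK0 : 0 ≤ KK Y η d := by
    unfold KK
    exact integral_nonneg fun t => by positivity
  have hcs := cs_line hf1c hg1c (fun y => by rw [hf1]; positivity) (fun y => by rw [hg1]; positivity)
    hf1i hg1i
  rw [hf1int] at hcs
  have hcs2 : ∫ y, f1 y * g1 y ≤ √(KK Y η d) * (6 * T) := by
    refine hcs.trans ?_
    gcongr
    rw [Real.sqrt_le_left (by positivity)]
    exact hg1int
  have hfg : Integrable (fun y => f1 y * g1 y) := by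
    refine (hf1i.add hg1i).mono' (hf1c.mul hg1c).aestronglyMeasurable ?_
    filter_upwards with y
    have h1 : 0 ≤ f1 y := by rw [hf1]; positivity
    have h2 : 0 ≤ g1 y := by rw [hg1]; positivity
    rw [Real.norm_of_nonneg (by positivity)]
    simp only [Pi.add_apply]
    linarith [sq_nonneg (f1 y - g1 y), sq_nonneg (f1 y), sq_nonneg (g1 y)]
  have hQle : ∀ y : ℝ, Q y ≤ Real.exp (-1 * y ^ 2) + 2 * MM a η d * (f1 y * g1 y) := by
    intro y
    have h1 := hMM (γ + y)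
    have h2 : ‖G (1 + η + ((γ + y : ℝ) : ℂ) * I)‖ ≤
        1 + MM a η d * Real.exp (a * |γ + y|) * ‖mol d Y (1 + η + ((γ + y : ℝ) : ℂ) * I)‖ := by
      rw [hG]
      simp only
      calc ‖Lf d (1 + η + ((γ + y : ℝ) : ℂ) * I) * mol d Y (1 + η + ((γ + y : ℝ) : ℂ) * I) - 1‖ ≤
          ‖Lf d (1 + η + ((γ + y : ℝ) : ℂ) * I)‖ * ‖mol d Y (1 + η + ((γ + y : ℝ) : ℂ) * I)‖ +
            ‖(1:ℂ)‖ := by
            rw [← norm_mul]; exact norm_sub_le _ _
        _ ≤ MM a η d * Real.exp (a * |γ + y|) * ‖mol d Y (1 + η + ((γ + y : ℝ) : ℂ) * I)‖ + 1 := by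
            rw [norm_one]
            gcongr
        _ = _ := by ring
    have h3 : Real.exp (a * |γ + y|) * Real.exp (-1 * y ^ 2) ≤ 2 * Real.exp (-(1 / 2) * y ^ 2) := by
      have e1 : a * |γ + y| ≤ 1 / 8 + (1 / 8) * |y| := by
        have e2 : |γ + y| ≤ T + |y| := (abs_add_le _ _).trans (by linarith)
        have e3 : a * T = 1 / 8 := by rw [ha]; field_simp
        have e4 : a ≤ 1 / 8 := by
          rw [ha]
          apply one_div_le_one_div_of_le (by norm_num) (by linarith)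
        calc a * |γ + y| ≤ a * (T + |y|) := by gcongr
          _ = 1 / 8 + a * |y| := by rw [mul_add, e3]
          _ ≤ _ := by gcongr
      have e5 : Real.exp (1 / 2) ≤ 2 := by
        have e8 : Real.exp (1 / 2) ^ 2 = Real.exp 1 := by
          rw [← Real.exp_nat_mul]; norm_num
        have e9 := Real.exp_one_lt_d9
        have e10 : Real.exp (1 / 2) ^ 2 ≤ 2 ^ 2 := by rw [e8]; linarith
        exact le_of_sq_le_sq e10 (by norm_num)
      calc Real.exp (a * |γ + y|) * Real.exp (-1 * y ^ 2) ≤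
          Real.exp (1 / 2) * Real.exp (-(1 / 2) * y ^ 2) := by
            rw [← Real.exp_add, ← Real.exp_add]
            apply Real.exp_le_exp.mpr
            have e3 : |y| ^ 2 = y ^ 2 := sq_abs _
            linarith [sq_nonneg (|y| - 1), sq_nonneg y]
        _ ≤ _ := by gcongr
    have h4 : f1 y * g1 y = ‖mol d Y (1 + η + ((γ + y : ℝ) : ℂ) * I)‖ * Real.exp (-(1 / 2) * y ^ 2) := by
      rw [hf1, hg1]
      simp only
      have e1 : √((1 + (γ + y) ^ 2)⁻¹) * √(1 + (γ + y) ^ 2) = 1 := by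
        rw [← Real.sqrt_mul (by positivity), inv_mul_cancel₀ (by positivity), Real.sqrt_one]
      linear_combination (‖mol d Y (1 + η + ((γ + y : ℝ) : ℂ) * I)‖ *
        Real.exp (-(1 / 2) * y ^ 2)) * e1
    rw [h4, hQ]
    simp only
    set m := ‖mol d Y (1 + η + ((γ + y : ℝ) : ℂ) * I)‖ with hm
    have hm0 : 0 ≤ m := norm_nonneg _
    calc ‖G (1 + η + ((γ + y : ℝ) : ℂ) * I)‖ * Real.exp (-1 * y ^ 2) ≤
        (1 + MM a η d * Real.exp (a * |γ + y|) * m) * Real.exp (-1 * y ^ 2) := by gcongr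
      _ = Real.exp (-1 * y ^ 2) + MM a η d * m *
          (Real.exp (a * |γ + y|) * Real.exp (-1 * y ^ 2)) := by ring
      _ ≤ Real.exp (-1 * y ^ 2) + MM a η d * m * (2 * Real.exp (-(1 / 2) * y ^ 2)) := by gcongr
      _ = _ := by ring
  have hQint : ∫ y, Q y ≤ 12 * (1 + T * (MM a η d * √(KK Y η d))) := by
    refine (integral_mono hQi ((integrable_exp_neg_mul_sq one_pos).add (hfg.const_mul _)) hQle).trans ?_
    have e0 : ∫ y : ℝ, (Real.exp (-1 * y ^ 2) + 2 * MM a η d * (f1 y * g1 y)) =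
        √Real.pi + 2 * MM a η d * ∫ y, f1 y * g1 y := by
      rw [integral_add (integrable_exp_neg_mul_sq one_pos) (hfg.const_mul _), integral_const_mul,
        integral_gaussian, div_one]
    have e1 : ∫ y : ℝ, ((fun y => Real.exp (-1 * y ^ 2)) + fun y => 2 * MM a η d * (f1 y * g1 y)) y =
        √Real.pi + 2 * MM a η d * ∫ y, f1 y * g1 y := e0
    calc _ = √Real.pi + 2 * MM a η d * ∫ y, f1 y * g1 y := e1
      _ ≤ 2 + 2 * MM a η d * (√(KK Y η d) * (6 * T)) := by gcongr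
      _ ≤ _ := by linarith
  -- conclusion
  set W : ℝ := 1 + T * (MM a η d * √(KK Y η d)) with hW
  have hW1 : 0 ≤ W := by rw [hW]; positivity
  have hUx : 0 < U ^ x := Real.rpow_pos_of_pos hU0 x
  have h1 : U ^ x ≤ 24 * J * (2 * W) := by
    rw [Real.rpow_neg hU0.le] at hcomb
    have h2 : Real.pi * (x * U ^ x) ≤ 2 * ∫ y, Q y := by
      have h3 : (2 * (U ^ x)⁻¹ / x * ∫ y, Q y) * (x * U ^ x) = 2 * ∫ y, Q y := by
        field_simp
      calc Real.pi * (x * U ^ x) ≤ (2 * (U ^ x)⁻¹ / x * ∫ y, Q y) * (x * U ^ x) := by gcongr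
        _ = _ := h3
    have h4 : η * U ^ x ≤ x * U ^ x := by gcongr
    have h5 : 3 * (η * U ^ x) ≤ 24 * W := by
      have h6 : 3 * (x * U ^ x) ≤ Real.pi * (x * U ^ x) := by
        gcongr
        exact Real.pi_gt_three.le
      linarith
    have h7 : U ^ x = 2 * J * (η * U ^ x) := by
      rw [hη]; field_simp
    rw [h7]
    calc 2 * J * (η * U ^ x) ≤ 2 * J * (8 * W) := by
          apply mul_le_mul_of_nonneg_left _ (by linarith)
          linarith
      _ ≤ 24 * J * (2 * W) := by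
          have := mul_nonneg hJ0.le hW1
          linarith
  have h2 : c0 / 2 * (X:ℝ) ^ (β / 8) ≤ U ^ x := by
    have h3 : U ^ x = c0 ^ x * (X:ℝ) ^ (x / 8) := by
      rw [hU, Real.mul_rpow hc00.le (by positivity), ← Real.rpow_mul hX0.le]
      congr 2
      ring
    have h4 : c0 ≤ c0 ^ x := by
      have := Real.rpow_le_rpow_of_exponent_ge hc00 hc01 (by linarith : x ≤ 1)
      rwa [Real.rpow_one] at this
    have h5 : (X:ℝ) ^ (β / 8) ≤ 2 * (X:ℝ) ^ (x / 8) := by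
      have h6 : (X:ℝ) ^ (β / 8) ≤ (X:ℝ) ^ (x / 8 + η / 8) := by
        apply Real.rpow_le_rpow_of_exponent_le (by linarith)
        rw [hx]; linarith
      have h7 : (X:ℝ) ^ (η / 8) ≤ 2 := by
        have h8 : (X:ℝ) ≤ (2:ℝ) ^ (J:ℝ) := by
          rw [Real.rpow_natCast]; exact_mod_cast hXJ
        calc (X:ℝ) ^ (η / 8) ≤ ((2:ℝ) ^ (J:ℝ)) ^ (η / 8) :=
              Real.rpow_le_rpow hX0.le h8 (by positivity)
          _ = (2:ℝ) ^ (1 / 16 : ℝ) := by
              rw [← Real.rpow_mul (by norm_num)]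
              congr 1
              rw [hη]; field_simp; norm_num
          _ ≤ (2:ℝ) ^ (1 : ℝ) := Real.rpow_le_rpow_of_exponent_le (by norm_num) (by norm_num)
          _ = 2 := Real.rpow_one 2
      rw [Real.rpow_add hX0] at h6
      calc (X:ℝ) ^ (β / 8) ≤ (X:ℝ) ^ (x / 8) * (X:ℝ) ^ (η / 8) := h6
        _ ≤ (X:ℝ) ^ (x / 8) * 2 := by gcongr
        _ = _ := by ring
    rw [h3]
    calc c0 / 2 * (X:ℝ) ^ (β / 8) ≤ c0 / 2 * (2 * (X:ℝ) ^ (x / 8)) := by gcongr
      _ = c0 * (X:ℝ) ^ (x / 8) := by ring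
      _ ≤ _ := by gcongr
  have h3 : c0 / 2 * (X:ℝ) ^ (β / 8) ≤ 48 * J * W := by linarith
  calc (X:ℝ) ^ (β / 8) = (2 / c0) * (c0 / 2 * (X:ℝ) ^ (β / 8)) := by field_simp
    _ ≤ (2 / c0) * (48 * J * W) := by gcongr
    _ = 96 / c0 * J * W := by ring

end Pool.Agent.ZD
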