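import Mathlib
import Pool.Agent.ZD.Z3

/-!
Module Z, part 4: the zero density bound from the mean square of `L` and of the mollifier.
-/

set_option autoImplicit false

open Complex MeasureTheory Set Filter Topology

namespace Pool.Agent.ZD

open Pool.Agent.H5 (c bd Lser)
open Pool.Agent.H6

/-- the statement of module R -/
def RSt : Prop := ∃ A : ℕ, ∀ (J : ℕ) (a : ℝ), 1 ≤ J → 0 < a → a ≤ 1 / 8 →
    ∑ d ∈ (Finset.Icc 1 (2 ^ J)).filter Squarefree, (MM a (1 / (2 * J)) d) ^ 2 ≤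
      (A * J / a) ^ A * 2 ^ J

theorem Z_main_of (hR : RSt) (hO : OrthoSt) (hS : SquareSt) :
    ∃ A : ℕ, ∀ (X : ℕ) (T β : ℝ), 3 ≤ X → 1 ≤ T → 0 ≤ β →
    (Set.ncard {d : ℕ | d ∈ Finset.Icc 1 X ∧ Squarefree d ∧
      ∃ s : ℂ, Lf d s = 0 ∧ 1 + β ≤ s.re ∧ |s.im| ≤ T} : ℝ) ≤
      A * T ^ A * (Real.log X) ^ A * (X : ℝ) ^ (1 - β / 8) := by
  classical
  obtain ⟨AR, hAR⟩ := hR
  obtain ⟨CK, hCK1, hCK⟩ := KK_sum hO hS
  obtain ⟨Cs0, hCs0, hstar⟩ := star_main
  set Cs : ℝ := Cs0 + 2 with hCs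
  set B : ℕ := 8 * AR + 2 * CK + 1 with hB
  set A1 : ℝ := 4 * Cs * (B:ℝ) ^ B * 3 ^ (B + 2) with hA1
  refine ⟨⌈A1⌉₊ + (B + 2), fun X T β hX hT hβ => ?_⟩
  set A : ℕ := ⌈A1⌉₊ + (B + 2) with hA
  have hXr : (3:ℝ) ≤ X := by exact_mod_cast hX
  have hX0 : (0:ℝ) < X := by linarith
  have hlog1 : 1 ≤ Real.log X := by
    rw [Real.le_log_iff_exp_le hX0]
    have := Real.exp_one_lt_d9
    linarith
  set J : ℕ := Nat.log 2 X + 1 with hJ
  have hJ1 : 1 ≤ J := by omega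
  have hJr : (1:ℝ) ≤ J := by exact_mod_cast hJ1
  have hXJ : X ≤ 2 ^ J := (Nat.lt_pow_succ_log_self (by norm_num) X).le
  have hJX : (2:ℝ) ^ J ≤ 2 * X := by
    have h1 : 2 ^ Nat.log 2 X ≤ X := Nat.pow_log_le_self 2 (by omega)
    have h2 : 2 ^ J ≤ 2 * X := by
      rw [hJ, pow_succ]; omega
    exact_mod_cast h2
  have hJlog : (J:ℝ) ≤ 3 * Real.log X := by
    have h1 : ((2 ^ Nat.log 2 X : ℕ) : ℝ) ≤ X := by
      exact_mod_cast Nat.pow_log_le_self 2 (by omega)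
    have h2 := Real.log_le_log (by positivity) h1
    push_cast at h2
    rw [Real.log_pow] at h2
    have h3 := Real.log_two_gt_d9
    have h4 : (J:ℝ) = Nat.log 2 X + 1 := by rw [hJ]; push_cast; ring
    have h5 : (0:ℝ) ≤ Nat.log 2 X := by positivity
    have h6 : (0.69:ℝ) * Nat.log 2 X ≤ Nat.log 2 X * Real.log 2 := by
      rw [mul_comm]
      exact mul_le_mul_of_nonneg_left (by linarith) h5
    rw [h4]
    linarith
  set η : ℝ := 1 / (2 * J) with hη
  have hη0 : 0 < η := by rw [hη]; positivity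
  have hη1 : η ≤ 1 := by
    rw [hη, div_le_one (by positivity)]; linarith
  set a : ℝ := 1 / (8 * T) with ha
  have ha0 : 0 < a := by rw [ha]; positivity
  have ha8 : a ≤ 1 / 8 := by
    rw [ha]
    apply one_div_le_one_div_of_le (by norm_num) (by linarith)
  set Y := ⌊(X : ℝ) ^ (1 / 4 : ℝ)⌋₊ with hY
  have hY4 : (Y:ℝ) ^ 4 ≤ X := by
    have h1 : (Y:ℝ) ≤ (X : ℝ) ^ (1 / 4 : ℝ) := Nat.floor_le (by positivity)
    calc (Y:ℝ) ^ 4 ≤ ((X : ℝ) ^ (1 / 4 : ℝ)) ^ 4 := by gcongr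
      _ = (X:ℝ) := by
        rw [← Real.rpow_natCast, ← Real.rpow_mul hX0.le]; norm_num
  -- the bad set
  set Bad : Finset ℕ := (Finset.Icc 1 X).filter (fun d => Squarefree d ∧
      ∃ s : ℂ, Lf d s = 0 ∧ 1 + β ≤ s.re ∧ |s.im| ≤ T) with hBad
  have hset : {d : ℕ | d ∈ Finset.Icc 1 X ∧ Squarefree d ∧
      ∃ s : ℂ, Lf d s = 0 ∧ 1 + β ≤ s.re ∧ |s.im| ≤ T} = (Bad : Set ℕ) := by
    ext d
    simp [hBad]
  rw [hset, Set.ncard_coe_finset]
  set SF : Finset ℕ := (Finset.Icc 1 X).filter Squarefree with hSF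
  have hsub : Bad ⊆ SF := by
    intro d hd
    rw [hBad, Finset.mem_filter] at hd
    rw [hSF, Finset.mem_filter]
    exact ⟨hd.1, hd.2.1⟩
  have hMM0 : ∀ d ∈ SF, 0 ≤ MM a η d := by
    intro d _
    unfold MM
    apply Real.iSup_nonneg
    intro t; positivity
  have hKK0 : ∀ d : ℕ, 0 ≤ KK Y η d := by
    intro d
    unfold KK
    exact integral_nonneg fun t => by positivity
  have hstar' : ∀ d ∈ Bad, (X:ℝ) ^ (β / 8) ≤ Cs * J * (1 + T * (MM a η d * √(KK Y η d))) := by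
    intro d hd
    have hdSF := hsub hd
    rw [hBad, Finset.mem_filter] at hd
    obtain ⟨-, hsq, s, h0, h1, h2⟩ := hd
    have hM := hMM0 d hdSF
    have hW : 1 ≤ 1 + T * (MM a η d * √(KK Y η d)) := by
      have : 0 ≤ T * (MM a η d * √(KK Y η d)) := by positivity
      linarith
    rcases le_or_gt β (1 / (J:ℝ)) with hc | hc
    · have h3 : (X:ℝ) ≤ (2:ℝ) ^ (J:ℝ) := by
        rw [Real.rpow_natCast]; exact_mod_cast hXJ
      have h4 : (X:ℝ) ^ (β / 8) ≤ 2 := by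
        calc (X:ℝ) ^ (β / 8) ≤ ((2:ℝ) ^ (J:ℝ)) ^ (β / 8) :=
              Real.rpow_le_rpow hX0.le h3 (by positivity)
          _ = (2:ℝ) ^ (J * (β / 8) : ℝ) := by rw [← Real.rpow_mul (by norm_num)]
          _ ≤ (2:ℝ) ^ (1 : ℝ) := by
              apply Real.rpow_le_rpow_of_exponent_le (by norm_num)
              have : (J:ℝ) * β ≤ 1 := by
                rw [le_div_iff₀ (by positivity)] at hc
                linarith
              linarith
          _ = 2 := Real.rpow_one 2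
      refine h4.trans ?_
      have hCs2 : 2 ≤ Cs := by rw [hCs]; linarith
      have h5 : 2 ≤ Cs * J := hCs2.trans (le_mul_of_one_le_right (by linarith) hJr)
      exact h5.trans (le_mul_of_one_le_right (by linarith) hW)
    · have := hstar X J d T β s hX hJ1 hXJ hT hsq h0 h1 hc h2
      refine this.trans ?_
      gcongr
      rw [hCs]; linarith
  -- summation
  have hsum : (Bad.card : ℝ) * (X:ℝ) ^ (β / 8) ≤
      Cs * J * (X + T * (√(∑ d ∈ SF, (MM a η d) ^ 2) * √(∑ d ∈ SF, KK Y η d))) := by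
    have h1 : (Bad.card : ℝ) * (X:ℝ) ^ (β / 8) ≤
        ∑ d ∈ Bad, Cs * J * (1 + T * (MM a η d * √(KK Y η d))) := by
      rw [← nsmul_eq_mul, ← Finset.sum_const]
      exact Finset.sum_le_sum hstar'
    have h2 : ∑ d ∈ Bad, Cs * J * (1 + T * (MM a η d * √(KK Y η d))) ≤
        ∑ d ∈ SF, Cs * J * (1 + T * (MM a η d * √(KK Y η d))) := by
      apply Finset.sum_le_sum_of_subset_of_nonneg hsub
      intro d hd _
      have hM := hMM0 d hd
      positivity
    have h3 : ∑ d ∈ SF, Cs * J * (1 + T * (MM a η d * √(KK Y η d))) =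
        Cs * J * (SF.card + T * ∑ d ∈ SF, MM a η d * √(KK Y η d)) := by
      rw [← Finset.mul_sum, Finset.sum_add_distrib, ← Finset.mul_sum]
      simp
    have h4 : (SF.card : ℝ) ≤ X := by
      have : SF.card ≤ (Finset.Icc 1 X).card := Finset.card_filter_le _ _
      rw [Nat.card_Icc] at this
      have h5 : SF.card ≤ X := by omega
      exact_mod_cast h5
    have h5 : ∑ d ∈ SF, MM a η d * √(KK Y η d) ≤
        √(∑ d ∈ SF, (MM a η d) ^ 2) * √(∑ d ∈ SF, KK Y η d) := by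
      have h6 := Real.sum_mul_le_sqrt_mul_sqrt SF (fun d => MM a η d) (fun d => √(KK Y η d))
      refine h6.trans (le_of_eq ?_)
      congr 2
      apply Finset.sum_congr rfl
      intro d _
      exact Real.sq_sqrt (hKK0 d)
    have hCJ : 0 ≤ Cs * J := by positivity
    calc (Bad.card : ℝ) * (X:ℝ) ^ (β / 8) ≤ Cs * J * (SF.card + T * ∑ d ∈ SF, MM a η d * √(KK Y η d)) := by
          rw [← h3]; exact h1.trans h2
      _ ≤ _ := by gcongr
  set P : ℝ := J * T with hP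
  have hP1 : 1 ≤ P := by rw [hP]; exact one_le_mul_of_one_le_of_one_le hJr hT
  have hB1 : (1:ℝ) ≤ B := by rw [hB]; push_cast; have : (0:ℝ) ≤ 8 * AR + 2 * CK := by positivity
                             linarith
  have hBP : 1 ≤ (B:ℝ) * P := one_le_mul_of_one_le_of_one_le hB1 hP1
  have hSM : ∑ d ∈ SF, (MM a η d) ^ 2 ≤ 2 * X * (B * P) ^ B := by
    have h1 : ∑ d ∈ SF, (MM a η d) ^ 2 ≤ ∑ d ∈ (Finset.Icc 1 (2 ^ J)).filter Squarefree,
        (MM a η d) ^ 2 := by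
      apply Finset.sum_le_sum_of_subset_of_nonneg
      · intro d hd
        rw [hSF, Finset.mem_filter, Finset.mem_Icc] at hd
        rw [Finset.mem_filter, Finset.mem_Icc]
        exact ⟨⟨hd.1.1, hd.1.2.trans hXJ⟩, hd.2⟩
      · intro d _ _; positivity
    refine h1.trans ((hAR J a hJ1 ha0 ha8).trans ?_)
    have h2 : (AR : ℝ) * J / a = 8 * AR * P := by
      rw [ha, hP]; field_simp
    rw [h2]
    have h3 : (8 * (AR:ℝ) * P) ^ AR ≤ (B * P) ^ B := by
      calc (8 * (AR:ℝ) * P) ^ AR ≤ (B * P) ^ AR := by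
            gcongr
            rw [hB]; push_cast
            have : (0:ℝ) ≤ 2 * CK + 1 := by positivity
            linarith
        _ ≤ (B * P) ^ B := pow_le_pow_right₀ hBP (by omega)
    calc (8 * (AR:ℝ) * P) ^ AR * 2 ^ J ≤ (B * P) ^ B * (2 * X) := by gcongr
      _ = _ := by ring
  have hSK : ∑ d ∈ SF, KK Y η d ≤ 4 * X * (B * P) ^ B := by
    have h1 : ∑ d ∈ SF, KK Y η d ≤ ∑ d ∈ Finset.Icc 1 X, KK Y η d := by
      apply Finset.sum_le_sum_of_subset_of_nonneg (Finset.filter_subset _ _)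
      intro d _ _
      exact hKK0 d
    refine h1.trans ((hCK X Y η hη0 hη1 (by omega) hY4).trans ?_)
    have h2 : (CK : ℝ) / η = 2 * CK * J := by
      rw [hη]; field_simp
    rw [h2]
    have h3 : (2 * (CK:ℝ) * J) ^ CK ≤ (B * P) ^ B := by
      calc (2 * (CK:ℝ) * J) ^ CK ≤ (B * P) ^ CK := by
            gcongr
            · rw [hB]; push_cast
              have : (0:ℝ) ≤ 8 * AR + 1 := by positivity
              linarith
            · rw [hP]; exact le_mul_of_one_le_right (by linarith) hT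
        _ ≤ (B * P) ^ B := pow_le_pow_right₀ hBP (by omega)
    calc Real.pi * (X * (2 * (CK:ℝ) * J) ^ CK) ≤ 4 * (X * (B * P) ^ B) := by
          gcongr
          exact Real.pi_lt_four.le
      _ = _ := by ring
  have hsq : √(∑ d ∈ SF, (MM a η d) ^ 2) * √(∑ d ∈ SF, KK Y η d) ≤ 3 * X * (B * P) ^ B := by
    have hXB : 0 ≤ (X:ℝ) * (B * P) ^ B := by positivity
    calc √(∑ d ∈ SF, (MM a η d) ^ 2) * √(∑ d ∈ SF, KK Y η d) ≤
        √(2 * X * (B * P) ^ B) * √(4 * X * (B * P) ^ B) := by gcongr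
      _ = √(8 * ((X:ℝ) * (B * P) ^ B) ^ 2) := by
          rw [← Real.sqrt_mul (by positivity)]; congr 1; ring
      _ ≤ √((3 * ((X:ℝ) * (B * P) ^ B)) ^ 2) := by
          apply Real.sqrt_le_sqrt
          have := sq_nonneg ((X:ℝ) * (B * P) ^ B)
          rw [mul_pow 3]
          linarith
      _ = 3 * X * (B * P) ^ B := by rw [Real.sqrt_sq (by positivity)]; ring
  have hT0 : 0 < T := by linarith
  have hfin1 : (Bad.card : ℝ) * (X:ℝ) ^ (β / 8) ≤ 4 * Cs * (B:ℝ) ^ B * P ^ (B + 2) * X := by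
    have hTP : T ≤ P := by rw [hP]; exact le_mul_of_one_le_left (by linarith) hJr
    have hJP : (J:ℝ) ≤ P := by rw [hP]; exact le_mul_of_one_le_right (by linarith) hT
    have hBPB : 1 ≤ ((B:ℝ) * P) ^ B := one_le_pow₀ hBP
    have hCs0' : 0 ≤ Cs := by rw [hCs]; linarith
    calc (Bad.card : ℝ) * (X:ℝ) ^ (β / 8) ≤
        Cs * J * (X + T * (√(∑ d ∈ SF, (MM a η d) ^ 2) * √(∑ d ∈ SF, KK Y η d))) := hsum
      _ ≤ Cs * P * (X + T * (3 * X * (B * P) ^ B)) := by gcongr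
      _ ≤ Cs * P * (P * X * (B * P) ^ B + P * (3 * X * (B * P) ^ B)) := by
          have e1 : (X:ℝ) ≤ P * X * (B * P) ^ B := by
            calc (X:ℝ) = 1 * X * 1 := by ring
              _ ≤ P * X * (B * P) ^ B := by gcongr
          have e2 : T * (3 * X * (B * P) ^ B) ≤ P * (3 * X * (B * P) ^ B) := by gcongr
          exact mul_le_mul_of_nonneg_left (add_le_add e1 e2) (by positivity)
      _ = 4 * Cs * (B:ℝ) ^ B * P ^ (B + 2) * X := by
          rw [mul_pow]; ring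
  have hPlog : P ≤ 3 * (T * Real.log X) := by
    rw [hP]
    calc (J:ℝ) * T ≤ 3 * Real.log X * T := by gcongr
      _ = _ := by ring
  have hfin2 : 4 * Cs * (B:ℝ) ^ B * P ^ (B + 2) ≤ A * T ^ A * (Real.log X) ^ A := by
    have hCs0' : 0 ≤ Cs := by rw [hCs]; linarith
    have hA1' : A1 ≤ A := by
      have := Nat.le_ceil A1
      rw [hA]; push_cast
      have : (0:ℝ) ≤ (B:ℝ) + 2 := by positivity
      linarith
    have hA10 : 0 ≤ A1 := by rw [hA1]; positivity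
    have hBA : B + 2 ≤ A := by omega
    calc 4 * Cs * (B:ℝ) ^ B * P ^ (B + 2) ≤ 4 * Cs * (B:ℝ) ^ B * (3 * (T * Real.log X)) ^ (B + 2) := by
          gcongr
      _ = A1 * (T ^ (B + 2) * (Real.log X) ^ (B + 2)) := by
          rw [hA1, mul_pow, mul_pow]; ring
      _ ≤ A * (T ^ A * (Real.log X) ^ A) := by
          gcongr
      _ = _ := by ring
  have hXβ : 0 < (X:ℝ) ^ (β / 8) := Real.rpow_pos_of_pos hX0 _
  have hX1 : (X:ℝ) ^ (1 - β / 8) * (X:ℝ) ^ (β / 8) = X := by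
    rw [← Real.rpow_add hX0]; simp
  rw [← mul_le_mul_iff_left₀ hXβ]
  calc (Bad.card : ℝ) * (X:ℝ) ^ (β / 8) ≤ 4 * Cs * (B:ℝ) ^ B * P ^ (B + 2) * X := hfin1
    _ ≤ (A * T ^ A * (Real.log X) ^ A) * X := by gcongr
    _ = A * T ^ A * (Real.log X) ^ A * (X : ℝ) ^ (1 - β / 8) * (X:ℝ) ^ (β / 8) := by
        rw [mul_assoc (A * T ^ A * (Real.log X) ^ A) ((X:ℝ) ^ (1 - β / 8)), hX1]

end Pool.Agent.ZD
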