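import Mathlib
import Pool.Agent.ZD.Z4
import Pool.Agent.ZD.O
import Pool.Agent.ZD.R

/-!
Module Z: zero detection.
-/

set_option autoImplicit false

open Complex Finset MeasureTheory

namespace Pool.Agent.ZD

theorem Z_main : ∃ A : ℕ, ∀ (X : ℕ) (T β : ℝ), 3 ≤ X → 1 ≤ T → 0 ≤ β →
    (Set.ncard {d : ℕ | d ∈ Icc 1 X ∧ Squarefree d ∧
      ∃ s : ℂ, Lf d s = 0 ∧ 1 + β ≤ s.re ∧ |s.im| ≤ T} : ℝ) ≤
      A * T ^ A * (Real.log X) ^ A * (X : ℝ) ^ (1 - β / 8) :=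
  Z_main_of R_main (fun X Y b hb => ortho X Y b hb) (fun K => square_sum K)

end Pool.Agent.ZD
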