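import Mathlib
import Pool.Agent.ZD.F
import Pool.Agent.ZD.Z

/-!
Final assembly: all nontrivial zeros, both sides of the critical line, all heights.
-/

set_option autoImplicit false

open Complex Finset MeasureTheory

namespace Pool.Agent.ZD


open Pool.Agent.H6 (FEData EdData)

/-- reflection of zeros -/
lemma Lf_reflect {d : ℕ} (hd : Squarefree d) {s : ℂ} (hs0 : 0 < s.re) (hs2 : s.re < 2)
    (h : Lf d s = 0) : Lf d (2 - s) = 0 := by
  obtain ⟨w, hw, hfe⟩ := H5.Th_fe d hd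
  have hd0 : 0 < d := Nat.pos_of_ne_zero hd.ne_zero
  have hQ0 : (0:ℝ) < ((H5.Q d : ℕ) : ℝ) := by
    have : 0 < H5.Q d := by
      unfold H5.Q
      split_ifs <;> positivity
    exact_mod_cast this
  obtain ⟨Λ, D, hΛ⟩ := H6.exists_FEData (d : ℤ) hQ0 hw hfe
  have E : EdData d (√(H5.Q d) / Real.pi) Λ := ⟨H6.exists_ThData hd, D.diff, hΛ⟩
  have h1 := Lf_eq hd E hs0
  rw [h, mul_zero] at h1
  have h2 : 0 < (2 - s).re := by simp; linarith
  have h3 := Lf_eq hd E h2
  rw [D.fe s, ← h1, mul_zero] at h3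
  have hM : ((√(H5.Q d) / Real.pi : ℝ) : ℂ) ^ (2 - s) ≠ 0 := by
    rw [Complex.cpow_ne_zero_iff]
    left
    exact_mod_cast E.Mpos.ne'
  rcases mul_eq_zero.mp h3 with h4 | h4
  · rcases mul_eq_zero.mp h4 with h5 | h5
    · exact absurd h5 hM
    · exact absurd h5 (Complex.Gamma_ne_zero_of_re_pos h2)
  · exact h4

/-- the set of exceptional `d` -/
def Bad (X : ℕ) (T β : ℝ) : Set ℕ := {d : ℕ | d ∈ Finset.Icc 1 X ∧ Squarefree d ∧
      ∃ s : ℂ, Lf d s = 0 ∧ 0 < s.re ∧ |s.im| ≤ T ∧ β ≤ |s.re - 1|}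

lemma Bad_finite (X : ℕ) (T β : ℝ) : (Bad X T β).Finite :=
  (Finset.finite_toSet (Finset.Icc 1 X)).subset (fun _ h => h.1)

lemma Bad_ncard_le (X : ℕ) (T β : ℝ) : ((Bad X T β).ncard : ℝ) ≤ X := by
  have h1 : (Bad X T β).ncard ≤ (Finset.Icc 1 X : Set ℕ).ncard := by
    have := Set.ncard_le_ncard (s := Bad X T β) (t := ((Finset.Icc 1 X : Finset ℕ) : Set ℕ))
      (fun _ h => h.1) (Finset.finite_toSet _)
    simpa using this
  have h2 : ((Finset.Icc 1 X : Finset ℕ) : Set ℕ).ncard = X := by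
    rw [Set.ncard_coe_finset]; simp
  have h3 : (Bad X T β).ncard ≤ X := by
    have := Set.ncard_le_ncard (s := Bad X T β) (t := ((Finset.Icc 1 X : Finset ℕ) : Set ℕ))
      (fun _ h => h.1) (Finset.finite_toSet _)
    rwa [h2] at this
  exact_mod_cast h3

theorem Bad_le : ∃ A : ℕ, ∀ (X : ℕ) (T β : ℝ), 3 ≤ X → 1 ≤ T → 0 ≤ β →
    ((Bad X T β).ncard : ℝ) ≤ A * T ^ A * (Real.log X) ^ A * (X : ℝ) ^ (1 - β / 8) := by
  obtain ⟨A, hA⟩ := Z_main
  refine ⟨A + 1, ?_⟩
  intro X T β hX hT hβ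
  have hX3 : (3:ℝ) ≤ X := by exact_mod_cast hX
  have hlog : 1 ≤ Real.log X := by
    have h1 : Real.exp 1 ≤ X := by linarith [Real.exp_one_lt_d9]
    rw [Real.le_log_iff_exp_le (by linarith)]; exact h1
  have hmono : (A : ℝ) * T ^ A * (Real.log X) ^ A * (X : ℝ) ^ (1 - β / 8) ≤
      ((A + 1 : ℕ) : ℝ) * T ^ (A + 1) * (Real.log X) ^ (A + 1) * (X : ℝ) ^ (1 - β / 8) := by
    have h1 : T ^ A ≤ T ^ (A + 1) := pow_le_pow_right₀ hT (by omega)
    have h2 : (Real.log X) ^ A ≤ (Real.log X) ^ (A + 1) := pow_le_pow_right₀ hlog (by omega)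
    have h3 : (A : ℝ) ≤ ((A + 1 : ℕ) : ℝ) := by push_cast; linarith
    gcongr
  rcases eq_or_lt_of_le hβ with h0 | h0
  · -- β = 0 : trivial bound
    rw [← h0]
    refine (Bad_ncard_le X T 0).trans ?_
    have h1 : (1:ℝ) ≤ T ^ (A + 1) := one_le_pow₀ hT
    have h2 : (1:ℝ) ≤ (Real.log X) ^ (A + 1) := one_le_pow₀ hlog
    have h3 : (1:ℝ) ≤ ((A + 1 : ℕ) : ℝ) := by push_cast; linarith [Nat.cast_nonneg (α := ℝ) A]
    have h4 : (X : ℝ) ^ (1 - (0:ℝ) / 8) = X := by norm_num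
    rw [h4]
    have h5 : (1:ℝ) ≤ ((A + 1 : ℕ) : ℝ) * T ^ (A + 1) * (Real.log X) ^ (A + 1) := by
      calc (1:ℝ) = 1 * 1 * 1 := by norm_num
        _ ≤ _ := by gcongr
    nlinarith
  · refine le_trans ?_ ((hA X T β hX hT hβ).trans hmono)
    have hsub : Bad X T β ⊆ {d : ℕ | d ∈ Finset.Icc 1 X ∧ Squarefree d ∧
        ∃ s : ℂ, Lf d s = 0 ∧ 1 + β ≤ s.re ∧ |s.im| ≤ T} := by
      rintro d ⟨h1, h2, s, hs, hs0, hsT, hsβ⟩
      refine ⟨h1, h2, ?_⟩
      rcases le_abs.mp hsβ with h | h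
      · exact ⟨s, hs, by linarith, hsT⟩
      · refine ⟨2 - s, Lf_reflect h2 hs0 (by linarith) hs, by simp; linarith, ?_⟩
        simpa using hsT
    have hfin : {d : ℕ | d ∈ Finset.Icc 1 X ∧ Squarefree d ∧
        ∃ s : ℂ, Lf d s = 0 ∧ 1 + β ≤ s.re ∧ |s.im| ≤ T}.Finite :=
      (Finset.finite_toSet (Finset.Icc 1 X)).subset (fun _ h => h.1)
    exact_mod_cast Set.ncard_le_ncard hsub hfin

/-! ### All heights at once -/

/-- `d` with a zero far from the line, all heights -/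
def Exc (C : ℝ) (X : ℕ) : Set ℕ := {d : ℕ | d ∈ Finset.Icc 1 X ∧ Squarefree d ∧
      ∃ s : ℂ, Lf d s = 0 ∧ 0 < s.re ∧
        C * Real.log ((|s.im| + 2) * Real.log d) / Real.log d < |s.re - 1|}

lemma sqrt_le_div_log (B : ℕ) : ∃ C : ℝ, 0 ≤ C ∧ ∀ X : ℝ, 3 ≤ X → √X ≤ C * (X / (Real.log X) ^ B) := by
  have h := (isLittleO_log_rpow_rpow_atTop (B : ℝ) (by norm_num : (0:ℝ) < 1 / 2)).isBigO
  obtain ⟨c, hc⟩ := h.bound
  rw [Filter.eventually_atTop] at hc
  obtain ⟨x0, hx0⟩ := hc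
  -- for X ≤ x0 use monotonicity
  set x1 := max x0 3 with hx1
  refine ⟨|c| + (Real.log x1) ^ B + 1, by
    have : 0 ≤ Real.log x1 := Real.log_nonneg (by rw [hx1]; linarith [le_max_right x0 3])
    positivity, ?_⟩
  intro X hX
  have hX0 : 0 < X := by linarith
  have hlog : 0 < Real.log X := Real.log_pos (by linarith)
  have hsq : √X * √X = X := Real.mul_self_sqrt hX0.le
  have hs0 : 0 < √X := Real.sqrt_pos.mpr hX0
  have hlog1 : 0 ≤ Real.log x1 := Real.log_nonneg (by rw [hx1]; linarith [le_max_right x0 3])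
  rw [mul_div_assoc', le_div_iff₀ (by positivity)]
  have key : (Real.log X) ^ B ≤ (|c| + (Real.log x1) ^ B + 1) * √X := by
    rcases le_total x0 X with h1 | h1
    · have h2 := hx0 X h1
      rw [Real.rpow_natCast, Real.norm_of_nonneg (by positivity), Real.norm_of_nonneg (by positivity),
        ← Real.sqrt_eq_rpow] at h2
      have h3 : c ≤ |c| := le_abs_self c
      have h4 : 0 ≤ (Real.log x1) ^ B := by positivity
      calc (Real.log X) ^ B ≤ c * √X := h2
        _ ≤ (|c| + (Real.log x1) ^ B + 1) * √X := by gcongr; linarith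
    · have h2 : Real.log X ≤ Real.log x1 := Real.log_le_log hX0 (h1.trans (le_max_left _ _))
      have h3 : 1 ≤ √X := by
        rw [Real.one_le_sqrt]; linarith
      calc (Real.log X) ^ B ≤ (Real.log x1) ^ B := by gcongr
        _ ≤ (|c| + (Real.log x1) ^ B + 1) * 1 := by
            have := abs_nonneg c; linarith
        _ ≤ (|c| + (Real.log x1) ^ B + 1) * √X := by
            have : 0 ≤ (Real.log x1) ^ B := by positivity
            gcongr
  calc √X * (Real.log X) ^ B ≤ √X * ((|c| + (Real.log x1) ^ B + 1) * √X) := by gcongr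
    _ = (|c| + (Real.log x1) ^ B + 1) * (√X * √X) := by ring
    _ = _ := by rw [hsq]

theorem Exc_le (B : ℕ) : ∃ C : ℝ, 0 < C ∧ ∀ X : ℕ, 3 ≤ X →
    ((Exc C X).ncard : ℝ) ≤ C * (X / (Real.log X) ^ B) := by
  obtain ⟨A, hA⟩ := Bad_le
  obtain ⟨C1, hC1, hsqrt⟩ := sqrt_le_div_log B
  set n : ℕ := A + B + 1 with hn
  -- the constant in the region
  set C0 : ℝ := 16 * n with hC0
  set C : ℝ := C0 + C1 + 2 * A * 2 ^ A + 8 * 3 ^ B + 1 with hC
  have hC0' : 0 ≤ C0 := by positivity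
  have hCpos : 0 < C := by positivity
  have hCC0 : C0 ≤ C := by
    rw [hC]
    have h1 : 0 ≤ C1 + 2 * (A:ℝ) * 2 ^ A + 8 * 3 ^ B := by positivity
    linarith
  refine ⟨C, hCpos, ?_⟩
  intro X hX
  have hX3 : (3:ℝ) ≤ X := by exact_mod_cast hX
  have hX0 : (0:ℝ) < X := by linarith
  have hfinE : (Exc C X).Finite := (Finset.finite_toSet (Finset.Icc 1 X)).subset (fun _ h => h.1)
  have hlogpos : 0 < Real.log X := Real.log_pos (by linarith)
  rcases lt_or_ge X 8 with h8 | h8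
  · -- small X
    have h1 : ((Exc C X).ncard : ℝ) ≤ 8 := by
      have h2 := Set.ncard_le_ncard (s := Exc C X) (t := ((Finset.Icc 1 X : Finset ℕ) : Set ℕ))
        (fun _ h => h.1) (Finset.finite_toSet _)
      rw [Set.ncard_coe_finset] at h2
      simp only [Nat.card_Icc, Nat.add_sub_cancel] at h2
      exact_mod_cast h2.trans h8.le
    have h2 : Real.log X ≤ 3 := by
      have h3 : (X : ℝ) ≤ 8 := by exact_mod_cast h8.le
      have h4 := Real.log_le_log hX0 h3
      have h5 : Real.log 8 = 3 * Real.log 2 := by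
        rw [show (8:ℝ) = 2 ^ 3 by norm_num, Real.log_pow]; norm_num
      linarith [Real.log_two_lt_d9]
    refine h1.trans ?_
    rw [mul_div_assoc', le_div_iff₀ (by positivity)]
    have h3 : (Real.log X) ^ B ≤ 3 ^ B := by gcongr
    have h4 : 8 * (3:ℝ) ^ B ≤ C := by
      rw [hC]
      have h1 : 0 ≤ C0 + C1 + 2 * (A:ℝ) * 2 ^ A := by positivity
      linarith
    calc 8 * (Real.log X) ^ B ≤ 8 * 3 ^ B := by gcongr
      _ ≤ C * 1 := by linarith
      _ ≤ C * X := by gcongr; linarith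
  -- large X
  have hX8 : (8:ℝ) ≤ X := by exact_mod_cast h8
  have hlog2 : 2 ≤ Real.log X := by
    have h4 := Real.log_le_log (by norm_num) hX8
    have h5 : Real.log 8 = 3 * Real.log 2 := by
      rw [show (8:ℝ) = 2 ^ 3 by norm_num, Real.log_pow]; norm_num
    linarith [Real.log_two_gt_d9]
  set S : Finset ℕ := hfinE.toFinset.filter (fun d : ℕ => √(X:ℝ) < (d:ℝ)) with hS
  have hkey : ∀ d ∈ S, ∃ k : ℕ, d ∈ Bad X (2 ^ (k + 1)) (C0 / 2 * Real.log (2 ^ k * Real.log X) / Real.log X) := by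
    intro d hd
    rw [hS, Finset.mem_filter, Set.Finite.mem_toFinset] at hd
    obtain ⟨⟨h1, h2, s, hs, hs0, hsC⟩, hdX⟩ := hd
    have hd1 : 1 ≤ d ∧ d ≤ X := Finset.mem_Icc.mp h1
    have hdX' : (d:ℝ) ≤ X := by exact_mod_cast hd1.2
    have hd0 : (0:ℝ) < d := by exact_mod_cast hd1.1
    have hsq0 : 0 < √(X:ℝ) := Real.sqrt_pos.mpr hX0
    have hld : Real.log X / 2 ≤ Real.log d := by
      have h3 := Real.log_le_log hsq0 hdX.le
      rwa [Real.log_sqrt hX0.le] at h3
    have hld1 : 0 < Real.log d := by linarith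
    have hldX : Real.log d ≤ Real.log X := Real.log_le_log hd0 hdX'
    set y : ℝ := |s.im| with hy
    have hy0 : 0 ≤ y := abs_nonneg _
    obtain ⟨k, hk1, hk2⟩ : ∃ k : ℕ, (2:ℝ) ^ k ≤ y + 2 ∧ y + 2 < 2 ^ (k + 1) :=
      exists_nat_pow_near (by linarith) (by norm_num)
    have hk : 1 ≤ k := by
      by_contra hk0
      have : k = 0 := by omega
      rw [this] at hk2
      norm_num at hk2
      linarith
    refine ⟨k, h1, h2, s, hs, hs0, by linarith, ?_⟩
    have h2k : (2:ℝ) ≤ 2 ^ k := by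
      calc (2:ℝ) = 2 ^ 1 := by norm_num
        _ ≤ 2 ^ k := pow_le_pow_right₀ (by norm_num) hk
    refine le_trans ?_ hsC.le
    -- compare
    have h5 : 4 ≤ 2 ^ k * Real.log X := by nlinarith
    have h6 : 1 ≤ (y + 2) * Real.log d := by nlinarith
    have h7 : (1 / 2) * Real.log (2 ^ k * Real.log X) ≤ Real.log ((y + 2) * Real.log d) := by
      have h8 : 2 ^ k * Real.log X / 2 ≤ (y + 2) * Real.log d := by
        calc 2 ^ k * Real.log X / 2 = 2 ^ k * (Real.log X / 2) := by ring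
          _ ≤ _ := by gcongr
      have h9 := Real.log_le_log (by positivity) h8
      refine le_trans ?_ h9
      rw [Real.log_div (by positivity) (by norm_num)]
      have h10 : 2 * Real.log 2 ≤ Real.log (2 ^ k * Real.log X) := by
        have := Real.log_le_log (by norm_num) h5
        rw [show (4:ℝ) = 2 ^ 2 by norm_num, Real.log_pow] at this
        push_cast at this
        exact this
      linarith
    have h11 : 0 ≤ Real.log (2 ^ k * Real.log X) := Real.log_nonneg (by linarith)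
    have h12 : 0 ≤ Real.log ((y + 2) * Real.log d) := Real.log_nonneg h6
    calc C0 / 2 * Real.log (2 ^ k * Real.log X) / Real.log X =
        C0 * ((1 / 2) * Real.log (2 ^ k * Real.log X)) / Real.log X := by ring
      _ ≤ C0 * Real.log ((y + 2) * Real.log d) / Real.log X := by gcongr
      _ ≤ C * Real.log ((y + 2) * Real.log d) / Real.log X := by gcongr
      _ ≤ C * Real.log ((y + 2) * Real.log d) / Real.log d := by gcongr
  -- the bound of each piece
  have hpiece : ∀ k : ℕ, ((Bad X (2 ^ (k + 1)) (C0 / 2 * Real.log (2 ^ k * Real.log X) / Real.log X)).ncard : ℝ) ≤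
      (A * 2 ^ A) * (X / (Real.log X) ^ B) * (1 / 2) ^ k := by
    intro k
    have h2k : (1:ℝ) ≤ 2 ^ k := one_le_pow₀ (by norm_num)
    have hw : 1 ≤ 2 ^ k * Real.log X := by nlinarith
    have h1 := hA X (2 ^ (k + 1)) (C0 / 2 * Real.log (2 ^ k * Real.log X) / Real.log X) hX
      (one_le_pow₀ (by norm_num)) (by
        have := Real.log_nonneg hw
        positivity)
    refine h1.trans ?_
    have h2 : (X : ℝ) ^ (1 - C0 / 2 * Real.log (2 ^ k * Real.log X) / Real.log X / 8) =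
        X * ((2 ^ k * Real.log X) ^ n)⁻¹ := by
      rw [Real.rpow_sub hX0, Real.rpow_one, div_eq_mul_inv]
      congr 2
      rw [Real.rpow_def_of_pos hX0]
      have e1 : Real.log X * (C0 / 2 * Real.log (2 ^ k * Real.log X) / Real.log X / 8) =
          Real.log (2 ^ k * Real.log X) * n := by
        rw [hC0]; field_simp; ring
      rw [e1, ← Real.rpow_def_of_pos (by linarith), Real.rpow_natCast]
    rw [h2]
    have e2 : (A : ℝ) * (2 ^ (k + 1)) ^ A * Real.log X ^ A * (X * ((2 ^ k * Real.log X) ^ n)⁻¹) =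
        (A * 2 ^ A) * X * (((2:ℝ) ^ k) ^ A / ((2:ℝ) ^ k) ^ n) * (Real.log X ^ A / Real.log X ^ n) := by
      rw [mul_pow (2 ^ k : ℝ) (Real.log X) n, pow_succ (2:ℝ) k, mul_pow]
      have : (2:ℝ) ^ k ≠ 0 := by positivity
      field_simp
    rw [e2]
    have e3 : ((2:ℝ) ^ k) ^ A / ((2:ℝ) ^ k) ^ n ≤ (1 / 2) ^ k := by
      rw [div_le_iff₀ (by positivity), one_div, inv_pow]
      have e5 : ((2:ℝ) ^ k) ^ A * 2 ^ k ≤ ((2:ℝ) ^ k) ^ n := by
        rw [← pow_succ]
        exact pow_le_pow_right₀ h2k (by omega)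
      rw [inv_mul_eq_div, le_div_iff₀ (by positivity)]
      exact e5
    have e4 : Real.log X ^ A / Real.log X ^ n ≤ 1 / Real.log X ^ B := by
      rw [div_le_div_iff₀ (by positivity) (by positivity), one_mul, ← pow_add]
      exact pow_le_pow_right₀ (by linarith) (by omega)
    calc (A * 2 ^ A) * X * (((2:ℝ) ^ k) ^ A / ((2:ℝ) ^ k) ^ n) * (Real.log X ^ A / Real.log X ^ n) ≤
        (A * 2 ^ A) * X * ((1 / 2) ^ k) * (1 / Real.log X ^ B) := by gcongr
      _ = _ := by ring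
  -- sum up
  have hScard : (S.card : ℝ) ≤ 2 * (A * 2 ^ A) * (X / (Real.log X) ^ B) := by
    classical
    choose! kf hkf using hkey
    have h1 : S.card = ∑ k ∈ S.image kf, (S.filter (fun d => kf d = k)).card :=
      Finset.card_eq_sum_card_image kf S
    have h2 : ∀ k ∈ S.image kf, ((S.filter (fun d => kf d = k)).card : ℝ) ≤
        (A * 2 ^ A) * (X / (Real.log X) ^ B) * (1 / 2) ^ k := by
      intro k _
      refine le_trans ?_ (hpiece k)
      have h3 : ((S.filter (fun d => kf d = k) : Finset ℕ) : Set ℕ) ⊆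
          Bad X (2 ^ (k + 1)) (C0 / 2 * Real.log (2 ^ k * Real.log X) / Real.log X) := by
        intro d hd
        rw [Finset.mem_coe, Finset.mem_filter] at hd
        have := hkf d hd.1
        rwa [hd.2] at this
      have h4 := Set.ncard_le_ncard h3 (Bad_finite _ _ _)
      rw [Set.ncard_coe_finset] at h4
      exact_mod_cast h4
    rw [h1]
    push_cast
    refine (Finset.sum_le_sum h2).trans ?_
    rw [← Finset.mul_sum]
    have h5 : ∑ k ∈ S.image kf, ((1:ℝ) / 2) ^ k ≤ 2 := by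
      have h6 := summable_geometric_two.sum_le_tsum (S.image kf) (fun k _ => by positivity)
      rw [tsum_geometric_two] at h6
      exact h6
    have h7 : 0 ≤ (A * 2 ^ A) * ((X:ℝ) / (Real.log X) ^ B) := by positivity
    calc _ ≤ (A * 2 ^ A) * ((X:ℝ) / (Real.log X) ^ B) * 2 := by gcongr
      _ = _ := by ring
  -- the small d
  have hsmall : ((hfinE.toFinset.filter (fun d : ℕ => ¬ √(X:ℝ) < (d:ℝ))).card : ℝ) ≤ √X := by
    have h1 : (hfinE.toFinset.filter (fun d : ℕ => ¬ √(X:ℝ) < (d:ℝ))) ⊆ Finset.Icc 1 ⌊√(X:ℝ)⌋₊ := by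
      intro d hd
      rw [Finset.mem_filter, Set.Finite.mem_toFinset] at hd
      have h2 : d ∈ Finset.Icc 1 X := hd.1.1
      rw [Finset.mem_Icc] at h2 ⊢
      exact ⟨h2.1, Nat.le_floor (not_lt.mp hd.2)⟩
    have h2 := Finset.card_le_card h1
    simp only [Nat.card_Icc, Nat.add_sub_cancel] at h2
    exact (by exact_mod_cast h2 : ((hfinE.toFinset.filter (fun d : ℕ => ¬ √(X:ℝ) < (d:ℝ))).card : ℝ) ≤ (⌊√(X:ℝ)⌋₊ : ℝ)).trans
      (Nat.floor_le (Real.sqrt_nonneg _))
  have htot : ((Exc C X).ncard : ℝ) = (S.card : ℝ) +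
      ((hfinE.toFinset.filter (fun d : ℕ => ¬ √(X:ℝ) < (d:ℝ))).card : ℝ) := by
    rw [Set.ncard_eq_toFinset_card _ hfinE, hS]
    exact_mod_cast (Finset.card_filter_add_card_filter_not (s := hfinE.toFinset) (fun d : ℕ => √X < (d:ℝ))).symm
  rw [htot]
  have h9 := hsqrt X hX3
  have h10 : 0 ≤ (X:ℝ) / (Real.log X) ^ B := by positivity
  calc (S.card : ℝ) + _ ≤ 2 * (A * 2 ^ A) * (X / (Real.log X) ^ B) + C1 * (X / (Real.log X) ^ B) :=
        add_le_add hScard (hsmall.trans h9)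
    _ = (2 * (A * 2 ^ A) + C1) * (X / (Real.log X) ^ B) := by ring
    _ ≤ C * (X / (Real.log X) ^ B) := by
        gcongr
        rw [hC]
        have h1 : 0 ≤ C0 + 8 * (3:ℝ) ^ B := by positivity
        linarith

end Pool.Agent.ZD
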