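import Mathlib
import Pool.Agent.ZD.Z1
import Pool.Agent.ZD.Z2

/-!
Module Z, part 5: the Cauchy formula and the mollified series with the right line at `Re w = R`.
-/

set_option autoImplicit false

open Complex MeasureTheory Set Filter Topology

namespace Pool.Agent.ZD

open Pool.Agent.H5 (c bd Lser bd_zero)
open Pool.Agent.H6

/-- Cauchy's formula on a strip, right line at `R` -/
theorem strip_formula_R {F : ℂ → ℂ} (hF : Differentiable ℂ F) {x K R : ℝ} (hx : 0 < x) (hx1 : x ≤ 1)
    (hR : 2 ≤ R) (hK : ∀ w : ℂ, -x ≤ w.re → w.re ≤ R → ‖F w‖ ≤ K * Real.exp (-|w.im|)) :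
    2 * Real.pi * F 0 = (∫ y : ℝ, F ((R:ℝ) + y * I) / ((R:ℝ) + y * I)) -
      ∫ y : ℝ, F ((-x : ℝ) + y * I) / ((-x : ℝ) + y * I) := by
  have h1 := strip_formula hF hx hx1 (fun w h1 h2 => hK w h1 (h2.trans hR))
  rw [h1]
  congr 1
  have hKnn : 0 ≤ K := by
    have := (norm_nonneg _).trans (hK 0 (by simp; linarith) (by simp; linarith))
    simpa using this
  have hmt : Tendsto (fun y : ℝ => K * Real.exp (-|y|)) atTop (𝓝 0) := by
    rw [← mul_zero K]
    apply Tendsto.const_mul
    exact Real.tendsto_exp_neg_atTop_nhds_zero.comp tendsto_abs_atTop_atTop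
  have hmb : Tendsto (fun y : ℝ => K * Real.exp (-|y|)) atBot (𝓝 0) := by
    rw [← mul_zero K]
    apply Tendsto.const_mul
    exact Real.tendsto_exp_neg_atTop_nhds_zero.comp tendsto_abs_atBot_atTop
  have h2 := Pool.Agent.H26.integral_vertical_shift (f := fun w => F w / w) (a := 2) (b := R) hR
    (fun z hz1 _ => by
      apply DifferentiableAt.div (hF z) differentiableAt_id
      intro h0
      have h0' : z = 0 := h0
      rw [h0'] at hz1
      simp at hz1
      linarith) (m := fun y => K * Real.exp (-|y|)) (fun u y hu1 hu2 => by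
      have h3 := hK (u + y * I) (by simp; linarith) (by simpa using hu2)
      simp only [add_im, ofReal_im, mul_im, ofReal_re, I_im, mul_one, I_re, mul_zero, add_zero,
        zero_add] at h3
      have h4 : 1 ≤ ‖(u + y * I : ℂ)‖ := by
        have := Complex.re_le_norm (u + y * I)
        simp at this
        linarith
      rw [norm_div]
      exact (div_le_self (norm_nonneg _) h4).trans h3)
    (integrable_exp_neg_abs.const_mul _) hmt hmb
  simpa using h2.symm

/-- the mollified series is close to one, far to the right -/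
theorem mol_right_R {R : ℕ} (hR : 2 ≤ R) : ∃ C : ℝ, 0 < C ∧ ∀ (d : ℤ) (Y : ℕ) (s : ℂ), 1 ≤ Y →
    (R : ℝ) + 1 ≤ s.re → ‖Lser d s * mol d Y s - 1‖ ≤ C / Y ^ (R - 1) := by
  obtain ⟨C, hC, hcb⟩ := lin_coef
  refine ⟨C, by linarith, fun d Y s hY hs => ?_⟩
  have hR' : (2:ℝ) ≤ R := by exact_mod_cast hR
  have hs3 : 3 ≤ s.re := by linarith
  obtain ⟨hsum, hprod⟩ := Lser_mul_mol d Y hs3
  have hYr : (0:ℝ) < Y := by exact_mod_cast hY
  set C' : ℝ := C / Y ^ (R - 2) with hC'
  have hC'0 : 0 ≤ C' := by positivity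
  have h1 : HasSum (fun n : ℕ => if n = 1 then (1:ℂ) else 0) 1 := hasSum_ite_eq 1 1
  rw [hprod, ← h1.tsum_eq, ← hsum.tsum_sub h1.summable]
  have hf : ∀ n : ℕ, ‖((aY d Y n : ℝ) : ℂ) * (n : ℂ) ^ (-s) - (if n = 1 then (1:ℂ) else 0)‖ ≤
      if n ≤ Y then 0 else C' * ((n : ℝ) ^ 2)⁻¹ := by
    intro n
    split_ifs with h1 h2 h2
    · subst h1
      rw [aY_one d hY]; simp
    · rw [h1, aY_one d hY] ; simp
      omega
    · rcases Nat.eq_zero_or_pos n with rfl | hn
      · simp [aY_zero]
      · rw [aY_of_le d (by omega) h2]; simp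
    · rw [sub_zero]
      have hn0 : 0 < n := by omega
      have hn1 : (1:ℝ) ≤ n := by exact_mod_cast hn0
      have hnr : (0:ℝ) < n := by linarith
      have hYn : (Y:ℝ) ≤ n := by exact_mod_cast (by omega : Y ≤ n)
      rw [norm_mul, Complex.norm_real, Real.norm_eq_abs, Complex.norm_natCast_cpow_of_pos hn0,
        Complex.neg_re, Real.rpow_neg hnr.le]
      have h5 : (n:ℝ) ^ (R + 1) ≤ (n:ℝ) ^ s.re := by
        rw [← Real.rpow_natCast]
        apply Real.rpow_le_rpow_of_exponent_le hn1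
        push_cast; exact hs
      have h6 : (n:ℝ) ^ (R + 1) = (n:ℝ) ^ (R - 2) * (n:ℝ) ^ 2 * n := by
        rw [← pow_add, ← pow_succ]; congr 1; omega
      calc |(aY d Y n : ℝ)| * ((n:ℝ) ^ s.re)⁻¹ ≤ (C * n) * ((n:ℝ) ^ (R + 1))⁻¹ := by
            gcongr
            · exact (hcb d n).2 Y
        _ = C / (n:ℝ) ^ (R - 2) * ((n:ℝ) ^ 2)⁻¹ := by
            rw [h6]; field_simp
        _ ≤ C' * ((n : ℝ) ^ 2)⁻¹ := by
            rw [hC']; gcongr
  have hsumf : Summable (fun n : ℕ => if n ≤ Y then 0 else C' * ((n : ℝ) ^ 2)⁻¹) := by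
    refine Summable.of_nonneg_of_le (fun n => ?_) (fun n => ?_) (summable_inv_sq' C')
    · split_ifs <;> positivity
    · split_ifs
      · positivity
      · exact le_rfl
  refine (tsum_of_norm_bounded hsumf.hasSum hf).trans ?_
  apply Real.tsum_le_of_sum_range_le
  · intro n; split_ifs <;> positivity
  · intro M
    rcases Nat.lt_or_ge M (Y + 1) with hM | hM
    · have : ∑ n ∈ Finset.range M, (if n ≤ Y then 0 else C' * ((n : ℝ) ^ 2)⁻¹) = 0 := by
        apply Finset.sum_eq_zero
        intro n hn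
        rw [if_pos (by have := Finset.mem_range.mp hn; omega)]
      rw [this]; positivity
    · have h2 : ∑ n ∈ Finset.range M, (if n ≤ Y then 0 else C' * ((n : ℝ) ^ 2)⁻¹) ≤
          ∑ n ∈ Finset.Ioc Y M, C' * ((n : ℝ) ^ 2)⁻¹ := by
        have h3 : ∑ n ∈ Finset.range M, (if n ≤ Y then 0 else C' * ((n : ℝ) ^ 2)⁻¹) =
            ∑ n ∈ (Finset.range M).filter (fun n => ¬ n ≤ Y), C' * ((n : ℝ) ^ 2)⁻¹ := by
          rw [Finset.sum_filter]
          apply Finset.sum_congr rfl
          intro n _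
          by_cases h : n ≤ Y <;> simp [h]
        rw [h3]
        apply Finset.sum_le_sum_of_subset_of_nonneg
        · intro n hn
          simp only [Finset.mem_filter, Finset.mem_range, Finset.mem_Ioc] at hn ⊢
          omega
        · intro n _ _
          positivity
      refine h2.trans ?_
      rw [← Finset.mul_sum]
      have h4 := sum_Ioc_inv_sq_le_sub (α := ℝ) (k := Y) (n := M) (by omega) (by omega)
      have h5 : (0:ℝ) ≤ (M:ℝ)⁻¹ := by positivity
      calc C' * ∑ i ∈ Finset.Ioc Y M, ((i:ℝ) ^ 2)⁻¹ ≤ C' * (Y:ℝ)⁻¹ := by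
            gcongr
            linarith
        _ = C / Y ^ (R - 1) := by
            rw [hC', show R - 1 = (R - 2) + 1 by omega, pow_succ]
            field_simp

end Pool.Agent.ZD
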