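import Mathlib
import Pool.Agent.ZD.G1
import Pool.Agent.ZD.Z2

/-!
Module Z, part 7: the mean square of a character sum of length up to `X ^ θ`, `θ < 1/2`.
-/

set_option autoImplicit false

open Complex MeasureTheory Set Filter Topology

namespace Pool.Agent.ZD

open Pool.Agent.H5 (c bd Lser bd_zero)
open Pool.Agent.H6

/-- the sum of `1 / k ^ 2` over the integers -/
noncomputable def C00 : ℝ := ∑' k : ℤ, 1 / (k : ℝ) ^ 2

lemma summable_C00 : Summable (fun k : ℤ => 1 / (k : ℝ) ^ 2) :=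
  Real.summable_one_div_int_pow.mpr (by norm_num)

lemma C00_nonneg : 0 ≤ C00 := tsum_nonneg fun k => by positivity

lemma exp_sq_le {k : ℤ} (hk : k ≠ 0) {x : ℝ} (hx : 1 ≤ x) :
    Real.exp (-(Real.pi * k ^ 2 * x)) ≤ Real.exp (-(Real.pi * x)) * (1 / (k : ℝ) ^ 2) := by
  have hk1 : (1:ℝ) ≤ (k:ℝ) ^ 2 := by
    have : (1:ℤ) ≤ k ^ 2 := by
      have := sq_nonneg k
      have h2 : k ^ 2 ≠ 0 := pow_ne_zero 2 hk
      omega
    exact_mod_cast this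
  have hpi := Real.pi_gt_three
  have h1 : (k:ℝ) ^ 2 ≤ Real.exp (Real.pi * ((k:ℝ) ^ 2 - 1) * x) := by
    have h2 := Real.add_one_le_exp (Real.pi * ((k:ℝ) ^ 2 - 1) * x)
    have h3 : (k:ℝ) ^ 2 - 1 ≤ Real.pi * ((k:ℝ) ^ 2 - 1) * x := by
      have h4 : 0 ≤ (k:ℝ) ^ 2 - 1 := by linarith
      have h5 : 1 ≤ Real.pi * x := by nlinarith
      calc (k:ℝ) ^ 2 - 1 = ((k:ℝ) ^ 2 - 1) * 1 := by ring
        _ ≤ ((k:ℝ) ^ 2 - 1) * (Real.pi * x) := by gcongr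
        _ = _ := by ring
    linarith
  have h6 : Real.exp (-(Real.pi * x)) =
      Real.exp (-(Real.pi * k ^ 2 * x)) * Real.exp (Real.pi * ((k:ℝ) ^ 2 - 1) * x) := by
    rw [← Real.exp_add]; congr 1; ring
  rw [h6, mul_one_div, le_div_iff₀ (by linarith)]
  gcongr

lemma norm_gauss (D : ℤ) (Z : ℝ) : ‖exp (-(Real.pi * (D:ℂ) ^ 2 / (Z:ℂ) ^ 2))‖ =
    Real.exp (-(Real.pi * D ^ 2 / Z ^ 2)) := by
  rw [show (-(Real.pi * (D:ℂ) ^ 2 / (Z:ℂ) ^ 2)) = ((-(Real.pi * D ^ 2 / Z ^ 2) : ℝ) : ℂ) by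
    push_cast; ring, Complex.norm_exp_ofReal]

lemma gauss_summable {Z : ℝ} (hZ : 0 < Z) :
    Summable (fun D : ℤ => Real.exp (-(Real.pi * D ^ 2 / Z ^ 2))) := by
  have h1 := (poisson (m := 1) odd_one hZ).1.norm
  refine h1.congr fun D => ?_
  rw [norm_mul, norm_gauss]
  simp

lemma gauss_sum_le {Z : ℝ} (hZ : 1 ≤ Z) :
    ∑' D : ℤ, Real.exp (-(Real.pi * D ^ 2 / Z ^ 2)) ≤ (1 + C00) * Z := by
  have hZ0 : 0 < Z := by linarith
  have h1 := (poisson (m := 1) odd_one hZ0).2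
  have h2 : ∑' D : ℤ, (jacobiSym D 1 : ℂ) * exp (-(Real.pi * D ^ 2 / Z ^ 2)) =
      ((∑' D : ℤ, Real.exp (-(Real.pi * D ^ 2 / Z ^ 2)) : ℝ) : ℂ) := by
    rw [Complex.ofReal_tsum]
    congr 1
    funext D
    simp
  rw [h2] at h1
  have hb : HasSum (fun k : ℤ => (if k = 0 then Z else 0) + Z * (1 / (k:ℝ) ^ 2)) (Z + Z * C00) :=
    (hasSum_ite_eq 0 Z).add (summable_C00.hasSum.mul_left Z)
  have h3 : ∀ k : ℤ, ‖((Z / (1:ℕ) : ℝ) : ℂ) * (tau k 1 * exp (-(Real.pi * k ^ 2 * Z ^ 2 / (1:ℕ) ^ 2)))‖ ≤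
      (if k = 0 then Z else 0) + Z * (1 / (k:ℝ) ^ 2) := by
    intro k
    rw [tau_one]
    have e1 : ‖exp (-(Real.pi * (k:ℂ) ^ 2 * (Z:ℂ) ^ 2 / ((1:ℕ):ℂ) ^ 2))‖ =
        Real.exp (-(Real.pi * k ^ 2 * Z ^ 2)) := by
      rw [show (-(Real.pi * (k:ℂ) ^ 2 * (Z:ℂ) ^ 2 / ((1:ℕ):ℂ) ^ 2)) =
        ((-(Real.pi * k ^ 2 * Z ^ 2) : ℝ) : ℂ) by push_cast; ring, Complex.norm_exp_ofReal]
    rw [norm_mul, norm_mul, e1, norm_one, one_mul, Complex.norm_real, Real.norm_eq_abs]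
    simp only [Nat.cast_one, div_one]
    rw [abs_of_pos hZ0]
    by_cases hk : k = 0
    · subst hk; simp
    · rw [if_neg hk, zero_add]
      gcongr
      have h4 : (1:ℝ) ≤ Z ^ 2 := one_le_pow₀ hZ
      refine (exp_sq_le hk h4).trans ?_
      have h5 : Real.exp (-(Real.pi * Z ^ 2)) ≤ 1 := by
        rw [Real.exp_le_one_iff]
        have := Real.pi_pos
        have : 0 < Real.pi * Z ^ 2 := by positivity
        linarith
      calc Real.exp (-(Real.pi * Z ^ 2)) * (1 / (k:ℝ) ^ 2) ≤ 1 * (1 / (k:ℝ) ^ 2) := by gcongr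
        _ = _ := one_mul _
  have h4 := h1.norm_le_of_bounded hb h3
  rw [Complex.norm_real, Real.norm_of_nonneg (tsum_nonneg fun _ => (Real.exp_pos _).le)] at h4
  linarith

lemma gauss_char_summable (m : ℕ) {Z : ℝ} (hZ : 0 < Z) :
    Summable (fun D : ℤ => (jacobiSym D m : ℂ) * exp (-(Real.pi * D ^ 2 / Z ^ 2))) := by
  refine Summable.of_norm_bounded (gauss_summable hZ) fun D => ?_
  rw [norm_mul, norm_gauss]
  exact mul_le_of_le_one_left (Real.exp_pos _).le (G1.norm_jacobi_le _ _)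

lemma gauss_char_le (m : ℕ) {Z : ℝ} (hZ : 1 ≤ Z) :
    ‖∑' D : ℤ, (jacobiSym D m : ℂ) * exp (-(Real.pi * D ^ 2 / Z ^ 2))‖ ≤ (1 + C00) * Z := by
  have hZ0 : 0 < Z := by linarith
  refine (norm_tsum_le_tsum_norm (gauss_char_summable m hZ0).norm).trans
    (le_trans ?_ (gauss_sum_le hZ))
  apply Summable.tsum_le_tsum _ (gauss_char_summable m hZ0).norm (gauss_summable hZ0)
  intro D
  rw [norm_mul, norm_gauss]
  exact mul_le_of_le_one_left (Real.exp_pos _).le (G1.norm_jacobi_le _ _)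

lemma gauss_char_nonsq {m : ℕ} (hm : Odd m) (hs : ¬ IsSquare m) {Z W : ℝ} (hW : 1 ≤ W)
    (hWZ : W ≤ Z) (hmW : (m:ℝ) ≤ W) :
    ‖∑' D : ℤ, (jacobiSym D m : ℂ) * exp (-(Real.pi * D ^ 2 / Z ^ 2))‖ ≤
      Z * Real.exp (-(Real.pi * (Z ^ 2 / W ^ 2))) * C00 := by
  have hW0 : 0 < W := by linarith
  have hZ0 : 0 < Z := by linarith
  have hm0 : 0 < m := hm.pos
  have hm0r : (0:ℝ) < m := by exact_mod_cast hm0
  have h1 := (poisson hm hZ0).2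
  have hb : HasSum (fun k : ℤ => Z * Real.exp (-(Real.pi * (Z ^ 2 / W ^ 2))) * (1 / (k:ℝ) ^ 2))
      (Z * Real.exp (-(Real.pi * (Z ^ 2 / W ^ 2))) * C00) :=
    summable_C00.hasSum.mul_left _
  refine h1.norm_le_of_bounded hb fun k => ?_
  by_cases hk : k = 0
  · subst hk
    rw [tau_zero_not_square hm hs]
    simp
  · have e1 : ‖exp (-(Real.pi * (k:ℂ) ^ 2 * (Z:ℂ) ^ 2 / (m:ℂ) ^ 2))‖ =
        Real.exp (-(Real.pi * k ^ 2 * (Z ^ 2 / m ^ 2))) := by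
      rw [show (-(Real.pi * (k:ℂ) ^ 2 * (Z:ℂ) ^ 2 / (m:ℂ) ^ 2)) =
        ((-(Real.pi * k ^ 2 * (Z ^ 2 / m ^ 2)) : ℝ) : ℂ) by push_cast; ring, Complex.norm_exp_ofReal]
    rw [norm_mul, norm_mul, e1, Complex.norm_real, Real.norm_eq_abs, abs_of_pos (by positivity)]
    have h2 : Real.exp (-(Real.pi * k ^ 2 * (Z ^ 2 / m ^ 2))) ≤
        Real.exp (-(Real.pi * k ^ 2 * (Z ^ 2 / W ^ 2))) := by
      apply Real.exp_le_exp.mpr
      have := Real.pi_pos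
      gcongr
    have h3 : 1 ≤ Z ^ 2 / W ^ 2 := by
      rw [le_div_iff₀ (by positivity), one_mul]
      gcongr
    have h4 := exp_sq_le hk h3
    have h5 := norm_tau_le k m
    calc Z / m * (‖tau k m‖ * Real.exp (-(Real.pi * k ^ 2 * (Z ^ 2 / m ^ 2)))) ≤
        Z / m * (m * (Real.exp (-(Real.pi * (Z ^ 2 / W ^ 2))) * (1 / (k : ℝ) ^ 2))) := by
          gcongr
          exact h2.trans h4
      _ = _ := by field_simp

/-- mean square of a character sum of length `Y`, `Y ^ 2 ≤ X` -/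
theorem ortho2 : ∃ C : ℝ, 1 ≤ C ∧ ∀ (X Y : ℕ) (b : ℕ → ℂ), (∀ n, Even n → b n = 0) → 1 ≤ Y →
    Y ^ 2 ≤ X →
    ∑ d ∈ Finset.Icc 1 X, ‖∑ n ∈ Finset.Icc 1 Y, b n * (jacobiSym d n : ℂ)‖ ^ 2 ≤
      C * X * ((∑ p ∈ (Finset.Icc 1 Y ×ˢ Finset.Icc 1 Y).filter
          (fun p : ℕ × ℕ => IsSquare (p.1 * p.2)), ‖b p.1‖ * ‖b p.2‖) +
        Real.exp (-(Real.pi * ((X:ℝ) ^ 2 / (Y:ℝ) ^ 4))) * (∑ n ∈ Finset.Icc 1 Y, ‖b n‖) ^ 2) := by
  classical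
  refine ⟨Real.exp Real.pi * (1 + C00), ?_, ?_⟩
  · have h1 := Real.one_le_exp Real.pi_pos.le
    have h2 := C00_nonneg
    nlinarith
  intro X Y b hb hY hYX
  have hX : 1 ≤ X := le_trans (Nat.one_le_pow _ _ hY) hYX
  have hXr : (1:ℝ) ≤ X := by exact_mod_cast hX
  have hX0 : (0:ℝ) < X := by linarith
  have hYr : (1:ℝ) ≤ Y := by exact_mod_cast hY
  have hYXr : (Y:ℝ) ^ 2 ≤ X := by exact_mod_cast hYX
  set g : ℤ → ℝ := fun D => Real.exp (-(Real.pi * D ^ 2 / (X:ℝ) ^ 2)) with hg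
  set S : ℤ → ℂ := fun D => ∑ n ∈ Finset.Icc 1 Y, b n * (jacobiSym D n : ℂ) with hS
  set Gs : ℕ → ℂ := fun m => ∑' D : ℤ, (jacobiSym D m : ℂ) *
    exp (-(Real.pi * D ^ 2 / (X:ℝ) ^ 2)) with hGs
  have hgs : Summable g := gauss_summable hX0
  set B : ℝ := ∑ n ∈ Finset.Icc 1 Y, ‖b n‖ with hB
  have hSB : ∀ D, ‖S D‖ ≤ B := by
    intro D
    rw [hS, hB]
    refine (norm_sum_le _ _).trans (Finset.sum_le_sum fun n _ => ?_)
    rw [norm_mul]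
    exact mul_le_of_le_one_right (norm_nonneg _) (G1.norm_jacobi_le _ _)
  have hsum : Summable (fun D : ℤ => g D * ‖S D‖ ^ 2) := by
    refine Summable.of_nonneg_of_le (fun D => by positivity) (fun D => ?_) (hgs.mul_right (B ^ 2))
    have := hSB D
    gcongr
  have hsq : ∀ D : ℤ, ((g D * ‖S D‖ ^ 2 : ℝ) : ℂ) = ∑ p ∈ Finset.Icc 1 Y ×ˢ Finset.Icc 1 Y,
      b p.1 * (starRingEnd ℂ) (b p.2) * ((jacobiSym D (p.1 * p.2) : ℂ) *
        exp (-(Real.pi * D ^ 2 / (X:ℝ) ^ 2))) := by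
    intro D
    have h1 : ((g D : ℝ) : ℂ) = exp (-(Real.pi * D ^ 2 / (X:ℝ) ^ 2)) := by
      rw [hg]; push_cast; rfl
    rw [Complex.ofReal_mul, h1, Complex.ofReal_pow, ← Complex.mul_conj', hS]
    simp only
    rw [map_sum, Finset.sum_mul_sum, Finset.sum_product, Finset.mul_sum]
    apply Finset.sum_congr rfl
    intro m hm
    rw [Finset.mul_sum]
    apply Finset.sum_congr rfl
    intro n hn
    have hm1 : NeZero m := ⟨by have := (Finset.mem_Icc.1 hm).1; omega⟩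
    have hn1 : NeZero n := ⟨by have := (Finset.mem_Icc.1 hn).1; omega⟩
    have hc : (starRingEnd ℂ) ((jacobiSym D n : ℤ) : ℂ) = ((jacobiSym D n : ℤ) : ℂ) :=
      Complex.conj_eq_iff_real.2 ⟨((jacobiSym D n : ℤ) : ℝ), by push_cast; rfl⟩
    rw [jacobiSym.mul_right, map_mul, hc]
    push_cast
    ring
  have hhas : HasSum (fun D : ℤ => ((g D * ‖S D‖ ^ 2 : ℝ) : ℂ))
      (∑ p ∈ Finset.Icc 1 Y ×ˢ Finset.Icc 1 Y, b p.1 * (starRingEnd ℂ) (b p.2) * Gs (p.1 * p.2)) := by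
    simp_rw [hsq]
    apply hasSum_sum
    intro p _
    apply HasSum.mul_left
    exact (gauss_char_summable (p.1 * p.2) hX0).hasSum
  have htot : ∑' D : ℤ, g D * ‖S D‖ ^ 2 ≤ ∑ p ∈ Finset.Icc 1 Y ×ˢ Finset.Icc 1 Y,
      ‖b p.1‖ * ‖b p.2‖ * ‖Gs (p.1 * p.2)‖ := by
    have h1 := hhas.tsum_eq
    rw [← Complex.ofReal_tsum] at h1
    have h2 : ‖((∑' D : ℤ, g D * ‖S D‖ ^ 2 : ℝ) : ℂ)‖ = ∑' D : ℤ, g D * ‖S D‖ ^ 2 := by
      rw [Complex.norm_real, Real.norm_of_nonneg (tsum_nonneg fun D => by positivity)]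
    rw [← h2, h1]
    refine (norm_sum_le _ _).trans (le_of_eq ?_)
    apply Finset.sum_congr rfl
    intro p _
    rw [norm_mul, norm_mul, Complex.norm_conj]
  have hleft : Real.exp (-Real.pi) * ∑ d ∈ Finset.Icc 1 X, ‖S d‖ ^ 2 ≤
      ∑' D : ℤ, g D * ‖S D‖ ^ 2 := by
    have h1 : ∑ D ∈ (Finset.Icc 1 X).image (fun d : ℕ => (d : ℤ)), g D * ‖S D‖ ^ 2 ≤
        ∑' D : ℤ, g D * ‖S D‖ ^ 2 := hsum.sum_le_tsum _ fun D _ => by positivity
    refine le_trans ?_ h1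
    rw [Finset.sum_image (fun a _ b _ h => by exact_mod_cast h), Finset.mul_sum]
    apply Finset.sum_le_sum
    intro d hd
    gcongr
    rw [hg]
    apply Real.exp_le_exp.mpr
    have hdX : (d:ℝ) ≤ X := by exact_mod_cast (Finset.mem_Icc.1 hd).2
    have h2 : (d:ℝ) ^ 2 / (X:ℝ) ^ 2 ≤ 1 := by
      rw [div_le_one (by positivity)]
      gcongr
    have h3 : Real.pi * ((d:ℤ):ℝ) ^ 2 / (X:ℝ) ^ 2 = Real.pi * ((d:ℝ) ^ 2 / (X:ℝ) ^ 2) := by
      push_cast; ring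
    rw [h3]
    have := Real.pi_pos
    nlinarith
  -- the bound of the pairs
  set x : ℝ := (X:ℝ) ^ 2 / (Y:ℝ) ^ 4 with hx
  have hpair : ∀ p ∈ Finset.Icc 1 Y ×ˢ Finset.Icc 1 Y, ‖b p.1‖ * ‖b p.2‖ * ‖Gs (p.1 * p.2)‖ ≤
      (if IsSquare (p.1 * p.2) then (1 + C00) * X * (‖b p.1‖ * ‖b p.2‖) else 0) +
        (1 + C00) * X * Real.exp (-(Real.pi * x)) * (‖b p.1‖ * ‖b p.2‖) := by
    intro p hp
    have hC := C00_nonneg
    have hnn : 0 ≤ (1 + C00) * X * Real.exp (-(Real.pi * x)) * (‖b p.1‖ * ‖b p.2‖) := by positivity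
    split_ifs with hs
    · have h5 := gauss_char_le (p.1 * p.2) hXr
      have h6 : ‖b p.1‖ * ‖b p.2‖ * ‖Gs (p.1 * p.2)‖ ≤ ‖b p.1‖ * ‖b p.2‖ * ((1 + C00) * X) := by
        gcongr
      linarith
    · rw [zero_add]
      by_cases hodd : Odd (p.1 * p.2)
      · simp only [Finset.mem_product, Finset.mem_Icc] at hp
        have hmW : ((p.1 * p.2 : ℕ) : ℝ) ≤ (Y:ℝ) ^ 2 := by
          have : p.1 * p.2 ≤ Y ^ 2 := by
            rw [pow_two]; exact Nat.mul_le_mul hp.1.2 hp.2.2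
          exact_mod_cast this
        have h5 := gauss_char_nonsq hodd hs (W := (Y:ℝ) ^ 2) (one_le_pow₀ hYr) hYXr hmW
        have e1 : (X:ℝ) ^ 2 / ((Y:ℝ) ^ 2) ^ 2 = x := by rw [hx]; ring
        rw [e1] at h5
        have h6 : X * Real.exp (-(Real.pi * x)) * C00 ≤ (1 + C00) * X * Real.exp (-(Real.pi * x)) := by
          have : 0 ≤ X * Real.exp (-(Real.pi * x)) := by positivity
          linarith
        calc ‖b p.1‖ * ‖b p.2‖ * ‖Gs (p.1 * p.2)‖ ≤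
            ‖b p.1‖ * ‖b p.2‖ * ((1 + C00) * X * Real.exp (-(Real.pi * x))) := by
              gcongr
              exact h5.trans h6
          _ = _ := by ring
      · rw [Nat.odd_mul, not_and_or, Nat.not_odd_iff_even, Nat.not_odd_iff_even] at hodd
        rcases hodd with h | h <;> rw [hb _ h] <;> simp
  have hfin : ∑' D : ℤ, g D * ‖S D‖ ^ 2 ≤ (1 + C00) * X *
      ((∑ p ∈ (Finset.Icc 1 Y ×ˢ Finset.Icc 1 Y).filter
          (fun p : ℕ × ℕ => IsSquare (p.1 * p.2)), ‖b p.1‖ * ‖b p.2‖) +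
        Real.exp (-(Real.pi * x)) * B ^ 2) := by
    refine (htot.trans (Finset.sum_le_sum hpair)).trans (le_of_eq ?_)
    rw [Finset.sum_add_distrib, ← Finset.sum_filter, ← Finset.mul_sum, ← Finset.mul_sum, hB, sq,
      Finset.sum_mul_sum, Finset.sum_product (f := fun p : ℕ × ℕ => ‖b p.1‖ * ‖b p.2‖)]
    ring
  have h9 : Real.exp Real.pi * Real.exp (-Real.pi) = 1 := by
    rw [← Real.exp_add]; simp
  calc ∑ d ∈ Finset.Icc 1 X, ‖S d‖ ^ 2 =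
      Real.exp Real.pi * (Real.exp (-Real.pi) * ∑ d ∈ Finset.Icc 1 X, ‖S d‖ ^ 2) := by
        rw [← mul_assoc, h9, one_mul]
    _ ≤ Real.exp Real.pi * ((1 + C00) * X *
      ((∑ p ∈ (Finset.Icc 1 Y ×ˢ Finset.Icc 1 Y).filter
          (fun p : ℕ × ℕ => IsSquare (p.1 * p.2)), ‖b p.1‖ * ‖b p.2‖) +
        Real.exp (-(Real.pi * x)) * B ^ 2)) := by
        exact mul_le_mul_of_nonneg_left (hleft.trans hfin) (Real.exp_pos _).le
    _ = _ := by ring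

end Pool.Agent.ZD
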