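import Mathlib
import Pool.Agent.ZD.Z7

/-!
Module Z, part 8: the mean square of a mollifier of length `X ^ θ`, `θ < 1/2`.
-/

set_option autoImplicit false

open Complex MeasureTheory Set Filter Topology

namespace Pool.Agent.ZD

open Pool.Agent.H5 (c bd Lser bd_zero)
open Pool.Agent.H6

/-- the exponential beats the power -/
lemma exp_beats {δ : ℝ} (hδ : 0 < δ) : ∃ C : ℝ, 0 ≤ C ∧ ∀ x : ℝ, 1 ≤ x →
    x ^ 2 * Real.exp (-(Real.pi * x ^ δ)) ≤ C := by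
  obtain ⟨N, hN⟩ := exists_nat_ge (2 / δ)
  refine ⟨N.factorial, by positivity, fun x hx => ?_⟩
  have hx0 : 0 < x := by linarith
  set y := x ^ δ with hy
  have hy1 : 1 ≤ y := Real.one_le_rpow hx hδ.le
  have hy0 : 0 < y := by linarith
  have h1 : x ^ 2 ≤ y ^ N := by
    rw [hy, ← Real.rpow_natCast (x ^ δ) N, ← Real.rpow_mul hx0.le, ← Real.rpow_natCast x 2]
    apply Real.rpow_le_rpow_of_exponent_le hx
    rw [div_le_iff₀ hδ] at hN
    push_cast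
    linarith
  have h2 := Real.pow_div_factorial_le_exp y hy0.le N
  have h3 : Real.exp (-(Real.pi * y)) ≤ Real.exp (-y) := by
    apply Real.exp_le_exp.mpr
    have := Real.pi_gt_three
    nlinarith
  have h4 : y ^ N ≤ Real.exp y * N.factorial := by
    rwa [div_le_iff₀ (by positivity)] at h2
  calc x ^ 2 * Real.exp (-(Real.pi * y)) ≤ (Real.exp y * N.factorial) * Real.exp (-y) := by
        gcongr
        exact h1.trans h4
    _ = N.factorial * (Real.exp y * Real.exp (-y)) := by ring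
    _ = N.factorial := by rw [← Real.exp_add]; simp

/-- mean square of the mollifier over the family, at a point -/
theorem mol_family_R (hS : SquareSt) {θ : ℝ} (hθ : 0 < θ) (hθ2 : θ < 1 / 2) : ∃ C : ℕ, 1 ≤ C ∧
    ∀ (X Y : ℕ) (η t : ℝ), 0 < η → η ≤ 1 → 1 ≤ X → 1 ≤ Y → (Y : ℝ) ≤ (X:ℝ) ^ θ →
    ∑ d ∈ Finset.Icc 1 X, ‖mol d Y (1 + η + t * I)‖ ^ 2 ≤ X * (C / η) ^ C := by
  obtain ⟨C1, hC1⟩ := hS 1
  obtain ⟨C2, hC2, htau⟩ := tau_le_rpow (ε := 1 / 2) (by norm_num)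
  obtain ⟨C4, hC40, hC4⟩ := exp_beats (δ := 2 - 4 * θ) (by linarith)
  obtain ⟨C5, hC51, hC5⟩ := ortho2
  have hC2nn : 0 ≤ C2 := by
    have := htau 1 one_ne_zero
    have h2 : (0:ℝ) ≤ (Pool.Agent.H6.tau 1 : ℝ) := by unfold Pool.Agent.H6.tau; positivity
    norm_num at this
    linarith
  set C3 := ⌈C5 + C5 * (C4 * C2 ^ 2)⌉₊ with hC3
  have hC3' : C5 + C5 * (C4 * C2 ^ 2) ≤ C3 := Nat.le_ceil _
  have hC31 : C5 ≤ C3 := by
    have : 0 ≤ C5 * (C4 * C2 ^ 2) := by positivity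
    linarith
  refine ⟨C1 + C3 + 1, by omega, fun X Y η t hη hη1 hX hY1 hY => ?_⟩
  have hXr : (1:ℝ) ≤ X := by exact_mod_cast hX
  have hX0 : (0:ℝ) < X := by linarith
  have hYr : (1:ℝ) ≤ Y := by exact_mod_cast hY1
  have hY0 : (0:ℝ) < Y := by linarith
  have hYX : Y ^ 2 ≤ X := by
    have h1 : (Y:ℝ) ^ 2 ≤ X := by
      calc (Y:ℝ) ^ 2 ≤ ((X:ℝ) ^ θ) ^ 2 := by gcongr
        _ = (X:ℝ) ^ (θ * 2) := by rw [← Real.rpow_natCast, ← Real.rpow_mul hX0.le]; norm_num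
        _ ≤ (X:ℝ) ^ (1:ℝ) := Real.rpow_le_rpow_of_exponent_le hXr (by linarith)
        _ = X := Real.rpow_one _
    exact_mod_cast h1
  have hYleX : (Y:ℝ) ≤ X := by
    have h1 : Y ≤ X := by
      calc Y = Y * 1 := by ring
        _ ≤ Y * Y := Nat.mul_le_mul_left _ hY1
        _ = Y ^ 2 := by ring
        _ ≤ X := hYX
    exact_mod_cast h1
  set b : ℕ → ℂ := fun n => (mb 1 n : ℂ) * (n : ℂ) ^ (-(1 + η + t * I : ℂ)) with hb
  have h1 := hC5 X Y b (fun n hn => by rw [hb]; simp only; rw [mb_even 1 hn]; simp) hY1 hYX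
  have h2 : ∀ d : ℕ, mol d Y (1 + η + t * I) = ∑ n ∈ Finset.Icc 1 Y, b n * (jacobiSym d n : ℂ) := by
    intro d
    unfold mol
    apply Finset.sum_congr rfl
    intro n _
    rw [mb_eq, hb]
    push_cast
    ring
  simp_rw [h2]
  refine h1.trans ?_
  -- the square part
  have h3 : ∑ p ∈ (Finset.Icc 1 Y ×ˢ Finset.Icc 1 Y).filter (fun p : ℕ × ℕ => IsSquare (p.1 * p.2)),
        ‖b p.1‖ * ‖b p.2‖ ≤ (C1 / η) ^ C1 := by
    refine le_trans ?_ (hC1 η hη hη1).2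
    have h4 : ∑ p ∈ (Finset.Icc 1 Y ×ˢ Finset.Icc 1 Y).filter
        (fun p : ℕ × ℕ => IsSquare (p.1 * p.2)), ‖b p.1‖ * ‖b p.2‖ ≤
        ∑ p ∈ (Finset.Icc 1 Y ×ˢ Finset.Icc 1 Y).filter (fun p : ℕ × ℕ => IsSquare (p.1 * p.2)),
        (if IsSquare (p.1 * p.2) then
      ((p.1.divisors.card * p.2.divisors.card : ℕ) : ℝ) ^ 1 *
        ((p.1 * p.2 : ℕ) : ℝ) ^ (-(1 / 2 + η)) else 0) := by
      apply Finset.sum_le_sum
      intro p hp
      simp only [Finset.mem_filter, Finset.mem_product, Finset.mem_Icc] at hp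
      rw [if_pos hp.2, pow_one]
      have e1 := norm_bcoef (η := η) (t := t) hp.1.1.1
      have e2 := norm_bcoef (η := η) (t := t) hp.1.2.1
      calc ‖b p.1‖ * ‖b p.2‖ ≤ ((p.1.divisors.card : ℝ) * (p.1 : ℝ) ^ (-(1 / 2 + η))) *
            ((p.2.divisors.card : ℝ) * (p.2 : ℝ) ^ (-(1 / 2 + η))) := by
            gcongr
        _ = _ := by
            push_cast
            rw [Real.mul_rpow (by positivity) (by positivity)]
            ring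
    refine h4.trans ?_
    apply (hC1 η hη hη1).1.sum_le_tsum
    intro p _
    split_ifs <;> positivity
  -- the remainder
  have h5 : ∑ n ∈ Finset.Icc 1 Y, ‖b n‖ ≤ C2 * X := by
    have h6 : ∀ n ∈ Finset.Icc 1 Y, ‖b n‖ ≤ C2 := by
      intro n hn
      have hn1 := (Finset.mem_Icc.mp hn).1
      have hn0 : (0:ℝ) < n := by exact_mod_cast hn1
      have hn1' : (1:ℝ) ≤ n := by exact_mod_cast hn1
      have e1 := norm_bcoef (η := η) (t := t) hn1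
      have e2 := htau n (by omega)
      unfold Pool.Agent.H6.tau at e2
      calc ‖b n‖ ≤ ((n.divisors.card : ℝ) * (n : ℝ) ^ (-(1 / 2 + η))) := e1
        _ ≤ ((C2 * (n:ℝ) ^ (1 / 2 : ℝ)) * (n : ℝ) ^ (-(1 / 2) : ℝ)) := by
            have e3 : (n : ℝ) ^ (-(1 / 2 + η)) ≤ (n : ℝ) ^ (-(1 / 2) : ℝ) :=
              Real.rpow_le_rpow_of_exponent_le hn1' (by linarith)
            gcongr
        _ = C2 := by
            rw [mul_assoc C2, ← Real.rpow_add hn0]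
            norm_num
    refine (Finset.sum_le_sum h6).trans ?_
    rw [Finset.sum_const, Nat.card_Icc, nsmul_eq_mul]
    simp only [Nat.add_sub_cancel]
    rw [mul_comm]
    gcongr
  have h7 : Real.exp (-(Real.pi * ((X:ℝ) ^ 2 / (Y:ℝ) ^ 4))) * (∑ n ∈ Finset.Icc 1 Y, ‖b n‖) ^ 2 ≤
      C4 * C2 ^ 2 := by
    have h8 : 0 ≤ ∑ n ∈ Finset.Icc 1 Y, ‖b n‖ := Finset.sum_nonneg fun n _ => by positivity
    have h9 : (X:ℝ) ^ (2 - 4 * θ) ≤ (X:ℝ) ^ 2 / (Y:ℝ) ^ 4 := by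
      rw [le_div_iff₀ (by positivity)]
      calc (X:ℝ) ^ (2 - 4 * θ) * (Y:ℝ) ^ 4 ≤ (X:ℝ) ^ (2 - 4 * θ) * ((X:ℝ) ^ θ) ^ 4 := by gcongr
        _ = (X:ℝ) ^ 2 := by
            rw [← Real.rpow_natCast ((X:ℝ) ^ θ) 4, ← Real.rpow_mul hX0.le, ← Real.rpow_add hX0,
              ← Real.rpow_natCast (X:ℝ) 2]
            congr 1; push_cast; ring
    have h10 : Real.exp (-(Real.pi * ((X:ℝ) ^ 2 / (Y:ℝ) ^ 4))) ≤
        Real.exp (-(Real.pi * (X:ℝ) ^ (2 - 4 * θ))) := by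
      apply Real.exp_le_exp.mpr
      have := Real.pi_pos
      gcongr
    have h11 := hC4 X hXr
    calc Real.exp (-(Real.pi * ((X:ℝ) ^ 2 / (Y:ℝ) ^ 4))) * (∑ n ∈ Finset.Icc 1 Y, ‖b n‖) ^ 2 ≤
        Real.exp (-(Real.pi * (X:ℝ) ^ (2 - 4 * θ))) * (C2 * X) ^ 2 := by gcongr
      _ = ((X:ℝ) ^ 2 * Real.exp (-(Real.pi * (X:ℝ) ^ (2 - 4 * θ)))) * C2 ^ 2 := by ring
      _ ≤ _ := by gcongr
  set C := C1 + C3 + 1 with hC
  have hCr : ((C : ℕ) : ℝ) = C1 + (C3:ℝ) + 1 := by rw [hC]; push_cast; ring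
  have hC1C : (C1:ℝ) ≤ C := by
    rw [hCr]
    have : (0:ℝ) ≤ (C3:ℝ) := by positivity
    linarith
  have hC3C : (C3:ℝ) ≤ C / η := by
    have h8 : (C3:ℝ) ≤ C := by
      rw [hCr]
      have : (0:ℝ) ≤ (C1:ℝ) := by positivity
      linarith
    refine h8.trans ?_
    rw [le_div_iff₀ hη]
    have : (0:ℝ) ≤ C := by positivity
    nlinarith
  have hC1' : (1:ℝ) ≤ C := by
    rw [hCr]
    have : (0:ℝ) ≤ (C1:ℝ) + C3 := by positivity
    linarith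
  have hCη : 1 ≤ (C : ℝ) / η := by
    rw [le_div_iff₀ hη]
    linarith
  have hC5' : 0 ≤ C5 := by linarith
  have h9 : C5 * ((C1 / η) ^ C1 + C4 * C2 ^ 2) ≤ (C / η) ^ C := by
    have e1 : ((C1:ℝ) / η) ^ C1 ≤ (C / η) ^ C1 := by gcongr
    have e4 : 1 ≤ ((C:ℝ) / η) ^ C1 := one_le_pow₀ hCη
    have e5 : 0 ≤ C4 * C2 ^ 2 := by positivity
    calc C5 * ((C1 / η) ^ C1 + C4 * C2 ^ 2) ≤ C5 * ((C / η) ^ C1 + C4 * C2 ^ 2 * (C / η) ^ C1) :=
          mul_le_mul_of_nonneg_left (add_le_add e1 (le_mul_of_one_le_right e5 e4)) hC5'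
      _ = (C5 + C5 * (C4 * C2 ^ 2)) * (C / η) ^ C1 := by ring
      _ ≤ (C / η) * (C / η) ^ C1 := by
          gcongr
          exact hC3'.trans hC3C
      _ = (C / η) ^ (C1 + 1) := by rw [pow_succ]; ring
      _ ≤ (C / η) ^ C := pow_le_pow_right₀ hCη (by omega)
  calc C5 * X * ((∑ p ∈ (Finset.Icc 1 Y ×ˢ Finset.Icc 1 Y).filter
        (fun p : ℕ × ℕ => IsSquare (p.1 * p.2)), ‖b p.1‖ * ‖b p.2‖) +
        Real.exp (-(Real.pi * ((X:ℝ) ^ 2 / (Y:ℝ) ^ 4))) * (∑ n ∈ Finset.Icc 1 Y, ‖b n‖) ^ 2) ≤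
        C5 * X * ((C1 / η) ^ C1 + C4 * C2 ^ 2) := by gcongr
    _ = X * (C5 * ((C1 / η) ^ C1 + C4 * C2 ^ 2)) := by ring
    _ ≤ X * (C / η) ^ C := by gcongr

theorem KK_sum_R (hS : SquareSt) {θ : ℝ} (hθ : 0 < θ) (hθ2 : θ < 1 / 2) : ∃ C : ℕ, 1 ≤ C ∧
    ∀ (X Y : ℕ) (η : ℝ), 0 < η → η ≤ 1 → 1 ≤ X → 1 ≤ Y → (Y : ℝ) ≤ (X:ℝ) ^ θ →
    ∑ d ∈ Finset.Icc 1 X, KK Y η d ≤ Real.pi * (X * (C / η) ^ C) := by
  obtain ⟨C, hC, h⟩ := mol_family_R hS hθ hθ2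
  refine ⟨C, hC, fun X Y η hη hη1 hX hY1 hY => ?_⟩
  unfold KK
  rw [← integral_finset_sum _ (fun d _ => KK_integrable d Y hη)]
  have h1 : ∫ t : ℝ, (X * (C / η) ^ C) * (1 + t ^ 2)⁻¹ = Real.pi * (X * (C / η) ^ C) := by
    rw [integral_const_mul, integral_univ_inv_one_add_sq]
    ring
  rw [← h1]
  apply integral_mono
  · exact integrable_finset_sum _ fun d _ => KK_integrable d Y hη
  · exact integrable_inv_one_add_sq.const_mul _
  · intro t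
    simp only
    rw [← Finset.sum_mul]
    gcongr
    exact h X Y η t hη hη1 hX hY1 hY

end Pool.Agent.ZD
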