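import Mathlib
import Pool.Agent.ZD.Final
import Pool.Agent.ZD.Z9

/-!
Final assembly: one bound for all heights.
-/

set_option autoImplicit false

open Complex Finset MeasureTheory

namespace Pool.Agent.ZD

theorem Bad_le_R {κ : ℝ} (hκ0 : 0 < κ) (hκ2 : κ < 1 / 2) :
    ∃ A : ℕ, ∀ (X : ℕ) (T β : ℝ), 3 ≤ X → 1 ≤ T → 0 ≤ β →
    ((Bad X T β).ncard : ℝ) ≤ A * T ^ A * (Real.log X) ^ A * (X : ℝ) ^ (1 - κ * β) := by
  obtain ⟨A, hA⟩ := Z_main_R hκ0 hκ2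
  refine ⟨A, ?_⟩
  intro X T β hX hT hβ
  refine le_trans ?_ (hA X T β hX hT hβ)
  have hsub : Bad X T β ⊆ {d : ℕ | d ∈ Finset.Icc 1 X ∧ Squarefree d ∧
      ∃ s : ℂ, Lf d s = 0 ∧ 1 + β ≤ s.re ∧ |s.im| ≤ T} := by
    rintro d ⟨h1, h2, s, hs, hs0, hsT, hsβ⟩
    refine ⟨h1, h2, ?_⟩
    rcases le_abs.mp hsβ with h | h
    · exact ⟨s, hs, by linarith, hsT⟩
    · refine ⟨2 - s, Lf_reflect h2 hs0 (by linarith) hs, by simp; linarith, ?_⟩
      simpa using hsT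
  have hfin : {d : ℕ | d ∈ Finset.Icc 1 X ∧ Squarefree d ∧
      ∃ s : ℂ, Lf d s = 0 ∧ 1 + β ≤ s.re ∧ |s.im| ≤ T}.Finite :=
    (Finset.finite_toSet (Finset.Icc 1 X)).subset (fun _ h => h.1)
  exact_mod_cast Set.ncard_le_ncard hsub hfin

/-- the `d ≤ X` with a zero outside the region of width `β + A log(|t|+2) / log X` -/
def UBad (A : ℝ) (X : ℕ) (β : ℝ) : Set ℕ := {d : ℕ | d ∈ Finset.Icc 1 X ∧ Squarefree d ∧
      ∃ s : ℂ, Lf d s = 0 ∧ 0 < s.re ∧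
        β + A * Real.log (|s.im| + 2) / Real.log X ≤ |s.re - 1|}

theorem UBad_le {κ : ℝ} (hκ0 : 0 < κ) (hκ2 : κ < 1 / 2) :
    ∃ A : ℕ, ∀ (X : ℕ) (β : ℝ), 3 ≤ X → 0 ≤ β →
    ((UBad A X β).ncard : ℝ) ≤ A * (Real.log X) ^ A * (X : ℝ) ^ (1 - κ * β) := by
  obtain ⟨A1, hA1⟩ := Bad_le_R hκ0 hκ2
  obtain ⟨n, hn⟩ := exists_nat_ge (((A1:ℝ) + 1) / κ)
  have hnκ : (A1:ℝ) + 1 ≤ κ * n := by
    rw [div_le_iff₀ hκ0] at hn
    linarith
  set A : ℕ := n + A1 + 2 * (A1 * 2 ^ A1) with hA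
  refine ⟨A, ?_⟩
  intro X β hX hβ
  have hX3 : (3:ℝ) ≤ X := by exact_mod_cast hX
  have hX0 : (0:ℝ) < X := by linarith
  have hlog : 1 ≤ Real.log X := by
    have h1 : Real.exp 1 ≤ X := by linarith [Real.exp_one_lt_d9]
    rw [Real.le_log_iff_exp_le (by linarith)]; exact h1
  have hlogpos : 0 < Real.log X := by linarith
  have hfinE : (UBad A X β).Finite := (Finset.finite_toSet (Finset.Icc 1 X)).subset (fun _ h => h.1)
  set S : Finset ℕ := hfinE.toFinset with hS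
  have hnA : (n:ℝ) ≤ A := by
    have : n ≤ A := by rw [hA]; omega
    exact_mod_cast this
  have hkey : ∀ d ∈ S, ∃ k : ℕ, d ∈ Bad X (2 ^ (k + 1)) (β + n * (k * Real.log 2) / Real.log X) := by
    intro d hd
    rw [hS, Set.Finite.mem_toFinset] at hd
    obtain ⟨h1, h2, s, hs, hs0, hsC⟩ := hd
    set y : ℝ := |s.im| with hy
    have hy0 : 0 ≤ y := abs_nonneg _
    obtain ⟨k, hk1, hk2⟩ : ∃ k : ℕ, (2:ℝ) ^ k ≤ y + 2 ∧ y + 2 < 2 ^ (k + 1) :=
      exists_nat_pow_near (by linarith) (by norm_num)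
    refine ⟨k, h1, h2, s, hs, hs0, by linarith, ?_⟩
    refine le_trans ?_ hsC
    have h3 := Real.log_le_log (by positivity) hk1
    rw [Real.log_pow] at h3
    have h4 : 0 ≤ (k:ℝ) * Real.log 2 := by
      have := Real.log_pos (by norm_num : (1:ℝ) < 2)
      positivity
    gcongr
  -- the bound of each piece
  have hpiece : ∀ k : ℕ, ((Bad X (2 ^ (k + 1)) (β + n * (k * Real.log 2) / Real.log X)).ncard : ℝ) ≤
      (A1 * 2 ^ A1) * (Real.log X ^ A1 * (X:ℝ) ^ (1 - κ * β)) * (1 / 2) ^ k := by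
    intro k
    have hl2 := Real.log_pos (by norm_num : (1:ℝ) < 2)
    have h2k : (1:ℝ) ≤ 2 ^ k := one_le_pow₀ (by norm_num)
    have h1 := hA1 X (2 ^ (k + 1)) (β + n * (k * Real.log 2) / Real.log X) hX
      (one_le_pow₀ (by norm_num)) (by positivity)
    refine h1.trans ?_
    have h2 : (X : ℝ) ^ (1 - κ * (β + n * (k * Real.log 2) / Real.log X)) =
        (X:ℝ) ^ (1 - κ * β) * ((2:ℝ) ^ k) ^ (-(κ * n)) := by
      have e1 : 1 - κ * (β + n * (k * Real.log 2) / Real.log X) =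
          (1 - κ * β) + -(κ * n * (k * Real.log 2)) / Real.log X := by ring
      rw [e1, Real.rpow_add hX0]
      congr 1
      rw [Real.rpow_def_of_pos hX0, Real.rpow_def_of_pos (by positivity), Real.log_pow]
      congr 1
      field_simp
    have h3 : ((2:ℝ) ^ k) ^ (-(κ * n)) ≤ (((2:ℝ) ^ k) ^ (A1 + 1))⁻¹ := by
      rw [Real.rpow_neg (by positivity)]
      apply inv_anti₀ (by positivity)
      rw [← Real.rpow_natCast ((2:ℝ) ^ k) (A1 + 1)]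
      apply Real.rpow_le_rpow_of_exponent_le h2k
      push_cast
      exact hnκ
    rw [h2]
    have h4 : ((2:ℝ) ^ (k + 1)) ^ A1 = 2 ^ A1 * ((2:ℝ) ^ k) ^ A1 := by
      rw [pow_succ (2:ℝ) k, mul_pow]; ring
    have h5 : ((2:ℝ) ^ k) ^ A1 * (((2:ℝ) ^ k) ^ (A1 + 1))⁻¹ = (1 / 2) ^ k := by
      rw [pow_succ]
      have : ((2:ℝ) ^ k) ≠ 0 := by positivity
      rw [one_div, inv_pow]
      field_simp
    have hXp : 0 < (X:ℝ) ^ (1 - κ * β) := Real.rpow_pos_of_pos hX0 _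
    calc (A1 : ℝ) * (2 ^ (k + 1)) ^ A1 * Real.log X ^ A1 *
          ((X:ℝ) ^ (1 - κ * β) * ((2:ℝ) ^ k) ^ (-(κ * n))) ≤
        (A1 : ℝ) * (2 ^ (k + 1)) ^ A1 * Real.log X ^ A1 *
          ((X:ℝ) ^ (1 - κ * β) * (((2:ℝ) ^ k) ^ (A1 + 1))⁻¹) := by gcongr
      _ = (A1 * 2 ^ A1) * (Real.log X ^ A1 * (X:ℝ) ^ (1 - κ * β)) *
          (((2:ℝ) ^ k) ^ A1 * (((2:ℝ) ^ k) ^ (A1 + 1))⁻¹) := by rw [h4]; ring
      _ = _ := by rw [h5]
  -- sum up
  have hScard : (S.card : ℝ) ≤ 2 * (A1 * 2 ^ A1) * (Real.log X ^ A1 * (X:ℝ) ^ (1 - κ * β)) := by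
    classical
    choose! kf hkf using hkey
    have h1 : S.card = ∑ k ∈ S.image kf, (S.filter (fun d => kf d = k)).card :=
      Finset.card_eq_sum_card_image kf S
    have h2 : ∀ k ∈ S.image kf, ((S.filter (fun d => kf d = k)).card : ℝ) ≤
        (A1 * 2 ^ A1) * (Real.log X ^ A1 * (X:ℝ) ^ (1 - κ * β)) * (1 / 2) ^ k := by
      intro k _
      refine le_trans ?_ (hpiece k)
      have h3 : ((S.filter (fun d => kf d = k) : Finset ℕ) : Set ℕ) ⊆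
          Bad X (2 ^ (k + 1)) (β + n * (k * Real.log 2) / Real.log X) := by
        intro d hd
        rw [Finset.mem_coe, Finset.mem_filter] at hd
        have := hkf d hd.1
        rwa [hd.2] at this
      have h4 := Set.ncard_le_ncard h3 (Bad_finite _ _ _)
      rw [Set.ncard_coe_finset] at h4
      exact_mod_cast h4
    rw [h1]
    push_cast
    refine (Finset.sum_le_sum h2).trans ?_
    rw [← Finset.mul_sum]
    have h5 : ∑ k ∈ S.image kf, ((1:ℝ) / 2) ^ k ≤ 2 := by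
      have h6 := summable_geometric_two.sum_le_tsum (S.image kf) (fun k _ => by positivity)
      rw [tsum_geometric_two] at h6
      exact h6
    calc _ ≤ (A1 * 2 ^ A1) * (Real.log X ^ A1 * (X:ℝ) ^ (1 - κ * β)) * 2 := by gcongr
      _ = _ := by ring
  rw [Set.ncard_eq_toFinset_card _ hfinE]
  refine hScard.trans ?_
  have h6 : 2 * ((A1:ℝ) * 2 ^ A1) ≤ A := by
    rw [hA]; push_cast
    have : (0:ℝ) ≤ n + A1 := by positivity
    linarith
  have h7 : Real.log X ^ A1 ≤ Real.log X ^ A := pow_le_pow_right₀ hlog (by rw [hA]; omega)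
  calc 2 * (A1 * 2 ^ A1) * (Real.log X ^ A1 * (X:ℝ) ^ (1 - κ * β)) ≤
      A * (Real.log X ^ A * (X:ℝ) ^ (1 - κ * β)) := by gcongr
    _ = _ := by ring

end Pool.Agent.ZD
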