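import Mathlib
import Pool.Agent.ZD.Defs
import Pool.Agent.H6.LCoef

/-!
Module E2, summation part: a multiplicative function of two variables with given local bounds
(MP_553913_nt).
-/

set_option autoImplicit false

open Complex Finset MeasureTheory

namespace Pool.Agent.ZD.E2

/-! ### Finite Euler products -/

theorem sum_le_of_euler {f : ℕ → ℝ} (hf : ∀ n, 0 ≤ f n) (h1 : f 1 = 1)
    (hmul : ∀ {m n : ℕ}, Nat.Coprime m n → f (m * n) = f m * f n)
    (hsum : ∀ {p : ℕ}, p.Prime → Summable (fun n : ℕ => ‖f (p ^ n)‖)) {B : ℝ}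
    (hB : ∀ s : Finset ℕ, ∏ p ∈ s with p.Prime, ∑' n : ℕ, f (p ^ n) ≤ B) (t : Finset ℕ)
    (ht : ∀ n ∈ t, n ≠ 0) : ∑ n ∈ t, f n ≤ B := by
  classical
  set s : Finset ℕ := t.biUnion Nat.primeFactors with hs
  obtain ⟨hS, hP⟩ := EulerProduct.summable_and_hasSum_factoredNumbers_prod_filter_prime_tsum
    h1 hmul hsum s
  have hmem : ∀ n ∈ t, n ∈ Nat.factoredNumbers s := by
    intro n hn
    rw [Nat.mem_factoredNumbers']
    intro p hp hpn
    rw [hs, Finset.mem_biUnion]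
    exact ⟨n, hn, Nat.mem_primeFactors.2 ⟨hp, hpn, ht n hn⟩⟩
  refine le_trans ?_ (hB s)
  rw [← hP.tsum_eq]
  have hS' : Summable (fun m : Nat.factoredNumbers s => f m) := hP.summable
  have h2 : ∑ n ∈ t, f n = ∑ x ∈ t.attach, f x.1 := (Finset.sum_attach t f).symm
  rw [h2]
  set u : Finset (Nat.factoredNumbers s) := t.attach.image (fun x => ⟨x.1, hmem x.1 x.2⟩) with hu
  have h3 : ∑ x ∈ t.attach, f x.1 = ∑ y ∈ u, f y.1 := by
    rw [hu, Finset.sum_image]
    intro a _ b _ hab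
    apply Subtype.ext
    have := congrArg (fun y : Nat.factoredNumbers s => y.1) hab
    exact this
  rw [h3]
  exact hS'.sum_le_tsum _ (fun y _ => hf y.1)

/-! ### Local bounds -/

/-- `∑ (e+3)^K 2^{-e/2}` rounded up -/
theorem exists_CK (K : ℕ) : ∃ C : ℕ, 1 ≤ C ∧
    Summable (fun e : ℕ => ((e : ℝ) + 3) ^ K * (1 / Real.sqrt 2) ^ e) ∧
    ∑' e : ℕ, ((e : ℝ) + 3) ^ K * (1 / Real.sqrt 2) ^ e ≤ C := by
  have hlt : (1 / Real.sqrt 2) < 1 := by
    rw [div_lt_one (by positivity)]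
    rw [Real.lt_sqrt (by norm_num)]
    norm_num
  have hs : Summable (fun e : ℕ => ((e : ℝ) + 3) ^ K * (1 / Real.sqrt 2) ^ e) := by
    have h1 : Summable (fun e : ℕ => ((e : ℝ)) ^ K * (1 / Real.sqrt 2) ^ e) :=
      summable_pow_mul_geometric_of_norm_lt_one K (by
        rw [Real.norm_of_nonneg (by positivity)]; exact hlt)
    have h2 := (summable_nat_add_iff 3).2 h1
    have h3 := h2.mul_left ((1 / Real.sqrt 2) ^ 3)⁻¹
    refine h3.congr fun e => ?_
    have h0 : (1 / Real.sqrt 2) ^ 3 ≠ 0 := by positivity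
    rw [pow_add]
    push_cast
    field_simp
  obtain ⟨C, hC⟩ := exists_nat_ge (∑' e : ℕ, ((e : ℝ) + 3) ^ K * (1 / Real.sqrt 2) ^ e)
  exact ⟨C + 1, by omega, hs, hC.trans (by push_cast; linarith)⟩

/-- local factor at good primes -/
theorem local_good (K : ℕ) {C : ℕ}
    (hCs : Summable (fun e : ℕ => ((e : ℝ) + 3) ^ K * (1 / Real.sqrt 2) ^ e))
    (hC : ∑' e : ℕ, ((e : ℝ) + 3) ^ K * (1 / Real.sqrt 2) ^ e ≤ C) {η : ℝ} (hη : 0 < η)
    {p : ℕ} (hp : 2 ≤ p) {g : ℕ → ℝ} (hg0 : ∀ e, 0 ≤ g e) (h0 : g 0 = 1) (h1 : g 1 = 0)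
    (h2 : ∀ e, 2 ≤ e → g e ≤ ((e : ℝ) + 1) ^ K * Real.sqrt p ^ e) :
    Summable (fun e : ℕ => g e * ((p : ℝ) ^ e) ^ (-(1 + η))) ∧
    ∑' e : ℕ, g e * ((p : ℝ) ^ e) ^ (-(1 + η)) ≤ (1 + (p : ℝ) ^ (-(1 + 2 * η))) ^ C := by
  have hp0 : (0 : ℝ) < p := by exact_mod_cast (by omega : 0 < p)
  have hp2 : (2 : ℝ) ≤ p := by exact_mod_cast hp
  set F : ℕ → ℝ := fun e => g e * ((p : ℝ) ^ e) ^ (-(1 + η)) with hF
  have hF0 : ∀ e, 0 ≤ F e := fun e => mul_nonneg (hg0 e) (by positivity)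
  set X : ℝ := (p : ℝ) ^ (-(1 + 2 * η)) with hX
  have hX0 : 0 < X := by positivity
  have key : ∀ e, F (e + 2) ≤ X * (((e : ℝ) + 3) ^ K * (1 / Real.sqrt 2) ^ e) := by
    intro e
    have hge := h2 (e + 2) (by omega)
    have e1 : Real.sqrt p ^ (e + 2) * ((p : ℝ) ^ (e + 2)) ^ (-(1 + η)) =
        X * ((p : ℝ) ^ (-(1 / 2 + η))) ^ e := by
      rw [Real.sqrt_eq_rpow, ← Real.rpow_natCast, ← Real.rpow_natCast, ← Real.rpow_mul hp0.le,
        ← Real.rpow_mul hp0.le, ← Real.rpow_natCast, ← Real.rpow_mul hp0.le, hX,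
        ← Real.rpow_add hp0, ← Real.rpow_add hp0]
      congr 1
      push_cast
      ring
    have h7 : Real.sqrt 2 ≤ (p : ℝ) ^ (1 / 2 + η) := by
      rw [Real.sqrt_eq_rpow]
      calc (2 : ℝ) ^ (1 / 2 : ℝ) ≤ (p : ℝ) ^ (1 / 2 : ℝ) :=
            Real.rpow_le_rpow (by norm_num) hp2 (by norm_num)
        _ ≤ (p : ℝ) ^ (1 / 2 + η) := by
            apply Real.rpow_le_rpow_of_exponent_le (by linarith)
            linarith
    have e2 : (p : ℝ) ^ (-(1 / 2 + η)) ≤ 1 / Real.sqrt 2 := by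
      rw [Real.rpow_neg hp0.le, one_div (Real.sqrt 2)]
      exact inv_anti₀ (by positivity) h7
    have e3 : ((p : ℝ) ^ (-(1 / 2 + η))) ^ e ≤ (1 / Real.sqrt 2) ^ e :=
      pow_le_pow_left₀ (by positivity) e2 e
    calc F (e + 2) ≤ ((((e + 2 : ℕ) : ℝ) + 1) ^ K * Real.sqrt p ^ (e + 2)) *
          ((p : ℝ) ^ (e + 2)) ^ (-(1 + η)) := by
          simp only [hF]
          gcongr
      _ = (((e + 2 : ℕ) : ℝ) + 1) ^ K * (X * ((p : ℝ) ^ (-(1 / 2 + η))) ^ e) := by
          rw [mul_assoc, e1]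
      _ ≤ (((e + 2 : ℕ) : ℝ) + 1) ^ K * (X * (1 / Real.sqrt 2) ^ e) := by gcongr
      _ = _ := by push_cast; ring
  have hs2 : Summable (fun e => F (e + 2)) :=
    Summable.of_nonneg_of_le (fun e => hF0 _) key (hCs.mul_left X)
  have hs : Summable F := (summable_nat_add_iff 2).1 hs2
  refine ⟨hs, ?_⟩
  have hF1 : F 1 = 0 := by simp only [hF, h1, zero_mul]
  have hF00 : F 0 = 1 := by simp [hF, h0]
  rw [← hs.sum_add_tsum_nat_add 2, Finset.sum_range_succ, Finset.sum_range_one, hF1, hF00]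
  have h5 : ∑' e, F (e + 2) ≤ X * C := by
    refine (hs2.tsum_le_tsum key (hCs.mul_left X)).trans ?_
    rw [tsum_mul_left]
    gcongr
  have h6 : 1 + (C : ℝ) * X ≤ (1 + X) ^ C := one_add_mul_le_pow (by linarith) C
  linarith

/-- local factor at primes dividing `q` but not `v` -/
theorem local_q (K : ℕ) {η : ℝ} (hη : 0 < η)
    {p : ℕ} (hp : 2 ≤ p) {g : ℕ → ℝ} (h0 : g 0 = 1)
    (h1 : ∀ e, e ≠ 0 → e ≠ 2 → g e = 0) (h2 : g 2 ≤ K * p) :
    Summable (fun e : ℕ => g e * ((p : ℝ) ^ e) ^ (-(1 + η))) ∧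
    ∑' e : ℕ, g e * ((p : ℝ) ^ e) ^ (-(1 + η)) ≤ (1 + 1 / (p : ℝ)) ^ K := by
  have hp0 : (0 : ℝ) < p := by exact_mod_cast (by omega : 0 < p)
  have hp1 : (1 : ℝ) ≤ p := by exact_mod_cast (by omega : 1 ≤ p)
  set F : ℕ → ℝ := fun e => g e * ((p : ℝ) ^ e) ^ (-(1 + η)) with hF
  have hz : ∀ e ∉ range 3, F e = 0 := by
    intro e he
    rw [mem_range] at he
    simp only [hF]
    rw [h1 e (by omega) (by omega), zero_mul]
  refine ⟨summable_of_ne_finset_zero hz, ?_⟩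
  rw [tsum_eq_sum hz, Finset.sum_range_succ, Finset.sum_range_succ, Finset.sum_range_one]
  have hF0 : F 0 = 1 := by simp [hF, h0]
  have hF1 : F 1 = 0 := by simp only [hF, h1 1 (by norm_num) (by norm_num), zero_mul]
  have hF2 : F 2 ≤ K * (1 / p) := by
    have e1 : ((p : ℝ) ^ 2) ^ (-(1 + η)) ≤ 1 / (p : ℝ) ^ 2 := by
      have hp2 : (1 : ℝ) ≤ (p : ℝ) ^ 2 := one_le_pow₀ hp1
      calc ((p : ℝ) ^ 2) ^ (-(1 + η)) ≤ ((p : ℝ) ^ 2) ^ (-1 : ℝ) :=
            Real.rpow_le_rpow_of_exponent_le hp2 (by linarith)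
        _ = _ := by rw [Real.rpow_neg_one, one_div]
    calc F 2 ≤ (K * p) * (1 / (p : ℝ) ^ 2) := by
          simp only [hF]
          exact mul_le_mul h2 e1 (by positivity) (by positivity)
      _ = _ := by field_simp
  have h6 : 1 + (K : ℝ) * (1 / p) ≤ (1 + 1 / (p : ℝ)) ^ K :=
    one_add_mul_le_pow (by have : (0 : ℝ) ≤ 1 / p := by positivity
                           linarith) K
  rw [hF0, hF1]
  linarith

/-- local factor at primes dividing `v` -/
theorem local_v (K : ℕ) {η : ℝ} (hη : 0 < η) {a : ℕ} (ha : 1 ≤ a)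
    {p : ℕ} (hp : 2 ≤ p) {g : ℕ → ℝ}
    (h1 : ∀ e, K * a < e → g e = 0) (h2 : ∀ e, g e ≤ ((e : ℝ) + 1) ^ K * (p : ℝ) ^ e) :
    Summable (fun e : ℕ => g e * ((p : ℝ) ^ e) ^ (-(1 + η))) ∧
    ∑' e : ℕ, g e * ((p : ℝ) ^ e) ^ (-(1 + η)) ≤ ((a : ℝ) + 1) ^ ((K + 2) * (K + 1)) := by
  have hp0 : (0 : ℝ) < p := by exact_mod_cast (by omega : 0 < p)
  have hp1 : (1 : ℝ) ≤ p := by exact_mod_cast (by omega : 1 ≤ p)
  set F : ℕ → ℝ := fun e => g e * ((p : ℝ) ^ e) ^ (-(1 + η)) with hF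
  have hz : ∀ e ∉ range (K * a + 1), F e = 0 := by
    intro e he
    rw [mem_range] at he
    simp only [hF]
    rw [h1 e (by omega), zero_mul]
  refine ⟨summable_of_ne_finset_zero hz, ?_⟩
  rw [tsum_eq_sum hz]
  have hle : ∀ e ∈ range (K * a + 1), F e ≤ ((K * a + 1 : ℕ) : ℝ) ^ K := by
    intro e he
    rw [mem_range] at he
    have e1 : ((p : ℝ) ^ e) ^ (-(1 + η)) ≤ 1 / (p : ℝ) ^ e := by
      have hp2 : (1 : ℝ) ≤ (p : ℝ) ^ e := one_le_pow₀ hp1
      calc ((p : ℝ) ^ e) ^ (-(1 + η)) ≤ ((p : ℝ) ^ e) ^ (-1 : ℝ) :=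
            Real.rpow_le_rpow_of_exponent_le hp2 (by linarith)
        _ = _ := by rw [Real.rpow_neg_one, one_div]
    calc F e ≤ (((e : ℝ) + 1) ^ K * (p : ℝ) ^ e) * (1 / (p : ℝ) ^ e) := by
          simp only [hF]
          exact mul_le_mul (h2 e) e1 (by positivity) (by positivity)
      _ = ((e : ℝ) + 1) ^ K := by field_simp
      _ ≤ _ := by
          have : (e : ℝ) + 1 ≤ ((K * a + 1 : ℕ) : ℝ) := by exact_mod_cast he
          gcongr
  refine (Finset.sum_le_sum hle).trans ?_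
  rw [Finset.sum_const, card_range, nsmul_eq_mul]
  have h3 : ((K * a + 1 : ℕ) : ℝ) ≤ ((a : ℝ) + 1) ^ (K + 2) := by
    have h4 : K * a + 1 ≤ (a + 1) ^ (K + 2) := by
      have h5 : K + 1 ≤ 2 ^ (K + 1) := Nat.lt_two_pow_self.le
      have h6 : 2 ^ (K + 1) ≤ (a + 1) ^ (K + 1) := Nat.pow_le_pow_left (by omega) _
      calc K * a + 1 ≤ (K + 1) * (a + 1) := by nlinarith
        _ ≤ (a + 1) ^ (K + 1) * (a + 1) := by gcongr; omega
        _ = _ := by ring
    exact_mod_cast h4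
  calc ((K * a + 1 : ℕ) : ℝ) * ((K * a + 1 : ℕ) : ℝ) ^ K = ((K * a + 1 : ℕ) : ℝ) ^ (K + 1) := by ring
    _ ≤ (((a : ℝ) + 1) ^ (K + 2)) ^ (K + 1) := by gcongr
    _ = _ := by rw [← pow_mul]

/-! ### Products over primes -/

theorem prod_one_add_le {η : ℝ} (hη : 0 < η) (s : Finset ℕ) :
    ∏ p ∈ s with p.Prime, (1 + (p : ℝ) ^ (-(1 + 2 * η))) ≤ 1 + 1 / (2 * η) := by
  set f : ℕ → ℝ := fun n => (n : ℝ) ^ (-(1 + 2 * η)) with hf
  have hf0 : ∀ n, 0 ≤ f n := fun n => by simp only [hf]; positivity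
  have hsum : Summable f := Real.summable_nat_rpow.2 (by linarith)
  have hsp : ∀ {p : ℕ}, p.Prime → Summable (fun n : ℕ => ‖f (p ^ n)‖) := by
    intro p hp
    have h1 : Summable (fun n : ℕ => f (p ^ n)) :=
      hsum.comp_injective (Nat.pow_right_injective hp.two_le)
    exact h1.norm
  have hE := (EulerProduct.summable_and_hasSum_factoredNumbers_prod_filter_prime_tsum
    (f := f) (by simp [hf]) (by
      intro m n _
      simp only [hf]
      rw [Nat.cast_mul, Real.mul_rpow (by positivity) (by positivity)]) hsp s).2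
  have h2 : ∏ p ∈ s with p.Prime, (1 + (p : ℝ) ^ (-(1 + 2 * η))) ≤
      ∏ p ∈ s with p.Prime, ∑' n : ℕ, f (p ^ n) := by
    apply Finset.prod_le_prod
    · intro p _; positivity
    · intro p hp
      have hpp := (Finset.mem_filter.1 hp).2
      have h3 := (hsp hpp).of_norm.sum_le_tsum (range 2) (fun n _ => hf0 _)
      rw [Finset.sum_range_succ, Finset.sum_range_one] at h3
      simpa [hf] using h3
  refine h2.trans ?_
  rw [← hE.tsum_eq]
  have h4 : ∑' m : Nat.factoredNumbers s, f m ≤ Pool.Agent.H6.zs (2 * η) := by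
    refine Real.tsum_le_of_sum_le (f := fun m : Nat.factoredNumbers s => f m.1)
      (fun m => hf0 m.1) ?_
    intro t
    have h5 : ∑ m ∈ t, f m.1 = ∑ n ∈ t.map (Function.Embedding.subtype _), f n := by
      rw [Finset.sum_map]; rfl
    rw [h5]
    refine Pool.Agent.H6.sum_pos_zs_le (by linarith) _ ?_
    intro n hn
    rw [Finset.mem_map] at hn
    obtain ⟨m, _, rfl⟩ := hn
    have := Nat.ne_zero_of_mem_factoredNumbers m.2
    change 1 ≤ m.1
    omega
  exact h4.trans (Pool.Agent.H6.zs_le (by linarith))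

theorem prod_q_le {q : ℕ} (hq : Squarefree q) (s : Finset ℕ) :
    ∏ p ∈ s with p.Prime, (if p ∣ q then (1 + 1 / (p : ℝ)) else 1) ≤ 1 + Real.log q := by
  have hq0 : q ≠ 0 := hq.ne_zero
  have h1 : ∏ p ∈ s with p.Prime, (if p ∣ q then (1 + 1 / (p : ℝ)) else 1) ≤
      ∏ p ∈ q.primeFactors, (1 + 1 / (p : ℝ)) := by
    rw [← Finset.prod_filter]
    refine Finset.prod_le_prod_of_subset_of_one_le ?_ ?_ ?_
    · intro p hp
      rw [Finset.mem_filter, Finset.mem_filter] at hp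
      exact Nat.mem_primeFactors.2 ⟨hp.1.2, hp.2, hq0⟩
    · intro p _
      positivity
    · intro p _ _
      have : (0 : ℝ) ≤ 1 / p := by positivity
      linarith
  refine h1.trans ?_
  have h2 : ∏ p ∈ q.primeFactors, (1 + 1 / (p : ℝ)) = ∑ d ∈ q.divisors, 1 / (d : ℝ) := by
    set F : ArithmeticFunction ℝ := ⟨fun n : ℕ => 1 / (n : ℝ), by simp⟩ with hF
    have hFa : ∀ n : ℕ, F n = 1 / (n : ℝ) := fun n => rfl
    have hf : F.IsMultiplicative := by
      constructor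
      · rw [hFa]; simp
      · intro m n _
        rw [hFa, hFa, hFa]
        push_cast
        rw [one_div_mul_one_div]
    have := hf.prodPrimeFactors_one_add_of_squarefree hq
    simpa [hFa] using this
  rw [h2]
  have h3 : ∑ d ∈ q.divisors, 1 / (d : ℝ) ≤ ∑ d ∈ Icc 1 q, 1 / (d : ℝ) := by
    apply Finset.sum_le_sum_of_subset_of_nonneg
    · intro d hd
      rw [Finset.mem_Icc]
      exact ⟨Nat.pos_of_mem_divisors hd, Nat.divisor_le hd⟩
    · intro d _ _; positivity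
  refine h3.trans ?_
  have h4 : ∑ d ∈ Icc 1 q, 1 / (d : ℝ) = (harmonic q : ℝ) := by
    rw [harmonic_eq_sum_Icc]
    push_cast
    exact Finset.sum_congr rfl fun d _ => by rw [one_div]
  rw [h4]
  exact harmonic_le_one_add_log q

theorem prod_v_le {v : ℕ} (hv : 0 < v) (D : ℕ) (s : Finset ℕ) :
    ∏ p ∈ s with p.Prime, (if p ∣ v then ((v.factorization p : ℝ) + 1) ^ D else 1) ≤
      (v.divisors.card : ℝ) ^ D := by
  have h1 : ∏ p ∈ s with p.Prime, (if p ∣ v then ((v.factorization p : ℝ) + 1) ^ D else 1) ≤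
      ∏ p ∈ v.primeFactors, ((v.factorization p : ℝ) + 1) ^ D := by
    rw [← Finset.prod_filter]
    refine Finset.prod_le_prod_of_subset_of_one_le ?_ ?_ ?_
    · intro p hp
      rw [Finset.mem_filter, Finset.mem_filter] at hp
      exact Nat.mem_primeFactors.2 ⟨hp.1.2, hp.2, hv.ne'⟩
    · intro p _
      positivity
    · intro p _ _
      apply one_le_pow₀
      have : (0 : ℝ) ≤ v.factorization p := by positivity
      linarith
  refine h1.trans (le_of_eq ?_)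
  rw [Finset.prod_pow, Nat.card_divisors hv.ne']
  push_cast
  rfl

/-! ### One variable -/

/-- summation of a nonnegative multiplicative function with the given local bounds -/
theorem mult_sum_bound (K : ℕ) : ∃ C : ℕ, 1 ≤ C ∧ ∀ (η : ℝ) (q v : ℕ) (G : ℕ → ℝ), 0 < η →
    η ≤ 1 / 2 → Squarefree q → 0 < v → (∀ n, 0 ≤ G n) → G 1 = 1 →
    (∀ m n, 0 < m → 0 < n → m.Coprime n → G (m * n) = G m * G n) →
    (∀ p : ℕ, p.Prime → ¬ p ∣ q * v → G p = 0) →
    (∀ p e : ℕ, p.Prime → ¬ p ∣ q * v → 2 ≤ e → G (p ^ e) ≤ ((e : ℝ) + 1) ^ K * Real.sqrt p ^ e) →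
    (∀ p e : ℕ, p.Prime → p ∣ q → ¬ p ∣ v → e ≠ 0 → e ≠ 2 → G (p ^ e) = 0) →
    (∀ p : ℕ, p.Prime → p ∣ q → ¬ p ∣ v → G (p ^ 2) ≤ K * p) →
    (∀ p e : ℕ, p.Prime → p ∣ v → G (p ^ e) ≤ ((e : ℝ) + 1) ^ K * (p : ℝ) ^ e) →
    (∀ p e : ℕ, p.Prime → p ∣ v → K * v.factorization p < e → G (p ^ e) = 0) →
    ∀ t : Finset ℕ, (∀ n ∈ t, n ≠ 0) → ∑ n ∈ t, G n * (n : ℝ) ^ (-(1 + η)) ≤
      (C / η) ^ C * (1 + Real.log (q * v ^ 2)) ^ C * (v.divisors.card : ℝ) ^ C := by
  obtain ⟨C₁, hC1, hCs, hC⟩ := exists_CK K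
  set D : ℕ := (K + 2) * (K + 1) with hD
  refine ⟨C₁ + K + D, by omega, ?_⟩
  intro η q v G hη hη1 hq hv hG0 hG1 hmul hg1 hg2 hq1 hq2 hv1 hv2 t ht
  have hq0 : q ≠ 0 := hq.ne_zero
  set f : ℕ → ℝ := fun n => if n = 0 then 0 else G n * (n : ℝ) ^ (-(1 + η)) with hf
  have hfn : ∀ n, n ≠ 0 → f n = G n * (n : ℝ) ^ (-(1 + η)) := fun n hn => by
    simp only [hf, if_neg hn]
  have hf0 : ∀ n, 0 ≤ f n := by
    intro n
    simp only [hf]
    split_ifs
    · exact le_rfl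
    · exact mul_nonneg (hG0 n) (by positivity)
  have hf1 : f 1 = 1 := by rw [hfn 1 one_ne_zero, hG1]; simp
  have hfmul : ∀ {m n : ℕ}, Nat.Coprime m n → f (m * n) = f m * f n := by
    intro m n hmn
    rcases Nat.eq_zero_or_pos m with rfl | hm
    · simp [hf]
    rcases Nat.eq_zero_or_pos n with rfl | hn
    · simp [hf]
    rw [hfn _ (Nat.mul_pos hm hn).ne', hfn _ hm.ne', hfn _ hn.ne', hmul m n hm hn hmn, Nat.cast_mul,
      Real.mul_rpow (by positivity) (by positivity)]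
    ring
  have hpow : ∀ {p : ℕ}, p.Prime → ∀ e : ℕ, f (p ^ e) = G (p ^ e) * ((p : ℝ) ^ e) ^ (-(1 + η)) := by
    intro p hp e
    rw [hfn _ (pow_ne_zero e hp.ne_zero)]
    push_cast
    rfl
  have hone : ∀ p : ℕ, (1 : ℝ) ≤ (1 + (p : ℝ) ^ (-(1 + 2 * η))) ^ C₁ := fun p => by
    apply one_le_pow₀
    have : (0 : ℝ) ≤ (p : ℝ) ^ (-(1 + 2 * η)) := by positivity
    linarith
  have htwo : ∀ p : ℕ, (1 : ℝ) ≤ (if p ∣ q then (1 + 1 / (p : ℝ)) else 1) ^ K := fun p => by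
    apply one_le_pow₀
    split_ifs
    · have : (0 : ℝ) ≤ 1 / (p : ℝ) := by positivity
      linarith
    · exact le_rfl
  have hthree : ∀ p : ℕ, (1 : ℝ) ≤ (if p ∣ v then ((v.factorization p : ℝ) + 1) ^ D else 1) :=
    fun p => by
    split_ifs
    · apply one_le_pow₀
      have : (0 : ℝ) ≤ v.factorization p := by positivity
      linarith
    · exact le_rfl
  -- local factors
  have hloc : ∀ {p : ℕ}, p.Prime → Summable (fun e : ℕ => f (p ^ e)) ∧
      ∑' e : ℕ, f (p ^ e) ≤ (1 + (p : ℝ) ^ (-(1 + 2 * η))) ^ C₁ *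
        (if p ∣ q then (1 + 1 / (p : ℝ)) else 1) ^ K *
        (if p ∣ v then ((v.factorization p : ℝ) + 1) ^ D else 1) := by
    intro p hp
    simp only [hpow hp]
    have a1 := hone p
    have a2 := htwo p
    have a3 := hthree p
    by_cases hpv : p ∣ v
    · have ha : 1 ≤ v.factorization p := hp.factorization_pos_of_dvd hv.ne' hpv
      obtain ⟨s1, s2⟩ := local_v K hη ha hp.two_le (g := fun e => G (p ^ e))
        (fun e he => hv2 p e hp hpv he) (fun e => hv1 p e hp hpv)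
      refine ⟨s1, s2.trans ?_⟩
      rw [if_pos hpv]
      have a12 := one_le_mul_of_one_le_of_one_le a1 a2
      exact le_mul_of_one_le_left (by positivity) a12
    · by_cases hpq : p ∣ q
      · obtain ⟨s1, s2⟩ := local_q K hη hp.two_le (g := fun e => G (p ^ e))
          (by simpa using hG1) (fun e he he2 => hq1 p e hp hpq hpv he he2) (hq2 p hp hpq hpv)
        refine ⟨s1, s2.trans ?_⟩
        rw [if_pos hpq, if_neg hpv, mul_one]
        exact le_mul_of_one_le_left (by positivity) a1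
      · have hpqv : ¬ p ∣ q * v := fun h => by
          rcases hp.dvd_mul.1 h with h | h
          · exact hpq h
          · exact hpv h
        obtain ⟨s1, s2⟩ := local_good K hCs hC hη hp.two_le (g := fun e => G (p ^ e))
          (fun e => hG0 _) (by simpa using hG1) (by simpa using hg1 p hp hpqv)
          (fun e he => hg2 p e hp hpqv he)
        refine ⟨s1, s2.trans ?_⟩
        rw [if_neg hpq, if_neg hpv, one_pow, mul_one, mul_one]
  have hB : ∀ s : Finset ℕ, ∏ p ∈ s with p.Prime, ∑' n : ℕ, f (p ^ n) ≤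
      (1 / η) ^ C₁ * (1 + Real.log (q * v ^ 2)) ^ K * (v.divisors.card : ℝ) ^ D := by
    intro s
    have h1 : ∏ p ∈ s with p.Prime, ∑' n : ℕ, f (p ^ n) ≤
        ∏ p ∈ s with p.Prime, ((1 + (p : ℝ) ^ (-(1 + 2 * η))) ^ C₁ *
        (if p ∣ q then (1 + 1 / (p : ℝ)) else 1) ^ K *
        (if p ∣ v then ((v.factorization p : ℝ) + 1) ^ D else 1)) := by
      apply Finset.prod_le_prod
      · intro p _
        exact tsum_nonneg fun e => hf0 _
      · intro p hp
        exact (hloc (Finset.mem_filter.1 hp).2).2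
    refine h1.trans ?_
    rw [Finset.prod_mul_distrib, Finset.prod_mul_distrib, Finset.prod_pow, Finset.prod_pow]
    have b1 := prod_one_add_le hη s
    have b2 := prod_q_le hq s
    have b3 := prod_v_le hv D s
    have c1 : (0 : ℝ) ≤ ∏ p ∈ s with p.Prime, (1 + (p : ℝ) ^ (-(1 + 2 * η))) :=
      Finset.prod_nonneg fun p _ => by positivity
    have c2 : (0 : ℝ) ≤ ∏ p ∈ s with p.Prime, (if p ∣ q then (1 + 1 / (p : ℝ)) else 1) :=
      Finset.prod_nonneg fun p _ => by split_ifs <;> positivity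
    have c3 : (0 : ℝ) ≤ ∏ p ∈ s with p.Prime,
        (if p ∣ v then ((v.factorization p : ℝ) + 1) ^ D else 1) :=
      Finset.prod_nonneg fun p _ => by split_ifs <;> positivity
    have b1' : ∏ p ∈ s with p.Prime, (1 + (p : ℝ) ^ (-(1 + 2 * η))) ≤ 1 / η := by
      refine b1.trans ?_
      have h2 : (1 : ℝ) ≤ 1 / (2 * η) := by rw [le_div_iff₀ (by positivity)]; linarith
      have h3 : 1 / η = 1 / (2 * η) + 1 / (2 * η) := by field_simp; ring
      linarith
    have b2' : ∏ p ∈ s with p.Prime, (if p ∣ q then (1 + 1 / (p : ℝ)) else 1) ≤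
        1 + Real.log (q * v ^ 2) := by
      refine b2.trans ?_
      have hv1 : (1 : ℝ) ≤ v := by exact_mod_cast hv
      have hq1' : (0 : ℝ) < q := by exact_mod_cast Nat.pos_of_ne_zero hq0
      have : (q : ℝ) ≤ q * v ^ 2 := by
        have : (1 : ℝ) ≤ (v : ℝ) ^ 2 := one_le_pow₀ hv1
        nlinarith
      have := Real.log_le_log hq1' this
      linarith
    exact mul_le_mul (mul_le_mul (pow_le_pow_left₀ c1 b1' _) (pow_le_pow_left₀ c2 b2' _)
      (pow_nonneg c2 _) (by positivity)) b3 c3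
      (mul_nonneg (by positivity) (pow_nonneg (c2.trans b2') _))
  have hsum : ∀ {p : ℕ}, p.Prime → Summable (fun n : ℕ => ‖f (p ^ n)‖) := fun hp => (hloc hp).1.norm
  have hmain := sum_le_of_euler hf0 hf1 hfmul hsum hB t ht
  have hts : ∑ n ∈ t, G n * (n : ℝ) ^ (-(1 + η)) = ∑ n ∈ t, f n :=
    Finset.sum_congr rfl fun n hn => (hfn n (ht n hn)).symm
  rw [hts]
  refine hmain.trans ?_
  have hCge : (1 : ℝ) ≤ ((C₁ + K + D : ℕ) : ℝ) := by exact_mod_cast (by omega : 1 ≤ C₁ + K + D)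
  have hη2 : (1 : ℝ) ≤ 1 / η := by rw [le_div_iff₀ hη]; linarith
  have d1 : (1 / η) ^ C₁ ≤ (((C₁ + K + D : ℕ) : ℝ) / η) ^ (C₁ + K + D) := by
    have h2 : 1 / η ≤ ((C₁ + K + D : ℕ) : ℝ) / η := by gcongr
    calc (1 / η) ^ C₁ ≤ (((C₁ + K + D : ℕ) : ℝ) / η) ^ C₁ := by gcongr
      _ ≤ _ := pow_le_pow_right₀ (hη2.trans h2) (by omega)
  have hlog : (0 : ℝ) ≤ Real.log (q * v ^ 2) := by
    apply Real.log_nonneg
    have hv1 : (1 : ℝ) ≤ v := by exact_mod_cast hv
    have hq1' : (1 : ℝ) ≤ q := by exact_mod_cast Nat.pos_of_ne_zero hq0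
    have : (1 : ℝ) ≤ (v : ℝ) ^ 2 := one_le_pow₀ hv1
    nlinarith
  have d2 : (1 + Real.log (q * v ^ 2)) ^ K ≤ (1 + Real.log (q * v ^ 2)) ^ (C₁ + K + D) :=
    pow_le_pow_right₀ (by linarith) (by omega)
  have hdv : (1 : ℝ) ≤ (v.divisors.card : ℝ) := by
    exact_mod_cast Finset.card_pos.2 ⟨1, Nat.one_mem_divisors.2 hv.ne'⟩
  have d3 : (v.divisors.card : ℝ) ^ D ≤ (v.divisors.card : ℝ) ^ (C₁ + K + D) :=
    pow_le_pow_right₀ hdv (by omega)
  gcongr

/-! ### Two variables -/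

/-- the sum over the factorizations of `n` -/
noncomputable def GG (E : ℕ → ℕ → ℂ) (n : ℕ) : ℝ := ∑ d ∈ n.divisors, ‖E d (n / d)‖

theorem GG_mul (E : ℕ → ℕ → ℂ) (hE : ∀ a b a' b' : ℕ, 0 < a → 0 < b → 0 < a' → 0 < b' →
      (a * b).Coprime (a' * b') → E (a * a') (b * b') = E a b * E a' b') {m n : ℕ} (hm : 0 < m)
    (hn : 0 < n) (hmn : m.Coprime n) : GG E (m * n) = GG E m * GG E n := by
  unfold GG
  have h1 : (m * n).divisors = (m.divisors ×ˢ n.divisors).image (fun p : ℕ × ℕ => p.1 * p.2) := by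
    rw [Nat.divisors_mul]; rfl
  rw [h1, Finset.sum_image hmn.mul_injOn_divisors, Finset.sum_product, Finset.sum_mul_sum]
  refine Finset.sum_congr rfl fun x hx => Finset.sum_congr rfl fun y hy => ?_
  have hxm := Nat.dvd_of_mem_divisors hx
  have hyn := Nat.dvd_of_mem_divisors hy
  have hx0 := Nat.pos_of_mem_divisors hx
  have hy0 := Nat.pos_of_mem_divisors hy
  simp only
  rw [← norm_mul, ← Nat.div_mul_div_comm hxm hyn, hE x (m / x) y (n / y) hx0
    (Nat.div_pos (Nat.le_of_dvd hm hxm) hx0) hy0 (Nat.div_pos (Nat.le_of_dvd hn hyn) hy0)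
    (by rw [Nat.mul_div_cancel' hxm, Nat.mul_div_cancel' hyn]; exact hmn)]

theorem GG_pow (E : ℕ → ℕ → ℂ) {p : ℕ} (hp : p.Prime) (e : ℕ) :
    GG E (p ^ e) = ∑ a ∈ range (e + 1), ‖E (p ^ a) (p ^ (e - a))‖ := by
  unfold GG
  rw [Nat.sum_divisors_prime_pow hp]
  refine Finset.sum_congr rfl fun a ha => ?_
  rw [Nat.pow_div (by have := mem_range.1 ha; omega) hp.pos]

/-- summation of a multiplicative function of two variables with the given local bounds -/
theorem pair_sum_bound (K : ℕ) : ∃ C : ℕ, ∀ (η : ℝ) (q v : ℕ) (E : ℕ → ℕ → ℂ), 0 < η →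
    η ≤ 1 / 2 → Squarefree q → 0 < v → E 1 1 = 1 → (∀ b, E 0 b = 0) → (∀ b, E b 0 = 0) →
    (∀ a b a' b' : ℕ, 0 < a → 0 < b → 0 < a' → 0 < b' →
      (a * b).Coprime (a' * b') → E (a * a') (b * b') = E a b * E a' b') →
    (∀ p : ℕ, p.Prime → ¬ p ∣ q * v → E p 1 = 0 ∧ E 1 p = 0) →
    (∀ p a b : ℕ, p.Prime → ¬ p ∣ q * v → 2 ≤ a + b →
      ‖E (p ^ a) (p ^ b)‖ ≤ ((a : ℝ) + b + 1) ^ K * Real.sqrt p ^ (a + b)) →
    (∀ p a b : ℕ, p.Prime → p ∣ q → ¬ p ∣ v → a + b ≠ 0 → a + b ≠ 2 → E (p ^ a) (p ^ b) = 0) →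
    (∀ p a b : ℕ, p.Prime → p ∣ q → ¬ p ∣ v → a + b = 2 → ‖E (p ^ a) (p ^ b)‖ ≤ K * p) →
    (∀ p a b : ℕ, p.Prime → p ∣ v →
      ‖E (p ^ a) (p ^ b)‖ ≤ ((a : ℝ) + b + 1) ^ K * (p : ℝ) ^ (a + b)) →
    (∀ p a b : ℕ, p.Prime → p ∣ v → K * v.factorization p < a + b → E (p ^ a) (p ^ b) = 0) →
    Summable (fun b : ℕ × ℕ => ‖E b.1 b.2‖ * ((b.1 : ℝ) * b.2) ^ (-(1 + η))) ∧
    ∑' b : ℕ × ℕ, ‖E b.1 b.2‖ * ((b.1 : ℝ) * b.2) ^ (-(1 + η)) ≤
      (C / η) ^ C * (1 + Real.log (q * v ^ 2)) ^ C * (v.divisors.card : ℝ) ^ C := by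
  obtain ⟨C, _, hC⟩ := mult_sum_bound (3 * K + 1)
  refine ⟨C, ?_⟩
  intro η q v E hη hη1 hq hv hE1 hE0 hE0' hmul hg1 hg2 hq1 hq2 hv1 hv2
  have hrange : ∀ {e : ℕ} {f : ℕ → ℝ} {B : ℝ}, (∀ a ∈ range (e + 1), f a ≤ B) →
      ∑ a ∈ range (e + 1), f a ≤ ((e : ℝ) + 1) * B := by
    intro e f B h
    refine (Finset.sum_le_sum h).trans (le_of_eq ?_)
    rw [Finset.sum_const, card_range, nsmul_eq_mul]
    push_cast
    ring
  have hKle : ∀ {e : ℕ}, ((e : ℝ) + 1) * ((e : ℝ) + 1) ^ K ≤ ((e : ℝ) + 1) ^ (3 * K + 1) := by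
    intro e
    have h1 : (1 : ℝ) ≤ (e : ℝ) + 1 := by
      have : (0 : ℝ) ≤ e := Nat.cast_nonneg e
      linarith
    calc ((e : ℝ) + 1) * ((e : ℝ) + 1) ^ K = ((e : ℝ) + 1) ^ (K + 1) := by ring
      _ ≤ _ := pow_le_pow_right₀ h1 (by omega)
  have hbound := hC η q v (GG E) hη hη1 hq hv (fun n => Finset.sum_nonneg fun _ _ => norm_nonneg _)
    (by simp [GG, hE1]) (fun m n hm hn hmn => GG_mul E hmul hm hn hmn)
    (by
      intro p hp hpqv
      have h := GG_pow E hp 1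
      rw [pow_one] at h
      rw [h, Finset.sum_range_succ, Finset.sum_range_one]
      obtain ⟨h1, h2⟩ := hg1 p hp hpqv
      simp [h1, h2])
    (by
      intro p e hp hpqv he
      rw [GG_pow E hp e]
      refine (hrange (B := ((e : ℝ) + 1) ^ K * Real.sqrt p ^ e) ?_).trans ?_
      · intro a ha
        have hae : a + (e - a) = e := by have := mem_range.1 ha; omega
        have h := hg2 p a (e - a) hp hpqv (by omega)
        rw [hae] at h
        have hc : (a : ℝ) + ((e - a : ℕ) : ℝ) = e := by exact_mod_cast hae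
        rwa [hc] at h
      · rw [← mul_assoc]
        exact mul_le_mul_of_nonneg_right hKle (by positivity))
    (by
      intro p e hp hpq hpv he he2
      rw [GG_pow E hp e]
      refine Finset.sum_eq_zero fun a ha => ?_
      have hae : a + (e - a) = e := by have := mem_range.1 ha; omega
      rw [hq1 p a (e - a) hp hpq hpv (by omega) (by omega), norm_zero])
    (by
      intro p hp hpq hpv
      rw [GG_pow E hp 2]
      refine (hrange (B := (K : ℝ) * p) ?_).trans ?_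
      · intro a ha
        have hae : a + (2 - a) = 2 := by have := mem_range.1 ha; omega
        exact hq2 p a (2 - a) hp hpq hpv hae
      · push_cast
        have : (0 : ℝ) ≤ p := Nat.cast_nonneg p
        nlinarith)
    (by
      intro p e hp hpv
      rw [GG_pow E hp e]
      refine (hrange (B := ((e : ℝ) + 1) ^ K * (p : ℝ) ^ e) ?_).trans ?_
      · intro a ha
        have hae : a + (e - a) = e := by have := mem_range.1 ha; omega
        have h := hv1 p a (e - a) hp hpv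
        rw [hae] at h
        have hc : (a : ℝ) + ((e - a : ℕ) : ℝ) = e := by exact_mod_cast hae
        rwa [hc] at h
      · rw [← mul_assoc]
        exact mul_le_mul_of_nonneg_right hKle (by positivity))
    (by
      intro p e hp hpv he
      rw [GG_pow E hp e]
      refine Finset.sum_eq_zero fun a ha => ?_
      have hae : a + (e - a) = e := by have := mem_range.1 ha; omega
      rw [hv2 p a (e - a) hp hpv (by nlinarith [Nat.zero_le (v.factorization p)]), norm_zero])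
  set F : ℕ × ℕ → ℝ := fun b => ‖E b.1 b.2‖ * ((b.1 : ℝ) * b.2) ^ (-(1 + η)) with hF
  have hF0 : ∀ b, 0 ≤ F b := fun b => mul_nonneg (norm_nonneg _) (by positivity)
  have hfin : ∀ s : Finset (ℕ × ℕ), ∑ b ∈ s, F b ≤
      (C / η) ^ C * (1 + Real.log (q * v ^ 2)) ^ C * (v.divisors.card : ℝ) ^ C := by
    intro s
    have h1 : ∑ b ∈ s, F b = ∑ b ∈ s.filter (fun b : ℕ × ℕ => b.1 * b.2 ≠ 0), F b := by
      rw [Finset.sum_filter]
      refine Finset.sum_congr rfl fun b _ => ?_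
      split_ifs with h
      · rfl
      · push Not at h
        simp only [hF]
        rcases Nat.mul_eq_zero.1 h with h' | h' <;> simp [h', hE0, hE0']
    rw [h1]
    set s' := s.filter (fun b : ℕ × ℕ => b.1 * b.2 ≠ 0) with hs'
    rw [← Finset.sum_fiberwise_of_maps_to (s := s')
      (t := s'.image (fun b : ℕ × ℕ => b.1 * b.2)) (g := fun b : ℕ × ℕ => b.1 * b.2)
      (fun b hb => Finset.mem_image_of_mem _ hb) F]
    refine le_trans (Finset.sum_le_sum (g := fun n => GG E n * (n : ℝ) ^ (-(1 + η))) ?_)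
      (hbound (s'.image (fun b : ℕ × ℕ => b.1 * b.2)) ?_)
    · intro n hn
      obtain ⟨b0, hb0, rfl⟩ := Finset.mem_image.1 hn
      have hn0 : b0.1 * b0.2 ≠ 0 := (Finset.mem_filter.1 hb0).2
      set n := b0.1 * b0.2 with hnn
      have h2 : ∀ b ∈ s'.filter (fun b : ℕ × ℕ => b.1 * b.2 = n),
          F b = ‖E b.1 (n / b.1)‖ * (n : ℝ) ^ (-(1 + η)) := by
        intro b hb
        have hbn := (Finset.mem_filter.1 hb).2
        have hb1 : 0 < b.1 := by
          rcases Nat.eq_zero_or_pos b.1 with h | h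
          · rw [h, zero_mul] at hbn
            exact absurd hbn.symm hn0
          · exact h
        simp only [hF]
        rw [← Nat.cast_mul, hbn]
        congr 3
        rw [← hbn, Nat.mul_div_cancel_left _ hb1]
      rw [Finset.sum_congr rfl h2, ← Finset.sum_mul]
      refine mul_le_mul_of_nonneg_right ?_ (by positivity)
      unfold GG
      rw [← Finset.sum_image (f := fun d => ‖E d (n / d)‖)
        (s := s'.filter (fun b : ℕ × ℕ => b.1 * b.2 = n)) (g := fun b : ℕ × ℕ => b.1)]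
      · apply Finset.sum_le_sum_of_subset_of_nonneg
        · intro d hd
          obtain ⟨b, hb, rfl⟩ := Finset.mem_image.1 hd
          have hbn := (Finset.mem_filter.1 hb).2
          exact Nat.mem_divisors.2 ⟨⟨b.2, hbn.symm⟩, hn0⟩
        · intro d _ _; exact norm_nonneg _
      · intro b hb b' hb' hbb
        have hbn := (Finset.mem_filter.1 hb).2
        have hbn' := (Finset.mem_filter.1 hb').2
        have hb1 : 0 < b.1 := by
          rcases Nat.eq_zero_or_pos b.1 with h | h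
          · rw [h, zero_mul] at hbn
            exact absurd hbn.symm hn0
          · exact h
        apply Prod.ext hbb
        have h3 : b.1 * b.2 = b.1 * b'.2 := by
          rw [hbn, ← hbn']
          simp only at hbb
          rw [hbb]
        exact Nat.eq_of_mul_eq_mul_left hb1 h3
    · intro n hn
      obtain ⟨b, hb, rfl⟩ := Finset.mem_image.1 hn
      exact (Finset.mem_filter.1 hb).2
  exact ⟨summable_of_sum_le hF0 hfin, Real.tsum_le_of_sum_le hF0 hfin⟩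

end Pool.Agent.ZD.E2
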